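import Pool.Agent.P.MP_7e3bdd_an.RW.St

/-!
A minimax principle on the self-adjoint unit ball of a von Neumann algebra.
-/

set_option autoImplicit false

open scoped InnerProductSpace Topology
open Filter

noncomputable section

namespace Pool.Agent.P.MP_7e3bdd_an.RW

/-- Finite dimensional minimax: a convex set on which every convex combination of the
coordinates reaches `κ` meets every open orthant with corner below `κ`. -/
theorem finite_minimax {F : Type} [Fintype F] (C : Set (F → ℝ)) (hC : Convex ℝ C)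
    (hne : C.Nonempty) (κ κ' : ℝ) (hκ : κ' < κ)
    (h : ∀ l : F → ℝ, (∀ j, 0 ≤ l j) → ∑ j, l j = 1 → ∃ t ∈ C, κ ≤ ∑ j, l j * t j) :
    ∃ t ∈ C, ∀ j, κ' < t j := by
  classical
  by_contra hcon
  let O : Set (F → ℝ) := {t | ∀ j, κ' < t j}
  have hOc : Convex ℝ O := by
    intro a ha b hb p q hp hq hpq j
    have h1 := ha j
    have h2 := hb j
    have h3 : (p • a + q • b) j = p * a j + q * b j := by simp
    rw [h3]
    rcases hp.eq_or_lt with h0 | h0
    · have hq1 : q = 1 := by linarith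
      rw [← h0, hq1]; linarith
    · have h4 : p * κ' < p * a j := mul_lt_mul_of_pos_left h1 h0
      have h5 : q * κ' ≤ q * b j := mul_le_mul_of_nonneg_left h2.le hq
      have h6 : p * κ' + q * κ' = κ' := by rw [← add_mul, hpq, one_mul]
      linarith
  have hOo : IsOpen O := by
    have : O = ⋂ j, {t : F → ℝ | κ' < t j} := by
      ext t; simp [O]
    rw [this]
    exact isOpen_iInter_of_finite fun j => isOpen_lt continuous_const (continuous_apply j)
  have hdisj : Disjoint O C := by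
    rw [Set.disjoint_left]
    intro t ht htC
    exact hcon ⟨t, htC, ht⟩
  obtain ⟨f, u, hf1, hf2⟩ := geometric_hahn_banach_open hOc hOo hC hdisj
  let c : F → ℝ := fun j => -f (Pi.single j 1)
  have hfc : ∀ t : F → ℝ, f t = -∑ j, c j * t j := by
    intro t
    have h1 : t = ∑ j, t j • (Pi.single j (1 : ℝ) : F → ℝ) := by
      ext k
      simp [Finset.sum_apply, Pi.single_apply]
    conv_lhs => rw [h1]
    rw [map_sum, ← Finset.sum_neg_distrib]
    refine Finset.sum_congr rfl fun j _ => ?_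
    rw [map_smul, smul_eq_mul]
    simp only [c]
    ring
  have hκO : (fun _ : F => κ) ∈ O := fun _ => hκ
  have hc0 : ∀ j, 0 ≤ c j := by
    intro j
    by_contra hneg
    have hneg' : 0 < -c j := by linarith [not_le.1 hneg]
    let N : ℝ := (u - f (fun _ => κ)) / (-c j)
    have hN : 0 ≤ N := div_nonneg (by linarith [hf1 _ hκO]) hneg'.le
    have hmem : ((fun _ : F => κ) + N • (Pi.single j (1 : ℝ) : F → ℝ)) ∈ O := by
      intro k
      have h1 : 0 ≤ (Pi.single j (1 : ℝ) : F → ℝ) k := by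
        rw [Pi.single_apply]; split_ifs <;> norm_num
      have h2 := mul_nonneg hN h1
      have h3 : ((fun _ : F => κ) + N • (Pi.single j (1 : ℝ) : F → ℝ)) k =
          κ + N * (Pi.single j (1 : ℝ) : F → ℝ) k := by simp
      rw [h3]; linarith
    have h4 := hf1 _ hmem
    rw [map_add, map_smul, smul_eq_mul] at h4
    have h5 : f (Pi.single j 1) = -c j := by simp [c]
    rw [h5] at h4
    have h6 : N * -c j = u - f (fun _ => κ) := div_mul_cancel₀ _ hneg'.ne'
    linarith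
  have hs0 : 0 ≤ ∑ j, c j := Finset.sum_nonneg fun j _ => hc0 j
  have hκu : -((∑ j, c j) * κ) < u := by
    have h1 := hf1 _ hκO
    rw [hfc, ← Finset.sum_mul] at h1
    exact h1
  rcases hs0.eq_or_lt with hs | hs
  · have hz : ∀ j, c j = 0 := fun j =>
      (Finset.sum_eq_zero_iff_of_nonneg fun j _ => hc0 j).1 hs.symm j (Finset.mem_univ j)
    obtain ⟨t, ht⟩ := hne
    have h1 := hf2 t ht
    rw [hfc] at h1
    simp only [hz, zero_mul, Finset.sum_const_zero, neg_zero] at h1 hκu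
    linarith
  · obtain ⟨t, ht, hle⟩ := h (fun j => c j / ∑ k, c k) (fun j => div_nonneg (hc0 j) hs.le)
      (by rw [← Finset.sum_div, div_self hs.ne'])
    have h1 := hf2 t ht
    rw [hfc] at h1
    have h2 : ∑ j, c j / (∑ k, c k) * t j = (∑ j, c j * t j) / ∑ k, c k := by
      rw [Finset.sum_div]
      exact Finset.sum_congr rfl fun j _ => by ring
    rw [h2, le_div_iff₀ hs] at hle
    linarith

theorem minimaxSt : MinimaxSt := by
  intro K _ _ _ M ι η ζ κ hyp
  classical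
  have hfin : ∀ (F : Finset ι) (n : ℕ), ∃ x ∈ M, IsSelfAdjoint x ∧ ‖x‖ ≤ 1 ∧
      ∀ i ∈ F, κ - 1 / ((n : ℝ) + 1) < (⟪η i, x (ζ i)⟫_ℂ).re := by
    intro F n
    let C : Set (F → ℝ) := {t | ∃ x ∈ M, IsSelfAdjoint x ∧ ‖x‖ ≤ 1 ∧
      ∀ j : F, t j = (⟪η j, x (ζ j)⟫_ℂ).re}
    have hC : Convex ℝ C := by
      rintro a ⟨x, hxM, hxs, hxn, hx⟩ b ⟨y, hyM, hys, hyn, hy⟩ p q hp hq hpq
      refine ⟨(p : ℂ) • x + (q : ℂ) • y, add_mem (M.toStarSubalgebra.smul_mem hxM _)
        (M.toStarSubalgebra.smul_mem hyM _), ?_, ?_, fun j => ?_⟩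
      · refine IsSelfAdjoint.add ?_ ?_
        · exact IsSelfAdjoint.smul (Complex.conj_ofReal p) hxs
        · exact IsSelfAdjoint.smul (Complex.conj_ofReal q) hys
      · refine (norm_add_le _ _).trans ?_
        rw [norm_smul, norm_smul, Complex.norm_real, Complex.norm_real, Real.norm_of_nonneg hp,
          Real.norm_of_nonneg hq]
        have h1 : p * ‖x‖ ≤ p * 1 := mul_le_mul_of_nonneg_left hxn hp
        have h2 : q * ‖y‖ ≤ q * 1 := mul_le_mul_of_nonneg_left hyn hq
        linarith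
      · have h3 : (p • a + q • b) j = p * a j + q * b j := by simp
        rw [h3, hx j, hy j]
        simp
    have hne : C.Nonempty :=
      ⟨fun _ => 0, 0, zero_mem M, IsSelfAdjoint.zero _, by simp, fun j => by simp⟩
    have hlt : κ - 1 / ((n : ℝ) + 1) < κ := by
      have : (0 : ℝ) < 1 / ((n : ℝ) + 1) := by positivity
      linarith
    obtain ⟨t, ⟨x, hxM, hxs, hxn, hx⟩, ht⟩ := finite_minimax C hC hne κ _ hlt (fun l hl hl1 => by
      obtain ⟨x, hxM, hxs, hxn, hx⟩ := hyp F l (fun j => (j : ι)) hl hl1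
      exact ⟨fun j => (⟪η j, x (ζ j)⟫_ℂ).re, ⟨x, hxM, hxs, hxn, fun _ => rfl⟩, hx⟩)
    refine ⟨x, hxM, hxs, hxn, fun i hi => ?_⟩
    have := ht ⟨i, hi⟩
    rw [hx ⟨i, hi⟩] at this
    exact this
  choose x hxM hxs hxn hx using hfin
  let 𝒰 : Ultrafilter (Finset ι × ℕ) := Ultrafilter.of atTop
  have h𝒰 : (𝒰 : Filter (Finset ι × ℕ)) ≤ atTop := Ultrafilter.of_le _
  obtain ⟨S, hS⟩ := exists_wlim 𝒰 (fun p => x p.1 p.2) 1 (fun p => hxn p.1 p.2)
  refine ⟨S, hS.mem M (Eventually.of_forall fun p => hxM p.1 p.2),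
    hS.isSelfAdjoint (fun p => hxs p.1 p.2), hS.norm_le 1 zero_le_one (fun p => hxn p.1 p.2),
    fun i => ?_⟩
  have h1 : Tendsto (fun p : Finset ι × ℕ => (⟪η i, x p.1 p.2 (ζ i)⟫_ℂ).re)
      (𝒰 : Filter (Finset ι × ℕ)) (𝓝 (⟪η i, S (ζ i)⟫_ℂ).re) :=
    (Complex.continuous_re.tendsto _).comp (hS (ζ i) (η i))
  have h2 : Tendsto (fun p : Finset ι × ℕ => κ - 1 / ((p.2 : ℝ) + 1))
      (𝒰 : Filter (Finset ι × ℕ)) (𝓝 κ) := by
    have h3 : Tendsto (fun p : Finset ι × ℕ => p.2) (𝒰 : Filter (Finset ι × ℕ)) atTop := by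
      refine Tendsto.mono_left ?_ h𝒰
      rw [← prod_atTop_atTop_eq]
      exact tendsto_snd
    have h4 := (tendsto_one_div_add_atTop_nhds_zero_nat (𝕜 := ℝ)).comp h3
    simpa using h4.const_sub κ
  refine le_of_tendsto_of_tendsto h2 h1 ?_
  have h5 : ∀ᶠ p : Finset ι × ℕ in (𝒰 : Filter (Finset ι × ℕ)), ({i}, 0) ≤ p :=
    h𝒰 (eventually_ge_atTop _)
  refine h5.mono fun p hp => ?_
  exact (hx p.1 p.2 i (hp.1 (Finset.mem_singleton_self i))).le

end Pool.Agent.P.MP_7e3bdd_an.RW
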