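import Pool.Agent.P.MP_7e3bdd_an.RW.Defs

/-!
A concrete model of the Hilbert-Schmidt operators: an operator is recorded by the family of the
images of a Hilbert basis.
-/

set_option autoImplicit false

open scoped InnerProductSpace Topology ComplexConjugate
open Filter

noncomputable section

namespace Pool.Agent.P.MP_7e3bdd_an.RW

variable {H : Type} [NormedAddCommGroup H] [InnerProductSpace ℂ H] {ι : Type}

/-- Square summable families of vectors. -/
abbrev HS (ι H : Type) [NormedAddCommGroup H] : Type := lp (fun _ : ι => H) 2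

omit [InnerProductSpace ℂ H] in
theorem memℓp_two_iff (x : ι → H) : Memℓp x 2 ↔ Summable fun i => ‖x i‖ ^ 2 := by
  rw [memℓp_gen_iff (by norm_num)]
  simp

omit [InnerProductSpace ℂ H] in
theorem hasSum_norm_sq (x : HS ι H) : HasSum (fun i => ‖x i‖ ^ 2) (‖x‖ ^ 2) := by
  have := lp.hasSum_norm (p := 2) (by norm_num) x
  simpa using this

/-- The rank one operator `|f⟩⟨e|`. -/
def t2 (b : HilbertBasis ι ℂ H) (e f : H) : HS ι H :=
  ⟨fun i => ⟪e, b i⟫_ℂ • f, by
    change Memℓp (fun i => ⟪e, b i⟫_ℂ • f) 2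
    rw [memℓp_two_iff]
    have h := (b.orthonormal.inner_products_summable e).mul_right (‖f‖ ^ 2)
    refine h.congr fun i => ?_
    rw [norm_smul, mul_pow, norm_inner_symm]⟩

@[simp] theorem t2_apply (b : HilbertBasis ι ℂ H) (e f : H) (i : ι) :
    t2 b e f i = ⟪e, b i⟫_ℂ • f := rfl

theorem inner_t2 (b : HilbertBasis ι ℂ H) (e f e' f' : H) :
    ⟪t2 b e f, t2 b e' f'⟫_ℂ = ⟪e', e⟫_ℂ * ⟪f, f'⟫_ℂ := by
  rw [lp.inner_eq_tsum]
  rw [← ((b.hasSum_inner_mul_inner e' e).mul_right ⟪f, f'⟫_ℂ).tsum_eq]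
  refine tsum_congr fun i => ?_
  simp only [t2_apply, inner_smul_left, inner_smul_right, inner_conj_symm]
  ring

/-- Left multiplication by a bounded operator, as a linear map. -/
def lamL (T : H →L[ℂ] H) : HS ι H →ₗ[ℂ] HS ι H where
  toFun x := ⟨fun i => T (x i), by
    change Memℓp (fun i => T (x i)) 2
    rw [memℓp_two_iff]
    refine Summable.of_nonneg_of_le (fun i => by positivity) (fun i => ?_)
      ((hasSum_norm_sq x).summable.mul_left (‖T‖ ^ 2))
    rw [← mul_pow]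
    gcongr
    exact T.le_opNorm _⟩
  map_add' x y := by
    ext i
    change T (x i + y i) = T (x i) + T (y i)
    simp
  map_smul' c x := by
    ext i
    change T (c • x i) = c • T (x i)
    simp

theorem norm_lamL_le (T : H →L[ℂ] H) (x : HS ι H) : ‖lamL T x‖ ≤ ‖T‖ * ‖x‖ := by
  rw [← pow_le_pow_iff_left₀ (norm_nonneg _) (by positivity) two_ne_zero, mul_pow]
  refine hasSum_le (fun i => ?_) (hasSum_norm_sq _) ((hasSum_norm_sq x).mul_left (‖T‖ ^ 2))
  change ‖T (x i)‖ ^ 2 ≤ _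
  rw [← mul_pow]
  gcongr
  exact T.le_opNorm _

/-- Left multiplication by a bounded operator. -/
def lam (T : H →L[ℂ] H) : HS ι H →L[ℂ] HS ι H := (lamL T).mkContinuous ‖T‖ (norm_lamL_le T)

@[simp] theorem lam_apply (T : H →L[ℂ] H) (x : HS ι H) (i : ι) : lam T x i = T (x i) := rfl

theorem norm_lam_le (T : H →L[ℂ] H) (x : HS ι H) : ‖lam T x‖ ≤ ‖T‖ * ‖x‖ := norm_lamL_le T x

theorem lam_one (x : HS ι H) : lam (1 : H →L[ℂ] H) x = x := by ext i; simp

theorem lam_mul (S T : H →L[ℂ] H) (x : HS ι H) : lam (S * T) x = lam S (lam T x) := by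
  ext i; simp

theorem lam_add (S T : H →L[ℂ] H) (x : HS ι H) : lam (S + T) x = lam S x + lam T x := by
  ext i
  change (S + T) (x i) = S (x i) + T (x i)
  simp

theorem lam_smul (c : ℂ) (T : H →L[ℂ] H) (x : HS ι H) : lam (c • T) x = c • lam T x := by
  ext i
  change (c • T) (x i) = c • T (x i)
  simp

theorem inner_lam_star [CompleteSpace H] (T : H →L[ℂ] H) (x y : HS ι H) :
    ⟪x, lam (star T) y⟫_ℂ = ⟪lam T x, y⟫_ℂ := by
  rw [lp.inner_eq_tsum, lp.inner_eq_tsum]
  refine tsum_congr fun i => ?_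
  simp [ContinuousLinearMap.star_eq_adjoint, ContinuousLinearMap.adjoint_inner_right]

theorem lam_t2 (b : HilbertBasis ι ℂ H) (T : H →L[ℂ] H) (e f : H) :
    lam T (t2 b e f) = t2 b e (T f) := by
  ext i; simp

variable {I J : Type} [Fintype I] [Fintype J]

/-- The operator `∑ β j |f j⟩⟨f j|` in the model. -/
def hsv (b : HilbertBasis ι ℂ H) (β : J → ℝ) (f : J → H) : HS ι H :=
  ∑ j, (β j : ℂ) • t2 b (f j) (f j)

theorem inner_hsv (b : HilbertBasis ι ℂ H) (α : I → ℝ) (e : I → H) (β : J → ℝ) (f : J → H) :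
    ⟪hsv b α e, hsv b β f⟫_ℂ = (ker α e β f : ℂ) := by
  simp only [hsv, ker, sum_inner, inner_sum, inner_smul_left, inner_smul_right, inner_t2,
    Finset.mul_sum]
  push_cast
  rw [Finset.sum_comm]
  refine Finset.sum_congr rfl fun i _ => Finset.sum_congr rfl fun j _ => ?_
  rw [← inner_conj_symm (f j) (e i), Complex.conj_mul', Complex.conj_ofReal]
  ring

theorem hsn_eq_norm (b : HilbertBasis ι ℂ H) (β : J → ℝ) (f : J → H) :
    hsn β f = ‖hsv b β f‖ := by
  have h := inner_hsv b β f β f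
  rw [inner_self_eq_norm_sq_to_K] at h
  have h2 : ‖hsv b β f‖ ^ 2 = ker β f β f := by
    apply Complex.ofReal_injective
    rw [← h]
    simp
  rw [hsn, ← h2, Real.sqrt_sq (norm_nonneg _)]

theorem hsn_nonneg (β : J → ℝ) (f : J → H) : 0 ≤ hsn β f := Real.sqrt_nonneg _

variable [CompleteSpace H]

/-- The Cauchy-Schwarz inequality for the overlap. -/
theorem ker_le (α : I → ℝ) (e : I → H) (β : J → ℝ) (f : J → H) :
    ker α e β f ≤ hsn α e * hsn β f := by
  obtain ⟨w, b, -⟩ := exists_hilbertBasis ℂ H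
  rw [hsn_eq_norm b, hsn_eq_norm b]
  refine le_trans ?_ (norm_inner_le_norm (𝕜 := ℂ) (hsv b α e) (hsv b β f))
  rw [inner_hsv, Complex.norm_real]
  exact le_abs_self _

/-- The Schur product inequality. -/
theorem schur_nonneg (β : J → ℝ) (a c : J → H) :
    0 ≤ (∑ j, ∑ k, (β j : ℂ) * (β k : ℂ) * (⟪a k, a j⟫_ℂ * ⟪c j, c k⟫_ℂ)).re := by
  obtain ⟨w, b, -⟩ := exists_hilbertBasis ℂ H
  have h : ⟪∑ j, (β j : ℂ) • t2 b (a j) (c j), ∑ j, (β j : ℂ) • t2 b (a j) (c j)⟫_ℂ =
      ∑ j, ∑ k, (β j : ℂ) * (β k : ℂ) * (⟪a k, a j⟫_ℂ * ⟪c j, c k⟫_ℂ) := by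
    simp only [sum_inner, inner_sum, inner_smul_left, inner_smul_right, inner_t2,
      Finset.mul_sum, Complex.conj_ofReal]
    rw [Finset.sum_comm]
    refine Finset.sum_congr rfl fun i _ => Finset.sum_congr rfl fun j _ => ?_
    ring
  rw [← h]
  exact inner_self_nonneg (𝕜 := ℂ)

theorem ker_unitary {u : H →L[ℂ] H} (hu : u ∈ unitary (H →L[ℂ] H)) (α : I → ℝ) (e : I → H)
    (β : J → ℝ) (f : J → H) :
    ker α (fun i => u (e i)) β (fun j => u (f j)) = ker α e β f := by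
  refine Finset.sum_congr rfl fun i _ => Finset.sum_congr rfl fun j _ => ?_
  rw [ContinuousLinearMap.inner_map_map_of_mem_unitary hu]

theorem hsn_unitary {u : H →L[ℂ] H} (hu : u ∈ unitary (H →L[ℂ] H)) (β : J → ℝ) (f : J → H) :
    hsn β (fun j => u (f j)) = hsn β f := by
  rw [hsn, hsn, ker_unitary hu]

end Pool.Agent.P.MP_7e3bdd_an.RW
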