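import Pool.Agent.P.MP_7e3bdd_an.RW.St2

/-!
Approximation of a probability vector by a uniform average with repetitions.
-/

set_option autoImplicit false

open scoped BigOperators

noncomputable section

namespace Pool.Agent.P.MP_7e3bdd_an.RW

namespace UnifP

/-- A list of length `m` in which `j` occurs `k j` times. -/
theorem exists_index {J : Type} [Fintype J] (k : J → ℕ) (m : ℕ) (hk : ∑ j, k j = m) :
    ∃ ι : Fin m → J, ∀ f : J → ℝ, ∑ a, f (ι a) = ∑ j, (k j : ℝ) * f j := by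
  have hc : Fintype.card (Σ j, Fin (k j)) = m := by
    rw [Fintype.card_sigma]
    simpa using hk
  let e := Fintype.equivFinOfCardEq hc
  refine ⟨fun a => (e.symm a).1, fun f => ?_⟩
  rw [Equiv.sum_comp e.symm (fun p => f p.1), Fintype.sum_sigma]
  simp

end UnifP

theorem unifSt : UnifSt := by
  classical
  intro J _ l hl hs ε hε
  obtain ⟨j₀⟩ : Nonempty J := by
    by_contra h
    rw [not_nonempty_iff] at h
    simp at hs
  obtain ⟨n, hn⟩ := exists_nat_ge (2 * (Fintype.card J : ℝ) / ε)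
  have hm : (0 : ℝ) < (n : ℝ) + 1 := by positivity
  have hε' : 2 * (Fintype.card J : ℝ) ≤ ε * ((n : ℝ) + 1) := by
    rw [div_le_iff₀ hε] at hn
    nlinarith
  set k : J → ℕ := fun j => ⌊((n : ℝ) + 1) * l j⌋₊ with hk
  have k1 : ∀ j, (k j : ℝ) ≤ ((n : ℝ) + 1) * l j := fun j =>
    Nat.floor_le (mul_nonneg hm.le (hl j))
  have k2 : ∀ j, ((n : ℝ) + 1) * l j ≤ k j + 1 := fun j => (Nat.lt_floor_add_one _).le
  have s0 : ∑ j, ((n : ℝ) + 1) * l j = (n : ℝ) + 1 := by rw [← Finset.mul_sum, hs, mul_one]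
  have s1 : ((∑ j, k j : ℕ) : ℝ) ≤ (n : ℝ) + 1 := by
    rw [Nat.cast_sum, ← s0]
    exact Finset.sum_le_sum fun j _ => k1 j
  have s1' : ∑ j, k j ≤ n + 1 := by exact_mod_cast s1
  have s2 : (n : ℝ) + 1 - ((∑ j, k j : ℕ) : ℝ) ≤ Fintype.card J := by
    have := Finset.sum_le_sum fun j (_ : j ∈ Finset.univ) => k2 j
    rw [s0, Finset.sum_add_distrib] at this
    simp only [Finset.sum_const, Finset.card_univ, nsmul_eq_mul, mul_one] at this
    rw [Nat.cast_sum]
    linarith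
  obtain ⟨ι, hι⟩ := UnifP.exists_index (fun j => k j + if j = j₀ then n + 1 - ∑ j, k j else 0)
    (n + 1) (by
      rw [Finset.sum_add_distrib, Finset.sum_ite_eq' Finset.univ j₀]
      simp only [Finset.mem_univ, if_true]
      omega)
  refine ⟨n, ι, fun f hf => ?_⟩
  have e1 : ∑ a, f (ι a) = ∑ j, (k j : ℝ) * f j + ((n : ℝ) + 1 - ((∑ j, k j : ℕ) : ℝ)) * f j₀ := by
    rw [hι f]
    simp only [Nat.cast_add, Nat.cast_ite, Nat.cast_zero, add_mul, ite_mul, zero_mul,
      Finset.sum_add_distrib, Finset.sum_ite_eq', Finset.mem_univ, if_true]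
    rw [Nat.cast_sub s1']
    simp only [Nat.cast_add, Nat.cast_one]
  have e2 : ((n : ℝ) + 1) * (∑ j, l j * f j - 𝔼 a, f (ι a)) =
      ∑ j, (((n : ℝ) + 1) * l j - k j) * f j - ((n : ℝ) + 1 - ((∑ j, k j : ℕ) : ℝ)) * f j₀ := by
    rw [Finset.expect_eq_sum_div_card, Finset.card_univ, Fintype.card_fin, mul_sub, Nat.cast_add,
      Nat.cast_one, mul_div_cancel₀ _ hm.ne', e1, Finset.mul_sum]
    simp only [sub_mul, Finset.sum_sub_distrib, mul_assoc]
    ring
  have e3 : |∑ j, (((n : ℝ) + 1) * l j - k j) * f j| ≤ Fintype.card J := by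
    refine (Finset.abs_sum_le_sum_abs _ _).trans ?_
    have : ∀ j ∈ (Finset.univ : Finset J), |(((n : ℝ) + 1) * l j - k j) * f j| ≤ 1 := fun j _ => by
      rw [abs_mul, abs_of_nonneg (sub_nonneg.2 (k1 j))]
      exact mul_le_one₀ (by linarith [k2 j]) (abs_nonneg _) (hf j)
    simpa using Finset.sum_le_sum this
  have e4 : |((n : ℝ) + 1 - ((∑ j, k j : ℕ) : ℝ)) * f j₀| ≤ Fintype.card J := by
    rw [abs_mul, abs_of_nonneg (sub_nonneg.2 s1)]
    exact (mul_le_of_le_one_right (sub_nonneg.2 s1) (hf j₀)).trans s2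
  refine le_of_mul_le_mul_left ?_ hm
  rw [← abs_of_pos hm, ← abs_mul, e2, abs_of_pos hm]
  refine (abs_sub _ _).trans ?_
  linarith

end Pool.Agent.P.MP_7e3bdd_an.RW
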