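import Pool.Agent.P.MP_7e3bdd_an.RW.St

/-!
Diagonalisation of a finite rank density operator.
-/

set_option autoImplicit false

open scoped InnerProductSpace

noncomputable section

namespace Pool.Agent.P.MP_7e3bdd_an.RW

namespace DiagP

/-- Finite-dimensional spectral theorem for `∑ l j |x j⟩⟨x j|`. -/
theorem basis {E : Type} [NormedAddCommGroup E] [InnerProductSpace ℂ E] [FiniteDimensional ℂ E]
    {J : Type} [Fintype J] (l : J → ℝ) (x : J → E) :
    ∃ (n : ℕ) (b : OrthonormalBasis (Fin n) ℂ E) (μ : Fin n → ℝ), ∀ i k,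
      ∑ j, (l j : ℂ) * (⟪x j, b i⟫_ℂ * ⟪b k, x j⟫_ℂ) = if k = i then (μ i : ℂ) else 0 := by
  let ρ : E →ₗ[ℂ] E := ∑ j, (l j : ℂ) • LinearMap.smulRight (innerₛₗ ℂ (x j)) (x j)
  have hρ : ∀ u v : E, ⟪u, ρ v⟫_ℂ = ∑ j, (l j : ℂ) * (⟪x j, v⟫_ℂ * ⟪u, x j⟫_ℂ) := by
    intro u v
    simp only [ρ, LinearMap.sum_apply, LinearMap.smul_apply, LinearMap.smulRight_apply,
      innerₛₗ_apply_apply, inner_sum, inner_smul_right]
  have hs : ρ.IsSymmetric := by
    intro u v
    rw [← inner_conj_symm, hρ, hρ, map_sum]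
    refine Finset.sum_congr rfl fun j _ => ?_
    simp only [map_mul, Complex.conj_ofReal, inner_conj_symm]
    ring
  refine ⟨Module.finrank ℂ E, hs.eigenvectorBasis rfl, hs.eigenvalues rfl, fun i k => ?_⟩
  rw [← hρ, hs.apply_eigenvectorBasis rfl i, inner_smul_right,
    orthonormal_iff_ite.1 (hs.eigenvectorBasis rfl).orthonormal]
  split_ifs <;> simp

end DiagP

theorem diagSt : DiagSt := by
  intro H _ _ _ J _ l ξ hl hl1 hξ
  let E : Submodule ℂ H := Submodule.span ℂ (Set.range ξ)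
  have : FiniteDimensional ℂ E := FiniteDimensional.span_of_finite ℂ (Set.finite_range ξ)
  let x : J → E := fun j => ⟨ξ j, Submodule.subset_span ⟨j, rfl⟩⟩
  obtain ⟨n, b, μ, hb⟩ := DiagP.basis l x
  have hμ : ∀ i, 0 ≤ μ i := by
    intro i
    have h := congrArg Complex.re (hb i i)
    rw [if_pos rfl, Complex.ofReal_re, Complex.re_sum] at h
    rw [← h]
    refine Finset.sum_nonneg fun j _ => ?_
    rw [Complex.re_ofReal_mul, ← inner_conj_symm (b i) (x j), Complex.mul_conj, Complex.ofReal_re]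
    exact mul_nonneg (hl j) (Complex.normSq_nonneg _)
  have hsq : ∀ i, √(μ i) ^ 2 = μ i := fun i => Real.sq_sqrt (hμ i)
  have hexp : ∀ j, ξ j = ∑ k, ⟪b k, x j⟫_ℂ • (b k : H) := by
    intro j
    have h := congrArg (fun v : E => (v : H)) (b.sum_repr' (x j))
    simp only [Submodule.coe_sum, Submodule.coe_smul] at h
    exact h.symm
  have hT : ∀ T : H →L[ℂ] H, ∑ j, l j * (⟪ξ j, T (ξ j)⟫_ℂ).re =
      ∑ i, √(μ i) ^ 2 * (⟪(b i : H), T (b i)⟫_ℂ).re := by
    intro T
    have h1 : ∀ j, ⟪ξ j, T (ξ j)⟫_ℂ =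
        ∑ i, ∑ k, (⟪x j, b i⟫_ℂ * ⟪b k, x j⟫_ℂ) * ⟪(b i : H), T (b k)⟫_ℂ := by
      intro j
      conv_lhs => rw [hexp j]
      rw [sum_inner]
      refine Finset.sum_congr rfl fun i _ => ?_
      rw [map_sum, inner_sum]
      refine Finset.sum_congr rfl fun k _ => ?_
      rw [map_smul, inner_smul_left, inner_smul_right, inner_conj_symm, mul_assoc]
    have h2 : ∑ j, (l j : ℂ) * ⟪ξ j, T (ξ j)⟫_ℂ = ∑ i, (μ i : ℂ) * ⟪(b i : H), T (b i)⟫_ℂ := by
      simp only [h1, Finset.mul_sum]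
      rw [Finset.sum_comm]
      refine Finset.sum_congr rfl fun i _ => ?_
      rw [Finset.sum_comm]
      have h3 : ∀ k, ∑ j, (l j : ℂ) * ((⟪x j, b i⟫_ℂ * ⟪b k, x j⟫_ℂ) * ⟪(b i : H), T (b k)⟫_ℂ) =
          (if k = i then (μ i : ℂ) else 0) * ⟪(b i : H), T (b k)⟫_ℂ := by
        intro k
        rw [← hb i k, Finset.sum_mul]
        exact Finset.sum_congr rfl fun j _ => by ring
      simp only [h3, ite_mul, zero_mul, Finset.sum_ite_eq', Finset.mem_univ, if_true]
    have h4 := congrArg Complex.re h2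
    simp only [Complex.re_sum, Complex.re_ofReal_mul] at h4
    simp only [hsq]
    exact h4
  have hn : ∀ i, ‖(b i : H)‖ = 1 := fun i => b.orthonormal.1 i
  have hone : ∀ v : H, ‖v‖ = 1 → (⟪v, (1 : H →L[ℂ] H) v⟫_ℂ).re = 1 := by
    intro v hv
    rw [one_apply_eq_self, inner_self_eq_norm_sq_to_K, hv]
    simp
  have hsum : ∑ i, √(μ i) ^ 2 = 1 := by
    have h := hT 1
    simp only [hone _ (hξ _), hone _ (hn _), mul_one] at h
    rw [← h, hl1]
  refine ⟨n, fun i => √(μ i), fun i => (b i : H), fun i => Real.sqrt_nonneg _, hn, hsum, ?_, hT⟩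
  have hk : ker (fun i => √(μ i)) (fun i => (b i : H)) (fun i => √(μ i)) (fun i => (b i : H))
      = 1 := by
    rw [← hsum]
    refine Finset.sum_congr rfl fun i _ => ?_
    have h5 : ∀ k, √(μ i) * √(μ k) * ‖⟪(b i : H), (b k : H)⟫_ℂ‖ ^ 2 =
        if i = k then √(μ i) ^ 2 else 0 := by
      intro k
      rw [← Submodule.coe_inner, orthonormal_iff_ite.1 b.orthonormal]
      split_ifs with h
      · subst h
        simp [sq]
      · simp
    simp only [h5, Finset.sum_ite_eq, Finset.mem_univ, if_true]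
  rw [hsn, hk, Real.sqrt_one]

end Pool.Agent.P.MP_7e3bdd_an.RW
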