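import Pool.Agent.P.MP_7e3bdd_an.RW.TIrr
import Pool.Agent.P.MP_7e3bdd_an.RW.Diag
import Pool.Agent.P.MP_7e3bdd_an.RW.Minimax

/-!
Test elements of the algebra of a tower.
-/

set_option autoImplicit false

open scoped InnerProductSpace Topology ComplexConjugate ENNReal BigOperators
open Filter MeasureTheory ProbabilityTheory

noncomputable section

namespace Pool.Agent.P.MP_7e3bdd_an.RW

variable {H : Type} [NormedAddCommGroup H] [InnerProductSpace ℂ H] [CompleteSpace H]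
  {X : ℕ → Type} [∀ k, Fintype (X k)] [∀ k, AddCommGroup (X k)] [∀ k, MeasurableSpace (X k)]
  [∀ k, DiscreteMeasurableSpace (X k)] {c : ∀ k, X k → X (k + 1) → H →L[ℂ] H} {s : X 0 → ℝ}

omit [InnerProductSpace ℂ H] [CompleteSpace H] in
theorem separable_T [TopologicalSpace.SeparableSpace H] :
    TopologicalSpace.SeparableSpace (Lp H 2 (PT X)) := by
  have : Fact ((2 : ℝ≥0∞) ≠ ∞) := ⟨by norm_num⟩
  infer_instance

omit [∀ k, Fintype (X k)] [∀ k, AddCommGroup (X k)] [∀ k, MeasurableSpace (X k)]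
  [∀ k, DiscreteMeasurableSpace (X k)] in
theorem sgH_hd (s : X 0 → ℝ) (k : ℕ) (ω : ∀ i, X i) : sgH s k (hd (k + 1) ω) = s (ω 0) := by
  induction k with
  | zero => rfl
  | succ k ih => exact ih

variable (H) in
/-- The sign of the first letter, as a field of scalars. -/
def sT (s : X 0 → ℝ) (ω : ∀ i, X i) : H →L[ℂ] H := (s (ω 0) : ℂ) • 1

omit [CompleteSpace H] in
theorem good_sT (s : X 0 → ℝ) : Good (sT H s) := good_hd 1 fun h => (s h.2 : ℂ) • (1 : H →L[ℂ] H)

theorem integral_hd2 (k : ℕ) (G : Hd X k → X k → ℝ) :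
    ∫ ω, G (hd k ω) (ω k) ∂PT X = 𝔼 h, 𝔼 x, G h x := by
  refine (integral_hd (k + 1) fun h => G h.1 h.2).trans ?_
  have h1 : ∑ h : Hd X (k + 1), G h.1 h.2 = ∑ h, ∑ x, G h x := sum_hd_succ k _
  rw [h1, card_hd_succ]
  simp only [Fintype.expect_eq_sum_div_card, ← Finset.sum_div]
  push_cast
  rw [smul_eq_mul, div_div, mul_comm (Fintype.card (X k) : ℝ), div_eq_inv_mul]

theorem exists_test_T (val : ValSt) (hc : ∀ k x y, c k x y ∈ unitary (H →L[ℂ] H))
    (hs : ∀ x, s x = 1 ∨ s x = -1) {δ : ℝ} (hδ : 0 < δ) (ho : Orth c δ) {I : Type} [Fintype I]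
    {α : I → ℝ} {e : I → H} (hα : ∀ i, 0 ≤ α i) (he : ∀ i, ‖e i‖ = 1) (hα1 : ∑ i, α i ^ 2 = 1)
    (hn : hsn α e = 1) :
    ∃ x ∈ MT c, IsSelfAdjoint x ∧ ‖x‖ ≤ 1 ∧ 1 - 4 * δ ≤
      ∑ i, α i ^ 2 * (⟪VV (PT X) (e i), fld (PT X) (sT H s) (x (VV (PT X) (e i)))⟫_ℂ).re := by
  choose y hy hv using val H X c s δ hδ hc hs ho I α e hα he hα1 hn
  have gy : ∀ k, Good fun ω : ∀ i, X i => y k (ω (k + 1)) := fun k =>
    good_hd (k + 2) fun h => y k h.2
  set Y : ℕ → Lp H 2 (PT X) →L[ℂ] Lp H 2 (PT X) := fun k =>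
    star (AA c (k + 1)) * fld (PT X) (fun ω => y k (ω (k + 1))) * AA c (k + 1) with hY
  have hY1 : ∀ k, ‖Y k‖ ≤ 1 := fun k => by
    have h1 := norm_le_one_of_unitary (AA_unitary hc (k + 1))
    have h2 : ‖fld (PT X) fun ω => y k (ω (k + 1))‖ ≤ 1 :=
      norm_fld_le (gy k) zero_le_one fun ω => (hy k _).2
    have h3 := norm_le_one_of_unitary (Unitary.star_mem (AA_unitary hc (k + 1)))
    exact (norm_mul₃_le).trans (mul_le_one₀ (mul_le_one₀ h3 (norm_nonneg _) h2) (norm_nonneg _) h1)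
  obtain ⟨x, hx⟩ := exists_wlim (hyperfilter ℕ) Y 1 hY1
  refine ⟨x, (mem_MT x).2 ⟨fun j γ hγ => hx.comm _ (Nat.hyperfilter_le_atTop ?_),
    fun B hB => hx.comm _ (Eventually.of_forall fun k => ?_)⟩, hx.isSelfAdjoint fun k => ?_,
    hx.norm_le 1 zero_le_one hY1, ?_⟩
  · filter_upwards [eventually_ge_atTop j] with k hk
    have h1 : ST γ * fld (PT X) (fun ω => y k (ω (k + 1))) =
        fld (PT X) (fun ω => y k (ω (k + 1))) * ST γ := by
      rw [ST_fld γ (gy k)]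
      simp [hγ (k + 1) (by omega)]
    have h2 := Unitary.mul_star_self_of_mem (AA_unitary hc (k + 1))
    rw [← WT_le hc (by omega : j ≤ k + 1) hγ, WT, hY]
    simp only [mul_assoc]
    rw [← mul_assoc (AA c (k + 1)), h2, one_mul, ← mul_assoc (AA c (k + 1)), h2, one_mul,
      ← mul_assoc (ST γ), h1, mul_assoc]
  · simp only [hY]
    rw [← mul_assoc, ← mul_assoc, EE_comm_star_AA hB, mul_assoc _ (EE _ _), EE_comm_fld hB (gy k),
      mul_assoc, mul_assoc, EE_comm_AA hB]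
    simp only [mul_assoc]
  · refine IsSelfAdjoint.conjugate' ?_ _
    rw [IsSelfAdjoint, ← fld_star (gy k)]
    simp only [(hy k _).1.star_eq]
  · have h6 := hx.mul_mul (fld (PT X) (sT H s)) 1
    simp only [mul_one] at h6
    refine ge_of_tendsto' (tendsto_finsetSum _ fun i _ =>
      ((Complex.continuous_re.tendsto _).comp (h6 (VV (PT X) (e i)) (VV (PT X) (e i)))).const_mul
        (α i ^ 2)) fun k => (hv k).trans (le_of_eq ?_)
    have ga := good_aa (c := c) (k + 1)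
    have gh := (good_sT s).mul ((ga.star.mul (gy k)).mul ga)
    have ih : ∀ i, Integrable (fun ω => α i ^ 2 * (⟪e i, (sT H s ω *
        (star (aH c (k + 1) (hd (k + 1) ω) (ω (k + 1))) * y k (ω (k + 1)) *
          aH c (k + 1) (hd (k + 1) ω) (ω (k + 1)))) (e i)⟫_ℂ).re) (PT X) := fun i =>
      ((((gh.integrable _).apply_continuousLinearMap (e i)).const_inner
        (𝕜 := ℂ) (e i)).re).const_mul _
    have h7 : ∀ i, (⟪VV (PT X) (e i), (fld (PT X) (sT H s) * Y k) (VV (PT X) (e i))⟫_ℂ).re =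
        ∫ ω, (⟪e i, (sT H s ω * (star (aH c (k + 1) (hd (k + 1) ω) (ω (k + 1))) *
          y k (ω (k + 1)) * aH c (k + 1) (hd (k + 1) ω) (ω (k + 1)))) (e i)⟫_ℂ).re ∂PT X := by
      intro i
      simp only [hY]
      rw [← inner_cmp, AA, ← fld_star ga, ← fld_mul ga.star (gy k),
        ← fld_mul (ga.star.mul (gy k)) ga, ← fld_mul (good_sT s) ((ga.star.mul (gy k)).mul ga),
        cmp_fld gh, inner_integral_op (gh.integrable _)]
      exact (Complex.reCLM.integral_comp_comm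
        (((gh.integrable _).apply_continuousLinearMap (e i)).const_inner (e i))).symm
    simp only [Function.comp_apply, h7, ← integral_const_mul]
    rw [← integral_finsetSum _ fun i _ => ih i, ← integral_hd2]
    refine integral_congr_ae (Eventually.of_forall fun ω => ?_)
    simp only [sgH_hd, Finset.mul_sum]
    refine Finset.sum_congr rfl fun i _ => ?_
    simp [sT, ContinuousLinearMap.star_eq_adjoint, ContinuousLinearMap.adjoint_inner_right,
      mul_left_comm]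

theorem exists_far_T (val : ValSt) (hc : ∀ k x y, c k x y ∈ unitary (H →L[ℂ] H))
    (hs : ∀ x, s x = 1 ∨ s x = -1) (hs0 : ∑ x, s x = 0) {δ : ℝ} (hδ : 0 < δ) (ho : Orth c δ)
    (N : VonNeumannAlgebra H) {ξ : H} (hξ : ‖ξ‖ = 1) :
    ∃ η ζ : Lp H 2 (PT X), ‖η‖ ≤ 1 ∧ ‖ζ‖ ≤ 1 ∧ ⟪η, ζ⟫_ℂ = 0 ∧
      ∃ x ∈ MT c, IsSelfAdjoint x ∧ ‖x‖ ≤ 1 ∧
        ∀ u ∈ unitary (Lp H 2 (PT X) →L[ℂ] Lp H 2 (PT X)), u ∈ NT X N →
          1 - 4 * δ ≤ (⟪η, (u * x * star u) ζ⟫_ℂ).re := by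
  have gs := good_sT (H := H) s
  have hsa : star (fld (PT X) (sT H s)) = fld (PT X) (sT H s) := by
    rw [← fld_star gs]
    congr 1
    funext ω
    simp [sT]
  have hin : ∀ f g : Lp H 2 (PT X), ⟪fld (PT X) (sT H s) f, g⟫_ℂ =
      ⟪f, fld (PT X) (sT H s) g⟫_ℂ := fun f g => by
    rw [← ContinuousLinearMap.adjoint_inner_right, ← ContinuousLinearMap.star_eq_adjoint, hsa]
  have hcomm : ∀ a : H →L[ℂ] H, amp (PT X) a * fld (PT X) (sT H s) =
      fld (PT X) (sT H s) * amp (PT X) a := fun a => by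
    rw [amp_apply, ← fld_mul (Good.const a) gs, ← fld_mul gs (Good.const a)]
    simp [sT]
  refine ⟨fld (PT X) (sT H s) (VV (PT X) ξ), VV (PT X) ξ, ?_, by rw [norm_VV, hξ], ?_, ?_⟩
  · have h1 : ‖fld (PT X) (sT H s)‖ ≤ 1 := norm_fld_le gs zero_le_one fun ω => by
      rw [sT, norm_smul, Complex.norm_real]
      have h1 : ‖s (ω 0)‖ = 1 := by rcases hs (ω 0) with h | h <;> simp [h]
      rw [h1, one_mul]
      exact ContinuousLinearMap.norm_id_le
    refine (ContinuousLinearMap.le_opNorm _ _).trans ?_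
    rw [norm_VV, hξ, mul_one]
    exact h1
  · rw [hin, ← inner_cmp, cmp_fld gs]
    have h1 : ∫ ω : ∀ i, X i, (s (ω 0) : ℂ) ∂PT X = 0 := by
      rw [integral_complex_ofReal, integral_hd2 0 fun _ x => s x]
      simp [Fintype.expect_eq_sum_div_card, hs0]
    simp only [sT]
    rw [integral_smul_const, h1]
    simp
  · obtain ⟨x, hx, hx1, hx2, hx3⟩ := minimaxSt (Lp H 2 (PT X)) (MT c)
      {a : H →L[ℂ] H // a ∈ unitary (H →L[ℂ] H)}
      (fun a => fld (PT X) (sT H s) (VV (PT X) (star a.1 ξ)))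
      (fun a => VV (PT X) (star a.1 ξ)) (1 - 4 * δ) (fun J _ l i hl hl1 => by
        obtain ⟨n, α, e, hα, he, hα1, hn, hT⟩ := diagSt H J l (fun j => star (i j).1 ξ) hl hl1
          (fun j => by
            rw [ContinuousLinearMap.norm_map_of_mem_unitary (Unitary.star_mem (i j).2), hξ])
        obtain ⟨x, hx, hx1, hx2, hx3⟩ := exists_test_T val hc hs hδ ho hα he hα1 hn
        refine ⟨x, hx, hx1, hx2, ?_⟩
        have h1 := hT (cmp (PT X) (fld (PT X) (sT H s) * x))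
        simp only [inner_cmp, mul_apply_eq_comp] at h1
        simp only [hin]
        rw [h1]
        exact hx3)
    refine ⟨x, hx, hx1, hx2, fun u hu huN => ?_⟩
    obtain ⟨a, -, rfl⟩ := (mem_NT N u).1 huN
    have ha : a ∈ unitary (H →L[ℂ] H) := by
      rw [Unitary.mem_iff] at hu ⊢
      rw [← map_star, ← map_mul, ← map_mul, ← map_one (amp (H := H) (PT X))] at hu
      exact ⟨amp_injective hu.1, amp_injective hu.2⟩
    have h1 := hx3 ⟨a, ha⟩
    rw [mul_apply_eq_comp, mul_apply_eq_comp, ← map_star, amp_VV,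
      ← ContinuousLinearMap.adjoint_inner_left, ← ContinuousLinearMap.star_eq_adjoint, ← map_star,
      ← mul_apply_eq_comp, hcomm, mul_apply_eq_comp, amp_VV]
    exact h1

end Pool.Agent.P.MP_7e3bdd_an.RW
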