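import Pool.Agent.P.MP_7e3bdd_an.RW.St

/-!
Separation of two weighted families of unit vectors with a small overlap.
-/

set_option autoImplicit false

open scoped InnerProductSpace ComplexConjugate

noncomputable section

namespace Pool.Agent.P.MP_7e3bdd_an.RW

variable {H : Type} [NormedAddCommGroup H] [InnerProductSpace ℂ H] {I J : Type} [Fintype I]
  [Fintype J]

/-- The operator `∑ α i |e i⟩⟨e i|`. -/
def sepOp (α : I → ℝ) (e : I → H) : H →L[ℂ] H :=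
  ∑ i, (α i : ℂ) • InnerProductSpace.rankOne ℂ (e i) (e i)

theorem sep_inner (α : I → ℝ) (e : I → H) (y z : H) :
    ⟪y, sepOp α e z⟫_ℂ = ∑ i, (α i : ℂ) * (⟪y, e i⟫_ℂ * ⟪e i, z⟫_ℂ) := by
  simp only [sepOp, sum_apply, smul_apply,
    InnerProductSpace.rankOne_apply, inner_sum, inner_smul_right]
  exact Finset.sum_congr rfl fun i _ => by ring

theorem sep_re (α : I → ℝ) (e : I → H) (y : H) :
    (⟪y, sepOp α e y⟫_ℂ).re = ∑ i, α i * ‖⟪e i, y⟫_ℂ‖ ^ 2 := by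
  rw [sep_inner, Complex.re_sum]
  refine Finset.sum_congr rfl fun i _ => ?_
  rw [← inner_conj_symm y (e i), Complex.conj_mul', ← Complex.ofReal_pow, ← Complex.ofReal_mul,
    Complex.ofReal_re]

theorem sep_symm (α : I → ℝ) (e : I → H) (y z : H) :
    conj ⟪y, sepOp α e z⟫_ℂ = ⟪z, sepOp α e y⟫_ℂ := by
  rw [sep_inner, sep_inner, map_sum]
  refine Finset.sum_congr rfl fun i _ => ?_
  rw [map_mul, map_mul, Complex.conj_ofReal, inner_conj_symm, inner_conj_symm, mul_comm ⟪e i, y⟫_ℂ]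

theorem sep_add (α : I → ℝ) (e : I → H) (y z : H) :
    (⟪y + z, sepOp α e (y + z)⟫_ℂ).re = (⟪y, sepOp α e y⟫_ℂ).re + (⟪z, sepOp α e z⟫_ℂ).re +
      2 * (⟪y, sepOp α e z⟫_ℂ).re := by
  rw [map_add, inner_add_left, inner_add_right, inner_add_right, ← sep_symm α e y z]
  simp only [Complex.add_re, Complex.conj_re]
  ring

theorem sep_single {α : I → ℝ} (hα : ∀ i, 0 ≤ α i) (e : I → H) (y : H) (i : I) :
    α i * ‖⟪e i, y⟫_ℂ‖ ^ 2 ≤ (⟪y, sepOp α e y⟫_ℂ).re := by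
  rw [sep_re]
  exact Finset.single_le_sum (f := fun i => α i * ‖⟪e i, y⟫_ℂ‖ ^ 2)
    (fun i _ => mul_nonneg (hα i) (sq_nonneg _)) (Finset.mem_univ i)

variable [CompleteSpace H]

theorem sep_sa (α : I → ℝ) (e : I → H) : IsSelfAdjoint (sepOp α e) := by
  rw [ContinuousLinearMap.isSelfAdjoint_iff_isSymmetric]
  intro y z
  change ⟪sepOp α e y, z⟫_ℂ = ⟪y, sepOp α e z⟫_ℂ
  rw [← inner_conj_symm, sep_symm]

/-- the spectral splitting of a self-adjoint operator -/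
theorem sep_split {D : H →L[ℂ] H} (hD : IsSelfAdjoint D) :
    ∃ P : H →L[ℂ] H, IsSelfAdjoint P ∧ (∀ y z, ⟪P y, z - P z⟫_ℂ = 0) ∧
      (∀ y, 0 ≤ (⟪P y, D (P y)⟫_ℂ).re) ∧ (∀ z, (⟪z - P z, D (z - P z)⟫_ℂ).re ≤ 0) ∧
      ∀ y z, ⟪P y, D (z - P z)⟫_ℂ = 0 := by
  obtain ⟨A, B, hA, hB, hBA, rfl⟩ : ∃ A B : H →L[ℂ] H, A.IsPositive ∧ B.IsPositive ∧ B * A = 0 ∧
      D = A - B :=
    ⟨D⁺, D⁻, (ContinuousLinearMap.nonneg_iff_isPositive _).1 (CFC.posPart_nonneg D),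
      (ContinuousLinearMap.nonneg_iff_isPositive _).1 (CFC.negPart_nonneg D),
      CFC.negPart_mul_posPart D, (CFC.posPart_sub_negPart D hD).symm⟩
  let K : Submodule ℂ H := B.ker
  have h1 : ∀ y, B (K.starProjection y) = 0 := fun y => K.starProjection_apply_mem y
  have h2 : ∀ z, ∀ y ∈ K, ⟪y, z - K.starProjection z⟫_ℂ = 0 := fun z y hy =>
    K.inner_right_of_mem_orthogonal hy (K.sub_starProjection_mem_orthogonal z)
  have h3 : ∀ z y, ⟪y, A (z - K.starProjection z)⟫_ℂ = 0 := fun z y => by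
    have h := hA.isSymmetric y (z - K.starProjection z)
    refine h.symm.trans (h2 z _ ?_)
    exact congrArg (fun T : H →L[ℂ] H => T y) hBA
  refine ⟨K.starProjection, isSelfAdjoint_starProjection K,
    fun y z => h2 z _ (K.starProjection_apply_mem y), fun y => ?_, fun z => ?_, fun y z => ?_⟩
  · rw [sub_apply, h1, sub_zero]
    exact hA.re_inner_nonneg_right _
  · rw [sub_apply, inner_sub_right, h3, zero_sub, Complex.neg_re, neg_nonpos]
    exact hB.re_inner_nonneg_right _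
  · have h := hB.isSymmetric (K.starProjection y) (z - K.starProjection z)
    rw [sub_apply, inner_sub_right, h3, zero_sub, neg_eq_zero]
    refine h.symm.trans ?_
    change ⟪B (K.starProjection y), _⟫_ℂ = 0
    rw [h1, inner_zero_left]

theorem sep_main {α : I → ℝ} {β : J → ℝ} (hα : ∀ i, 0 ≤ α i) (hβ : ∀ j, 0 ≤ β j) (e : I → H)
    (f : J → H) :
    ∃ P : H →L[ℂ] H, IsSelfAdjoint P ∧ (∀ y z, ⟪P y, z - P z⟫_ℂ = 0) ∧
      ∑ i, α i ^ 2 * (‖e i - P (e i)‖ ^ 2) ^ 2 + ∑ j, β j ^ 2 * (‖P (f j)‖ ^ 2) ^ 2 ≤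
        ker α e β f := by
  obtain ⟨P, hP, h0, h1, h2, h3⟩ := sep_split ((sep_sa α e).sub (sep_sa β f))
  refine ⟨P, hP, h0, ?_⟩
  have h0' : ∀ y z, ⟪z - P z, P y⟫_ℂ = 0 := fun y z => inner_eq_zero_symm.1 (h0 y z)
  have hl : ∀ y z, ⟪y, P z⟫_ℂ = ⟪P y, P z⟫_ℂ := fun y z => by
    have := h0' z y
    rwa [inner_sub_left, sub_eq_zero] at this
  have hr : ∀ y z, ⟪y, z - P z⟫_ℂ = ⟪y - P y, z - P z⟫_ℂ := fun y z => by
    rw [inner_sub_left, h0, sub_zero]
  have hr' : ∀ y z, ⟪y, z - P z⟫_ℂ = ⟪y - P y, z⟫_ℂ := fun y z => by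
    rw [hr, inner_sub_right, h0', sub_zero]
  have e1 : ker α e β f = ∑ j, β j * (⟪P (f j), sepOp α e (P (f j))⟫_ℂ).re +
      ∑ j, β j * (⟪f j - P (f j), sepOp α e (f j - P (f j))⟫_ℂ).re +
      2 * ∑ j, β j * (⟪P (f j), sepOp α e (f j - P (f j))⟫_ℂ).re := by
    rw [ker, Finset.sum_comm, Finset.mul_sum, ← Finset.sum_add_distrib, ← Finset.sum_add_distrib]
    refine Finset.sum_congr rfl fun j _ => ?_
    have h := sep_add α e (P (f j)) (f j - P (f j))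
    rw [add_sub_cancel, sep_re] at h
    calc ∑ i, α i * β j * ‖⟪e i, f j⟫_ℂ‖ ^ 2 = β j * ∑ i, α i * ‖⟪e i, f j⟫_ℂ‖ ^ 2 := by
          rw [Finset.mul_sum]
          exact Finset.sum_congr rfl fun i _ => by ring
      _ = _ := by rw [h]; ring
  have e2 : ∑ j, β j ^ 2 * (‖P (f j)‖ ^ 2) ^ 2 ≤
      ∑ j, β j * (⟪P (f j), sepOp α e (P (f j))⟫_ℂ).re := by
    refine Finset.sum_le_sum fun j _ => ?_
    have a1 := h1 (f j)
    rw [sub_apply, inner_sub_right, Complex.sub_re] at a1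
    have a2 := sep_single hβ f (P (f j)) j
    rw [hl, inner_self_eq_norm_sq_to_K, norm_pow, RCLike.norm_ofReal, abs_norm] at a2
    rw [sq (β j), mul_assoc]
    exact mul_le_mul_of_nonneg_left (by linarith) (hβ j)
  have e3 : ∑ i, α i ^ 2 * (‖e i - P (e i)‖ ^ 2) ^ 2 ≤
      ∑ j, β j * (⟪f j - P (f j), sepOp α e (f j - P (f j))⟫_ℂ).re := by
    have a0 : ∑ j, β j * (⟪f j - P (f j), sepOp α e (f j - P (f j))⟫_ℂ).re =
        ∑ i, α i * (⟪e i - P (e i), sepOp β f (e i - P (e i))⟫_ℂ).re := by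
      simp only [sep_re, Finset.mul_sum]
      rw [Finset.sum_comm]
      refine Finset.sum_congr rfl fun i _ => Finset.sum_congr rfl fun j _ => ?_
      rw [hr', norm_inner_symm]
      ring
    rw [a0]
    refine Finset.sum_le_sum fun i _ => ?_
    have a1 := h2 (e i)
    rw [sub_apply, inner_sub_right, Complex.sub_re] at a1
    have a2 := sep_single hα e (e i - P (e i)) i
    rw [hr, inner_self_eq_norm_sq_to_K, norm_pow, RCLike.norm_ofReal, abs_norm] at a2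
    rw [sq (α i), mul_assoc]
    exact mul_le_mul_of_nonneg_left (by linarith) (hα i)
  have e4 : 0 ≤ ∑ j, β j * (⟪P (f j), sepOp α e (f j - P (f j))⟫_ℂ).re := by
    refine (schur_nonneg β (fun j => f j - P (f j)) fun j => P (f j)).trans_eq ?_
    rw [Complex.re_sum]
    refine Finset.sum_congr rfl fun j _ => ?_
    have a1 := h3 (f j) (f j)
    rw [sub_apply, inner_sub_right, sub_eq_zero] at a1
    rw [a1, sep_inner, ← Complex.re_ofReal_mul, Finset.mul_sum]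
    refine congrArg Complex.re (Finset.sum_congr rfl fun k _ => ?_)
    have a2 : ⟪P (f j), f k⟫_ℂ = ⟪P (f j), P (f k)⟫_ℂ := by
      have := h0 (f j) (f k)
      rwa [inner_sub_right, sub_eq_zero] at this
    rw [a2, ← hr]
    ring
  linarith

theorem sepSt : SepSt := by
  intro H _ _ _ I J _ _ α e β f δ hα hβ he hf hδ
  obtain ⟨P, hP, h0, h⟩ := sep_main hα hβ e f
  have hx : ∀ y, (P + P - 1 : H →L[ℂ] H) y = P y - (y - P y) := fun y => by
    simp only [sub_apply, add_apply,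
      one_apply_eq_self]
    abel
  have hv : ∀ y, (⟪y, (P + P - 1 : H →L[ℂ] H) y⟫_ℂ).re = ‖P y‖ ^ 2 - ‖y - P y‖ ^ 2 := fun y => by
    have a1 : ⟪P y + (y - P y), P y - (y - P y)⟫_ℂ = ⟪P y, P y⟫_ℂ - ⟪y - P y, y - P y⟫_ℂ := by
      rw [inner_add_left, inner_sub_right (P y) (P y), inner_sub_right (y - P y) (P y), h0,
        inner_eq_zero_symm.1 (h0 y y)]
      ring
    rw [add_sub_cancel] at a1
    rw [hx, a1, Complex.sub_re]
    exact congrArg₂ _ (inner_self_eq_norm_sq (𝕜 := ℂ) _) (inner_self_eq_norm_sq (𝕜 := ℂ) _)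
  have hn : ∀ y, ‖P y‖ ^ 2 + ‖y - P y‖ ^ 2 = ‖y‖ ^ 2 := fun y => by
    have a1 := norm_add_sq_eq_norm_sq_add_norm_sq_of_inner_eq_zero (𝕜 := ℂ) _ _ (h0 y y)
    rw [add_sub_cancel] at a1
    simp only [sq]
    exact a1.symm
  have hq : ∀ q : ℝ, 2 * q ≤ 2 * δ + q ^ 2 / (2 * δ) := fun q => by
    rw [← sub_le_iff_le_add', le_div_iff₀ (by positivity)]
    nlinarith [sq_nonneg (q - 2 * δ)]
  refine ⟨P + P - 1, (hP.add hP).sub (IsSelfAdjoint.one _), ?_, ?_⟩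
  · refine ContinuousLinearMap.opNorm_le_bound _ zero_le_one fun y => ?_
    rw [hx, one_mul, norm_sub_eq_norm_add (𝕜 := ℂ) (inner_eq_zero_symm.1 (h0 y y)), add_sub_cancel]
  · have a1 : ∑ i, ((1 - 2 * δ) * α i ^ 2 - α i ^ 2 * (‖e i - P (e i)‖ ^ 2) ^ 2 / (2 * δ)) ≤
        ∑ i, α i ^ 2 * (⟪e i, (P + P - 1 : H →L[ℂ] H) (e i)⟫_ℂ).re := by
      refine Finset.sum_le_sum fun i _ => ?_
      have b1 := hn (e i)
      rw [he, one_pow] at b1
      rw [hv, mul_div_assoc, mul_comm, ← mul_sub]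
      exact mul_le_mul_of_nonneg_left (by linarith [hq (‖e i - P (e i)‖ ^ 2)]) (sq_nonneg _)
    have a2 : ∑ j, ((1 - 2 * δ) * β j ^ 2 - β j ^ 2 * (‖P (f j)‖ ^ 2) ^ 2 / (2 * δ)) ≤
        ∑ j, β j ^ 2 * -(⟪f j, (P + P - 1 : H →L[ℂ] H) (f j)⟫_ℂ).re := by
      refine Finset.sum_le_sum fun j _ => ?_
      have b1 := hn (f j)
      rw [hf, one_pow] at b1
      rw [hv, mul_div_assoc, mul_comm, ← mul_sub]
      exact mul_le_mul_of_nonneg_left (by linarith [hq (‖P (f j)‖ ^ 2)]) (sq_nonneg _)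
    simp only [mul_neg, Finset.sum_neg_distrib] at a2
    rw [Finset.sum_sub_distrib, ← Finset.mul_sum, ← Finset.sum_div] at a1 a2
    have a3 := div_le_div_of_nonneg_right h (show 0 ≤ 2 * δ by positivity)
    rw [add_div] at a3
    linarith

end Pool.Agent.P.MP_7e3bdd_an.RW
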