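import Pool.Agent.P.MP_7e3bdd_an.RW.HS

/-!
Statements of the self-contained steps.
-/

set_option autoImplicit false

open scoped InnerProductSpace
open MeasureTheory

noncomputable section

namespace Pool.Agent.P.MP_7e3bdd_an.RW

/-- Two weighted families of unit vectors with a small overlap are separated by a self-adjoint
contraction. -/
def SepSt : Prop :=
  ∀ (H : Type) [NormedAddCommGroup H] [InnerProductSpace ℂ H] [CompleteSpace H]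
    (I J : Type) [Fintype I] [Fintype J] (α : I → ℝ) (e : I → H) (β : J → ℝ) (f : J → H) (δ : ℝ),
    (∀ i, 0 ≤ α i) → (∀ j, 0 ≤ β j) → (∀ i, ‖e i‖ = 1) → (∀ j, ‖f j‖ = 1) → 0 < δ →
    ∃ x : H →L[ℂ] H, IsSelfAdjoint x ∧ ‖x‖ ≤ 1 ∧
      (1 - 2 * δ) * (∑ i, α i ^ 2 + ∑ j, β j ^ 2) - ker α e β f / (2 * δ) ≤
        ∑ i, α i ^ 2 * (⟪e i, x (e i)⟫_ℂ).re - ∑ j, β j ^ 2 * (⟪f j, x (f j)⟫_ℂ).re

/-- Diagonalisation of a finite rank density operator. -/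
def DiagSt : Prop :=
  ∀ (H : Type) [NormedAddCommGroup H] [InnerProductSpace ℂ H] [CompleteSpace H]
    (J : Type) [Fintype J] (l : J → ℝ) (ξ : J → H),
    (∀ j, 0 ≤ l j) → ∑ j, l j = 1 → (∀ j, ‖ξ j‖ = 1) →
    ∃ (n : ℕ) (α : Fin n → ℝ) (e : Fin n → H), (∀ i, 0 ≤ α i) ∧ (∀ i, ‖e i‖ = 1) ∧
      ∑ i, α i ^ 2 = 1 ∧ hsn α e = 1 ∧
      ∀ T : H →L[ℂ] H, ∑ j, l j * (⟪ξ j, T (ξ j)⟫_ℂ).re = ∑ i, α i ^ 2 * (⟪e i, T (e i)⟫_ℂ).re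

/-- Without an invariant state there is an arbitrarily large spectral gap. -/
def GapSt : Prop :=
  ∀ (H : Type) [NormedAddCommGroup H] [InnerProductSpace ℂ H] [CompleteSpace H]
    (S : Set (H →L[ℂ] H)), (∀ s ∈ S, s ∈ unitary (H →L[ℂ] H)) →
    (¬ ∃ ψ : (H →L[ℂ] H) →L[ℂ] ℂ, IsState ψ ∧ ∀ s ∈ S, ∀ T, ψ (s * T * star s) = ψ T) →
    ∀ ρ : ℝ, 0 < ρ →
    ∃ (F : Type) (_ : Fintype F) (w : F → ℝ) (g : F → H →L[ℂ] H),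
      (∀ a, 0 < w a) ∧ ∑ a, w a = 1 ∧ (∀ a, g a ∈ Submonoid.closure S) ∧ Gap w g ρ

/-- The step distribution of the random walk. -/
def WalkSt : Prop :=
  ∀ (H : Type) [NormedAddCommGroup H] [InnerProductSpace ℂ H] [CompleteSpace H]
    [TopologicalSpace.SeparableSpace H]
    (S : Set (H →L[ℂ] H)), (∀ s ∈ S, s ∈ unitary (H →L[ℂ] H)) →
    (¬ ∃ ψ : (H →L[ℂ] H) →L[ℂ] ℂ, IsState ψ ∧ ∀ s ∈ S, ∀ T, ψ (s * T * star s) = ψ T) →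
    ∀ ρ : ℝ, 0 < ρ →
    ∃ (A : Type) (_ : Countable A) (_ : MeasurableSpace A) (_ : DiscreteMeasurableSpace A)
      (μ : Measure A) (_ : IsProbabilityMeasure μ) (v : A → H →L[ℂ] H) (s : A → ℝ),
      (∀ a, μ {a} ≠ 0) ∧ (∀ a, v a ∈ Submonoid.closure S) ∧
      (∀ q : H →L[ℂ] H, (∀ a, q * v a = v a * q) → ∀ u ∈ S, q * u = u * q) ∧
      (∀ a, s a = 1 ∨ s a = -1) ∧ ∫ a, s a ∂μ = 0 ∧ WalkGap μ v ρ

/-- A minimax principle on the self-adjoint unit ball of a von Neumann algebra. -/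
def MinimaxSt : Prop :=
  ∀ (K : Type) [NormedAddCommGroup K] [InnerProductSpace ℂ K] [CompleteSpace K]
    (M : VonNeumannAlgebra K) (ι : Type) (η ζ : ι → K) (κ : ℝ),
    (∀ (J : Type) [Fintype J] (l : J → ℝ) (i : J → ι), (∀ j, 0 ≤ l j) → ∑ j, l j = 1 →
      ∃ x ∈ M, IsSelfAdjoint x ∧ ‖x‖ ≤ 1 ∧ κ ≤ ∑ j, l j * (⟪η (i j), x (ζ (i j))⟫_ℂ).re) →
    ∃ x ∈ M, IsSelfAdjoint x ∧ ‖x‖ ≤ 1 ∧ ∀ i, κ ≤ (⟪η i, x (ζ i)⟫_ℂ).re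

/-- The commutant of commuting projections and of a unitary permuting them is injective. -/
def InjSt : Prop :=
  ∀ (K : Type) [NormedAddCommGroup K] [InnerProductSpace ℂ K] [CompleteSpace K]
    (R : Set (K →L[ℂ] K)) (U : K →L[ℂ] K), (∀ p ∈ R, IsStarProjection p) →
    (∀ p ∈ R, ∀ q ∈ R, p * q = q * p) → U ∈ unitary (K →L[ℂ] K) →
    (∀ p ∈ R, U * p * star U ∈ R) → (∀ p ∈ R, star U * p * U ∈ R) →
    ∃ E : (K →L[ℂ] K) →L[ℂ] (K →L[ℂ] K), ‖E‖ ≤ 1 ∧ (∀ T, E T ∈ commOf (insert U R)) ∧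
      ∀ T ∈ commOf (insert U R), E T = T

end Pool.Agent.P.MP_7e3bdd_an.RW
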