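import Pool.Agent.P.MP_7e3bdd_an.RW.Irred
import Pool.Agent.P.MP_7e3bdd_an.RW.St

/-!
Decay of the overlaps along the walk, and the construction of test elements.
-/

set_option autoImplicit false

open scoped InnerProductSpace Topology ComplexConjugate ENNReal
open Filter MeasureTheory ProbabilityTheory

noncomputable section

namespace Pool.Agent.P.MP_7e3bdd_an.RW

variable {H : Type} [NormedAddCommGroup H] [InnerProductSpace ℂ H] [CompleteSpace H]
  {A : Type} [MeasurableSpace A] [Countable A] [DiscreteMeasurableSpace A]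
  {μ : Measure A} [IsProbabilityMeasure μ] {v : A → H →L[ℂ] H}

section Ker

variable {I J : Type} [Fintype I] [Fintype J]

theorem norm_ker_le (α : I → ℝ) (e : I → H) (β : J → ℝ) (f : J → H) :
    ‖ker α e β f‖ ≤ hsn α e * hsn β f := by
  obtain ⟨w, b, -⟩ := exists_hilbertBasis ℂ H
  rw [hsn_eq_norm b, hsn_eq_norm b]
  refine le_trans ?_ (norm_inner_le_norm (𝕜 := ℂ) (hsv b α e) (hsv b β f))
  rw [inner_hsv, Complex.norm_real]

omit [CompleteSpace H] in
theorem ker_comm (α : I → ℝ) (e : I → H) (β : J → ℝ) (f : J → H) :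
    ker α e β f = ker β f α e := by
  rw [ker, ker, Finset.sum_comm]
  refine Finset.sum_congr rfl fun j _ => Finset.sum_congr rfl fun i _ => ?_
  rw [norm_inner_symm, mul_comm (α i)]

omit [CompleteSpace H] in
theorem ker_nonneg {α : I → ℝ} (hα : ∀ i, 0 ≤ α i) (e : I → H) {β : J → ℝ} (hβ : ∀ j, 0 ≤ β j)
    (f : J → H) : 0 ≤ ker α e β f :=
  Finset.sum_nonneg fun i _ => Finset.sum_nonneg fun j _ => by
    have := hα i
    have := hβ j
    positivity

theorem good_ker (hv : ∀ a, v a ∈ unitary (H →L[ℂ] H)) (n m : ℕ) (α : I → ℝ) (e : I → H)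
    (β : J → ℝ) (f : J → H) :
    Good fun ω => ker α (fun i => ww v n ω (e i)) β (fun j => ww v m ω (f j)) := by
  refine ⟨sm_of_dep (W := Finset.Ico 0 (n + m : ℕ)) fun x y h => ?_, hsn α e * hsn β f,
    fun ω => ?_⟩
  · rw [ww_dep n (fun k hk => by simp only [Finset.mem_Ico]; omega) h,
      ww_dep m (fun k hk => by simp only [Finset.mem_Ico]; omega) h]
  · refine (norm_ker_le _ _ _ _).trans ?_
    rw [hsn_unitary (ww_unitary hv n ω), hsn_unitary (ww_unitary hv m ω)]

theorem walk_gap (hv : ∀ a, v a ∈ unitary (H →L[ℂ] H)) {ρ : ℝ} (hgap : WalkGap μ v ρ)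
    (α : I → ℝ) (e : I → H) (n d : ℕ) (J : Type) [Fintype J] (β : J → ℝ) (f : J → H) :
    ∫ ω, ker α (fun i => ww v n ω (e i)) β (fun j => ww v (n + d) ω (f j)) ∂PP μ ≤
      ρ ^ d * (hsn α e * hsn β f) := by
  obtain ⟨F, ρ₁, h0, h1, hF⟩ := hgap
  have hρ : 0 ≤ ρ := (add_nonneg h0 measureReal_nonneg).trans h1
  induction d generalizing J with
  | zero =>
    simp only [add_zero, ker_unitary (ww_unitary hv n _), pow_zero, one_mul]
    simpa using ker_le α e β f
  | succ d ih =>
    set G : (ℤ → A) → A → ℝ := fun ω a =>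
      ker α (fun i => ww v n ω (e i)) β (fun j => ww v (n + d) ω (v a (f j))) with hG
    have hb : ∀ ω a, ‖G ω a‖ ≤ hsn α e * hsn β f := fun ω a => by
      refine (norm_ker_le _ _ _ _).trans ?_
      rw [hsn_unitary (ww_unitary hv n ω), hsn_unitary (ww_unitary hv _ ω), hsn_unitary (hv a)]
    have hpeel := integral_peel (μ := μ) (W := Finset.Ico 0 (n + d : ℕ)) (k := (n + d : ℕ))
      (by simp) (G := G) (fun a x y h => by
        simp only [hG]
        rw [ww_dep n (fun k hk => by simp only [Finset.mem_Ico]; omega) h,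
          ww_dep (n + d) (fun k hk => by simp only [Finset.mem_Ico]; omega) h]) hb
    have hi : Integrable (fun a => ∫ ω, G ω a ∂PP μ) μ :=
      Integrable.of_bound AEStronglyMeasurable.of_discrete (hsn α e * hsn β f)
        (Eventually.of_forall fun a => by
          simpa using norm_integral_le_of_norm_le_const (μ := PP μ)
            (Eventually.of_forall fun ω => hb ω a))
    have hc : 0 ≤ ρ ^ d * (hsn α e * hsn β f) :=
      mul_nonneg (pow_nonneg hρ d) (mul_nonneg (hsn_nonneg _ _) (hsn_nonneg _ _))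
    have htail : ∫ a in (↑F : Set A)ᶜ, ∫ ω, G ω a ∂PP μ ∂μ ≤
        μ.real (↑F : Set A)ᶜ * (ρ ^ d * (hsn α e * hsn β f)) := by
      rw [← smul_eq_mul, ← setIntegral_const]
      refine setIntegral_mono hi.integrableOn (integrable_const _) fun a => ?_
      have := ih J β (fun j => v a (f j))
      rwa [hsn_unitary (hv a)] at this
    have hfin : ∫ a in (↑F : Set A), ∫ ω, G ω a ∂PP μ ∂μ ≤
        ρ₁ * (ρ ^ d * (hsn α e * hsn β f)) := by
      have h2 := ih (F × J) (fun p => μ.real {(p.1 : A)} * β p.2) (fun p => v p.1 (f p.2))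
      have h3 := hF J β f
      rw [setIntegral_finset _ hi.integrableOn, ← Finset.sum_coe_sort F]
      calc _ = ∑ a : F, ∫ ω, μ.real {(a : A)} * G ω a ∂PP μ := by
            simp only [smul_eq_mul, integral_const_mul]
        _ = ∫ ω, ∑ a : F, μ.real {(a : A)} * G ω a ∂PP μ :=
            (integral_finsetSum _ fun a _ =>
              ((good_ker hv n (n + d) α e β _).integrable _).const_mul _).symm
        _ = _ := by
            refine integral_congr_ae (Eventually.of_forall fun ω => ?_)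
            simp only [hG, ker, Fintype.sum_prod_type, Finset.mul_sum]
            rw [Finset.sum_comm]
            refine Finset.sum_congr rfl fun i _ => Finset.sum_congr rfl fun a _ =>
              Finset.sum_congr rfl fun j _ => ?_
            ring
        _ ≤ _ := h2
        _ ≤ ρ ^ d * (hsn α e * (ρ₁ * hsn β f)) := by
            have := hsn_nonneg α e
            gcongr
        _ = _ := by ring
    calc _ = ∫ ω, G ω (ω (n + d : ℕ)) ∂PP μ := rfl
      _ = _ := hpeel
      _ = _ := (integral_add_compl F.measurableSet hi).symm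
      _ ≤ (ρ₁ + μ.real (↑F : Set A)ᶜ) * (ρ ^ d * (hsn α e * hsn β f)) := by
          rw [add_mul]
          exact add_le_add hfin htail
      _ ≤ ρ * (ρ ^ d * (hsn α e * hsn β f)) := by gcongr
      _ = _ := by ring

end Ker

theorem geom_le {ρ : ℝ} (h0 : 0 ≤ ρ) (h1 : ρ ≤ 1 / 2) (L : ℕ) :
    ∑ m ∈ Finset.range L, ρ ^ (L - m) ≤ 2 * ρ := by
  induction L with
  | zero => simpa using h0
  | succ L ih =>
    rw [Finset.sum_range_succ]
    have : ∑ m ∈ Finset.range L, ρ ^ (L + 1 - m) = ρ * ∑ m ∈ Finset.range L, ρ ^ (L - m) := by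
      rw [Finset.mul_sum]
      refine Finset.sum_congr rfl fun m hm => ?_
      rw [Finset.mem_range] at hm
      rw [← pow_succ']
      congr 1
      omega
    rw [this, Nat.add_sub_cancel_left, pow_one]
    nlinarith

theorem double_sum_le {ρ : ℝ} (h0 : 0 ≤ ρ) (h1 : ρ ≤ 1 / 2) {c : ℕ → ℕ → ℝ}
    (hd : ∀ m, c m m ≤ 0) (hc : ∀ m k, m < k → c m k ≤ ρ ^ (k - m) ∧ c k m ≤ ρ ^ (k - m))
    (L : ℕ) : ∑ m ∈ Finset.range L, ∑ k ∈ Finset.range L, c m k ≤ 4 * ρ * L := by
  induction L with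
  | zero => simp
  | succ L ih =>
    simp only [Finset.sum_range_succ, Finset.sum_add_distrib]
    have h2 : ∑ m ∈ Finset.range L, c m L ≤ 2 * ρ :=
      (Finset.sum_le_sum fun m hm => (hc m L (Finset.mem_range.1 hm)).1).trans (geom_le h0 h1 L)
    have h3 : ∑ m ∈ Finset.range L, c L m ≤ 2 * ρ :=
      (Finset.sum_le_sum fun m hm => (hc m L (Finset.mem_range.1 hm)).2).trans (geom_le h0 h1 L)
    have := hd L
    push_cast
    linarith

/-- The sign of the letter at position `k`, as a scalar operator. -/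
def sg (H : Type) [NormedAddCommGroup H] [InnerProductSpace ℂ H] (s : A → ℝ) (k : ℤ)
    (ω : ℤ → A) : H →L[ℂ] H := (s (ω k) : ℂ) • 1

omit [CompleteSpace H] in
theorem good_sg {s : A → ℝ} (hs : ∀ a, s a = 1 ∨ s a = -1) (k : ℤ) : Good (sg H s k) := by
  refine ⟨(StronglyMeasurable.of_discrete (f := fun a => (s a : ℂ) • (1 : H →L[ℂ] H))).comp_measurable
    (measurable_pi_apply k), 1, fun ω => ?_⟩
  rw [sg, norm_smul, Complex.norm_real]
  have h1 : ‖s (ω k)‖ = 1 := by rcases hs (ω k) with h | h <;> simp [h]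
  rw [h1, one_mul]
  exact ContinuousLinearMap.norm_id_le

theorem cmp_conj (hv : ∀ a, v a ∈ unitary (H →L[ℂ] H)) {s : A → ℝ}
    (hs : ∀ a, s a = 1 ∨ s a = -1) {y : (ℤ → A) → H →L[ℂ] H} (hy : Good y) (m : ℕ) :
    cmp (PP μ) (fld (PP μ) (sg H s 0) * (star (UU μ v ^ m) * fld (PP μ) y * UU μ v ^ m)) =
      ∫ ω, sg H s m ω * (star (ww v m ω) * y ω * ww v m ω) ∂PP μ := by
  have hS : ∀ Z, cmp (PP μ) (SS (H := H) μ (-m) * Z) = cmp (PP μ) Z := fun Z => by
    have := cmp_SS_mul m (star Z)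
    rw [← neg_neg (m : ℤ), ← star_SS, ← star_mul, cmp_star, cmp_star] at this
    exact star_injective this
  have h1 : fld (PP μ) (sg H s 0) * SS μ (-m) = SS μ (-m) * fld (PP μ) (sg H s m) := by
    rw [SS_fld _ (good_sg hs m)]
    congr 2
    funext ω
    simp [sg, sh]
  have gw := good_ww hv m
  rw [← cmp_fld ((good_sg hs m).mul ((gw.star.mul hy).mul gw)), UU_pow hv, star_mul, star_SS,
    fld_mul (good_sg hs m) ((gw.star.mul hy).mul gw), fld_mul (gw.star.mul hy) gw,
    fld_mul gw.star hy, fld_star gw]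
  simp only [← mul_assoc]
  rw [cmp_SS_mul, h1]
  simp only [mul_assoc]
  rw [hS]

theorem dec_conj (hv : ∀ a, v a ∈ unitary (H →L[ℂ] H)) {Z : Lp H 2 (PP μ) →L[ℂ] Lp H 2 (PP μ)}
    (hZ : Dec Z) (m : ℕ) : Dec (star (UU μ v ^ m) * Z * UU μ v ^ m) := by
  induction m with
  | zero => simpa using hZ
  | succ m ih =>
    intro B hB
    have h1 := UU_EE (μ := μ) hv hB
    have h2 := congrArg star h1
    rw [star_mul, star_mul, star_EE hB, star_EE (measurable_sh 1 hB)] at h2
    have h3 := ih _ (measurable_sh 1 hB)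
    rw [pow_succ, star_mul]
    calc _ = (EE (PP μ) B * star (UU μ v)) * (star (UU μ v ^ m) * Z * UU μ v ^ m) * UU μ v := by
          simp only [mul_assoc]
      _ = star (UU μ v) * (star (UU μ v ^ m) * Z * UU μ v ^ m) *
          (EE (PP μ) (sh 1 ⁻¹' B) * UU μ v) := by
          rw [h2, mul_assoc (star (UU μ v)), h3]
          simp only [mul_assoc]
      _ = _ := by
          rw [← h1]
          simp only [mul_assoc]

/-- The pointwise separation of the positive from the negative positions of the walk. -/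
theorem exists_sep_field (sep : SepSt) (hv : ∀ a, v a ∈ unitary (H →L[ℂ] H)) {s : A → ℝ}
    (hs : ∀ a, s a = 1 ∨ s a = -1) {δ : ℝ} (hδ : 0 < δ) {I : Type} [Fintype I] {α : I → ℝ}
    {e : I → H} (hα : ∀ i, 0 ≤ α i) (he : ∀ i, ‖e i‖ = 1) (hα1 : ∑ i, α i ^ 2 = 1) (L : ℕ) :
    ∃ y : (ℤ → A) → H →L[ℂ] H, Good y ∧ ∀ ω, IsSelfAdjoint (y ω) ∧ ‖y ω‖ ≤ 1 ∧
      (1 - 2 * δ) * L - (∑ m ∈ Finset.range L, ∑ k ∈ Finset.range L, if m = k then 0 else
        ker α (fun i => ww v m ω (e i)) α (fun i => ww v k ω (e i))) / (2 * δ) ≤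
      ∑ m ∈ Finset.range L, ∑ i, α i ^ 2 *
        (⟪e i, (sg H s m ω * (star (ww v m ω) * y ω * ww v m ω)) (e i)⟫_ℂ).re := by
  set p : (ℤ → A) → (H →L[ℂ] H) → Prop := fun ω x => IsSelfAdjoint x ∧ ‖x‖ ≤ 1 ∧
      (1 - 2 * δ) * L - (∑ m ∈ Finset.range L, ∑ k ∈ Finset.range L, if m = k then 0 else
        ker α (fun i => ww v m ω (e i)) α (fun i => ww v k ω (e i))) / (2 * δ) ≤
      ∑ m ∈ Finset.range L, ∑ i, α i ^ 2 *
        (⟪e i, (sg H s m ω * (star (ww v m ω) * x * ww v m ω)) (e i)⟫_ℂ).re with hp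
  have hex : ∀ ω, ∃ x, p ω x := fun ω => by
    have h1 : ∀ m : Fin L, 0 ≤ (1 + s (ω (m : ℕ))) / 2 := fun m => by
      rcases hs (ω (m : ℕ)) with h | h <;> simp [h]
    have h2 : ∀ m : Fin L, 0 ≤ (1 - s (ω (m : ℕ))) / 2 := fun m => by
      rcases hs (ω (m : ℕ)) with h | h <;> simp [h]
    have hn : ∀ q : Fin L × I, ‖ww v q.1 ω (e q.2)‖ = 1 := fun q => by
      rw [ContinuousLinearMap.norm_map_of_mem_unitary (ww_unitary hv _ _), he]
    obtain ⟨x, hx1, hx2, hx3⟩ := sep H (Fin L × I) (Fin L × I)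
      (fun q => (1 + s (ω (q.1 : ℕ))) / 2 * α q.2) (fun q => ww v q.1 ω (e q.2))
      (fun q => (1 - s (ω (q.1 : ℕ))) / 2 * α q.2) (fun q => ww v q.1 ω (e q.2)) δ
      (fun q => mul_nonneg (h1 _) (hα _)) (fun q => mul_nonneg (h2 _) (hα _)) hn hn hδ
    refine ⟨x, hx1, hx2, le_trans ?_ (hx3.trans (le_of_eq ?_))⟩
    · refine sub_le_sub (le_of_eq ?_) (div_le_div_of_nonneg_right ?_ (by positivity))
      · congr 1
        rw [← Finset.sum_add_distrib, Fintype.sum_prod_type]
        rw [Finset.sum_congr rfl (g := fun _ => (1 : ℝ)) fun m _ => ?_]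
        · simp
        · refine Eq.trans (Finset.sum_congr rfl fun i _ => ?_) hα1
          rcases hs (ω (m : ℕ)) with h | h <;> simp [h]
      · rw [Finset.sum_range, ker, Fintype.sum_prod_type]
        refine Finset.sum_le_sum fun m _ => ?_
        rw [Finset.sum_range]
        simp only [Fintype.sum_prod_type]
        rw [Finset.sum_comm]
        refine Finset.sum_le_sum fun k _ => ?_
        have h3 : ∑ i, ∑ j, (1 + s (ω (m : ℕ))) / 2 * α i * ((1 - s (ω (k : ℕ))) / 2 * α j) *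
            ‖⟪ww v m ω (e i), ww v k ω (e j)⟫_ℂ‖ ^ 2 =
            ((1 + s (ω (m : ℕ))) / 2 * ((1 - s (ω (k : ℕ))) / 2)) *
              ker α (fun i => ww v m ω (e i)) α (fun i => ww v k ω (e i)) := by
          simp only [ker, Finset.mul_sum]
          refine Finset.sum_congr rfl fun i _ => Finset.sum_congr rfl fun j _ => ?_
          ring
        rw [h3]
        have h4 := ker_nonneg hα (fun i => ww v m ω (e i)) hα (fun i => ww v k ω (e i))
        split_ifs with hmk
        · rw [hmk]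
          rcases hs (ω (k : ℕ)) with h | h <;> simp [h]
        · refine mul_le_of_le_one_left h4 ?_
          rcases hs (ω (m : ℕ)) with h | h <;> rcases hs (ω (k : ℕ)) with h' | h' <;>
            simp [h, h']
    · rw [← Finset.sum_sub_distrib, Fintype.sum_prod_type, Finset.sum_range]
      refine Finset.sum_congr rfl fun m _ => Finset.sum_congr rfl fun i _ => ?_
      have h3 : ⟪e i, (sg H s (m : ℕ) ω * (star (ww v m ω) * x * ww v m ω)) (e i)⟫_ℂ =
          (s (ω (m : ℕ)) : ℂ) * ⟪ww v m ω (e i), x (ww v m ω (e i))⟫_ℂ := by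
        simp [sg, ContinuousLinearMap.star_eq_adjoint,
          ContinuousLinearMap.adjoint_inner_right]
      rw [h3, Complex.re_ofReal_mul]
      rcases hs (ω (m : ℕ)) with h | h <;> simp [h]
  have hdep : DependsOn p (Finset.Ico (0 : ℤ) L : Finset ℤ) := fun x y h => by
    have hw : ∀ m ∈ Finset.range L, ww v m x = ww v m y := fun m hm =>
      ww_dep m (fun k hk => by
        rw [Finset.mem_range] at hm
        simp only [Finset.mem_Ico]
        omega) h
    have hsg : ∀ m ∈ Finset.range L, sg H s m x = sg H s m y := fun m hm => by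
      rw [sg, sg, h m (by simpa using hm)]
    funext z
    simp only [hp]
    rw [Finset.sum_congr rfl fun m hm => Finset.sum_congr rfl fun k hk => by
        rw [hw m hm, hw k hk],
      Finset.sum_congr rfl (s₁ := Finset.range L) (f := fun m : ℕ => ∑ i, α i ^ 2 *
        (⟪e i, (sg H s m x * (star (ww v m x) * z * ww v m x)) (e i)⟫_ℂ).re) fun m hm => by
        rw [hw m hm, hsg m hm]]
  have hy : ∀ ω, p ω (Classical.epsilon (p ω)) := fun ω => Classical.epsilon_spec (hex ω)
  exact ⟨fun ω => Classical.epsilon (p ω),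
    ⟨sm_of_dep (W := Finset.Ico (0 : ℤ) L) fun x y h => by simp only [hdep h], 1,
      fun ω => (hy ω).2.1⟩, hy⟩

theorem exists_test_approx (sep : SepSt) (hv : ∀ a, v a ∈ unitary (H →L[ℂ] H)) {s : A → ℝ}
    (hs : ∀ a, s a = 1 ∨ s a = -1) {δ : ℝ} (hδ : 0 < δ) (hδ1 : δ ≤ 1 / 2)
    (hgap : WalkGap μ v (δ ^ 2)) {I : Type} [Fintype I] {α : I → ℝ}
    {e : I → H} (hα : ∀ i, 0 ≤ α i) (he : ∀ i, ‖e i‖ = 1) (hα1 : ∑ i, α i ^ 2 = 1)
    (hn : hsn α e = 1) (L : ℕ) :
    ∃ x : Lp H 2 (PP μ) →L[ℂ] Lp H 2 (PP μ), Dec x ∧ IsSelfAdjoint x ∧ ‖x‖ ≤ L ∧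
      ‖UU μ v * x - x * UU μ v‖ ≤ 2 ∧ (1 - 4 * δ) * L ≤
        ∑ i, α i ^ 2 * (⟪e i, cmp (PP μ) (fld (PP μ) (sg H s 0) * x) (e i)⟫_ℂ).re := by
  obtain ⟨y, hy, hy'⟩ := exists_sep_field sep hv hs hδ hα he hα1 L
  have hU := UU_unitary (μ := μ) hv
  set z : ℕ → Lp H 2 (PP μ) →L[ℂ] Lp H 2 (PP μ) :=
    fun m => star (UU μ v ^ m) * fld (PP μ) y * UU μ v ^ m with hz
  have hz1 : ∀ m, ‖z m‖ ≤ 1 := fun m => by
    have h1 := norm_le_one_of_unitary (pow_mem hU m)
    have h2 : ‖fld (PP μ) y‖ ≤ 1 := norm_fld_le hy zero_le_one fun ω => (hy' ω).2.1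
    have h3 := norm_le_one_of_unitary (Unitary.star_mem (pow_mem hU m))
    exact (norm_mul₃_le).trans (mul_le_one₀ (mul_le_one₀ h3 (norm_nonneg _) h2) (norm_nonneg _) h1)
  have hsa : IsSelfAdjoint (fld (PP μ) y) := by
    rw [IsSelfAdjoint, ← fld_star hy]
    simp only [(hy' _).1.star_eq]
  refine ⟨∑ m ∈ Finset.range L, z m, fun B hB => ?_, ?_, ?_, ?_, ?_⟩
  · rw [Finset.mul_sum, Finset.sum_mul]
    exact Finset.sum_congr rfl fun m _ => dec_conj hv (fun B hB => EE_comm_fld hB hy) m B hB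
  · exact isSelfAdjoint_sum _ fun m _ => hsa.conjugate' _
  · refine (norm_sum_le _ _).trans ?_
    simpa using Finset.sum_le_sum fun m (_ : m ∈ Finset.range L) => hz1 m
  · have h1 : ∀ m, z m * UU μ v = UU μ v * z (m + 1) := fun m => by
      simp only [hz, pow_succ, star_mul, ← mul_assoc, Unitary.mul_star_self_of_mem hU, one_mul]
    rw [Finset.mul_sum, Finset.sum_mul, ← Finset.sum_sub_distrib]
    simp only [h1]
    rw [Finset.sum_range_sub' (fun m => UU μ v * z m), ← mul_sub]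
    refine (norm_mul_le _ _).trans ?_
    have h2 := norm_sub_le (z 0) (z L)
    have h3 := norm_le_one_of_unitary hU
    nlinarith [hz1 0, hz1 L, norm_nonneg (z 0 - z L)]
  · have gh : ∀ m : ℕ, Good fun ω => sg H s m ω * (star (ww v m ω) * y ω * ww v m ω) := fun m =>
      (good_sg hs m).mul (((good_ww hv m).star.mul hy).mul (good_ww hv m))
    have ih : ∀ (m : ℕ) i, Integrable (fun ω => α i ^ 2 *
        (⟪e i, (sg H s m ω * (star (ww v m ω) * y ω * ww v m ω)) (e i)⟫_ℂ).re) (PP μ) :=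
      fun m i => (((((gh m).integrable _).apply_continuousLinearMap (e i)).const_inner
        (𝕜 := ℂ) (e i)).re).const_mul _
    have ik : ∀ m k : ℕ, Integrable (fun ω => if m = k then 0 else
        ker α (fun i => ww v m ω (e i)) α (fun i => ww v k ω (e i))) (PP μ) := fun m k => by
      split_ifs
      · exact integrable_const _
      · exact (good_ker hv m k α e α e).integrable _
    have hval : ∑ i, α i ^ 2 * (⟪e i, cmp (PP μ) (fld (PP μ) (sg H s 0) *
        ∑ m ∈ Finset.range L, z m) (e i)⟫_ℂ).re = ∫ ω, ∑ m ∈ Finset.range L, ∑ i, α i ^ 2 *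
        (⟪e i, (sg H s m ω * (star (ww v m ω) * y ω * ww v m ω)) (e i)⟫_ℂ).re ∂PP μ := by
      rw [integral_finsetSum _ fun m _ => integrable_finsetSum _ fun i _ => ih m i]
      simp only [integral_finsetSum _ fun i _ => ih _ i]
      rw [Finset.sum_comm]
      refine Finset.sum_congr rfl fun i _ => ?_
      rw [inner_cmp, Finset.mul_sum, sum_apply, inner_sum, Complex.re_sum,
        Finset.mul_sum]
      refine Finset.sum_congr rfl fun m _ => ?_
      rw [← inner_cmp, cmp_conj hv hs hy, inner_integral_op ((gh m).integrable _),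
        integral_const_mul]
      congr 1
      exact (Complex.reCLM.integral_comp_comm
        ((((gh m).integrable _).apply_continuousLinearMap (e i)).const_inner (e i))).symm
    have hD : ∫ ω, ∑ m ∈ Finset.range L, ∑ k ∈ Finset.range L, (if m = k then 0 else
        ker α (fun i => ww v m ω (e i)) α (fun i => ww v k ω (e i))) ∂PP μ ≤ 4 * δ ^ 2 * L := by
      rw [integral_finsetSum _ fun m _ => integrable_finsetSum _ fun k _ => ik m k]
      simp only [integral_finsetSum _ fun k _ => ik _ k]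
      refine double_sum_le (by positivity) (by nlinarith) (fun m => by simp) (fun m k hmk => ?_) L
      have h1 := walk_gap hv hgap α e m (k - m) I α e
      rw [Nat.add_sub_cancel' hmk.le, hn, mul_one, mul_one] at h1
      simp only [hmk.ne, hmk.ne', if_false]
      exact ⟨h1, by simpa only [ker_comm α (fun i => ww v k _ (e i))] using h1⟩
    have iD := integrable_finsetSum (μ := PP μ) (Finset.range L) fun m _ =>
      integrable_finsetSum (Finset.range L) fun k _ => ik m k
    have hmono := integral_mono ((integrable_const ((1 - 2 * δ) * L)).sub' (iD.div_const (2 * δ)))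
      (integrable_finsetSum (Finset.range L) fun m _ => integrable_finsetSum _ fun i _ => ih m i)
      fun ω => (hy' ω).2.2
    rw [integral_sub (integrable_const _) (iD.div_const _), integral_div, integral_const,
      probReal_univ, one_smul] at hmono
    rw [hval]
    refine le_trans ?_ hmono
    have h2 := div_le_div_of_nonneg_right hD (by positivity : 0 ≤ 2 * δ)
    have h3 : 4 * δ ^ 2 * L / (2 * δ) = 2 * δ * L := by field_simp; ring
    linarith

theorem exists_test (sep : SepSt) (hv : ∀ a, v a ∈ unitary (H →L[ℂ] H)) {s : A → ℝ}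
    (hs : ∀ a, s a = 1 ∨ s a = -1) {δ : ℝ} (hδ : 0 < δ) (hδ1 : δ ≤ 1 / 2)
    (hgap : WalkGap μ v (δ ^ 2)) {I : Type} [Fintype I] {α : I → ℝ}
    {e : I → H} (hα : ∀ i, 0 ≤ α i) (he : ∀ i, ‖e i‖ = 1) (hα1 : ∑ i, α i ^ 2 = 1)
    (hn : hsn α e = 1) :
    ∃ x ∈ MM μ v, IsSelfAdjoint x ∧ ‖x‖ ≤ 1 ∧ 1 - 4 * δ ≤
      ∑ i, α i ^ 2 * (⟪VV (PP μ) (e i), fld (PP μ) (sg H s 0) (x (VV (PP μ) (e i)))⟫_ℂ).re := by
  choose X h1 h2 h3 h4 h5 using fun L : ℕ =>
    exists_test_approx sep hv hs hδ hδ1 hgap hα he hα1 hn (L + 1)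
  set Y : ℕ → Lp H 2 (PP μ) →L[ℂ] Lp H 2 (PP μ) :=
    fun L => ((((L : ℝ) + 1)⁻¹ : ℝ) : ℂ) • X L with hY
  have hpos : ∀ L : ℕ, (0 : ℝ) < (L : ℝ) + 1 := fun L => by positivity
  have hY1 : ∀ L, ‖Y L‖ ≤ 1 := fun L => by
    rw [hY, norm_smul, Complex.norm_real, Real.norm_of_nonneg (inv_nonneg.2 (hpos L).le),
      inv_mul_le_iff₀ (hpos L), mul_one]
    exact_mod_cast h3 L
  obtain ⟨x, hx⟩ := exists_wlim (hyperfilter ℕ) Y 1 hY1
  refine ⟨x, (mem_MM (UU_unitary hv) x).2 ⟨hx.comm_of_norm _ ?_, fun B hB => hx.comm _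
    (Eventually.of_forall fun L => ?_)⟩, hx.isSelfAdjoint fun L => ?_,
    hx.norm_le 1 zero_le_one hY1, ?_⟩
  · have h6 : Tendsto (fun L : ℕ => 1 / ((L : ℝ) + 1) * 2) atTop (𝓝 0) := by
      simpa using (tendsto_one_div_add_atTop_nhds_zero_nat (𝕜 := ℝ)).mul_const 2
    refine squeeze_zero (fun _ => norm_nonneg _) (fun L => ?_)
      (h6.mono_left Nat.hyperfilter_le_atTop)
    rw [hY, mul_smul_comm, smul_mul_assoc, ← smul_sub, norm_smul, Complex.norm_real,
      Real.norm_of_nonneg (inv_nonneg.2 (hpos L).le), one_div]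
    exact mul_le_mul_of_nonneg_left (h4 L) (inv_nonneg.2 (hpos L).le)
  · rw [hY, mul_smul_comm, smul_mul_assoc, h1 L B hB]
  · exact IsSelfAdjoint.smul (Complex.conj_ofReal _) (h2 L)
  · have h6 := hx.mul_mul (fld (PP μ) (sg H s 0)) 1
    simp only [mul_one] at h6
    refine ge_of_tendsto' (tendsto_finsetSum _ fun i _ =>
      ((Complex.continuous_re.tendsto _).comp (h6 (VV (PP μ) (e i)) (VV (PP μ) (e i)))).const_mul
        (α i ^ 2)) fun L => ?_
    have h7 := h5 L
    simp only [inner_cmp] at h7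
    simp only [Function.comp_apply, hY, mul_smul_comm, smul_apply,
      inner_smul_right, Complex.re_ofReal_mul, mul_left_comm (α _ ^ 2), ← Finset.mul_sum]
    rw [le_inv_mul_iff₀ (hpos L), mul_comm]
    exact_mod_cast h7

end Pool.Agent.P.MP_7e3bdd_an.RW
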