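import Pool.Agent.P.MP_7e3bdd_an.RW.St2
import Pool.Agent.P.MP_7e3bdd_an.RW.Sep
import Pool.Agent.P.MP_7e3bdd_an.RW.Test

/-!
The value of the test fields of the tower.
-/

set_option autoImplicit false

open scoped InnerProductSpace BigOperators

noncomputable section

namespace Pool.Agent.P.MP_7e3bdd_an.RW

variable {H : Type} [NormedAddCommGroup H] [InnerProductSpace ℂ H] [CompleteSpace H]
  {X : ℕ → Type} {c : ∀ k, X k → X (k + 1) → H →L[ℂ] H}

theorem val_aH_unitary (hc : ∀ k x y, c k x y ∈ unitary (H →L[ℂ] H)) :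
    ∀ (k : ℕ) (h : Hd X k) (x : X k), aH c k h x ∈ unitary (H →L[ℂ] H)
  | 0, _, _ => one_mem _
  | k + 1, h, y => mul_mem (hc k h.2 y) (val_aH_unitary hc k h.1 h.2)

theorem val_sgH {s : X 0 → ℝ} (hs : ∀ x, s x = 1 ∨ s x = -1) :
    ∀ (k : ℕ) (h : Hd X (k + 1)), sgH s k h = 1 ∨ sgH s k h = -1
  | 0, h => hs h.2
  | k + 1, h => val_sgH hs k h.1

variable [∀ k, Fintype (X k)] [∀ k, AddCommGroup (X k)]

theorem val_step (hc : ∀ k x y, c k x y ∈ unitary (H →L[ℂ] H)) {δ : ℝ} (ho : Orth c δ)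
    {I : Type} [Fintype I] {α : I → ℝ} {e : I → H} (hα : ∀ i, 0 ≤ α i) (h1 : hsn α e = 1) (k : ℕ)
    (P Q : Hd X (k + 1) → ℝ) (P1 : ∀ h, P h ≤ 1) (Q0 : ∀ h, 0 ≤ Q h)
    (Q1 : ∀ h, Q h ≤ 1) :
    𝔼 y : X (k + 1), ∑ h, ∑ h', P h * Q h' *
        ker α (fun i => aH c (k + 1) h y (e i)) α (fun i => aH c (k + 1) h' y (e i)) ≤
      ∑ x : X k, ∑ h : Hd X k, ∑ h' : Hd X k, P (h, x) * Q (h', x) *
        ker α (fun i => aH c k h x (e i)) α (fun i => aH c k h' x (e i)) +
      Fintype.card (Hd X (k + 1)) * (2 * δ ^ 2 / 2 ^ k) := by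
  classical
  have N0 : (0 : ℝ) < Fintype.card (Hd X (k + 1)) := by exact_mod_cast Fintype.card_pos
  have key : ∀ h h' : Hd X (k + 1), 𝔼 y : X (k + 1), P h * Q h' *
      ker α (fun i => aH c (k + 1) h y (e i)) α (fun i => aH c (k + 1) h' y (e i)) ≤
      (if h.2 = h'.2 then P h * Q h' *
        ker α (fun i => aH c k h.1 h.2 (e i)) α (fun i => aH c k h'.1 h'.2 (e i)) else 0) +
      2 * δ ^ 2 / 2 ^ k / Fintype.card (Hd X (k + 1)) := by
    rintro ⟨h, x⟩ ⟨h', x'⟩
    by_cases hx : x = x'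
    · subst hx
      rw [if_pos rfl]
      refine le_add_of_le_of_nonneg (le_of_eq ?_) (by positivity)
      refine (Finset.expect_congr rfl fun y _ => ?_).trans (Fintype.expect_const _)
      congr 1
      exact ker_unitary (hc k x y) α (fun i => aH c k h x (e i)) α (fun i => aH c k h' x (e i))
    · rw [if_neg hx, zero_add, le_div_iff₀' N0]
      have := ho k x x' hx I I α (fun i => aH c k h x (e i)) α (fun i => aH c k h' x' (e i))
      rw [hsn_unitary (val_aH_unitary hc k h x), hsn_unitary (val_aH_unitary hc k h' x'), h1,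
        mul_one, mul_one] at this
      refine le_trans (mul_le_mul_of_nonneg_left (Finset.expect_le_expect fun y _ => ?_) N0.le) this
      exact mul_le_of_le_one_left (ker_nonneg hα _ hα _)
        (mul_le_one₀ (P1 _) (Q0 _) (Q1 _))
  rw [Finset.expect_sum_comm]
  refine (Finset.sum_le_sum fun h _ => (Finset.expect_sum_comm _ _ _).trans_le
    (Finset.sum_le_sum fun h' _ => key h h')).trans (le_of_eq ?_)
  simp only [Finset.sum_add_distrib, Finset.sum_const, Finset.card_univ, nsmul_eq_mul]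
  congr 1
  · rw [sum_hd_succ, Finset.sum_comm]
    refine Finset.sum_congr rfl fun x _ => Finset.sum_congr rfl fun h _ => ?_
    rw [sum_hd_succ]
    refine Finset.sum_congr rfl fun h' _ => ?_
    simp only [Finset.sum_ite_eq, Finset.mem_univ, if_true]
  · field_simp

theorem val_bound (hc : ∀ k x y, c k x y ∈ unitary (H →L[ℂ] H)) {δ : ℝ} (ho : Orth c δ)
    {s : X 0 → ℝ} (hs : ∀ x, s x = 1 ∨ s x = -1)
    {I : Type} [Fintype I] {α : I → ℝ} {e : I → H} (hα : ∀ i, 0 ≤ α i) (h1 : hsn α e = 1) (k : ℕ) :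
    𝔼 y : X (k + 1), ∑ h, ∑ h', (1 + sgH s k h) / 2 * ((1 - sgH s k h') / 2) *
        ker α (fun i => aH c (k + 1) h y (e i)) α (fun i => aH c (k + 1) h' y (e i)) ≤
      Fintype.card (Hd X (k + 1)) * (4 * δ ^ 2 - 2 * δ ^ 2 / 2 ^ k) := by
  have b : ∀ (k : ℕ) (h : Hd X (k + 1)), (0 ≤ (1 + sgH s k h) / 2 ∧ (1 + sgH s k h) / 2 ≤ 1) ∧
      (0 ≤ (1 - sgH s k h) / 2 ∧ (1 - sgH s k h) / 2 ≤ 1) := fun k h => by
    rcases val_sgH hs k h with e | e <;> rw [e] <;> norm_num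
  induction k with
  | zero =>
    refine (val_step hc ho hα h1 0 _ _ (fun h => (b 0 h).1.2)
      (fun h => (b 0 h).2.1) fun h => (b 0 h).2.2).trans (le_of_eq ?_)
    rw [Finset.sum_eq_zero fun x _ => Finset.sum_eq_zero fun h _ =>
      Finset.sum_eq_zero fun h' _ => ?_]
    · ring
    · change (1 + s x) / 2 * ((1 - s x) / 2) * _ = 0
      rcases hs x with e | e <;> simp [e]
  | succ k ih =>
    refine (val_step hc ho hα h1 (k + 1) _ _ (fun h => (b _ h).1.2)
      (fun h => (b _ h).2.1) fun h => (b _ h).2.2).trans ?_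
    have := mul_le_mul_of_nonneg_left ih (Nat.cast_nonneg (Fintype.card (X (k + 1))))
    rw [Fintype.card_mul_expect] at this
    refine (add_le_add_left this _).trans (le_of_eq ?_)
    rw [card_hd_succ (k + 1)]
    push_cast
    ring

omit [∀ k, Fintype (X k)] [∀ k, AddCommGroup (X k)] in
theorem val_sep {G : Type} [Fintype G] {a : G → H →L[ℂ] H}
    (ha : ∀ g, a g ∈ unitary (H →L[ℂ] H)) {σ : G → ℝ} (hσ : ∀ g, σ g = 1 ∨ σ g = -1) {δ : ℝ}
    (hδ : 0 < δ) {I : Type} [Fintype I] {α : I → ℝ} {e : I → H} (hα : ∀ i, 0 ≤ α i)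
    (he : ∀ i, ‖e i‖ = 1) (hα1 : ∑ i, α i ^ 2 = 1) :
    ∃ y : H →L[ℂ] H, (IsSelfAdjoint y ∧ ‖y‖ ≤ 1) ∧
      (1 - 2 * δ) * Fintype.card G - (∑ g, ∑ g', (1 + σ g) / 2 * ((1 - σ g') / 2) *
        ker α (fun i => a g (e i)) α (fun i => a g' (e i))) / (2 * δ) ≤
      ∑ g, σ g * ∑ i, α i ^ 2 * (⟪a g (e i), y (a g (e i))⟫_ℂ).re := by
  have h1 : ∀ g, 0 ≤ (1 + σ g) / 2 := fun g => by rcases hσ g with h | h <;> simp [h]
  have h2 : ∀ g, 0 ≤ (1 - σ g) / 2 := fun g => by rcases hσ g with h | h <;> simp [h]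
  have hn : ∀ q : G × I, ‖a q.1 (e q.2)‖ = 1 := fun q => by
    rw [ContinuousLinearMap.norm_map_of_mem_unitary (ha _), he]
  obtain ⟨x, hx1, hx2, hx3⟩ := sepSt H (G × I) (G × I)
    (fun q => (1 + σ q.1) / 2 * α q.2) (fun q => a q.1 (e q.2))
    (fun q => (1 - σ q.1) / 2 * α q.2) (fun q => a q.1 (e q.2)) δ
    (fun q => mul_nonneg (h1 _) (hα _)) (fun q => mul_nonneg (h2 _) (hα _)) hn hn hδ
  refine ⟨x, ⟨hx1, hx2⟩, (le_of_eq ?_).trans (hx3.trans (le_of_eq ?_))⟩
  · congr 2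
    · rw [← Finset.sum_add_distrib, Fintype.sum_prod_type]
      rw [Finset.sum_congr rfl (g := fun _ => (1 : ℝ)) fun m _ => ?_]
      · simp
      · refine Eq.trans (Finset.sum_congr rfl fun i _ => ?_) hα1
        rcases hσ m with h | h <;> simp [h]
    · rw [ker, Fintype.sum_prod_type]
      refine Finset.sum_congr rfl fun g _ => ?_
      simp only [Fintype.sum_prod_type]
      rw [Finset.sum_comm]
      refine Finset.sum_congr rfl fun g' _ => ?_
      simp only [ker, Finset.mul_sum]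
      refine Finset.sum_congr rfl fun i _ => Finset.sum_congr rfl fun j _ => ?_
      ring
  · rw [← Finset.sum_sub_distrib, Fintype.sum_prod_type]
    refine Finset.sum_congr rfl fun g _ => ?_
    rw [Finset.mul_sum]
    refine Finset.sum_congr rfl fun i _ => ?_
    rcases hσ g with h | h <;> simp [h]

theorem valSt : ValSt := by
  intro H _ _ _ X _ _ c s δ hδ hc hs ho I _ α e hα he hα1 h1 k
  choose y hy hy' using fun x : X (k + 1) => val_sep (a := fun h => aH c (k + 1) h x)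
    (fun h => val_aH_unitary hc (k + 1) h x) (val_sgH hs k) hδ hα he hα1
  refine ⟨y, hy, ?_⟩
  have N0 : (0 : ℝ) < Fintype.card (Hd X (k + 1)) := by exact_mod_cast Fintype.card_pos
  refine le_of_mul_le_mul_left ?_ N0
  rw [Fintype.card_mul_expect, ← Finset.expect_sum_comm]
  refine le_trans ?_ (Finset.expect_le_expect fun x _ => hy' x)
  rw [Finset.expect_sub_distrib, Fintype.expect_const, ← Finset.expect_div]
  have hb := val_bound hc ho hs hα h1 k
  have h2 : 𝔼 y : X (k + 1), ∑ h, ∑ h', (1 + sgH s k h) / 2 * ((1 - sgH s k h') / 2) *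
      ker α (fun i => aH c (k + 1) h y (e i)) α (fun i => aH c (k + 1) h' y (e i)) ≤
      Fintype.card (Hd X (k + 1)) * (2 * δ) * (2 * δ) := by
    refine hb.trans ?_
    have : 0 ≤ (Fintype.card (Hd X (k + 1)) : ℝ) * (2 * δ ^ 2 / 2 ^ k) := by positivity
    nlinarith
  have h3 := (div_le_iff₀ (show 0 < 2 * δ by positivity)).2 h2
  linarith

end Pool.Agent.P.MP_7e3bdd_an.RW
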