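import Pool.Agent.P.MP_7e3bdd_an.RW.St2

/-!
Vector functionals on the commutant are approximated by densities.
-/

set_option autoImplicit false

open scoped InnerProductSpace

noncomputable section

namespace Pool.Agent.P.MP_7e3bdd_an.RW

theorem approxSt : ApproxSt := by
  intro H _ _ _ N ξ hc η ζ ε hε
  have hη : 0 < ‖η‖ + 1 := by positivity
  obtain ⟨a, ha, haζ⟩ := hc.2 ζ (ε / 2 / (‖η‖ + 1)) (by positivity)
  let K : Submodule ℂ H :=
    { carrier := {v | ∃ q ∈ N.commutant, q ξ = v}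
      add_mem' := by
        rintro _ _ ⟨q, hq, rfl⟩ ⟨q', hq', rfl⟩
        exact ⟨q + q', add_mem hq hq', rfl⟩
      zero_mem' := ⟨0, zero_mem _, rfl⟩
      smul_mem' := by
        rintro c _ ⟨q, hq, rfl⟩
        exact ⟨c • q, N.commutant.toStarSubalgebra.smul_mem hq c, rfl⟩ }
  set w := ContinuousLinearMap.adjoint a η with hw
  have hp : K.topologicalClosure.starProjection w ∈ closure (K : Set H) :=
    K.topologicalClosure.starProjection_apply_mem w
  obtain ⟨_, ⟨y, hy, rfl⟩, hyd⟩ := Metric.mem_closure_iff.1 hp (ε / 2) (by positivity)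
  rw [dist_eq_norm] at hyd
  refine ⟨y, hy, fun q hq => ?_⟩
  have h1 : ⟪η, q (a ξ)⟫_ℂ = ⟪w, q ξ⟫_ℂ := by
    have : a * q = q * a := (VonNeumannAlgebra.mem_commutant_iff.1 hq) a ha
    rw [hw, ContinuousLinearMap.adjoint_inner_left]
    exact congrArg _ (DFunLike.congr_fun this ξ).symm
  have h2 : ⟪w - K.topologicalClosure.starProjection w, q ξ⟫_ℂ = 0 :=
    K.topologicalClosure.starProjection_inner_eq_zero w _
      (K.le_topologicalClosure ⟨q, hq, rfl⟩)
  have h3 : ⟪η, q ζ⟫_ℂ - ⟪y ξ, q ξ⟫_ℂ =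
      ⟪η, q (ζ - a ξ)⟫_ℂ + ⟪K.topologicalClosure.starProjection w - y ξ, q ξ⟫_ℂ := by
    rw [inner_sub_left] at h2
    rw [map_sub, inner_sub_right, inner_sub_left, h1]
    linear_combination h2
  have h4 : ‖⟪η, q (ζ - a ξ)⟫_ℂ‖ ≤ ε / 2 * ‖q‖ := by
    refine (norm_inner_le_norm _ _).trans ?_
    calc ‖η‖ * ‖q (ζ - a ξ)‖ ≤ (‖η‖ + 1) * (‖q‖ * (ε / 2 / (‖η‖ + 1))) := by
          gcongr
          · linarith
          · exact (q.le_opNorm _).trans (by gcongr)
      _ = ε / 2 * ‖q‖ := by field_simp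
  have h5 : ‖⟪K.topologicalClosure.starProjection w - y ξ, q ξ⟫_ℂ‖ ≤ ε / 2 * ‖q‖ := by
    refine (norm_inner_le_norm _ _).trans ?_
    gcongr
    simpa [hc.1] using q.le_opNorm ξ
  rw [h3]
  exact (norm_add_le _ _).trans (by linarith)

end Pool.Agent.P.MP_7e3bdd_an.RW
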