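import Pool.Agent.P.MP_7e3bdd_an.RW.St2
import Pool.Agent.P.MP_7e3bdd_an.RW.Minimax

/-!
Dixmier averaging of finitely many functionals vanishing at the identity.
-/

set_option autoImplicit false

open scoped InnerProductSpace BigOperators

noncomputable section

namespace Pool.Agent.P.MP_7e3bdd_an.RW

namespace DixP

variable {H : Type} [NormedAddCommGroup H] [InnerProductSpace ℂ H] [CompleteSpace H]

/-- Self-adjoint contractions of the commutant. -/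
def SA (N : VonNeumannAlgebra H) (x : H →L[ℂ] H) : Prop :=
  x ∈ N.commutant ∧ IsSelfAdjoint x ∧ ‖x‖ ≤ 1

/-- Functionals vanishing at the identity that are approximated by densities. -/
def InL (N : VonNeumannAlgebra H) (ξ : H) (f : (H →L[ℂ] H) → ℂ) : Prop :=
  f 1 = 0 ∧ ∀ ε : ℝ, 0 < ε → ∃ θ : H, ∀ q ∈ N.commutant, ‖f q - ⟪θ, q ξ⟫_ℂ‖ ≤ ε * ‖q‖

theorem uq_star {N : VonNeumannAlgebra H} {u : H →L[ℂ] H} (h : UQ N u) : UQ N (star u) :=
  ⟨Unitary.star_mem h.1, star_mem h.2⟩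

theorem uq_mul {N : VonNeumannAlgebra H} {u v : H →L[ℂ] H} (h : UQ N u) (h' : UQ N v) :
    UQ N (u * v) := ⟨mul_mem h.1 h'.1, mul_mem h.2 h'.2⟩

theorem norm_conj {u : H →L[ℂ] H} (h : u ∈ unitary (H →L[ℂ] H)) (q : H →L[ℂ] H) :
    ‖star u * q * u‖ = ‖q‖ := by
  rw [CStarRing.norm_mul_mem_unitary _ h, CStarRing.norm_mem_unitary_mul _ (Unitary.star_mem h)]

theorem conj_mem {N : VonNeumannAlgebra H} {u q : H →L[ℂ] H} (h : UQ N u)
    (hq : q ∈ N.commutant) : star u * q * u ∈ N.commutant :=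
  mul_mem (mul_mem (star_mem h.2) hq) h.2

theorem sa_conj {N : VonNeumannAlgebra H} {u x : H →L[ℂ] H} (h : UQ N u) (hx : SA N x) :
    SA N (star u * x * u) :=
  ⟨conj_mem h hx.1, hx.2.1.conjugate' u, by rw [norm_conj h.1]; exact hx.2.2⟩

theorem inner_conj_eq (u q : H →L[ℂ] H) (θ ξ : H) :
    ⟪θ, (star u * q * u) ξ⟫_ℂ = ⟪u θ, q (u ξ)⟫_ℂ := by
  rw [mul_apply_eq_comp, mul_apply_eq_comp,
    ContinuousLinearMap.star_eq_adjoint, ContinuousLinearMap.adjoint_inner_right]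

omit [CompleteSpace H] in
theorem norm_inner_le {ξ : H} (hξ : ‖ξ‖ = 1) (θ : H) (q : H →L[ℂ] H) :
    ‖⟪θ, q ξ⟫_ℂ‖ ≤ ‖θ‖ * ‖q‖ := by
  refine (norm_inner_le_norm _ _).trans (mul_le_mul_of_nonneg_left ?_ (norm_nonneg _))
  have := q.le_opNorm ξ
  rwa [hξ, mul_one] at this

theorem fac_commutant {N : VonNeumannAlgebra H} (h : Fac N) : Fac N.commutant := by
  intro z hz hc
  refine h z ?_ fun y hy => ((VonNeumannAlgebra.mem_commutant_iff.1 hz) y hy).symm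
  rw [← VonNeumannAlgebra.commutant_commutant N]
  exact VonNeumannAlgebra.mem_commutant_iff.2 fun y hy => (hc y hy).symm

theorem vec_small (h1 : UnifSt) (h3 : DixmierSt) [TopologicalSpace.SeparableSpace H]
    {N : VonNeumannAlgebra H} {ξ : H} (hF : Fac N) (hξ : ‖ξ‖ = 1) (θ : H) (κ : ℝ)
    (hκ : ‖⟪θ, ξ⟫_ℂ‖ < κ) :
    ∃ (n : ℕ) (h : Fin (n + 1) → H →L[ℂ] H), (∀ d, UQ N (h d)) ∧
      ∀ x, SA N x → 𝔼 d, (⟪θ, (star (h d) * x * h d) ξ⟫_ℂ).re ≤ κ := by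
  by_contra hcon
  have hcon' : ∀ (n : ℕ) (h : Fin (n + 1) → H →L[ℂ] H), (∀ d, UQ N (h d)) →
      ∃ x, SA N x ∧ κ < 𝔼 d, (⟪θ, (star (h d) * x * h d) ξ⟫_ℂ).re := by
    intro n h hh
    by_contra h'
    exact hcon ⟨n, h, hh, fun x hx => not_lt.1 fun hlt => h' ⟨x, hx, hlt⟩⟩
  obtain ⟨κ', hk1, hk2⟩ := exists_between hκ
  have hC : 0 < ‖θ‖ + 1 := by positivity
  obtain ⟨x, hxQ, -, hx1, hx⟩ := minimaxSt H N.commutant {u : H →L[ℂ] H // UQ N u}
    (fun u => u.1 θ) (fun u => u.1 ξ) κ' (by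
      intro J _ l i hl hs
      obtain ⟨n, ι, hι⟩ := h1 J l hl hs ((κ - κ') / (‖θ‖ + 1)) (div_pos (by linarith) hC)
      obtain ⟨x, hx, hlt⟩ := hcon' n (fun d => (i (ι d)).1) fun d => (i (ι d)).2
      refine ⟨x, hx.1, hx.2.1, hx.2.2, ?_⟩
      have hb := hι (fun j => (⟪(i j).1 θ, x ((i j).1 ξ)⟫_ℂ).re / (‖θ‖ + 1)) (by
        intro j
        rw [abs_div, abs_of_pos hC, div_le_one hC, ← inner_conj_eq]
        refine (Complex.abs_re_le_norm _).trans ((norm_inner_le hξ _ _).trans ?_)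
        rw [norm_conj (i j).2.1]
        nlinarith [norm_nonneg θ, hx.2.2])
      simp only [inner_conj_eq] at hlt
      rw [← Finset.expect_div] at hb
      simp only [← mul_div_assoc] at hb
      rw [← Finset.sum_div, ← sub_div, abs_div, abs_of_pos hC,
        div_le_div_iff_of_pos_right hC] at hb
      have := (abs_le.1 hb).1
      linarith)
  obtain ⟨c, hc⟩ := h3 H N.commutant (fac_commutant hF) x hxQ
  set t := ‖⟪θ, ξ⟫_ℂ‖ with ht
  have ht0 : 0 ≤ t := norm_nonneg _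
  have hδ : 0 < (κ' - t) / (2 * (1 + t)) := div_pos (by linarith) (by positivity)
  obtain ⟨y, hy, hyc⟩ := hc 2 ![ξ, ξ] ![θ, ξ] _ hδ
  have hconv : Convex ℝ {T : H →L[ℂ] H | κ' ≤ (⟪θ, T ξ⟫_ℂ).re ∧ ‖T‖ ≤ 1} := by
    intro a ha b hb p q hp hq hpq
    refine ⟨?_, ?_⟩
    · have e : (⟪θ, (p • a + q • b) ξ⟫_ℂ).re = p * (⟪θ, a ξ⟫_ℂ).re + q * (⟪θ, b ξ⟫_ℂ).re := by
        rw [add_apply, smul_apply,
          smul_apply, inner_add_right, ← Complex.coe_smul, ← Complex.coe_smul,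
          inner_smul_right, inner_smul_right, Complex.add_re, Complex.re_ofReal_mul,
          Complex.re_ofReal_mul]
      rw [e]
      have h4 := mul_le_mul_of_nonneg_left ha.1 hp
      have h5 := mul_le_mul_of_nonneg_left hb.1 hq
      have h6 : p * κ' + q * κ' = κ' := by rw [← add_mul, hpq, one_mul]
      linarith
    · refine (norm_add_le _ _).trans ?_
      rw [norm_smul, norm_smul, Real.norm_of_nonneg hp, Real.norm_of_nonneg hq]
      have h4 := mul_le_mul_of_nonneg_left ha.2 hp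
      have h5 := mul_le_mul_of_nonneg_left hb.2 hq
      linarith
  have hyS := convexHull_min (t := {T : H →L[ℂ] H | κ' ≤ (⟪θ, T ξ⟫_ℂ).re ∧ ‖T‖ ≤ 1}) (by
    rintro T ⟨u, hu, huQ, rfl⟩
    have hu' : UQ N (star u) := uq_star ⟨hu, huQ⟩
    have e : u * x * star u = star (star u) * x * star u := by rw [star_star]
    refine ⟨?_, ?_⟩
    · rw [e, inner_conj_eq]
      exact hx ⟨star u, hu'⟩
    · rw [e, norm_conj hu'.1]
      exact hx1) hconv hy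
  have e0 : ‖⟪θ, y ξ⟫_ℂ - c * ⟪θ, ξ⟫_ℂ‖ < (κ' - t) / (2 * (1 + t)) := by
    have := hyc 0
    simpa [inner_sub_right, inner_smul_right] using this
  have e1 : ‖⟪ξ, y ξ⟫_ℂ - c‖ < (κ' - t) / (2 * (1 + t)) := by
    have := hyc 1
    simpa [inner_sub_right, inner_smul_right, inner_self_eq_norm_sq_to_K, hξ] using this
  set δ := (κ' - t) / (2 * (1 + t)) with hδd
  have hδe : δ * (2 * (1 + t)) = κ' - t := div_mul_cancel₀ _ (by positivity)
  have e2 : ‖⟪ξ, y ξ⟫_ℂ‖ ≤ 1 := by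
    have := norm_inner_le hξ ξ y
    rw [hξ, one_mul] at this
    exact this.trans hyS.2
  have e3 : ‖c‖ ≤ 1 + δ := by
    have := norm_sub_norm_le c ⟪ξ, y ξ⟫_ℂ
    rw [norm_sub_rev] at e1
    linarith
  have e4 : ‖⟪θ, y ξ⟫_ℂ‖ ≤ δ + (1 + δ) * t := by
    have := norm_sub_norm_le ⟪θ, y ξ⟫_ℂ (c * ⟪θ, ξ⟫_ℂ)
    rw [norm_mul] at this
    have h7 := mul_le_mul_of_nonneg_right e3 ht0
    linarith
  have e5 := hyS.1.trans ((Complex.re_le_norm _).trans e4)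
  nlinarith

theorem single (h1 : UnifSt) (h3 : DixmierSt) [TopologicalSpace.SeparableSpace H]
    {N : VonNeumannAlgebra H} {ξ : H} (hF : Fac N) (hξ : ‖ξ‖ = 1) {f : (H →L[ℂ] H) → ℂ}
    (hf : InL N ξ f) (ε : ℝ) (hε : 0 < ε) :
    ∃ (n : ℕ) (h : Fin (n + 1) → H →L[ℂ] H), (∀ d, UQ N (h d)) ∧
      ∀ x, SA N x → 𝔼 d, (f (star (h d) * x * h d)).re ≤ ε := by
  obtain ⟨θ, hθ⟩ := hf.2 (ε / 4) (by positivity)
  have h0 : ‖⟪θ, ξ⟫_ℂ‖ < ε / 2 := by
    have h2 := hθ 1 (one_mem _)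
    rw [hf.1, zero_sub, norm_neg, one_apply_eq_self] at h2
    have h4 : ‖(1 : H →L[ℂ] H)‖ ≤ 1 := ContinuousLinearMap.norm_id_le
    nlinarith
  obtain ⟨n, h, hh, hs⟩ := vec_small h1 h3 hF hξ θ _ h0
  refine ⟨n, h, hh, fun x hx => ?_⟩
  have hb : 𝔼 d, (f (star (h d) * x * h d)).re ≤
      𝔼 d, ((⟪θ, (star (h d) * x * h d) ξ⟫_ℂ).re + ε / 2) := by
    refine Finset.expect_le_expect fun d _ => ?_
    have hd := sa_conj (hh d) hx
    have h2 := hθ _ hd.1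
    have h4 := Complex.re_le_norm (f (star (h d) * x * h d) - ⟪θ, (star (h d) * x * h d) ξ⟫_ℂ)
    rw [Complex.sub_re] at h4
    nlinarith [hd.2.2]
  rw [Finset.expect_add_distrib, Fintype.expect_const] at hb
  linarith [hs x hx]

theorem inL_avg (h2 : ApproxSt) {N : VonNeumannAlgebra H} {ξ : H} (hξ : Cyc N ξ)
    {f : (H →L[ℂ] H) → ℂ} (hf : InL N ξ f) {D : Type} [Fintype D] [Nonempty D]
    {h : D → H →L[ℂ] H} (hh : ∀ d, UQ N (h d)) :
    InL N ξ fun q => 𝔼 d, f (star (h d) * q * h d) := by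
  refine ⟨?_, fun ε hε => ?_⟩
  · have e : ∀ d, f (star (h d) * 1 * h d) = 0 := fun d => by
      rw [mul_one, Unitary.star_mul_self_of_mem (hh d).1, hf.1]
    simp only [e, Finset.expect_const_zero]
  obtain ⟨θ, hθ⟩ := hf.2 (ε / 2) (by positivity)
  choose y _ hy using fun d => h2 H N ξ hξ (h d θ) (h d ξ) (ε / 2) (by positivity)
  refine ⟨((Fintype.card D : ℂ))⁻¹ • ∑ d, y d ξ, fun q hq => ?_⟩
  have e : ⟪((Fintype.card D : ℂ))⁻¹ • ∑ d, y d ξ, q ξ⟫_ℂ = 𝔼 d, ⟪y d ξ, q ξ⟫_ℂ := by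
    rw [inner_smul_left, sum_inner, Finset.expect_eq_sum_div_card, Finset.card_univ, map_inv₀,
      Complex.conj_natCast, div_eq_inv_mul]
  rw [e, ← Finset.expect_sub_distrib]
  refine (RCLike.norm_expect_le (K := ℝ)).trans (Finset.expect_le Finset.univ_nonempty fun d _ => ?_)
  have h4 := hθ _ (conj_mem (hh d) hq)
  rw [norm_conj (hh d).1, inner_conj_eq] at h4
  have h5 := hy d q hq
  have h6 := norm_sub_le_norm_sub_add_norm_sub (f (star (h d) * q * h d))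
    ⟪h d θ, q (h d ξ)⟫_ℂ ⟪y d ξ, q ξ⟫_ℂ
  linarith

theorem multi (h1 : UnifSt) (h2 : ApproxSt) (h3 : DixmierSt) [TopologicalSpace.SeparableSpace H]
    {N : VonNeumannAlgebra H} {ξ : H} (hF : Fac N) (hξ : Cyc N ξ) {I : Type} (ε : ℝ)
    (hε : 0 < ε) (s : Finset I) :
    ∀ f : I → (H →L[ℂ] H) → ℂ, (∀ i, InL N ξ (f i)) →
      ∃ (D : Type) (_ : Fintype D) (_ : Nonempty D) (h : D → H →L[ℂ] H), (∀ d, UQ N (h d)) ∧
        ∀ i ∈ s, ∀ x, SA N x → 𝔼 d, (f i (star (h d) * x * h d)).re ≤ ε := by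
  induction s using Finset.cons_induction with
  | empty =>
    intro f _
    exact ⟨Unit, inferInstance, inferInstance, fun _ => 1, fun _ => ⟨one_mem _, one_mem _⟩,
      fun i hi => absurd hi (Finset.notMem_empty i)⟩
  | cons a s _ ih =>
    intro f hf
    obtain ⟨n, h, hh, hs⟩ := single h1 h3 hF hξ.1 (hf a) ε hε
    obtain ⟨D, _, _, g, hg, hgs⟩ := ih (fun i q => 𝔼 d, f i (star (h d) * q * h d))
      fun i => inL_avg h2 hξ (hf i) hh
    refine ⟨D × Fin (n + 1), inferInstance, inferInstance, fun p => g p.1 * h p.2,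
      fun p => uq_mul (hg _) (hh _), fun i hi x hx => ?_⟩
    have e : 𝔼 p : D × Fin (n + 1), (f i (star (g p.1 * h p.2) * x * (g p.1 * h p.2))).re =
        𝔼 d' : D, 𝔼 d : Fin (n + 1), (f i (star (h d) * (star (g d') * x * g d') * h d)).re := by
      rw [← Finset.univ_product_univ, Finset.expect_product]
      simp only [star_mul, mul_assoc]
    rw [e]
    rcases Finset.mem_cons.1 hi with rfl | hi
    · exact Finset.expect_le Finset.univ_nonempty fun d _ => hs _ (sa_conj (hg d) hx)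
    · have := hgs i hi x hx
      simpa only [Complex.re_expect] using this

theorem inL_dl (h2 : ApproxSt) {N : VonNeumannAlgebra H} {ξ : H} (hξ : Cyc N ξ) (η ζ : H)
    (w : ℂ) (hw : ‖w‖ = 1) : InL N ξ fun q => w * dl ξ η ζ q := by
  refine ⟨?_, fun ε hε => ?_⟩
  · simp [dl, inner_self_eq_norm_sq_to_K, hξ.1]
  obtain ⟨y, -, hy⟩ := h2 H N ξ hξ η ζ ε hε
  refine ⟨(starRingEnd ℂ w) • (y ξ - (starRingEnd ℂ ⟪η, ζ⟫_ℂ) • ξ), fun q hq => ?_⟩
  have e : w * dl ξ η ζ q - ⟪(starRingEnd ℂ w) • (y ξ - (starRingEnd ℂ ⟪η, ζ⟫_ℂ) • ξ), q ξ⟫_ℂ =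
      w * (⟪η, q ζ⟫_ℂ - ⟪y ξ, q ξ⟫_ℂ) := by
    rw [inner_smul_left, inner_sub_left, inner_smul_left, Complex.conj_conj, Complex.conj_conj, dl]
    ring
  rw [e, norm_mul, hw, one_mul]
  exact hy q hq

theorem dl_lin (ξ η ζ : H) (u x₁ x₂ : H →L[ℂ] H) (a b : ℂ) :
    dl ξ η ζ (star u * (a • x₁ + b • x₂) * u) =
      a * dl ξ η ζ (star u * x₁ * u) + b * dl ξ η ζ (star u * x₂ * u) := by
  simp only [dl, inner_conj_eq, mul_add, add_mul, mul_smul_comm, smul_mul_assoc,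
    add_apply, smul_apply, inner_add_right,
    inner_smul_right]
  ring

theorem split {N : VonNeumannAlgebra H} {q : H →L[ℂ] H} (hq : q ∈ N.commutant) :
    ∃ x₁ x₂, SA N x₁ ∧ SA N x₂ ∧
      q = ((‖q‖ : ℝ) : ℂ) • x₁ + (Complex.I * ((‖q‖ : ℝ) : ℂ)) • x₂ := by
  have h0 : SA N (0 : H →L[ℂ] H) := ⟨zero_mem _, IsSelfAdjoint.zero _, by simp⟩
  by_cases hq0 : q = 0
  · exact ⟨0, 0, h0, h0, by simp [hq0]⟩
  have hn : 0 < ‖q‖ := norm_pos_iff.2 hq0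
  have hn' : ((‖q‖ : ℝ) : ℂ) ≠ 0 := by exact_mod_cast hn.ne'
  have hsm : ∀ (c : ℂ) (z : H →L[ℂ] H), z ∈ N.commutant → c • z ∈ N.commutant :=
    fun c z hz => N.commutant.toStarSubalgebra.smul_mem hz c
  have key : ∀ z ∈ N.commutant, ‖z‖ = ‖q‖ →
      SA N ((((2 * ‖q‖ : ℝ) : ℂ))⁻¹ • (z + star z)) := by
    intro z hz hzn
    refine ⟨hsm _ _ (add_mem hz (star_mem hz)), ?_, ?_⟩
    · rw [IsSelfAdjoint, star_smul, star_add, star_star, add_comm, star_inv₀, Complex.star_def,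
        Complex.conj_ofReal]
    · rw [norm_smul, norm_inv, Complex.norm_real, Real.norm_of_nonneg (by positivity),
        inv_mul_le_one₀ (by positivity)]
      have := norm_add_le z (star z)
      rw [norm_star] at this
      linarith
  refine ⟨_, _, key q hq rfl, key ((-Complex.I) • q) (hsm _ _ hq) (by simp [norm_smul]), ?_⟩
  rw [star_smul, star_neg, Complex.star_def, Complex.conj_I, neg_neg]
  simp only [smul_add, smul_smul]
  push_cast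
  have e1 : ((‖q‖ : ℝ) : ℂ) * (2 * ((‖q‖ : ℝ) : ℂ))⁻¹ = 2⁻¹ := by field_simp
  have e2 : Complex.I * ((‖q‖ : ℝ) : ℂ) * ((2 * ((‖q‖ : ℝ) : ℂ))⁻¹ * -Complex.I) = 2⁻¹ := by
    have : Complex.I * ((‖q‖ : ℝ) : ℂ) * ((2 * ((‖q‖ : ℝ) : ℂ))⁻¹ * -Complex.I) =
        -(Complex.I * Complex.I) * (((‖q‖ : ℝ) : ℂ) * (2 * ((‖q‖ : ℝ) : ℂ))⁻¹) := by ring
    rw [this, e1, Complex.I_mul_I]
    ring
  have e3 : Complex.I * ((‖q‖ : ℝ) : ℂ) * ((2 * ((‖q‖ : ℝ) : ℂ))⁻¹ * Complex.I) = -2⁻¹ := by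
    have : Complex.I * ((‖q‖ : ℝ) : ℂ) * ((2 * ((‖q‖ : ℝ) : ℂ))⁻¹ * Complex.I) =
        (Complex.I * Complex.I) * (((‖q‖ : ℝ) : ℂ) * (2 * ((‖q‖ : ℝ) : ℂ))⁻¹) := by ring
    rw [this, e1, Complex.I_mul_I]
    ring
  rw [e1, e2, e3]
  module

end DixP

open DixP in
theorem dixSt (h1 : UnifSt) (h2 : ApproxSt) (h3 : DixmierSt) : DixSt := by
  intro H _ _ _ _ N ξ hF hξ I _ η ζ ε hε
  let w : Fin 4 → ℂ := ![1, -1, Complex.I, -Complex.I]
  have hw : ∀ k, ‖w k‖ = 1 := by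
    intro k
    fin_cases k <;> simp [w]
  obtain ⟨D, _, _, h, hh, hs⟩ := multi h1 h2 h3 hF hξ (ε / 4) (by positivity)
    (Finset.univ : Finset (I × Fin 4)) (fun p q => w p.2 * dl ξ (η p.1) (ζ p.1) q)
    fun p => inL_dl h2 hξ _ _ _ (hw _)
  have hsa : ∀ i x, SA N x → ‖𝔼 d, dl ξ (η i) (ζ i) (star (h d) * x * h d)‖ ≤ ε / 2 := by
    intro i x hx
    have hk : ∀ k, (w k * 𝔼 d, dl ξ (η i) (ζ i) (star (h d) * x * h d)).re ≤ ε / 4 := by
      intro k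
      rw [Finset.mul_expect, Complex.re_expect]
      exact hs (i, k) (Finset.mem_univ _) x hx
    have k0 := hk 0
    have k1 := hk 1
    have k2 := hk 2
    have k3 := hk 3
    refine (Complex.norm_le_abs_re_add_abs_im _).trans ?_
    generalize 𝔼 d, dl ξ (η i) (ζ i) (star (h d) * x * h d) = z at k0 k1 k2 k3 ⊢
    simp [w] at k0 k1 k2 k3
    have a1 : |z.re| ≤ ε / 4 := abs_le.2 ⟨by linarith, by linarith⟩
    have a2 : |z.im| ≤ ε / 4 := abs_le.2 ⟨by linarith, by linarith⟩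
    linarith
  obtain ⟨n, hn⟩ : ∃ n, Fintype.card D = n + 1 :=
    Nat.exists_eq_succ_of_ne_zero Fintype.card_ne_zero
  let e : D ≃ Fin (n + 1) := Fintype.equivFinOfCardEq hn
  refine ⟨n, fun d => h (e.symm d), fun d => hh _, fun i q hq => ?_⟩
  rw [Fintype.expect_equiv e.symm _ (fun d => dl ξ (η i) (ζ i) (star (h d) * q * h d))
    fun _ => rfl]
  obtain ⟨x₁, x₂, s1, s2, hx⟩ := split hq
  have e2 : 𝔼 d, dl ξ (η i) (ζ i) (star (h d) * q * h d) =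
      ((‖q‖ : ℝ) : ℂ) * 𝔼 d, dl ξ (η i) (ζ i) (star (h d) * x₁ * h d) +
        Complex.I * ((‖q‖ : ℝ) : ℂ) * 𝔼 d, dl ξ (η i) (ζ i) (star (h d) * x₂ * h d) := by
    rw [Finset.mul_expect, Finset.mul_expect, ← Finset.expect_add_distrib]
    refine Finset.expect_congr rfl fun d _ => ?_
    rw [← dl_lin, ← hx]
  rw [e2]
  refine (norm_add_le _ _).trans ?_
  rw [norm_mul, norm_mul, norm_mul, Complex.norm_I, one_mul, Complex.norm_real, norm_norm]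
  have b1 := mul_le_mul_of_nonneg_left (hsa i x₁ s1) (norm_nonneg q)
  have b2 := mul_le_mul_of_nonneg_left (hsa i x₂ s2) (norm_nonneg q)
  linarith

end Pool.Agent.P.MP_7e3bdd_an.RW
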