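import Pool.Agent.P.MP_7e3bdd_an.RW.St2
import Pool.Agent.P.MP_7e3bdd_an.Dx.Main

/-!
The weak Dixmier property of a factor on a separable Hilbert space.
-/

set_option autoImplicit false

open scoped InnerProductSpace

namespace Pool.Agent.P.MP_7e3bdd_an.RW

theorem dixmierSt : DixmierSt := by
  intro H _ _ _ _ Q hQ x hx
  have hG : Dx.Grp Q (Dx.UN Q) :=
    { unit := fun u hu => hu.1
      mul := Dx.UN_mul Q
      star := fun u hu => Dx.UN_star Q hu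
      sub := fun u hu => hu
      norm := fun g hg a ha => mul_mem (mul_mem hg.2 ha) (star_mem hg.2) }
  obtain ⟨Φ, hΦ, h⟩ := Dx.main_weak (M := Q) (E := LinearMap.id) hG (fun u hu => hu.2) hQ
    (fun z hz h => hQ z hz (Dx.comm_of_unitary Q h))
    (fun ι l T x C _ _ hl => hl) rfl (fun _ _ h => h) (fun _ _ _ _ => rfl)
    (fun y hy h0 hne => ⟨y, fun n ξ η ε hε =>
      ⟨y, subset_convexHull ℝ _ ⟨1, Dx.UN_one Q, by simp⟩, fun i => by simpa using hε⟩,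
      y, hy, h0, hne, le_rfl⟩)
  obtain ⟨c, hc⟩ := h x hx
  refine ⟨c, fun n ξ η ε hε => ?_⟩
  obtain ⟨T, hT, h⟩ := (hc ▸ Dx.hull_of_mem hΦ x) n ξ η ε hε
  exact ⟨T, convexHull_mono (by
    rintro _ ⟨u, hu, rfl⟩
    exact ⟨u, hu.1, hu.2, rfl⟩) hT, h⟩

end Pool.Agent.P.MP_7e3bdd_an.RW
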