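import Pool.Agent.P.MP_7e3bdd_an.RW.St

/-!
Injectivity of the commutant of commuting projections and a unitary permuting them.
-/

set_option autoImplicit false

open scoped InnerProductSpace Topology
open Filter

noncomputable section

namespace Pool.Agent.P.MP_7e3bdd_an.RW

variable {K : Type} [NormedAddCommGroup K] [InnerProductSpace ℂ K] [CompleteSpace K]

/-- Pointwise weak limit of a family of contractions of the algebra of all operators. -/
theorem inj_lim {ι : Type} (𝒰 : Ultrafilter ι) (Φ : ι → (K →L[ℂ] K) →L[ℂ] (K →L[ℂ] K))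
    (hΦ : ∀ n T, ‖Φ n T‖ ≤ ‖T‖) :
    ∃ E : (K →L[ℂ] K) →L[ℂ] (K →L[ℂ] K), (∀ T, ‖E T‖ ≤ ‖T‖) ∧
      ∀ T, WLim 𝒰 (fun n => Φ n T) (E T) := by
  choose L hL using fun T : K →L[ℂ] K => exists_wlim 𝒰 (fun n => Φ n T) ‖T‖ (fun n => hΦ n T)
  let L₀ : (K →L[ℂ] K) →ₗ[ℂ] (K →L[ℂ] K) :=
    { toFun := L
      map_add' := fun S T => (hL (S + T)).unique (by
        simpa only [map_add] using (hL S).add (hL T))
      map_smul' := fun c T => (hL (c • T)).unique (by
        simpa only [map_smul, RingHom.id_apply] using (hL T).smul c) }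
  have hb : ∀ T, ‖L₀ T‖ ≤ 1 * ‖T‖ := fun T => by
    rw [one_mul]
    exact (hL T).norm_le ‖T‖ (norm_nonneg _) (fun n => hΦ n T)
  refine ⟨L₀.mkContinuous 1 hb, fun T => ?_, fun T => hL T⟩
  simpa using hb T

theorem inj_norm_conj {a b : K →L[ℂ] K} (ha : a ∈ unitary (K →L[ℂ] K))
    (hb : b ∈ unitary (K →L[ℂ] K)) (T : K →L[ℂ] K) : ‖a * T * b‖ = ‖T‖ := by
  rw [CStarRing.norm_mul_mem_unitary _ hb, CStarRing.norm_mem_unitary_mul _ ha]

/-- The pinching map of one projection. -/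
theorem inj_pinch {q : K →L[ℂ] K} (hq : IsStarProjection q) :
    ∃ c : (K →L[ℂ] K) →L[ℂ] (K →L[ℂ] K), (∀ T, ‖c T‖ ≤ ‖T‖) ∧ (∀ T, q * c T = c T * q) ∧
      (∀ T, q * T = T * q → c T = T) ∧
      ∀ p T, p * q = q * p → p * T = T * p → p * c T = c T * p := by
  set r : K →L[ℂ] K := q + q - 1 with hr
  have hqq : q * q = q := hq.isIdempotentElem.eq
  have hrr : r * r = 1 := by
    rw [hr]
    have : (q + q - 1) * (q + q - 1) = (q * q + q * q + q * q + q * q) - (q + q + q + q) + 1 := by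
      noncomm_ring
    rw [this, hqq]; abel
  have hsr : star r = r := by
    rw [hr, star_sub, star_add, star_one, hq.isSelfAdjoint.star_eq]
  have hru : r ∈ unitary (K →L[ℂ] K) := by
    rw [Unitary.mem_iff, hsr]; exact ⟨hrr, hrr⟩
  have hqr : q * r = q := by
    rw [hr, mul_sub, mul_add, hqq, mul_one]; abel
  have hrq : r * q = q := by
    rw [hr, sub_mul, add_mul, hqq, one_mul]; abel
  let c : (K →L[ℂ] K) →L[ℂ] (K →L[ℂ] K) :=
    (1 / 2 : ℂ) • (ContinuousLinearMap.id ℂ (K →L[ℂ] K) +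
      ContinuousLinearMap.mulLeftRight ℂ (K →L[ℂ] K) r r)
  have hc : ∀ T, c T = (1 / 2 : ℂ) • (T + r * T * r) := fun T => by
    simp [c]
  refine ⟨c, fun T => ?_, fun T => ?_, fun T hT => ?_, fun p T hp hT => ?_⟩
  · rw [hc, norm_smul]
    have h1 : ‖T + r * T * r‖ ≤ ‖T‖ + ‖T‖ := by
      refine (norm_add_le _ _).trans ?_
      rw [inj_norm_conj hru hru]
    have h2 : ‖(1 / 2 : ℂ)‖ = 1 / 2 := by simp
    rw [h2]; linarith
  · rw [hc, mul_smul_comm, smul_mul_assoc]
    congr 1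
    have h1 : q * (T + r * T * r) = q * T + q * T * r := by
      rw [mul_add, ← mul_assoc, ← mul_assoc, hqr]
    have h2 : (T + r * T * r) * q = T * q + r * T * q := by
      rw [add_mul, mul_assoc (r * T), hrq]
    rw [h1, h2, hr]
    noncomm_ring
  · rw [hc]
    have h1 : r * T = T * r := by
      rw [hr, sub_mul, add_mul, mul_sub, mul_add, hT, one_mul, mul_one]
    rw [h1, mul_assoc, hrr, mul_one, ← two_smul ℂ T, smul_smul]
    norm_num
  · rw [hc, mul_smul_comm, smul_mul_assoc]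
    congr 1
    have h1 : p * r = r * p := by
      rw [hr, sub_mul, add_mul, mul_sub, mul_add, hp, one_mul, mul_one]
    rw [mul_add, add_mul, hT, ← mul_assoc, ← mul_assoc, h1, mul_assoc r p T, hT,
      mul_assoc r (T * p) r, mul_assoc T p r, h1]
    simp only [mul_assoc]

theorem inj_fin (R : Set (K →L[ℂ] K)) (hR : ∀ p ∈ R, IsStarProjection p)
    (hc : ∀ p ∈ R, ∀ q ∈ R, p * q = q * p) (F : Finset R) :
    ∃ Φ : (K →L[ℂ] K) →L[ℂ] (K →L[ℂ] K), (∀ T, ‖Φ T‖ ≤ ‖T‖) ∧
      (∀ T, ∀ p ∈ F, (p : K →L[ℂ] K) * Φ T = Φ T * p) ∧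
      ∀ T, (∀ p ∈ R, p * T = T * p) → Φ T = T := by
  classical
  induction F using Finset.induction_on with
  | empty => exact ⟨ContinuousLinearMap.id ℂ _, fun T => le_rfl, by simp, fun T _ => rfl⟩
  | insert q F _ ih =>
    obtain ⟨Φ, h1, h2, h3⟩ := ih
    obtain ⟨c, c1, c2, c3, c4⟩ := inj_pinch (hR q q.2)
    refine ⟨c.comp Φ, fun T => (c1 _).trans (h1 T), fun T p hp => ?_, fun T hT => ?_⟩
    · rcases Finset.mem_insert.1 hp with rfl | hp
      · exact c2 _
      · exact c4 p _ (hc p p.2 q q.2) (h2 T p hp)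
    · change c (Φ T) = T
      rw [h3 T hT]
      exact c3 T (hT q q.2)

theorem inj_one (R : Set (K →L[ℂ] K)) (hR : ∀ p ∈ R, IsStarProjection p)
    (hc : ∀ p ∈ R, ∀ q ∈ R, p * q = q * p) :
    ∃ E : (K →L[ℂ] K) →L[ℂ] (K →L[ℂ] K), (∀ T, ‖E T‖ ≤ ‖T‖) ∧
      (∀ T, ∀ p ∈ R, p * E T = E T * p) ∧
      ∀ T, (∀ p ∈ R, p * T = T * p) → E T = T := by
  classical
  choose Φ h1 h2 h3 using inj_fin R hR hc
  obtain ⟨E, e1, e2⟩ := inj_lim (Ultrafilter.of (atTop : Filter (Finset R))) Φ h1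
  refine ⟨E, e1, fun T p hp => ?_, fun T hT => ?_⟩
  · refine (e2 T).comm p ?_
    have : ∀ᶠ F in (atTop : Filter (Finset R)), p * Φ F T = Φ F T * p := by
      filter_upwards [eventually_ge_atTop ({⟨p, hp⟩} : Finset R)] with F hF
      exact h2 F T ⟨p, hp⟩ (hF (Finset.mem_singleton_self _))
    exact this.filter_mono (Ultrafilter.of_le _)
  · refine (e2 T).unique ?_
    simp only [h3 _ T hT]
    exact WLim.const T

/-- The averages of the conjugates by the powers of `U`. -/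
def injAvg (U : K →L[ℂ] K) (n : ℕ) : (K →L[ℂ] K) →L[ℂ] (K →L[ℂ] K) :=
  (1 / ((n : ℂ) + 1)) • ∑ k ∈ Finset.range (n + 1),
    ContinuousLinearMap.mulLeftRight ℂ (K →L[ℂ] K) (U ^ k) (star U ^ k)

theorem injAvg_apply (U : K →L[ℂ] K) (n : ℕ) (T : K →L[ℂ] K) :
    injAvg U n T = (1 / ((n : ℂ) + 1)) • ∑ k ∈ Finset.range (n + 1), U ^ k * T * star U ^ k := by
  simp [injAvg]

theorem inj_norm_coef (n : ℕ) : ‖(1 / ((n : ℂ) + 1))‖ = 1 / ((n : ℝ) + 1) := by
  have : ((n : ℂ) + 1) = (((n : ℝ) + 1 : ℝ) : ℂ) := by push_cast; ring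
  rw [this, norm_div, norm_one, Complex.norm_real, Real.norm_of_nonneg (by positivity)]

theorem inj_two (U : K →L[ℂ] K) (hU : U ∈ unitary (K →L[ℂ] K)) :
    ∃ E : (K →L[ℂ] K) →L[ℂ] (K →L[ℂ] K), (∀ T, ‖E T‖ ≤ ‖T‖) ∧
      (∀ T, U * E T = E T * U) ∧ (∀ T, U * T = T * U → E T = T) ∧
      ∀ p T, (∀ k : ℕ, p * (U ^ k * T * star U ^ k) = (U ^ k * T * star U ^ k) * p) →
        p * E T = E T * p := by
  have hsU : star U ∈ unitary (K →L[ℂ] K) := Unitary.star_mem hU
  have hn : ∀ (k : ℕ) (T : K →L[ℂ] K), ‖U ^ k * T * star U ^ k‖ = ‖T‖ := fun k T =>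
    inj_norm_conj (pow_mem hU k) (pow_mem hsU k) T
  have h1 : ∀ n T, ‖injAvg U n T‖ ≤ ‖T‖ := by
    intro n T
    rw [injAvg_apply, norm_smul, inj_norm_coef]
    have h2 : ‖∑ k ∈ Finset.range (n + 1), U ^ k * T * star U ^ k‖ ≤ ((n : ℝ) + 1) * ‖T‖ := by
      refine (norm_sum_le _ _).trans ?_
      simp [hn]
    have h3 : (0 : ℝ) < (n : ℝ) + 1 := by positivity
    calc 1 / ((n : ℝ) + 1) * ‖∑ k ∈ Finset.range (n + 1), U ^ k * T * star U ^ k‖
        ≤ 1 / ((n : ℝ) + 1) * (((n : ℝ) + 1) * ‖T‖) := by gcongr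
      _ = ‖T‖ := by field_simp
  obtain ⟨E, e1, e2⟩ := inj_lim (Ultrafilter.of (atTop : Filter ℕ)) (injAvg U) h1
  have hUU : star U * U = 1 := (Unitary.mem_iff.1 hU).1
  have hUU' : U * star U = 1 := (Unitary.mem_iff.1 hU).2
  refine ⟨E, e1, fun T => ?_, fun T hT => ?_, fun p T hp => ?_⟩
  · refine (e2 T).comm_of_norm U ?_
    have hb : ∀ n : ℕ, ‖U * injAvg U n T - injAvg U n T * U‖ ≤ (2 * ‖T‖) * (1 / ((n : ℝ) + 1)) := by
      intro n
      have h2 : U * injAvg U n T - injAvg U n T * U =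
          (1 / ((n : ℂ) + 1)) • ((U ^ (n + 1) * T * star U ^ (n + 1) -
            U ^ 0 * T * star U ^ 0) * U) := by
        rw [← Finset.sum_range_sub (fun k => U ^ k * T * star U ^ k), injAvg_apply,
          mul_smul_comm, smul_mul_assoc, ← smul_sub, Finset.mul_sum, Finset.sum_mul,
          Finset.sum_mul, ← Finset.sum_sub_distrib]
        congr 1
        refine Finset.sum_congr rfl (fun k _ => ?_)
        rw [sub_mul, pow_succ' U k, pow_succ (star U) k]
        congr 1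
        simp only [mul_assoc, hUU, mul_one]
      rw [h2, norm_smul, inj_norm_coef, CStarRing.norm_mul_mem_unitary _ hU, mul_comm]
      gcongr
      refine (norm_sub_le _ _).trans ?_
      rw [hn, hn]; linarith
    have hl : Tendsto (fun n : ℕ => (2 * ‖T‖) * (1 / ((n : ℝ) + 1))) atTop (𝓝 0) := by
      simpa using (tendsto_one_div_add_atTop_nhds_zero_nat (𝕜 := ℝ)).const_mul (2 * ‖T‖)
    exact (squeeze_zero (fun n => norm_nonneg _) hb hl).mono_left (Ultrafilter.of_le _)
  · refine (e2 T).unique ?_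
    have h2 : ∀ k : ℕ, U ^ k * T * star U ^ k = T := by
      intro k
      induction k with
      | zero => simp
      | succ k ih =>
        rw [pow_succ' U k, pow_succ (star U) k]
        calc U * U ^ k * T * (star U ^ k * star U) = U * (U ^ k * T * star U ^ k) * star U := by
              simp only [mul_assoc]
          _ = T := by rw [ih, hT, mul_assoc, hUU', mul_one]
    have h3 : ∀ n, injAvg U n T = T := by
      intro n
      rw [injAvg_apply]
      simp only [h2, Finset.sum_const, Finset.card_range]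
      rw [← Nat.cast_smul_eq_nsmul ℂ, smul_smul]
      have : (n : ℂ) + 1 ≠ 0 := by exact_mod_cast Nat.succ_ne_zero n
      have h4 : 1 / ((n : ℂ) + 1) * ((n + 1 : ℕ) : ℂ) = 1 := by
        push_cast; field_simp
      rw [h4, one_smul]
    simp only [h3]
    exact WLim.const T
  · refine (e2 T).comm p (Eventually.of_forall fun n => ?_)
    rw [injAvg_apply, mul_smul_comm, smul_mul_assoc, Finset.mul_sum, Finset.sum_mul]
    congr 1
    exact Finset.sum_congr rfl (fun k _ => hp k)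

theorem injSt : InjSt := by
  intro K _ _ _ R U hR hc hU _ hU2
  obtain ⟨E₁, a1, a2, a3⟩ := inj_one R hR hc
  obtain ⟨E₂, b1, b2, b3, b4⟩ := inj_two U hU
  have hUU : star U * U = 1 := (Unitary.mem_iff.1 hU).1
  have hUU' : U * star U = 1 := (Unitary.mem_iff.1 hU).2
  have hk : ∀ T : K →L[ℂ] K, (∀ p ∈ R, p * T = T * p) → ∀ k : ℕ, ∀ p ∈ R,
      p * (U ^ k * T * star U ^ k) = (U ^ k * T * star U ^ k) * p := by
    intro T hT k
    induction k with
    | zero => simpa using hT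
    | succ k ih =>
      intro p hp
      have h1 : U ^ (k + 1) * T * star U ^ (k + 1) = U * (U ^ k * T * star U ^ k) * star U := by
        rw [pow_succ' U k, pow_succ (star U) k]
        simp only [mul_assoc]
      have h2 := ih _ (hU2 p hp)
      rw [h1]
      generalize U ^ k * T * star U ^ k = S at h2 ⊢
      calc p * (U * S * star U) = U * (star U * p * U * S) * star U := by
            simp only [← mul_assoc, hUU', one_mul]
        _ = U * S * star U * p := by
            rw [h2]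
            simp only [mul_assoc, hUU', mul_one]
  refine ⟨E₂.comp E₁, ?_, fun T => ?_, fun T hT => ?_⟩
  · refine ContinuousLinearMap.opNorm_le_bound _ zero_le_one (fun T => ?_)
    rw [one_mul]
    exact (b1 _).trans (a1 T)
  · rw [mem_commOf]
    intro s hs
    change s * E₂ (E₁ T) = E₂ (E₁ T) * s ∧ star s * E₂ (E₁ T) = E₂ (E₁ T) * star s
    rcases Set.mem_insert_iff.1 hs with rfl | hs
    · refine ⟨b2 _, ?_⟩
      have h1 := b2 (E₁ T)
      generalize E₂ (E₁ T) = S at h1 ⊢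
      calc star s * S = star s * (S * s) * star s := by
            simp only [mul_assoc, hUU', mul_one]
        _ = S * star s := by
            rw [← h1]
            simp only [← mul_assoc, hUU, one_mul]
    · have h1 := b4 s (E₁ T) (fun k => hk _ (a2 T) k s hs)
      refine ⟨h1, ?_⟩
      rw [(hR s hs).isSelfAdjoint.star_eq]
      exact h1
  · rw [mem_commOf] at hT
    change E₂ (E₁ T) = T
    rw [a3 T (fun p hp => (hT p (Set.mem_insert_of_mem _ hp)).1)]
    exact b3 T (hT U (Set.mem_insert _ _)).1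

end Pool.Agent.P.MP_7e3bdd_an.RW
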