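import Pool.Agent.P.MP_7e3bdd_an.RW.St2
import Pool.Agent.P.MP_7e3bdd_an.RW.Inj

/-!
Injectivity of the commutant of commuting projections and commuting unitaries permuting them.
-/

set_option autoImplicit false

open scoped InnerProductSpace Topology
open Filter

noncomputable section

namespace Pool.Agent.P.MP_7e3bdd_an.RW

variable {K : Type} [NormedAddCommGroup K] [InnerProductSpace ℂ K] [CompleteSpace K]

theorem inj2_star {U S : K →L[ℂ] K} (hU : U ∈ unitary (K →L[ℂ] K)) (h : U * S = S * U) :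
    star U * S = S * star U := by
  have hUU : star U * U = 1 := (Unitary.mem_iff.1 hU).1
  have hUU' : U * star U = 1 := (Unitary.mem_iff.1 hU).2
  calc star U * S = star U * (S * U) * star U := by
        simp only [mul_assoc, hUU', mul_one]
    _ = S * star U := by
        rw [← h]
        simp only [← mul_assoc, hUU, one_mul]

theorem inj2_pow_R {R : Set (K →L[ℂ] K)} {U : K →L[ℂ] K} (hU : U ∈ unitary (K →L[ℂ] K))
    (hU2 : ∀ p ∈ R, star U * p * U ∈ R) (T : K →L[ℂ] K) (hT : ∀ p ∈ R, p * T = T * p) (k : ℕ) :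
    ∀ p ∈ R, p * (U ^ k * T * star U ^ k) = (U ^ k * T * star U ^ k) * p := by
  have hUU' : U * star U = 1 := (Unitary.mem_iff.1 hU).2
  induction k with
  | zero => simpa using hT
  | succ k ih =>
    intro p hp
    have h1 : U ^ (k + 1) * T * star U ^ (k + 1) = U * (U ^ k * T * star U ^ k) * star U := by
      rw [pow_succ' U k, pow_succ (star U) k]
      simp only [mul_assoc]
    have h2 := ih _ (hU2 p hp)
    rw [h1]
    generalize U ^ k * T * star U ^ k = S at h2 ⊢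
    calc p * (U * S * star U) = U * (star U * p * U * S) * star U := by
          simp only [← mul_assoc, hUU', one_mul]
      _ = U * S * star U * p := by
          rw [h2]
          simp only [mul_assoc, hUU', mul_one]

theorem inj2_pow_U {U V T : K →L[ℂ] K} (hU : U ∈ unitary (K →L[ℂ] K)) (hV : V * U = U * V)
    (hT : V * T = T * V) (k : ℕ) :
    V * (U ^ k * T * star U ^ k) = (U ^ k * T * star U ^ k) * V := by
  have h1 : Commute V U := hV
  have h2 : Commute V (star U) := (inj2_star hU hV.symm).symm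
  have h3 : Commute V T := hT
  exact (((h1.pow_right k).mul_right h3).mul_right (h2.pow_right k)).eq

theorem inj2_fin (R 𝒰 : Set (K →L[ℂ] K)) (hU : ∀ U ∈ 𝒰, U ∈ unitary (K →L[ℂ] K))
    (hc : ∀ U ∈ 𝒰, ∀ U' ∈ 𝒰, U * U' = U' * U) (hR : ∀ U ∈ 𝒰, ∀ p ∈ R, star U * p * U ∈ R)
    (F : Finset 𝒰) :
    ∃ Φ : (K →L[ℂ] K) →L[ℂ] (K →L[ℂ] K), (∀ T, ‖Φ T‖ ≤ ‖T‖) ∧
      (∀ T, ∀ U ∈ F, (U : K →L[ℂ] K) * Φ T = Φ T * U) ∧
      (∀ T, (∀ U ∈ 𝒰, U * T = T * U) → Φ T = T) ∧
      ∀ T, (∀ p ∈ R, p * T = T * p) → ∀ p ∈ R, p * Φ T = Φ T * p := by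
  classical
  induction F using Finset.induction_on with
  | empty =>
    exact ⟨ContinuousLinearMap.id ℂ _, fun T => le_rfl, by simp, fun T _ => rfl, fun T hT => hT⟩
  | insert q F _ ih =>
    obtain ⟨Φ, h1, h2, h3, h4⟩ := ih
    obtain ⟨c, c1, c2, c3, c4⟩ := inj_two (q : K →L[ℂ] K) (hU q q.2)
    refine ⟨c.comp Φ, fun T => (c1 _).trans (h1 T), fun T U hUF => ?_, fun T hT => ?_,
      fun T hT p hp => ?_⟩
    · rcases Finset.mem_insert.1 hUF with rfl | hUF
      · exact c2 _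
      · exact c4 U _ (inj2_pow_U (hU q q.2) (hc U U.2 q q.2) (h2 T U hUF))
    · change c (Φ T) = T
      rw [h3 T hT]
      exact c3 T (hT q q.2)
    · exact c4 p _ fun k => inj2_pow_R (hU q q.2) (hR q q.2) _ (h4 T hT) k p hp

theorem inj2St : Inj2St := by
  classical
  intro K _ _ _ R 𝒰 hR hc hU hcU hUR
  obtain ⟨E₁, a1, a2, a3⟩ := inj_one R hR hc
  choose Φ h1 h2 h3 h4 using inj2_fin R 𝒰 hU hcU hUR
  obtain ⟨E₂, e1, e2⟩ := inj_lim (Ultrafilter.of (atTop : Filter (Finset 𝒰))) Φ h1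
  refine ⟨E₂.comp E₁, ?_, fun T => ?_, fun T hT => ?_⟩
  · refine ContinuousLinearMap.opNorm_le_bound _ zero_le_one (fun T => ?_)
    rw [one_mul]
    exact (e1 _).trans (a1 T)
  · rw [mem_commOf]
    intro s hs
    change s * E₂ (E₁ T) = E₂ (E₁ T) * s ∧ star s * E₂ (E₁ T) = E₂ (E₁ T) * star s
    rcases hs with hs | hs
    · have h5 : s * E₂ (E₁ T) = E₂ (E₁ T) * s := by
        refine (e2 (E₁ T)).comm s ?_
        have : ∀ᶠ F in (atTop : Filter (Finset 𝒰)), s * Φ F (E₁ T) = Φ F (E₁ T) * s := by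
          filter_upwards [eventually_ge_atTop ({⟨s, hs⟩} : Finset 𝒰)] with F hF
          exact h2 F _ ⟨s, hs⟩ (hF (Finset.mem_singleton_self _))
        exact this.filter_mono (Ultrafilter.of_le _)
      exact ⟨h5, inj2_star (hU s hs) h5⟩
    · have h5 : s * E₂ (E₁ T) = E₂ (E₁ T) * s :=
        (e2 (E₁ T)).comm s (Eventually.of_forall fun F => h4 F _ (a2 T) s hs)
      refine ⟨h5, ?_⟩
      rw [(hR s hs).isSelfAdjoint.star_eq]
      exact h5
  · rw [mem_commOf] at hT
    change E₂ (E₁ T) = T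
    rw [a3 T (fun p hp => (hT p (Or.inr hp)).1)]
    refine (e2 T).unique ?_
    simp only [h3 _ T (fun U hUU => (hT U (Or.inl hUU)).1)]
    exact WLim.const T

end Pool.Agent.P.MP_7e3bdd_an.RW
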