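import Pool.Agent.P.MP_7e3bdd_an.RW.St

/-!
Without an invariant state the averaged conjugation action on Hilbert-Schmidt operators has an
arbitrarily large spectral gap.
-/

set_option autoImplicit false

open scoped InnerProductSpace Topology ComplexConjugate ComplexOrder
open Filter

noncomputable section

namespace Pool.Agent.P.MP_7e3bdd_an.RW

variable {H : Type} [NormedAddCommGroup H] [InnerProductSpace ℂ H] {ι : Type}

theorem hsv_prod (b : HilbertBasis ι ℂ H) {F J : Type} [Fintype F] [Fintype J] (w : F → ℝ)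
    (g : F → H →L[ℂ] H) (β : J → ℝ) (f : J → H) :
    hsv b (fun p : F × J => w p.1 * β p.2) (fun p : F × J => g p.1 (f p.2)) =
      ∑ a, (w a : ℂ) • hsv b β (fun j => g a (f j)) := by
  simp only [hsv, Fintype.sum_prod_type, Finset.smul_sum, smul_smul, Complex.ofReal_mul]

theorem inner_hsv_lam (b : HilbertBasis ι ℂ H) {J : Type} [Fintype J] (β : J → ℝ) (f : J → H)
    (T : H →L[ℂ] H) :
    ⟪hsv b β f, lam T (hsv b β f)⟫_ℂ =
      ∑ j, ∑ k, (β j : ℂ) * (β k : ℂ) * (⟪f k, f j⟫_ℂ * ⟪f j, T (f k)⟫_ℂ) := by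
  simp only [hsv, map_sum, map_smul, lam_t2, sum_inner, inner_sum, inner_smul_left,
    inner_smul_right, inner_t2, Finset.mul_sum, Complex.conj_ofReal]
  rw [Finset.sum_comm]
  refine Finset.sum_congr rfl fun i _ => Finset.sum_congr rfl fun j _ => ?_
  ring

theorem inner_lam_sub_le (X Y : HS ι H) (T : H →L[ℂ] H) (r d : ℝ) (hX : ‖X‖ = r) (hY : ‖Y‖ = r)
    (hd : ‖Y - X‖ ≤ d) : ‖⟪Y, lam T Y⟫_ℂ - ⟪X, lam T X⟫_ℂ‖ ≤ 2 * d * r * ‖T‖ := by
  have h0 : 0 ≤ d := (norm_nonneg _).trans hd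
  have hr : 0 ≤ r := hX ▸ norm_nonneg _
  have h1 : ⟪Y, lam T Y⟫_ℂ - ⟪X, lam T X⟫_ℂ = ⟪Y - X, lam T Y⟫_ℂ + ⟪X, lam T (Y - X)⟫_ℂ := by
    rw [map_sub, inner_sub_left, inner_sub_right]
    ring
  have h2 : ‖⟪Y - X, lam T Y⟫_ℂ‖ ≤ d * (‖T‖ * r) := by
    refine (norm_inner_le_norm _ _).trans ?_
    have := norm_lam_le T Y
    rw [hY] at this
    gcongr
  have h3 : ‖⟪X, lam T (Y - X)⟫_ℂ‖ ≤ r * (‖T‖ * d) := by
    refine (norm_inner_le_norm _ _).trans ?_
    have h4 : ‖lam T (Y - X)‖ ≤ ‖T‖ * d := (norm_lam_le T _).trans (by gcongr)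
    rw [hX]
    gcongr
  rw [h1]
  refine (norm_add_le _ _).trans ?_
  nlinarith [h2, h3]

/-- If the average of vectors of norm `r` has norm close to `r`, the vectors are close. -/
theorem close_of_avg {E F : Type} [NormedAddCommGroup E] [InnerProductSpace ℂ E] [Fintype F]
    (Y : F → E) (r η : ℝ) (hη0 : 0 ≤ η) (hη : η ≤ 1) (hY : ∀ a, ‖Y a‖ = r)
    (h : (Fintype.card F - η ^ 2 / 4) * r < ‖∑ a, Y a‖) (a c : F) : ‖Y a - Y c‖ ≤ η * r := by
  classical
  have hr : 0 ≤ r := hY a ▸ norm_nonneg _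
  rcases eq_or_ne a c with rfl | hac
  · simp only [sub_self, norm_zero]
    positivity
  by_contra hlt
  push Not at hlt
  have hpar := parallelogram_law_with_norm ℂ (Y a) (Y c)
  rw [hY, hY] at hpar
  have h1 : ‖Y a + Y c‖ ≤ (2 - η ^ 2 / 4) * r := by
    have h2 : 0 ≤ (2 - η ^ 2 / 4) * r := mul_nonneg (by nlinarith) hr
    refine abs_le_of_sq_le_sq' ?_ h2 |>.2
    have h3 : (η * r) ^ 2 ≤ ‖Y a - Y c‖ ^ 2 := by gcongr
    nlinarith [sq_nonneg (η ^ 2 * r)]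
  have hsub : ({a, c} : Finset F) ⊆ Finset.univ := Finset.subset_univ _
  have h4 : ∑ x, Y x = ∑ x ∈ Finset.univ \ {a, c}, Y x + (Y a + Y c) := by
    rw [← Finset.sum_sdiff hsub, Finset.sum_pair hac]
  have h5 : ‖∑ x ∈ Finset.univ \ {a, c}, Y x‖ ≤ (Fintype.card F - 2) * r := by
    refine (norm_sum_le _ _).trans (le_of_eq ?_)
    have h6 := Finset.card_sdiff_add_card_eq_card hsub
    rw [Finset.card_pair hac, Finset.card_univ] at h6
    simp only [hY, Finset.sum_const, nsmul_eq_mul]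
    rw [← h6]
    push_cast
    ring
  have h7 := (norm_add_le _ _).trans (add_le_add h5 h1)
  rw [← h4] at h7
  nlinarith

variable [CompleteSpace H]

theorem inner_hsv_unitary (b : HilbertBasis ι ℂ H) {J : Type} [Fintype J] (β : J → ℝ) (f : J → H)
    {u : H →L[ℂ] H} (hu : u ∈ unitary (H →L[ℂ] H)) (T : H →L[ℂ] H) :
    ⟪hsv b β (fun j => u (f j)), lam T (hsv b β (fun j => u (f j)))⟫_ℂ =
      ⟪hsv b β f, lam (star u * T * u) (hsv b β f)⟫_ℂ := by
  rw [inner_hsv_lam, inner_hsv_lam]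
  refine Finset.sum_congr rfl fun i _ => Finset.sum_congr rfl fun j _ => ?_
  rw [ContinuousLinearMap.inner_map_map_of_mem_unitary hu]
  simp [ContinuousLinearMap.star_eq_adjoint, ContinuousLinearMap.adjoint_inner_right]

/-- Almost invariant vector states have an invariant state as a limit. -/
theorem exists_state (S : Set (H →L[ℂ] H))
    (h : ∀ (s : Finset S) (ε : ℝ), 0 < ε → ∃ X : HS ι H, ‖X‖ = 1 ∧ ∀ a ∈ s, ∀ T : H →L[ℂ] H,
      ‖⟪X, lam (star (a : H →L[ℂ] H) * T * (a : H →L[ℂ] H)) X⟫_ℂ - ⟪X, lam T X⟫_ℂ‖ ≤ ε * ‖T‖) :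
    ∃ ψ : (H →L[ℂ] H) →L[ℂ] ℂ, IsState ψ ∧ ∀ s ∈ S, ∀ T, ψ (star s * T * s) = ψ T := by
  classical
  choose X hX1 hX using fun i : Finset S × ℕ =>
    h i.1 (1 / ((i.2 : ℝ) + 1)) (by positivity)
  let 𝒰 : Ultrafilter (Finset S × ℕ) := Ultrafilter.of atTop
  have h𝒰 : (𝒰 : Filter (Finset S × ℕ)) ≤ atTop := Ultrafilter.of_le _
  have hb : ∀ (T : H →L[ℂ] H) (i : Finset S × ℕ), ‖⟪X i, lam T (X i)⟫_ℂ‖ ≤ ‖T‖ := by
    intro T i
    refine (norm_inner_le_norm _ _).trans ?_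
    have := norm_lam_le T (X i)
    rw [hX1] at this ⊢
    linarith
  choose L hL using fun T : H →L[ℂ] H =>
    exists_ulim 𝒰 (fun i => ⟪X i, lam T (X i)⟫_ℂ) _ (hb T)
  let ψ₀ : (H →L[ℂ] H) →ₗ[ℂ] ℂ :=
    { toFun := L
      map_add' := fun T T' => tendsto_nhds_unique (hL (T + T')) (by
        simpa only [lam_add, inner_add_right] using (hL T).add (hL T'))
      map_smul' := fun c T => tendsto_nhds_unique (hL (c • T)) (by
        simpa only [lam_smul, inner_smul_right, RingHom.id_apply, smul_eq_mul] using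
          (hL T).const_mul c) }
  have hψ₀ : ∀ T, ‖ψ₀ T‖ ≤ 1 * ‖T‖ := fun T => by
    rw [one_mul]
    exact le_of_tendsto' (hL T).norm (hb T)
  refine ⟨ψ₀.mkContinuous 1 hψ₀, ⟨?_, fun T => ?_⟩, fun s hs T => ?_⟩
  · change L 1 = 1
    refine tendsto_nhds_unique (hL 1) ?_
    simp only [lam_one, inner_self_eq_norm_sq_to_K, hX1]
    simp
  · change 0 ≤ L (star T * T)
    refine ge_of_tendsto' (hL (star T * T)) fun i => ?_
    rw [lam_mul, inner_lam_star, inner_self_eq_norm_sq_to_K]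
    positivity
  · change L (star s * T * s) = L T
    refine sub_eq_zero.1 (tendsto_nhds_unique ((hL _).sub (hL T)) ?_)
    rw [tendsto_zero_iff_norm_tendsto_zero]
    have h1 : Tendsto (fun i : Finset S × ℕ => 1 / ((i.2 : ℝ) + 1) * ‖T‖) atTop (𝓝 0) := by
      have h2 : Tendsto (fun i : Finset S × ℕ => i.2) atTop atTop := by
        rw [← prod_atTop_atTop_eq]
        exact tendsto_snd
      simpa using ((tendsto_one_div_add_atTop_nhds_zero_nat (𝕜 := ℝ)).comp h2).mul_const ‖T‖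
    refine squeeze_zero' (Eventually.of_forall fun _ => norm_nonneg _) ?_ (h1.mono_left h𝒰)
    refine ((eventually_ge_atTop (({⟨s, hs⟩}, 0) : Finset S × ℕ)).filter_mono h𝒰).mono
      fun i hi => ?_
    exact hX i ⟨s, hs⟩ (hi.1 (Finset.mem_singleton_self _)) T

theorem gap_step (S : Set (H →L[ℂ] H)) (hS : ∀ s ∈ S, s ∈ unitary (H →L[ℂ] H))
    (hno : ¬ ∃ ψ : (H →L[ℂ] H) →L[ℂ] ℂ, IsState ψ ∧ ∀ s ∈ S, ∀ T, ψ (s * T * star s) = ψ T) :
    ∃ (s : Finset S) (ρ₀ : ℝ), 0 ≤ ρ₀ ∧ ρ₀ < 1 ∧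
      Gap (fun _ : Option s => ((Fintype.card (Option s) : ℝ))⁻¹)
        (fun a : Option s => a.elim 1 fun x => ((x : S) : H →L[ℂ] H)) ρ₀ := by
  by_contra hcon
  push Not at hcon
  apply hno
  obtain ⟨w, b, -⟩ := exists_hilbertBasis ℂ H
  suffices h : ∀ (s : Finset S) (ε : ℝ), 0 < ε → ∃ X : HS w H, ‖X‖ = 1 ∧ ∀ a ∈ s,
      ∀ T : H →L[ℂ] H,
        ‖⟪X, lam (star (a : H →L[ℂ] H) * T * (a : H →L[ℂ] H)) X⟫_ℂ - ⟪X, lam T X⟫_ℂ‖ ≤ ε * ‖T‖ by
    obtain ⟨ψ, hψ, hinv⟩ := exists_state S h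
    refine ⟨ψ, hψ, fun s hs T => ?_⟩
    have h1 : star s * (s * T * star s) * s = T := by
      have h2 := Unitary.star_mul_self_of_mem (hS s hs)
      calc star s * (s * T * star s) * s = (star s * s) * T * (star s * s) := by
            simp only [mul_assoc]
        _ = T := by rw [h2, one_mul, mul_one]
    rw [← hinv s hs (s * T * star s), h1]
  intro s ε hε
  set m : ℝ := (Fintype.card (Option s) : ℝ) with hm
  have hm1 : 1 ≤ m := by
    rw [hm]
    exact_mod_cast Fintype.card_pos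
  have hm0 : 0 < m := by linarith
  set η : ℝ := min (ε / 2) 1 with hη
  have hη0 : 0 < η := lt_min (by linarith) one_pos
  have hη1 : η ≤ 1 := min_le_right _ _
  have hηε : η ≤ ε / 2 := min_le_left _ _
  have hq : η ^ 2 / 4 * m⁻¹ ≤ 1 := by
    have h1 : m⁻¹ ≤ 1 := inv_le_one_of_one_le₀ hm1
    have h2 : η ^ 2 / 4 ≤ 1 := by nlinarith
    exact mul_le_one₀ h2 (by positivity) h1
  have hg := hcon s (1 - η ^ 2 / 4 * m⁻¹) (by linarith) (by
    have : 0 < η ^ 2 / 4 * m⁻¹ := by positivity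
    linarith)
  simp only [Gap, not_forall, not_le] at hg
  obtain ⟨J, hJ, β, f, hlt⟩ := hg
  set g : Option s → H →L[ℂ] H := fun a => a.elim 1 fun x => ((x : S) : H →L[ℂ] H) with hg
  have hgu : ∀ a, g a ∈ unitary (H →L[ℂ] H) := by
    rintro (_ | x)
    · exact one_mem _
    · exact hS _ (x : S).2
  set Y : Option s → HS w H := fun a => hsv b β (fun j => g a (f j)) with hY
  set r : ℝ := ‖hsv b β f‖ with hr
  have hYr : ∀ a, ‖Y a‖ = r := fun a => by
    rw [hY, hr, ← hsn_eq_norm b, ← hsn_eq_norm b, hsn_unitary (hgu a)]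
  have hY0 : Y none = hsv b β f := rfl
  have hlt2 : (m - η ^ 2 / 4) * r < ‖∑ a, Y a‖ := by
    rw [hsn_eq_norm b, hsn_eq_norm b, hsv_prod b (fun _ : Option s => m⁻¹) g β f,
      ← Finset.smul_sum, norm_smul, Complex.norm_real, Real.norm_of_nonneg (by positivity)] at hlt
    have h1 := mul_lt_mul_of_pos_left hlt hm0
    have h2 : m * ((1 - η ^ 2 / 4 * m⁻¹) * r) = (m - η ^ 2 / 4) * r := by
      field_simp
    have h3 : m * (m⁻¹ * ‖∑ a, Y a‖) = ‖∑ a, Y a‖ := by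
      field_simp
    rw [h2, h3] at h1
    exact h1
  have hr0 : 0 < r := by
    rcases (norm_nonneg (hsv b β f)).eq_or_lt with h0 | h0
    · exfalso
      have h1 : r = 0 := h0.symm
      have h2 : ∑ a, Y a = 0 := Finset.sum_eq_zero fun a _ => norm_eq_zero.1 ((hYr a).trans h1)
      rw [h1, h2] at hlt2
      simp at hlt2
    · exact h0
  refine ⟨((r⁻¹ : ℝ) : ℂ) • hsv b β f, ?_, fun a ha T => ?_⟩
  · rw [norm_smul, Complex.norm_real, Real.norm_of_nonneg (by positivity), ← hr]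
    field_simp
  · have h1 := close_of_avg Y r η hη0.le hη1 hYr hlt2 (some ⟨a, ha⟩) none
    have h2 := inner_lam_sub_le (Y none) (Y (some ⟨a, ha⟩)) T r (η * r) (hYr _) (hYr _) h1
    have h3 : ⟪Y (some ⟨a, ha⟩), lam T (Y (some ⟨a, ha⟩))⟫_ℂ =
        ⟪hsv b β f, lam (star (a : H →L[ℂ] H) * T * (a : H →L[ℂ] H)) (hsv b β f)⟫_ℂ :=
      inner_hsv_unitary b β f (hS _ a.2) T
    rw [h3, hY0] at h2
    simp only [map_smul, inner_smul_left, inner_smul_right, Complex.conj_ofReal]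
    rw [← mul_sub, ← mul_sub, norm_mul, norm_mul, Complex.norm_real,
      Real.norm_of_nonneg (by positivity)]
    calc r⁻¹ * (r⁻¹ * ‖⟪hsv b β f, lam (star (a : H →L[ℂ] H) * T * (a : H →L[ℂ] H)) (hsv b β f)⟫_ℂ -
          ⟪hsv b β f, lam T (hsv b β f)⟫_ℂ‖) ≤ r⁻¹ * (r⁻¹ * (2 * (η * r) * r * ‖T‖)) := by
          gcongr
      _ = 2 * η * ‖T‖ := by field_simp
      _ ≤ ε * ‖T‖ := by gcongr; linarith

theorem Gap.prod {F F' : Type} [Fintype F] [Fintype F'] {w : F → ℝ} {g : F → H →L[ℂ] H}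
    {w' : F' → ℝ} {g' : F' → H →L[ℂ] H} {r r' : ℝ} (h : Gap w g r) (h' : Gap w' g' r')
    (hr : 0 ≤ r) :
    Gap (fun p : F × F' => w p.1 * w' p.2) (fun p : F × F' => g p.1 * g' p.2) (r * r') := by
  intro J _ β f
  obtain ⟨v, b, -⟩ := exists_hilbertBasis ℂ H
  have h1 := h (F' × J) (fun p => w' p.1 * β p.2) (fun p => g' p.1 (f p.2))
  have h2 := h' J β f
  have h3 : hsn (fun p : (F × F') × J => w p.1.1 * w' p.1.2 * β p.2)
      (fun p : (F × F') × J => (g p.1.1 * g' p.1.2) (f p.2)) =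
      hsn (fun p : F × F' × J => w p.1 * (w' p.2.1 * β p.2.2))
        (fun p : F × F' × J => g p.1 (g' p.2.1 (f p.2.2))) := by
    rw [hsn_eq_norm b, hsn_eq_norm b]
    simp only [hsv, Fintype.sum_prod_type, mul_assoc, mul_apply_eq_comp]
  calc _ = _ := h3
    _ ≤ _ := h1
    _ ≤ r * (r' * hsn β f) := by gcongr
    _ = _ := (mul_assoc _ _ _).symm

omit [CompleteSpace H] in
theorem gap_one : Gap (fun _ : Unit => (1 : ℝ)) (fun _ : Unit => (1 : H →L[ℂ] H)) 1 := by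
  intro J _ β f
  simp [hsn, ker, Fintype.sum_prod_type]

theorem gapSt : GapSt := by
  intro H _ _ _ S hS hno ρ hρ
  obtain ⟨s, ρ₀, h0, h1, hgap⟩ := gap_step S hS hno
  have hcard : (0 : ℝ) < Fintype.card (Option s) := by exact_mod_cast Fintype.card_pos
  have key : ∀ k : ℕ, ∃ (F : Type) (_ : Fintype F) (w : F → ℝ) (g : F → H →L[ℂ] H),
      (∀ a, 0 < w a) ∧ ∑ a, w a = 1 ∧ (∀ a, g a ∈ Submonoid.closure S) ∧ Gap w g (ρ₀ ^ k) := by
    intro k
    induction k with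
    | zero =>
      refine ⟨Unit, inferInstance, fun _ => 1, fun _ => 1, fun _ => one_pos, by simp,
        fun _ => one_mem _, ?_⟩
      rw [pow_zero]
      exact gap_one
    | succ k ih =>
      obtain ⟨F, hF, w, g, hw, hsum, hg, hG⟩ := ih
      refine ⟨F × Option s, inferInstance, _, _, fun p => mul_pos (hw _) (inv_pos.2 hcard), ?_,
        fun p => mul_mem (hg _) ?_, pow_succ ρ₀ k ▸ hG.prod hgap (pow_nonneg h0 k)⟩
      · rw [Fintype.sum_prod_type]
        simp only [← Finset.mul_sum, Finset.sum_const, Finset.card_univ, nsmul_eq_mul,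
          mul_inv_cancel₀ hcard.ne', mul_one, hsum]
      · rcases p with ⟨_, _ | x⟩
        · exact one_mem _
        · exact Submonoid.subset_closure (x : S).2
  obtain ⟨k, hk⟩ := exists_pow_lt_of_lt_one hρ h1
  obtain ⟨F, hF, w, g, hw, hsum, hg, hG⟩ := key k
  refine ⟨F, hF, w, g, hw, hsum, hg, fun J _ β f => (hG J β f).trans ?_⟩
  exact mul_le_mul_of_nonneg_right hk.le (hsn_nonneg β f)

end Pool.Agent.P.MP_7e3bdd_an.RW
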