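import Pool.Agent.P.MP_7e3bdd_an.RW.Lln
import Pool.Agent.P.MP_7e3bdd_an.RW.Gap

/-!
One step of the tower.
-/

set_option autoImplicit false

open scoped InnerProductSpace BigOperators

noncomputable section

namespace Pool.Agent.P.MP_7e3bdd_an.RW

namespace StepP

variable {H : Type} [NormedAddCommGroup H] [InnerProductSpace ℂ H]

theorem nexp {J : Type} [Fintype J] [Nonempty J] (f : J → ℂ) (b : ℝ) (h : ∀ j, ‖f j‖ ≤ b) :
    ‖𝔼 j, f j‖ ≤ b :=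
  (RCLike.norm_expect_le (K := ℝ)).trans (Finset.expect_le Finset.univ_nonempty fun j _ => h j)

theorem exp_inner {J : Type} [Fintype J] (θ : J → H) (w : H) :
    𝔼 j, ⟪θ j, w⟫_ℂ = ⟪(((Fintype.card J : ℝ)⁻¹ : ℝ) : ℂ) • ∑ j, θ j, w⟫_ℂ := by
  rw [Finset.expect_eq_sum_div_card, inner_smul_left, sum_inner,
    Complex.conj_ofReal, Finset.card_univ]
  push_cast
  rw [div_eq_inv_mul]

theorem norm_avg_le {J : Type} [Fintype J] [Nonempty J] (θ : J → H) (b : ℝ)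
    (h : ∀ j, ‖θ j‖ ≤ b) : ‖(((Fintype.card J : ℝ)⁻¹ : ℝ) : ℂ) • ∑ j, θ j‖ ≤ b := by
  have cJ : (0 : ℝ) < Fintype.card J := Nat.cast_pos.2 Fintype.card_pos
  rw [norm_smul, Complex.norm_real, norm_inv, Real.norm_of_nonneg cJ.le, inv_mul_le_iff₀ cJ]
  refine (norm_sum_le _ _).trans ((Finset.sum_le_sum fun j _ => h j).trans_eq ?_)
  simp

variable [CompleteSpace H]

theorem UQ.mul {N : VonNeumannAlgebra H} {u v : H →L[ℂ] H} (hu : UQ N u) (hv : UQ N v) :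
    UQ N (u * v) := ⟨mul_mem hu.1 hv.1, mul_mem hu.2 hv.2⟩

theorem norm_le_one {u : H →L[ℂ] H} (hu : u ∈ unitary (H →L[ℂ] H)) : ‖u‖ ≤ 1 := by
  refine u.opNorm_le_bound zero_le_one fun x => ?_
  rw [ContinuousLinearMap.norm_map_of_mem_unitary hu, one_mul]

theorem norm_conj_le {u q : H →L[ℂ] H} (hu : u ∈ unitary (H →L[ℂ] H)) :
    ‖star u * q * u‖ ≤ ‖q‖ := by
  have h1 := norm_le_one hu
  have h2 : ‖star u‖ ≤ 1 := by rwa [norm_star]
  calc ‖star u * q * u‖ ≤ ‖star u‖ * ‖q‖ * ‖u‖ := norm_mul₃_le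
    _ ≤ 1 * ‖q‖ * 1 := by gcongr
    _ = ‖q‖ := by ring

theorem inner_star (a : H →L[ℂ] H) (x y : H) : ⟪x, (star a) y⟫_ℂ = ⟪a x, y⟫_ℂ := by
  rw [ContinuousLinearMap.star_eq_adjoint, ContinuousLinearMap.adjoint_inner_right]

theorem dens (h1 : ApproxSt) {N : VonNeumannAlgebra H} {ξ : H} (hc : Cyc N ξ) (η ζ : H)
    (h : H →L[ℂ] H) (ε : ℝ) (hε : 0 < ε) :
    ∃ y ∈ N.commutant, ∀ q ∈ N.commutant,
      ‖dl ξ η ζ (star h * q * h) - ⟪y ξ, q ξ⟫_ℂ‖ ≤ ε * ‖q‖ := by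
  obtain ⟨y1, m1, a1⟩ := h1 H N ξ hc (h η) (h ζ) (ε / 2) (by positivity)
  obtain ⟨y2, m2, a2⟩ := h1 H N ξ hc (h ξ) (⟪η, ζ⟫_ℂ • h ξ) (ε / 2) (by positivity)
  refine ⟨y1 - y2, sub_mem m1 m2, fun q hq => ?_⟩
  have e : dl ξ η ζ (star h * q * h) - ⟪(y1 - y2) ξ, q ξ⟫_ℂ =
      (⟪h η, q (h ζ)⟫_ℂ - ⟪y1 ξ, q ξ⟫_ℂ) -
        (⟪h ξ, q (⟪η, ζ⟫_ℂ • h ξ)⟫_ℂ - ⟪y2 ξ, q ξ⟫_ℂ) := by
    simp only [dl, mul_apply_eq_comp, inner_star, sub_apply,
      inner_sub_left, map_smul, inner_smul_right]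
    ring
  rw [e]
  refine (norm_sub_le _ _).trans ?_
  linarith [a1 q hq, a2 q hq]

theorem move {N : VonNeumannAlgebra H} {ξ : H} {g y q : H →L[ℂ] H} {ε C : ℝ} (hε : 0 ≤ ε)
    (hg : UQ N g) (ha : AlmostInv N ξ (star g) ε) (hy : y ∈ N.commutant) (hC : ‖y‖ ≤ C)
    (hq : q ∈ N.commutant) :
    ‖⟪y ξ, (star g * q * g) ξ⟫_ℂ - ⟪(g * y * star g) ξ, q ξ⟫_ℂ‖ ≤ ε * C * ‖q‖ := by
  have hm : g * star y * star g * q ∈ N.commutant :=
    mul_mem (mul_mem (mul_mem hg.2 (star_mem hy)) (star_mem hg.2)) hq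
  have h := ha _ hm
  have e1 : star g * (g * star y * star g * q) * star (star g) = star y * (star g * q * g) := by
    rw [star_star]
    simp only [← mul_assoc]
    rw [(Unitary.mem_iff.1 hg.1).1, one_mul]
  have e2 : g * star y * star g * q = star (g * y * star g) * q := by
    simp only [star_mul, star_star, mul_assoc]
  have hn : ‖g * star y * star g * q‖ ≤ C * ‖q‖ := by
    refine (norm_mul_le _ _).trans ?_
    have h3 := norm_conj_le (q := star y) (u := star g) (Unitary.star_mem hg.1)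
    rw [star_star, norm_star] at h3
    gcongr
    exact h3.trans hC
  rw [e1] at h
  rw [e2, mul_apply_eq_comp (star y), mul_apply_eq_comp (star _) q,
    inner_star, inner_star, ← e2] at h
  refine h.trans ?_
  rw [mul_assoc ε]
  exact mul_le_mul_of_nonneg_left hn hε

theorem orth {F D I J : Type} [Fintype F] [Fintype D] [Nonempty F] [Nonempty D] [Fintype I]
    [Fintype J] (g : F → H →L[ℂ] H) (h : D → H →L[ℂ] H) (ρ : ℝ)
    (hg : ∀ a, g a ∈ unitary (H →L[ℂ] H)) (hh : ∀ d, h d ∈ unitary (H →L[ℂ] H))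
    (hG : Gap (fun _ => (Fintype.card F : ℝ)⁻¹) g ρ) (α : I → ℝ) (e : I → H) (β : J → ℝ)
    (f : J → H) :
    𝔼 γ : F × D, 𝔼 γ' : F × D, ker α (fun i => (g γ.1 * h γ.2) (e i)) β
      (fun j => (g γ'.1 * h γ'.2) (f j)) ≤ ρ * (hsn α e * hsn β f) := by
  obtain ⟨w, b, -⟩ := exists_hilbertBasis ℂ H
  set X : F × D → HS w H := fun γ => hsv b α fun i => (g γ.1 * h γ.2) (e i) with hX
  set Y : F × D → HS w H := fun γ => hsv b β fun j => (g γ.1 * h γ.2) (f j) with hY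
  set A : HS w H := (((Fintype.card (F × D) : ℝ)⁻¹ : ℝ) : ℂ) • ∑ γ, X γ with hA
  have k1 : ∀ γ γ' : F × D, ker α (fun i => (g γ.1 * h γ.2) (e i)) β
      (fun j => (g γ'.1 * h γ'.2) (f j)) = (⟪X γ, Y γ'⟫_ℂ).re := fun γ γ' => by
    rw [hX, hY, inner_hsv, Complex.ofReal_re]
  have nA : ‖A‖ ≤ ρ * hsn α e := by
    have e1 : A = (((Fintype.card D : ℝ)⁻¹ : ℝ) : ℂ) • ∑ d, hsv b
        (fun p : F × I => (Fintype.card F : ℝ)⁻¹ * α p.2)
        (fun p : F × I => g p.1 (h d (e p.2))) := by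
      rw [hA, Fintype.sum_prod_type_right, Fintype.card_prod, Nat.cast_mul, mul_inv, mul_comm,
        Complex.ofReal_mul, mul_smul, Finset.smul_sum]
      refine congrArg _ (Finset.sum_congr rfl fun d _ => ?_)
      rw [hsv_prod b (fun _ => (Fintype.card F : ℝ)⁻¹) g α fun i => h d (e i), Finset.smul_sum]
      rfl
    rw [e1]
    refine norm_avg_le _ _ fun d => ?_
    rw [← hsn_eq_norm, ← hsn_unitary (hh d) α e]
    exact hG I α fun i => h d (e i)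
  rw [Finset.expect_comm]
  refine Finset.expect_le Finset.univ_nonempty fun γ' _ => ?_
  simp only [k1]
  rw [← Complex.re_expect, exp_inner, ← hA]
  refine (Complex.re_le_norm _).trans ((norm_inner_le_norm _ _).trans ?_)
  have nY : ‖Y γ'‖ = hsn β f := by
    rw [hY, ← hsn_eq_norm]
    exact hsn_unitary (mul_mem (hg _) (hh _)) β f
  rw [nY, ← mul_assoc]
  exact mul_le_mul_of_nonneg_right nA (hsn_nonneg _ _)

omit [CompleteSpace H] in
theorem mix {J G : Type} [Fintype J] [Nonempty J] [Fintype G] [Nonempty G] (l : G → ℂ)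
    (θ : G → H) (w : H) (s : J → G) (δ κ : ℝ) (hw : ‖w‖ ≤ 1)
    (h1 : ∀ γ, ‖l γ - ⟪θ γ, w⟫_ℂ‖ ≤ δ) (h2 : ‖𝔼 γ, l γ‖ ≤ κ) :
    ‖𝔼 j, l (s j)‖ ≤ 2 * δ + κ +
      ‖((Fintype.card J : ℝ)⁻¹ • ∑ j, θ (s j)) - (Fintype.card G : ℝ)⁻¹ • ∑ γ, θ γ‖ := by
  have a1 := nexp (fun j => l (s j) - ⟪θ (s j), w⟫_ℂ) δ fun j => h1 _
  have a2 := nexp (fun γ => l γ - ⟪θ γ, w⟫_ℂ) δ h1
  rw [Finset.expect_sub_distrib, exp_inner, Complex.coe_smul] at a1 a2
  generalize (Fintype.card J : ℝ)⁻¹ • ∑ j, θ (s j) = a at a1 ⊢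
  generalize (Fintype.card G : ℝ)⁻¹ • ∑ γ, θ γ = m at a2 ⊢
  have a3 : ‖⟪a - m, w⟫_ℂ‖ ≤ ‖a - m‖ :=
    (norm_inner_le_norm _ _).trans (mul_le_of_le_one_right (norm_nonneg _) hw)
  have e : 𝔼 j, l (s j) = (𝔼 j, l (s j) - ⟪a, w⟫_ℂ) + ⟪a - m, w⟫_ℂ -
      (𝔼 γ, l γ - ⟪m, w⟫_ℂ) + 𝔼 γ, l γ := by
    rw [inner_sub_left]
    ring
  rw [e]
  have a4 := norm_add_le ((𝔼 j, l (s j) - ⟪a, w⟫_ℂ) + ⟪a - m, w⟫_ℂ -
      (𝔼 γ, l γ - ⟪m, w⟫_ℂ)) (𝔼 γ, l γ)
  have a5 := norm_sub_le ((𝔼 j, l (s j) - ⟪a, w⟫_ℂ) + ⟪a - m, w⟫_ℂ) (𝔼 γ, l γ - ⟪m, w⟫_ℂ)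
  have a6 := norm_add_le (𝔼 j, l (s j) - ⟪a, w⟫_ℂ) ⟪a - m, w⟫_ℂ
  linarith

end StepP

open StepP in
theorem stepSt (h1 : ApproxSt) (h2 : DixSt) (h3 : GapNASt) (h4 : LlnSt) : StepSt := by
  intro H _ _ _ _ N ξ hF hc hNA I V _ _ η ζ ε hε
  let _ : DecidableEq V := Classical.decEq V
  obtain ⟨m, h, hU, hD⟩ := h2 H N ξ hF hc I η ζ (ε / 6) (by positivity)
  choose y hy hy' using fun (i : I) (d : Fin (m + 1)) =>
    dens h1 hc (η i) (ζ i) (h d) (ε / 6) (by positivity)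
  obtain ⟨C, hC0, hC⟩ : ∃ C : ℝ, 0 < C ∧ ∀ i d, ‖y i d‖ ≤ C := by
    refine ⟨1 + ∑ p : I × Fin (m + 1), ‖y p.1 p.2‖, by positivity, fun i d => ?_⟩
    have := Finset.single_le_sum (f := fun p : I × Fin (m + 1) => ‖y p.1 p.2‖)
      (fun p _ => norm_nonneg _) (Finset.mem_univ (i, d))
    linarith
  obtain ⟨R, hR⟩ := exists_nat_ge (C ^ 2 / (ε / 6) ^ 2)
  have hR' : C ^ 2 ≤ (ε / 6) ^ 2 * ((R : ℝ) + 1) := by
    rw [div_le_iff₀ (by positivity)] at hR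
    nlinarith [sq_nonneg (ε / 6)]
  have cR : (0 : ℝ) < (R : ℝ) + 1 := by positivity
  set ρ : ℝ := min (ε / ((R : ℝ) + 1)) (ε / 6 / C) with hρ
  have hρ0 : 0 < ρ := lt_min (by positivity) (by positivity)
  have hρ1 : ((R : ℝ) + 1) * ρ ≤ ε := by
    rw [mul_comm, ← le_div_iff₀ cR]
    exact min_le_left _ _
  have hρ2 : ρ * C ≤ ε / 6 := by
    rw [← le_div_iff₀ hC0]
    exact min_le_right _ _
  obtain ⟨n, g, hg, hG⟩ := h3 H N ξ hNA ρ hρ0
  refine ⟨R, V × Fin (R + 1) → Fin (n + 1) × Fin (m + 1), inferInstance, inferInstance,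
    fun x u => g (u x).1 * h (u x).2, fun x u => UQ.mul (hg _).1 (hU _), fun i v z hz => ?_,
    fun x x' hx I' J _ _ α e β f => ?_⟩
  · set θ : Fin (n + 1) × Fin (m + 1) → H := fun γ => (g γ.1 * y i γ.2 * star (g γ.1)) ξ with hθ
    have nθ : ∀ γ, ‖θ γ‖ ≤ C := fun γ => by
      have h5 := norm_conj_le (q := y i γ.2) (u := star (g γ.1)) (Unitary.star_mem (hg γ.1).1.1)
      rw [star_star] at h5
      refine (ContinuousLinearMap.le_opNorm _ _).trans ?_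
      rw [hc.1, mul_one]
      exact h5.trans (hC _ _)
    have hL := h4 H (Fin (n + 1) × Fin (m + 1)) V θ C (ε / 6) R v (by positivity) nθ hR'
    have key : ∀ u : V × Fin (R + 1) → Fin (n + 1) × Fin (m + 1),
        ‖𝔼 j, dl ξ (η i) (ζ i) (star (g (u (v, j)).1 * h (u (v, j)).2) * z u *
          (g (u (v, j)).1 * h (u (v, j)).2))‖ ≤ 5 * (ε / 6) +
          ‖(((R : ℝ) + 1)⁻¹ • ∑ j, θ (u (v, j))) -
            (Fintype.card (Fin (n + 1) × Fin (m + 1)) : ℝ)⁻¹ • ∑ γ, θ γ‖ := fun u => by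
      obtain ⟨zq, zn⟩ := hz u
      have cq : ∀ a, star (g a) * z u * g a ∈ N.commutant := fun a =>
        mul_mem (mul_mem (star_mem (hg a).1.2) zq) (hg a).1.2
      have cn : ∀ a, ‖star (g a) * z u * g a‖ ≤ 1 := fun a => (norm_conj_le (hg a).1.1).trans zn
      have ce : ∀ a d, star (g a * h d) * z u * (g a * h d) =
          star (h d) * (star (g a) * z u * g a) * h d := fun a d => by
        simp only [star_mul, mul_assoc]
      have hm := mix (fun γ : Fin (n + 1) × Fin (m + 1) =>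
        dl ξ (η i) (ζ i) (star (g γ.1 * h γ.2) * z u * (g γ.1 * h γ.2))) θ (z u ξ)
        (fun j : Fin (R + 1) => u (v, j)) (2 * (ε / 6)) (ε / 6) ?_ ?_ ?_
      · rw [Fintype.card_fin, Nat.cast_add, Nat.cast_one] at hm
        refine hm.trans_eq ?_
        ring
      · refine (ContinuousLinearMap.le_opNorm _ _).trans ?_
        rwa [hc.1, mul_one]
      · intro γ
        have b1 := hy' i γ.2 _ (cq γ.1)
        have b2 := move hρ0.le (hg γ.1).1 (hg γ.1).2 (hy i γ.2) (hC i γ.2) zq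
        have b3 := norm_sub_le_norm_sub_add_norm_sub
          (dl ξ (η i) (ζ i) (star (h γ.2) * (star (g γ.1) * z u * g γ.1) * h γ.2))
          ⟪y i γ.2 ξ, (star (g γ.1) * z u * g γ.1) ξ⟫_ℂ ⟪θ γ, z u ξ⟫_ℂ
        have b4 : ε / 6 * ‖star (g γ.1) * z u * g γ.1‖ ≤ ε / 6 :=
          mul_le_of_le_one_right (by positivity) (cn _)
        have b5 : ρ * C * ‖z u‖ ≤ ρ * C := mul_le_of_le_one_right (by positivity) zn
        rw [ce]
        linarith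
      · rw [← Finset.univ_product_univ, Finset.expect_product]
        refine nexp _ _ fun a => ?_
        simp only [ce]
        exact (hD i _ (cq a)).trans (mul_le_of_le_one_right (by positivity) (cn _))
    refine (RCLike.norm_expect_le (K := ℝ)).trans
      ((Finset.expect_le_expect fun u _ => key u).trans ?_)
    rw [Finset.expect_add_distrib, Finset.expect_const Finset.univ_nonempty]
    linarith
  · have hG' : Gap (fun _ => (Fintype.card (Fin (n + 1)) : ℝ)⁻¹) g ρ := by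
      rwa [Fintype.card_fin, Nat.cast_add, Nat.cast_one]
    have ho := orth g h ρ (fun a => (hg a).1.1) (fun d => (hU d).1) hG' α e β f
    rw [← expect_pair hx fun γ γ' : Fin (n + 1) × Fin (m + 1) =>
      ker α (fun i => (g γ.1 * h γ.2) (e i)) β (fun j => (g γ'.1 * h γ'.2) (f j))] at ho
    refine (mul_le_mul_of_nonneg_left ho cR.le).trans ?_
    rw [← mul_assoc]
    exact mul_le_mul_of_nonneg_right hρ1 (mul_nonneg (hsn_nonneg _ _) (hsn_nonneg _ _))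

end Pool.Agent.P.MP_7e3bdd_an.RW
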