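import Pool.Agent.P.MP_7e3bdd_an.RW.St2

/-!
The tower is built by recursion from the single step.
-/

set_option autoImplicit false

open scoped InnerProductSpace BigOperators

noncomputable section

namespace Pool.Agent.P.MP_7e3bdd_an.RW

namespace TowerP

variable {H : Type} [NormedAddCommGroup H] [InnerProductSpace ℂ H]

variable (H) in
/-- A level of the tower. -/
structure Lv : Type 1 where
  V : Type
  fin : Fintype V
  grp : AddCommGroup V
  A : Finset (H →L[ℂ] H)
  B : ℕ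

variable (H) in
/-- The data produced by one step. -/
structure Sd (V : Type) : Type 1 where
  R : ℕ
  U : Type
  fin : Fintype U
  grp : AddCommGroup U
  c : V × Fin (R + 1) → U → H →L[ℂ] H

attribute [instance] Lv.fin Lv.grp Sd.fin Sd.grp

variable (σ : ∀ L : Lv H, ℕ → Sd H L.V)

open Classical in
/-- The next level. -/
def nxt (L : Lv H) (k : ℕ) : Lv H where
  V := (σ L k).U
  fin := (σ L k).fin
  grp := (σ L k).grp
  A := Finset.univ.image fun t : (L.V × Fin ((σ L k).R + 1)) × (σ L k).U × L.A =>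
    (σ L k).c t.1 t.2.1 * t.2.2.1
  B := L.B * (Fintype.card L.V * ((σ L k).R + 1))

/-- The levels. -/
def lv : ℕ → Lv H
  | 0 => ⟨Fin 2, inferInstance, inferInstance, {1}, 1⟩
  | k + 1 => nxt σ (lv k) k

/-- The alphabets. -/
abbrev XX (k : ℕ) : Type := (lv σ k).V × Fin ((σ (lv σ k) k).R + 1)

/-- The letters. -/
def cc (k : ℕ) (x : XX σ k) (y : XX σ (k + 1)) : H →L[ℂ] H := (σ (lv σ k) k).c x y.1

theorem card_hd (k : ℕ) : Fintype.card (Hd (XX σ) k) = (lv σ k).B := by
  induction k with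
  | zero => rfl
  | succ k ih =>
    rw [card_hd_succ, ih, Fintype.card_prod, Fintype.card_fin]
    rfl

theorem aH_mem (k : ℕ) (h : Hd (XX σ) k) (v : (lv σ k).V) :
    ∃ a ∈ (lv σ k).A, ∀ j, aH (cc σ) k h (v, j) = a := by
  induction k with
  | zero => exact ⟨1, Finset.mem_singleton_self _, fun _ => rfl⟩
  | succ k ih =>
    classical
    obtain ⟨a, a1, a2⟩ := ih h.1 h.2.1
    refine ⟨_, Finset.mem_image_of_mem _ (Finset.mem_univ (h.2, v, ⟨a, a1⟩)), fun j => ?_⟩
    exact congrArg (fun b => (σ (lv σ k) k).c h.2 v * b) (a2 h.2.2)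

theorem exp_prod {A B E : Type} [Fintype A] [Fintype B] [AddCommMonoid E] [Module ℚ≥0 E]
    (f : A × B → E) : 𝔼 x, f x = 𝔼 a, 𝔼 b, f (a, b) := by
  rw [← Finset.univ_product_univ, Finset.expect_product]

theorem norm_exp_le {A : Type} [Fintype A] [Nonempty A] {f : A → ℂ} {ε : ℝ} (h : ∀ a, ‖f a‖ ≤ ε) :
    ‖𝔼 a, f a‖ ≤ ε :=
  (RCLike.norm_expect_le (K := ℂ)).trans (Finset.expect_le Finset.univ_nonempty fun a _ => h a)

end TowerP

open TowerP

theorem towerSt (h : StepSt) : TowerSt := by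
  intro H _ _ _ _ N ξ h1 h2 h3 ξs δ hδ
  choose R U fU gU c p1 p2 p3 using fun (L : Lv H) (k : ℕ) =>
    h H N ξ h1 h2 h3 (L.A × Fin (k + 1) × Fin (k + 1)) L.V (fun t => t.1.1 (ξs t.2.1))
      (fun t => t.1.1 (ξs t.2.2))
      (min (1 / ((k : ℝ) + 1)) (2 * δ ^ 2 / 2 ^ k / (L.B * Fintype.card L.V + 1))) (by positivity)
  let σ : ∀ L : Lv H, ℕ → Sd H L.V := fun L k => ⟨R L k, U L k, fU L k, gU L k, c L k⟩
  refine ⟨XX σ, inferInstance, inferInstance, cc σ, fun x => ![1, -1] x.1,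
    fun k x y => p1 _ k x y.1, fun x => ?_, ?_, ?_, ?_⟩
  · exact (Fin.forall_fin_two (p := fun i => ![(1 : ℝ), -1] i = 1 ∨ ![(1 : ℝ), -1] i = -1)).2
      ⟨Or.inl rfl, Or.inr rfl⟩ x.1
  · rw [Fintype.sum_prod_type_right]
    exact Finset.sum_eq_zero fun j _ =>
      (Fin.sum_univ_two fun i => ![(1 : ℝ), -1] i).trans (by simp)
  · intro k hd i j hi hj z hz
    rw [exp_prod]
    refine norm_exp_le fun v => ?_
    obtain ⟨a, a1, a2⟩ := aH_mem σ k hd v
    simp only [a2]
    rw [Finset.expect_comm, exp_prod, Finset.expect_comm]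
    exact norm_exp_le fun j' => (p2 (lv σ k) k (⟨a, a1⟩, ⟨i, by omega⟩, ⟨j, by omega⟩) v
      (fun u => z (u, j')) fun u => hz _).trans (min_le_left _ _)
  · intro k x x' hx I J _ _ α e β f
    have a := p3 (lv σ k) k x x' hx I J α e β f
    have n0 := mul_nonneg (hsn_nonneg α e) (hsn_nonneg β f)
    rw [card_hd, exp_prod]
    simp only [cc, Fintype.expect_const]
    have b : ((lv σ (k + 1)).B : ℝ) =
        (lv σ k).B * Fintype.card (lv σ k).V * ((R (lv σ k) k : ℝ) + 1) := by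
      rw [show (lv σ (k + 1)).B = (lv σ k).B * (Fintype.card (lv σ k).V * (R (lv σ k) k + 1))
        from rfl]
      push_cast
      ring
    rw [b, mul_assoc]
    refine (mul_le_mul_of_nonneg_left (a.trans (mul_le_mul_of_nonneg_right (min_le_right _ _) n0))
      (by positivity)).trans ?_
    rw [← mul_assoc]
    refine mul_le_mul_of_nonneg_right ?_ n0
    rw [mul_div_assoc', div_le_iff₀ (by positivity)]
    have : 0 < 2 * δ ^ 2 / 2 ^ k := by positivity
    nlinarith

end Pool.Agent.P.MP_7e3bdd_an.RW
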