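import Mathlib

/-!
Common definitions: the overlap kernel of two finite weighted families of vectors, states,
spectral gaps, commutants, and weak operator limits along an arbitrary ultrafilter.
-/

set_option autoImplicit false

open scoped InnerProductSpace Topology ComplexConjugate ComplexOrder
open Filter MeasureTheory

noncomputable section

namespace Pool.Agent.P.MP_7e3bdd_an.RW

variable {H : Type} [NormedAddCommGroup H] [InnerProductSpace ℂ H]

/-- The overlap `Tr (Y₁ Y₂)` of `Y₁ = ∑ α i |e i⟩⟨e i|` and `Y₂ = ∑ β j |f j⟩⟨f j|`. -/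
def ker {I J : Type} [Fintype I] [Fintype J] (α : I → ℝ) (e : I → H) (β : J → ℝ) (f : J → H) :
    ℝ :=
  ∑ i, ∑ j, α i * β j * ‖⟪e i, f j⟫_ℂ‖ ^ 2

/-- The Hilbert-Schmidt norm of `∑ β j |f j⟩⟨f j|`. -/
def hsn {J : Type} [Fintype J] (β : J → ℝ) (f : J → H) : ℝ := √(ker β f β f)

/-- The averaged conjugation action of the operators `g a` with weights `w a` has norm at most
`ρ` on finite rank self-adjoint operators with the Hilbert-Schmidt norm. -/
def Gap {F : Type} [Fintype F] (w : F → ℝ) (g : F → H →L[ℂ] H) (ρ : ℝ) : Prop :=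
  ∀ (J : Type) [Fintype J] (β : J → ℝ) (f : J → H),
    hsn (fun p : F × J => w p.1 * β p.2) (fun p : F × J => g p.1 (f p.2)) ≤ ρ * hsn β f

/-- The same for a probability measure on a countable alphabet: a finite part with a gap and a
small tail. -/
def WalkGap {A : Type} [MeasurableSpace A] (μ : Measure A) (v : A → H →L[ℂ] H) (ρ : ℝ) : Prop :=
  ∃ (F : Finset A) (ρ₁ : ℝ), 0 ≤ ρ₁ ∧ ρ₁ + μ.real (↑F : Set A)ᶜ ≤ ρ ∧
    Gap (fun a : F => μ.real {(a : A)}) (fun a : F => v a) ρ₁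

variable [CompleteSpace H]

/-- A state on the algebra of all bounded operators (normality is not required). -/
def IsState (ψ : (H →L[ℂ] H) →L[ℂ] ℂ) : Prop :=
  ψ 1 = 1 ∧ ∀ T : H →L[ℂ] H, 0 ≤ ψ (star T * T)

/-- The commutant of a set of operators and of their adjoints, as a von Neumann algebra. -/
def commOf (S : Set (H →L[ℂ] H)) : VonNeumannAlgebra H where
  toStarSubalgebra := StarSubalgebra.centralizer ℂ S
  centralizer_centralizer' := by
    change Set.centralizer (Set.centralizer (Set.centralizer (S ∪ star S))) =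
      Set.centralizer (S ∪ star S)
    exact Set.centralizer_centralizer_centralizer _

theorem mem_commOf (S : Set (H →L[ℂ] H)) (z : H →L[ℂ] H) :
    z ∈ commOf S ↔ ∀ s ∈ S, s * z = z * s ∧ star s * z = z * star s :=
  StarSubalgebra.mem_centralizer_iff ℂ

theorem exists_ulim {ι : Type} (𝒰 : Ultrafilter ι) (s : ι → ℂ) (C : ℝ) (hs : ∀ n, ‖s n‖ ≤ C) :
    ∃ l : ℂ, Tendsto s (𝒰 : Filter ι) (𝓝 l) := by
  have hc : IsCompact (Metric.closedBall (0 : ℂ) C) := isCompact_closedBall _ _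
  have hle : (Ultrafilter.map s 𝒰 : Filter ℂ) ≤ 𝓟 (Metric.closedBall (0 : ℂ) C) := by
    rw [Ultrafilter.coe_map, le_principal_iff, mem_map]
    exact Eventually.of_forall (fun n => by simpa using hs n)
  obtain ⟨l, _, hl⟩ := hc.ultrafilter_le_nhds _ hle
  exact ⟨l, hl⟩

/-- `S` is the weak operator limit of `T` along the ultrafilter `𝒰`. -/
def WLim {ι : Type} (𝒰 : Ultrafilter ι) (T : ι → H →L[ℂ] H) (S : H →L[ℂ] H) : Prop :=
  ∀ ξ η : H, Tendsto (fun n => ⟪η, T n ξ⟫_ℂ) (𝒰 : Filter ι) (𝓝 ⟪η, S ξ⟫_ℂ)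

variable {ι : Type} {𝒰 : Ultrafilter ι}

theorem exists_wlim (𝒰 : Ultrafilter ι) (T : ι → H →L[ℂ] H) (C : ℝ) (hT : ∀ n, ‖T n‖ ≤ C) :
    ∃ S : H →L[ℂ] H, WLim 𝒰 T S := by
  have hb : ∀ v w : H, ∀ n, ‖⟪T n v, w⟫_ℂ‖ ≤ C * ‖v‖ * ‖w‖ := by
    intro v w n
    refine (norm_inner_le_norm _ _).trans ?_
    gcongr
    exact ((T n).le_opNorm v).trans (by gcongr; exact hT n)
  choose L hL using fun v w : H => exists_ulim 𝒰 (fun n => ⟪T n v, w⟫_ℂ) _ (hb v w)
  let B₀ : H →ₛₗ[starRingEnd ℂ] H →ₛₗ[RingHom.id ℂ] ℂ :=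
    LinearMap.mk₂'ₛₗ (starRingEnd ℂ) (RingHom.id ℂ) L
      (fun v₁ v₂ w => tendsto_nhds_unique (hL (v₁ + v₂) w) (by
        simpa [inner_add_left] using (hL v₁ w).add (hL v₂ w)))
      (fun c v w => tendsto_nhds_unique (hL (c • v) w) (by
        simpa [inner_smul_left, mul_comm] using (hL v w).const_mul (conj c)))
      (fun v w₁ w₂ => tendsto_nhds_unique (hL v (w₁ + w₂)) (by
        simpa [inner_add_right] using (hL v w₁).add (hL v w₂)))
      (fun c v w => tendsto_nhds_unique (hL v (c • w)) (by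
        simpa [inner_smul_right] using (hL v w).const_mul c))
  have hB₀ : ∀ v w, ‖B₀ v w‖ ≤ C * ‖v‖ * ‖w‖ := fun v w =>
    le_of_tendsto' (hL v w).norm (hb v w)
  refine ⟨InnerProductSpace.continuousLinearMapOfBilin (B₀.mkContinuous₂ C hB₀), fun ξ η => ?_⟩
  have h1 : ⟪InnerProductSpace.continuousLinearMapOfBilin (B₀.mkContinuous₂ C hB₀) ξ, η⟫_ℂ =
      L ξ η := by
    rw [InnerProductSpace.continuousLinearMapOfBilin_apply]
    rfl
  have h2 := (Complex.continuous_conj.tendsto _).comp (hL ξ η)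
  rw [← inner_conj_symm, h1]
  simpa [Function.comp_def] using h2

omit [CompleteSpace H] in
theorem WLim.unique {T : ι → H →L[ℂ] H} {S S' : H →L[ℂ] H} (h : WLim 𝒰 T S)
    (h' : WLim 𝒰 T S') : S = S' := by
  ext ξ
  exact ext_inner_left ℂ (fun η => tendsto_nhds_unique (h ξ η) (h' ξ η))

omit [CompleteSpace H] in
theorem WLim.const (S : H →L[ℂ] H) : WLim 𝒰 (fun _ => S) S := fun _ _ => tendsto_const_nhds

omit [CompleteSpace H] in
theorem WLim.add {T T' : ι → H →L[ℂ] H} {S S' : H →L[ℂ] H} (h : WLim 𝒰 T S)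
    (h' : WLim 𝒰 T' S') : WLim 𝒰 (fun n => T n + T' n) (S + S') := fun ξ η => by
  simpa [inner_add_right] using (h ξ η).add (h' ξ η)

omit [CompleteSpace H] in
theorem WLim.sub {T T' : ι → H →L[ℂ] H} {S S' : H →L[ℂ] H} (h : WLim 𝒰 T S)
    (h' : WLim 𝒰 T' S') : WLim 𝒰 (fun n => T n - T' n) (S - S') := fun ξ η => by
  simpa [inner_sub_right] using (h ξ η).sub (h' ξ η)

omit [CompleteSpace H] in
theorem WLim.smul {T : ι → H →L[ℂ] H} {S : H →L[ℂ] H} (h : WLim 𝒰 T S) (c : ℂ) :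
    WLim 𝒰 (fun n => c • T n) (c • S) := fun ξ η => by
  simpa [inner_smul_right] using (h ξ η).const_mul c

theorem WLim.mul_mul {T : ι → H →L[ℂ] H} {S : H →L[ℂ] H} (h : WLim 𝒰 T S) (a b : H →L[ℂ] H) :
    WLim 𝒰 (fun n => a * T n * b) (a * S * b) := fun ξ η => by
  have := h (b ξ) (ContinuousLinearMap.adjoint a η)
  simpa [ContinuousLinearMap.adjoint_inner_left] using this

theorem WLim.star {T : ι → H →L[ℂ] H} {S : H →L[ℂ] H} (h : WLim 𝒰 T S) :
    WLim 𝒰 (fun n => star (T n)) (star S) := fun ξ η => by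
  have h2 := (Complex.continuous_conj.tendsto _).comp (h η ξ)
  simpa [Function.comp_def, ContinuousLinearMap.star_eq_adjoint,
    ContinuousLinearMap.adjoint_inner_right] using h2

omit [CompleteSpace H] in
theorem WLim.norm_le {T : ι → H →L[ℂ] H} {S : H →L[ℂ] H} (h : WLim 𝒰 T S) (C : ℝ) (hC : 0 ≤ C)
    (hT : ∀ n, ‖T n‖ ≤ C) : ‖S‖ ≤ C := by
  refine S.opNorm_le_bound hC (fun ξ => ?_)
  have h1 : ‖⟪S ξ, S ξ⟫_ℂ‖ ≤ ‖S ξ‖ * (C * ‖ξ‖) := by
    refine le_of_tendsto' (h ξ (S ξ)).norm (fun n => ?_)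
    refine (norm_inner_le_norm _ _).trans ?_
    gcongr
    exact ((T n).le_opNorm ξ).trans (by gcongr; exact hT n)
  rw [inner_self_eq_norm_sq_to_K] at h1
  have h2 : ‖S ξ‖ * ‖S ξ‖ ≤ ‖S ξ‖ * (C * ‖ξ‖) := by
    simpa [sq] using h1
  rcases (norm_nonneg (S ξ)).eq_or_lt with h0 | h0
  · rw [← h0]; positivity
  · exact le_of_mul_le_mul_left h2 h0

omit [CompleteSpace H] in
theorem WLim.zero_of_norm {T : ι → H →L[ℂ] H}
    (hd : Tendsto (fun n => ‖T n‖) (𝒰 : Filter ι) (𝓝 0)) : WLim 𝒰 T 0 := fun ξ η => by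
  have h1 : Tendsto (fun n => ⟪η, T n ξ⟫_ℂ) (𝒰 : Filter ι) (𝓝 0) := by
    rw [tendsto_zero_iff_norm_tendsto_zero]
    have h2 : Tendsto (fun n => ‖η‖ * (‖T n‖ * ‖ξ‖)) (𝒰 : Filter ι) (𝓝 0) := by
      simpa using (hd.mul_const ‖ξ‖).const_mul ‖η‖
    refine squeeze_zero (fun n => norm_nonneg _) (fun n => ?_) h2
    refine (norm_inner_le_norm _ _).trans ?_
    gcongr
    exact (T n).le_opNorm ξ
  simpa using h1

omit [CompleteSpace H] in
theorem WLim.congr' {T T' : ι → H →L[ℂ] H} {S : H →L[ℂ] H} (h : WLim 𝒰 T S)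
    (hT : ∀ᶠ n in (𝒰 : Filter ι), T n = T' n) : WLim 𝒰 T' S := fun ξ η =>
  (h ξ η).congr' (hT.mono fun n hn => by simp only [hn])

/-- If the commutators `a * T n - T n * a` tend to zero in norm then the limit commutes
with `a`. -/
theorem WLim.comm_of_norm {T : ι → H →L[ℂ] H} {S : H →L[ℂ] H} (h : WLim 𝒰 T S) (a : H →L[ℂ] H)
    (hd : Tendsto (fun n => ‖a * T n - T n * a‖) (𝒰 : Filter ι) (𝓝 0)) : a * S = S * a := by
  have h1 := (h.mul_mul a 1).sub (h.mul_mul 1 a)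
  simp only [mul_one, one_mul] at h1
  exact sub_eq_zero.1 (h1.unique (WLim.zero_of_norm hd))

theorem WLim.comm {T : ι → H →L[ℂ] H} {S : H →L[ℂ] H} (h : WLim 𝒰 T S) (a : H →L[ℂ] H)
    (hT : ∀ᶠ n in (𝒰 : Filter ι), a * T n = T n * a) : a * S = S * a := by
  refine h.comm_of_norm a (tendsto_const_nhds.congr' (hT.mono fun n hn => ?_))
  simp [hn]

theorem WLim.mem {T : ι → H →L[ℂ] H} {S : H →L[ℂ] H} (h : WLim 𝒰 T S)
    (M : VonNeumannAlgebra H) (hT : ∀ᶠ n in (𝒰 : Filter ι), T n ∈ M) : S ∈ M := by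
  rw [← M.commutant_commutant, VonNeumannAlgebra.mem_commutant_iff]
  intro a ha
  refine h.comm a (hT.mono fun n hn => ?_)
  exact ((VonNeumannAlgebra.mem_commutant_iff.1 ha) _ hn).symm

theorem WLim.isSelfAdjoint {T : ι → H →L[ℂ] H} {S : H →L[ℂ] H} (h : WLim 𝒰 T S)
    (hT : ∀ n, IsSelfAdjoint (T n)) : IsSelfAdjoint S :=
  h.star.unique (h.congr' (Eventually.of_forall fun n => (hT n).star_eq.symm))

end Pool.Agent.P.MP_7e3bdd_an.RW
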