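import Pool.Agent.P.MP_7e3bdd_an.RW.Defs

/-!
Bounded measurable fields of operators acting on square integrable vector valued functions.
-/

set_option autoImplicit false

open scoped InnerProductSpace Topology ComplexConjugate ENNReal
open Filter MeasureTheory

noncomputable section

namespace Pool.Agent.P.MP_7e3bdd_an.RW

variable {H : Type} [NormedAddCommGroup H] [InnerProductSpace ℂ H]
  {Ω : Type} [MeasurableSpace Ω]

/-- Bounded strongly measurable functions. -/
def Good {E : Type} [NormedAddCommGroup E] (h : Ω → E) : Prop :=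
  StronglyMeasurable h ∧ ∃ C : ℝ, ∀ ω, ‖h ω‖ ≤ C

section Good

variable {E : Type} [NormedAddCommGroup E]

theorem Good.const (c : E) : Good (fun _ : Ω => c) := ⟨stronglyMeasurable_const, ‖c‖, fun _ => le_rfl⟩

theorem Good.add {h k : Ω → E} (hh : Good h) (hk : Good k) : Good (fun ω => h ω + k ω) := by
  obtain ⟨h1, C, hC⟩ := hh
  obtain ⟨k1, D, hD⟩ := hk
  exact ⟨h1.add k1, C + D, fun ω => (norm_add_le _ _).trans (add_le_add (hC ω) (hD ω))⟩

theorem Good.sub {h k : Ω → E} (hh : Good h) (hk : Good k) : Good (fun ω => h ω - k ω) := by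
  obtain ⟨h1, C, hC⟩ := hh
  obtain ⟨k1, D, hD⟩ := hk
  exact ⟨h1.sub k1, C + D, fun ω => (norm_sub_le _ _).trans (add_le_add (hC ω) (hD ω))⟩

theorem Good.comp {Ω' : Type} [MeasurableSpace Ω'] {h : Ω → E} (hh : Good h) {σ : Ω' → Ω}
    (hσ : Measurable σ) : Good (fun ω => h (σ ω)) := by
  obtain ⟨h1, C, hC⟩ := hh
  exact ⟨h1.comp_measurable hσ, C, fun ω => hC _⟩

theorem Good.indicator {h : Ω → E} (hh : Good h) {B : Set Ω} (hB : MeasurableSet B) :
    Good (B.indicator h) := by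
  obtain ⟨h1, C, hC⟩ := hh
  exact ⟨h1.indicator hB, C, fun ω => (norm_indicator_le_norm_self _ _).trans (hC ω)⟩

theorem Good.memLp {h : Ω → E} (hh : Good h) (P : Measure Ω) : MemLp h ∞ P := by
  obtain ⟨h1, C, hC⟩ := hh
  exact memLp_top_of_bound h1.aestronglyMeasurable C (Eventually.of_forall hC)

theorem Good.integrable {h : Ω → E} (hh : Good h) (P : Measure Ω) [IsFiniteMeasure P] :
    Integrable h P := by
  obtain ⟨h1, C, hC⟩ := hh
  exact Integrable.of_bound h1.aestronglyMeasurable C (Eventually.of_forall hC)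

end Good

theorem Good.mul {h k : Ω → H →L[ℂ] H} (hh : Good h) (hk : Good k) :
    Good (fun ω => h ω * k ω) := by
  obtain ⟨h1, C, hC⟩ := hh
  obtain ⟨k1, D, hD⟩ := hk
  refine ⟨h1.mul k1, C * D, fun ω => (norm_mul_le _ _).trans ?_⟩
  exact mul_le_mul (hC ω) (hD ω) (norm_nonneg _) ((norm_nonneg _).trans (hC ω))

theorem Good.smul {h : Ω → H →L[ℂ] H} (hh : Good h) (c : ℂ) : Good (fun ω => c • h ω) := by
  obtain ⟨h1, C, hC⟩ := hh
  refine ⟨h1.const_smul c, ‖c‖ * C, fun ω => ?_⟩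
  rw [norm_smul]
  gcongr
  exact hC ω

theorem Good.star [CompleteSpace H] {h : Ω → H →L[ℂ] H} (hh : Good h) :
    Good (fun ω => star (h ω)) := by
  obtain ⟨h1, C, hC⟩ := hh
  exact ⟨continuous_star.comp_stronglyMeasurable h1, C, fun ω => by simpa using hC ω⟩

variable (P : Measure Ω)

open Classical in
/-- The operator acting by `h ω` in the fibre over `ω`. -/
def fld (h : Ω → H →L[ℂ] H) : Lp H 2 P →L[ℂ] Lp H 2 P :=
  if hh : MemLp h ∞ P then
    (ContinuousLinearMap.id ℂ (H →L[ℂ] H)).holderL P ∞ 2 2 (hh.toLp h) else 0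

variable {P}

theorem fld_ae {h : Ω → H →L[ℂ] H} (hh : Good h) (f : Lp H 2 P) :
    fld P h f =ᵐ[P] fun ω => h ω (f ω) := by
  have h0 := hh.memLp P
  rw [fld, dif_pos h0]
  have h1 := (ContinuousLinearMap.id ℂ (H →L[ℂ] H)).coeFn_holder (r := 2) (h0.toLp h) f
  filter_upwards [h1, h0.coeFn_toLp] with ω h1 h2
  rw [← h2]
  exact h1

theorem fld_mul {h k : Ω → H →L[ℂ] H} (hh : Good h) (hk : Good k) :
    fld P (fun ω => h ω * k ω) = fld P h * fld P k := by
  ext f
  filter_upwards [fld_ae (hh.mul hk) f, fld_ae hh (fld P k f), fld_ae hk f] with ω h1 h2 h3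
  rw [h1, mul_apply_eq_comp, mul_apply_eq_comp, h2, h3]

theorem fld_one : fld P (fun _ => (1 : H →L[ℂ] H)) = 1 := by
  ext f
  filter_upwards [fld_ae (Good.const (1 : H →L[ℂ] H)) f] with ω h1
  rw [h1]
  rfl

theorem fld_add {h k : Ω → H →L[ℂ] H} (hh : Good h) (hk : Good k) :
    fld P (fun ω => h ω + k ω) = fld P h + fld P k := by
  ext f
  filter_upwards [fld_ae (hh.add hk) f, fld_ae hh f, fld_ae hk f,
    Lp.coeFn_add (fld P h f) (fld P k f)] with ω h1 h2 h3 h4
  rw [h1, add_apply, add_apply, h4, Pi.add_apply, h2, h3]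

theorem fld_smul {h : Ω → H →L[ℂ] H} (hh : Good h) (c : ℂ) :
    fld P (fun ω => c • h ω) = c • fld P h := by
  ext f
  filter_upwards [fld_ae (hh.smul c) f, fld_ae hh f, Lp.coeFn_smul c (fld P h f)] with ω h1 h2 h3
  rw [h1, smul_apply, smul_apply, h3, Pi.smul_apply, h2]

theorem fld_zero : fld P (fun _ => (0 : H →L[ℂ] H)) = 0 := by
  have := fld_smul (P := P) (Good.const (1 : H →L[ℂ] H)) 0
  simpa using this

theorem norm_fld_le {h : Ω → H →L[ℂ] H} (hh : Good h) {C : ℝ} (hC0 : 0 ≤ C)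
    (hC : ∀ ω, ‖h ω‖ ≤ C) : ‖fld P h‖ ≤ C := by
  refine ContinuousLinearMap.opNorm_le_bound _ hC0 fun f => ?_
  refine Lp.norm_le_mul_norm_of_ae_le_mul ?_
  filter_upwards [fld_ae hh f] with ω h1
  rw [h1]
  exact ((h ω).le_opNorm _).trans (by gcongr; exact hC ω)

variable [CompleteSpace H]

theorem fld_star {h : Ω → H →L[ℂ] H} (hh : Good h) :
    fld P (fun ω => star (h ω)) = star (fld P h) := by
  rw [ContinuousLinearMap.star_eq_adjoint, ContinuousLinearMap.eq_adjoint_iff]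
  intro f g
  rw [L2.inner_def, L2.inner_def]
  refine integral_congr_ae ?_
  filter_upwards [fld_ae hh.star f, fld_ae hh g] with ω h1 h2
  rw [h1, h2, ContinuousLinearMap.star_eq_adjoint, ContinuousLinearMap.adjoint_inner_left]

theorem fld_unitary {h : Ω → H →L[ℂ] H} (hh : Good h) (hu : ∀ ω, h ω ∈ unitary (H →L[ℂ] H)) :
    fld P h ∈ unitary (Lp H 2 P →L[ℂ] Lp H 2 P) := by
  rw [Unitary.mem_iff, ← fld_star hh, ← fld_mul hh.star hh, ← fld_mul hh hh.star]
  simp only [Unitary.star_mul_self_of_mem (hu _), Unitary.mul_star_self_of_mem (hu _), fld_one,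
    and_self]

variable (P)

/-- The amplification `a ↦ 1 ⊗ a`. -/
def amp : (H →L[ℂ] H) →⋆ₐ[ℂ] (Lp H 2 P →L[ℂ] Lp H 2 P) where
  toFun a := fld P (fun _ => a)
  map_one' := fld_one
  map_mul' a b := fld_mul (Good.const a) (Good.const b)
  map_zero' := fld_zero
  map_add' a b := fld_add (Good.const a) (Good.const b)
  commutes' c := by
    have := fld_smul (P := P) (Good.const (1 : H →L[ℂ] H)) c
    rw [fld_one] at this
    simpa [Algebra.algebraMap_eq_smul_one] using this
  map_star' a := fld_star (Good.const a)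

theorem amp_apply (a : H →L[ℂ] H) : amp P a = fld P (fun _ => a) := rfl

/-- Multiplication by the indicator function of `B`. -/
def EE (B : Set Ω) : Lp H 2 P →L[ℂ] Lp H 2 P := fld P (B.indicator fun _ => (1 : H →L[ℂ] H))

variable {P}

omit [CompleteSpace H] in
theorem good_ind {B : Set Ω} (hB : MeasurableSet B) :
    Good (B.indicator fun _ => (1 : H →L[ℂ] H)) := (Good.const _).indicator hB

omit [CompleteSpace H] in
theorem EE_mul_fld {B : Set Ω} (hB : MeasurableSet B) {h : Ω → H →L[ℂ] H} (hh : Good h) :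
    EE P B * fld P h = fld P (B.indicator h) := by
  rw [EE, ← fld_mul (good_ind hB) hh]
  congr 1
  funext ω
  by_cases hω : ω ∈ B <;> simp [hω]

omit [CompleteSpace H] in
theorem fld_mul_EE {B : Set Ω} (hB : MeasurableSet B) {h : Ω → H →L[ℂ] H} (hh : Good h) :
    fld P h * EE P B = fld P (B.indicator h) := by
  rw [EE, ← fld_mul hh (good_ind hB)]
  congr 1
  funext ω
  by_cases hω : ω ∈ B <;> simp [hω]

omit [CompleteSpace H] in
theorem EE_comm_fld {B : Set Ω} (hB : MeasurableSet B) {h : Ω → H →L[ℂ] H} (hh : Good h) :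
    EE P B * fld P h = fld P h * EE P B := by
  rw [EE_mul_fld hB hh, fld_mul_EE hB hh]

theorem EE_comm_amp {B : Set Ω} (hB : MeasurableSet B) (a : H →L[ℂ] H) :
    EE P B * amp P a = amp P a * EE P B := EE_comm_fld hB (Good.const a)

theorem star_EE {B : Set Ω} (hB : MeasurableSet B) : star (EE (H := H) P B) = EE P B := by
  rw [EE, ← fld_star (good_ind hB)]
  congr 1
  funext ω
  by_cases hω : ω ∈ B <;> simp [hω]

omit [CompleteSpace H] in
theorem EE_mul_self {B : Set Ω} (hB : MeasurableSet B) :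
    EE (H := H) P B * EE P B = EE P B := by
  nth_rw 2 [EE]
  rw [EE_mul_fld hB (good_ind hB), Set.indicator_indicator, Set.inter_self]
  rfl

omit [CompleteSpace H] in
/-- On a set where the field is constant, it acts as the amplification of the constant. -/
theorem EE_mul_fld_of_const {B : Set Ω} (hB : MeasurableSet B) {h : Ω → H →L[ℂ] H} (hh : Good h)
    {a : H →L[ℂ] H} (ha : ∀ ω ∈ B, h ω = a) : EE P B * fld P h = EE P B * fld P (fun _ => a) := by
  rw [EE_mul_fld hB hh, EE_mul_fld hB (Good.const a)]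
  congr 1
  funext ω
  by_cases hω : ω ∈ B
  · simp [hω, ha ω hω]
  · simp [hω]

omit [CompleteSpace H] in
theorem EE_ae {B : Set Ω} (hB : MeasurableSet B) (f : Lp H 2 P) :
    EE P B f =ᵐ[P] B.indicator f := by
  filter_upwards [fld_ae (good_ind (H := H) hB) f] with ω h1
  rw [EE, h1]
  by_cases hω : ω ∈ B <;> simp [hω]

variable [IsProbabilityMeasure P] (P)

/-- The embedding of `H` as constant functions. -/
def VV : H →L[ℂ] Lp H 2 P := Lp.constL 2 P ℂ

/-- Compression to the constant functions. -/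
def cmp (Z : Lp H 2 P →L[ℂ] Lp H 2 P) : H →L[ℂ] H :=
  (ContinuousLinearMap.adjoint (VV P)) ∘L Z ∘L VV P

variable {P}

omit [CompleteSpace H] in
theorem VV_ae (ξ : H) : VV P ξ =ᵐ[P] fun _ => ξ := Lp.coeFn_const 2 P ξ

omit [CompleteSpace H] in
theorem inner_VV (η : H) (f : Lp H 2 P) : ⟪VV P η, f⟫_ℂ = ∫ ω, ⟪η, f ω⟫_ℂ ∂P := by
  rw [L2.inner_def]
  refine integral_congr_ae ?_
  filter_upwards [VV_ae (P := P) η] with ω h1
  rw [h1]

omit [CompleteSpace H] in
theorem norm_VV (ξ : H) : ‖VV P ξ‖ = ‖ξ‖ := by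
  have := Lp.norm_const' 2 P ξ (by norm_num) (by norm_num)
  change ‖Lp.const 2 P ξ‖ = _
  simpa using this

theorem inner_cmp (Z : Lp H 2 P →L[ℂ] Lp H 2 P) (η ξ : H) :
    ⟪η, cmp P Z ξ⟫_ℂ = ⟪VV P η, Z (VV P ξ)⟫_ℂ := by
  simp [cmp, ContinuousLinearMap.adjoint_inner_right]

theorem amp_VV (a : H →L[ℂ] H) (ξ : H) : amp P a (VV P ξ) = VV P (a ξ) := by
  ext1
  filter_upwards [fld_ae (Good.const a) (VV P ξ), VV_ae (P := P) ξ, VV_ae (P := P) (a ξ)]
    with ω h1 h2 h3
  rw [amp_apply, h1, h2, h3]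

theorem cmp_mul_amp (Z : Lp H 2 P →L[ℂ] Lp H 2 P) (a : H →L[ℂ] H) :
    cmp P (Z * amp P a) = cmp P Z * a := by
  ext ξ
  refine ext_inner_left ℂ fun η => ?_
  rw [mul_apply_eq_comp, inner_cmp, inner_cmp, mul_apply_eq_comp, amp_VV]

theorem cmp_star (Z : Lp H 2 P →L[ℂ] Lp H 2 P) : cmp P (star Z) = star (cmp P Z) := by
  ext ξ
  refine ext_inner_left ℂ fun η => ?_
  rw [inner_cmp, ContinuousLinearMap.star_eq_adjoint, ContinuousLinearMap.star_eq_adjoint,
    ContinuousLinearMap.adjoint_inner_right, ContinuousLinearMap.adjoint_inner_right,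
    ← inner_conj_symm, ← inner_cmp, inner_conj_symm]

theorem cmp_amp_mul (Z : Lp H 2 P →L[ℂ] Lp H 2 P) (a : H →L[ℂ] H) :
    cmp P (amp P a * Z) = a * cmp P Z := by
  have := cmp_mul_amp (star Z) (star a)
  rw [map_star, ← star_mul, cmp_star, cmp_star, ← star_mul] at this
  exact star_injective this

theorem cmp_sub (Z Z' : Lp H 2 P →L[ℂ] Lp H 2 P) : cmp P (Z - Z') = cmp P Z - cmp P Z' := by
  ext ξ
  simp [cmp]

omit [IsProbabilityMeasure P] in
theorem inner_integral_op {h : Ω → H →L[ℂ] H} (hh : Integrable h P) (η ξ : H) :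
    ⟪η, (∫ ω, h ω ∂P) ξ⟫_ℂ = ∫ ω, ⟪η, h ω ξ⟫_ℂ ∂P := by
  rw [ContinuousLinearMap.integral_apply hh, integral_inner (hh.apply_continuousLinearMap ξ)]

theorem cmp_fld {h : Ω → H →L[ℂ] H} (hh : Good h) : cmp P (fld P h) = ∫ ω, h ω ∂P := by
  ext ξ
  refine ext_inner_left ℂ fun η => ?_
  rw [inner_cmp, inner_VV, inner_integral_op (hh.integrable P)]
  refine integral_congr_ae ?_
  filter_upwards [fld_ae hh (VV P ξ), VV_ae (P := P) ξ] with ω h1 h2
  rw [h1, h2]

theorem cmp_amp (a : H →L[ℂ] H) : cmp P (amp P a) = a := by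
  rw [amp_apply, cmp_fld (Good.const a)]
  simp

theorem amp_injective : Function.Injective (amp (H := H) P) := fun a b h => by
  rw [← cmp_amp (P := P) a, h, cmp_amp]

theorem cmp_EE {B : Set Ω} (hB : MeasurableSet B) :
    cmp P (EE (H := H) P B) = (P.real B : ℂ) • (1 : H →L[ℂ] H) := by
  rw [EE, cmp_fld (good_ind hB), integral_indicator hB]
  simp

omit [CompleteSpace H] in
theorem inner_VV_EE {B : Set Ω} (hB : MeasurableSet B) (η : H) (f : Lp H 2 P) :
    ⟪VV P η, EE P B f⟫_ℂ = ∫ ω in B, ⟪η, f ω⟫_ℂ ∂P := by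
  rw [inner_VV, ← integral_indicator hB]
  refine integral_congr_ae ?_
  filter_upwards [EE_ae hB f] with ω h1
  rw [h1]
  by_cases hω : ω ∈ B <;> simp [hω]

omit [CompleteSpace H] [InnerProductSpace ℂ H] in
theorem integrable_L2 (f : Lp H 2 P) : Integrable f P :=
  (Lp.memLp f).integrable (by norm_num)

theorem norm_cmp_EE_mul {B : Set Ω} (hB : MeasurableSet B) {T : Lp H 2 P →L[ℂ] Lp H 2 P}
    (hT : EE P B * T = T * EE P B) : ‖cmp P (EE P B * T)‖ ≤ P.real B * ‖T‖ := by
  set Y : H →L[ℂ] Lp H 2 P := EE P B ∘L VV P with hY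
  have hs : ContinuousLinearMap.adjoint (EE (H := H) P B) = EE P B := star_EE hB
  have h1 : cmp P (EE P B * T) = ContinuousLinearMap.adjoint Y ∘L T ∘L Y := by
    have : EE P B * T = EE P B * T * EE P B := by
      rw [mul_assoc, ← hT, ← mul_assoc, EE_mul_self hB]
    rw [this, hY, ContinuousLinearMap.adjoint_comp, hs]
    rfl
  have h2 : ‖Y‖ * ‖Y‖ ≤ P.real B := by
    rw [← ContinuousLinearMap.norm_adjoint_comp_self, hY, ContinuousLinearMap.adjoint_comp, hs]
    have : (ContinuousLinearMap.adjoint (VV P) ∘L EE (H := H) P B) ∘L EE P B ∘L VV P =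
        cmp P (EE P B * EE P B) := rfl
    rw [this, EE_mul_self hB, cmp_EE hB, norm_smul, Complex.norm_real,
      Real.norm_of_nonneg measureReal_nonneg]
    exact mul_le_of_le_one_right measureReal_nonneg ContinuousLinearMap.norm_id_le
  rw [h1]
  calc _ ≤ ‖ContinuousLinearMap.adjoint Y‖ * (‖T‖ * ‖Y‖) := by
        refine (ContinuousLinearMap.opNorm_comp_le _ _).trans ?_
        gcongr
        exact ContinuousLinearMap.opNorm_comp_le _ _
    _ = (‖Y‖ * ‖Y‖) * ‖T‖ := by rw [LinearIsometryEquiv.norm_map]; ring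
    _ ≤ _ := by gcongr

/-- Totality: a vector orthogonal to all `E_B V η` with `B` in a generating family vanishes. -/
theorem eq_zero_of_inner_EE {𝒞 : Set (Set Ω)} (hgen : ‹MeasurableSpace Ω› = .generateFrom 𝒞)
    (hpi : IsPiSystem 𝒞) (huniv : Set.univ ∈ 𝒞) (f : Lp H 2 P)
    (hf : ∀ B ∈ 𝒞, ∀ η : H, ⟪VV P η, EE P B f⟫_ℂ = 0) : f = 0 := by
  have hi := integrable_L2 f
  have h0 : ∀ B ∈ 𝒞, ∫ ω in B, f ω ∂P = 0 := by
    intro B hB
    have hm : MeasurableSet B := hgen ▸ MeasurableSpace.measurableSet_generateFrom hB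
    refine ext_inner_left ℂ fun η => ?_
    rw [← integral_inner hi.integrableOn, ← inner_VV_EE hm, hf B hB, inner_zero_right]
  have h1 : ∀ B, MeasurableSet B → ∫ ω in B, f ω ∂P = 0 := by
    intro B hB
    induction B, hB using MeasurableSpace.induction_on_inter hgen hpi with
    | empty => simp
    | basic B hB => exact h0 B hB
    | compl B hB ih =>
      have := integral_add_compl hB hi
      rw [ih, zero_add] at this
      rw [this, ← setIntegral_univ]
      exact h0 _ huniv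
    | iUnion g hd hm ih =>
      rw [integral_iUnion hm hd hi.integrableOn]
      simp [ih]
  ext1
  exact (hi.ae_eq_zero_of_forall_setIntegral_eq_zero fun B hB _ => h1 B hB).trans
    (Lp.coeFn_zero H 2 P).symm

/-- An operator commuting with all `E_B` is determined by the compressions of the `E_B Z`. -/
theorem eq_zero_of_cmp {𝒞 : Set (Set Ω)} (hgen : ‹MeasurableSpace Ω› = .generateFrom 𝒞)
    (hpi : IsPiSystem 𝒞) (huniv : Set.univ ∈ 𝒞) (Z : Lp H 2 P →L[ℂ] Lp H 2 P)
    (hZ : ∀ B, MeasurableSet B → EE P B * Z = Z * EE P B)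
    (h : ∀ B ∈ 𝒞, cmp P (EE P B * Z) = 0) : Z = 0 := by
  have h1 : ∀ ξ, Z (VV P ξ) = 0 := fun ξ =>
    eq_zero_of_inner_EE hgen hpi huniv _ fun B hB η => by
      rw [← mul_apply_eq_comp, ← inner_cmp, h B hB]
      simp
  have h2 : ∀ f, star Z f = 0 := fun f =>
    eq_zero_of_inner_EE hgen hpi huniv _ fun B hB η => by
      have hm : MeasurableSet B := hgen ▸ MeasurableSpace.measurableSet_generateFrom hB
      rw [← mul_apply_eq_comp, ← star_EE hm, ← star_mul, ← hZ B hm,
        ContinuousLinearMap.star_eq_adjoint, ContinuousLinearMap.adjoint_inner_right,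
        mul_apply_eq_comp, h1]
      simp
  have h3 : star Z = 0 := ContinuousLinearMap.ext h2
  simpa using h3

end Pool.Agent.P.MP_7e3bdd_an.RW
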