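import Pool.Agent.P.MP_7e3bdd_an.RW.St2
import Pool.Agent.P.MP_7e3bdd_an.RW.Gap
import Pool.Agent.P.MP_7e3bdd_an.RW.Minimax

/-!
Almost centralising unitaries with an arbitrarily large spectral gap.
-/

set_option autoImplicit false

open scoped InnerProductSpace Topology ComplexConjugate ComplexOrder BigOperators
open Filter

noncomputable section

namespace Pool.Agent.P.MP_7e3bdd_an.RW

namespace GapNAP

variable {H : Type} [NormedAddCommGroup H] [InnerProductSpace ℂ H] {ι : Type}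

/-- The vector functional of a Hilbert-Schmidt operator. -/
def vs (X : HS ι H) : (H →L[ℂ] H) →L[ℂ] ℂ :=
  LinearMap.mkContinuous
    { toFun := fun T => ⟪X, lam T X⟫_ℂ
      map_add' := fun T T' => by rw [lam_add, inner_add_right]
      map_smul' := fun c T => by rw [lam_smul, inner_smul_right, RingHom.id_apply, smul_eq_mul] }
    (‖X‖ * ‖X‖) fun T => by
      refine (norm_inner_le_norm X (lam T X)).trans ?_
      have := mul_le_mul_of_nonneg_left (norm_lam_le T X) (norm_nonneg X)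
      linarith

theorem vs_apply (X : HS ι H) (T : H →L[ℂ] H) : vs X T = ⟪X, lam T X⟫_ℂ := rfl

theorem norm_vs_le {X : HS ι H} (hX : ‖X‖ = 1) (T : H →L[ℂ] H) : ‖vs X T‖ ≤ ‖T‖ := by
  refine (norm_inner_le_norm X (lam T X)).trans ?_
  have := norm_lam_le T X
  rw [hX] at this ⊢
  linarith

variable [CompleteSpace H]

theorem isState_vs {X : HS ι H} (hX : ‖X‖ = 1) : IsState (vs X) := by
  refine ⟨?_, fun T => ?_⟩
  · rw [vs_apply, lam_one, inner_self_eq_norm_sq_to_K, hX]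
    simp
  · rw [vs_apply, lam_mul, inner_lam_star, inner_self_eq_norm_sq_to_K]
    positivity

/-- A unit vector together with its conjugates. -/
def Good (X : HS ι H) (Y : (H →L[ℂ] H) → HS ι H) : Prop :=
  ‖X‖ = 1 ∧ ∀ g ∈ unitary (H →L[ℂ] H), ‖Y g‖ = 1 ∧ ∀ T, vs (Y g) T = vs X (star g * T * g)

theorem lazy (b : HilbertBasis ι ℂ H) {F : Type} [Fintype F] (l : F → ℝ) (hl : ∀ a, 0 ≤ l a)
    (hl1 : ∑ a, l a = 1) (g : F → H →L[ℂ] H) (hg : ∀ a, g a ∈ unitary (H →L[ℂ] H)) {ρ : ℝ}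
    (hρ : 0 ≤ ρ)
    (h : ¬ Gap (fun a : Option F => a.elim (1 / 2) fun x => l x / 2)
      (fun a : Option F => a.elim 1 g) ρ) :
    ∃ (X : HS ι H) (Y : (H →L[ℂ] H) → HS ι H), Good X Y ∧
      2 * ρ ^ 2 - 1 ≤ ∑ a, l a * (⟪X, Y (g a)⟫_ℂ).re := by
  simp only [Gap, not_forall, not_le] at h
  obtain ⟨J, hJ, β, f, hlt⟩ := h
  set X : HS ι H := hsv b β f with hX
  set Y : (H →L[ℂ] H) → HS ι H := fun u => hsv b β (fun j => u (f j)) with hY
  set r : ℝ := ‖X‖ with hr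
  have hYr : ∀ u ∈ unitary (H →L[ℂ] H), ‖Y u‖ = r := fun u hu => by
    rw [hY, hr, hX, ← hsn_eq_norm b, ← hsn_eq_norm b, hsn_unitary hu]
  set Z : HS ι H := ∑ a, (l a : ℂ) • Y (g a) with hZ
  have hr0 : 0 ≤ r := norm_nonneg _
  have hZr : ‖Z‖ ≤ r := by
    refine (norm_sum_le _ _).trans (le_of_eq ?_)
    have h1 : ∀ a, ‖(l a : ℂ) • Y (g a)‖ = l a * r := fun a => by
      rw [norm_smul, Complex.norm_real, Real.norm_of_nonneg (hl a), hYr _ (hg a)]
    simp only [h1, ← Finset.sum_mul, hl1, one_mul]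
  have hlt2 : 2 * (ρ * r) < ‖X + Z‖ := by
    rw [hsn_eq_norm b, hsn_eq_norm b,
      hsv_prod b (fun a : Option F => a.elim (1 / 2) fun x => l x / 2)
        (fun a : Option F => a.elim 1 g) β f, Fintype.sum_option] at hlt
    have h1 : (((1 / 2 : ℝ) : ℂ) • X + ∑ a, ((l a / 2 : ℝ) : ℂ) • Y (g a)) =
        ((1 / 2 : ℝ) : ℂ) • (X + Z) := by
      rw [smul_add, hZ, Finset.smul_sum]
      congr 1
      refine Finset.sum_congr rfl fun a _ => ?_
      rw [smul_smul]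
      congr 1
      push_cast
      ring
    have h2 : ρ * r < ‖((1 / 2 : ℝ) : ℂ) • (X + Z)‖ := h1 ▸ hlt
    rw [norm_smul, Complex.norm_real, Real.norm_of_nonneg (by norm_num)] at h2
    linarith
  have hrp : 0 < r := by
    rcases hr0.eq_or_lt with h0 | h0
    · have h1 := norm_add_le X Z
      rw [← hr, ← h0] at h1
      rw [← h0] at hlt2 hZr
      linarith
    · exact h0
  have hre : (2 * ρ ^ 2 - 1) * r ^ 2 ≤ (⟪X, Z⟫_ℂ).re := by
    have h1 := norm_add_sq (𝕜 := ℂ) X Z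
    have h2 : (2 * (ρ * r)) ^ 2 ≤ ‖X + Z‖ ^ 2 := by gcongr
    have h3 : ‖Z‖ ^ 2 ≤ r ^ 2 := by gcongr
    rw [← hr, RCLike.re_to_complex] at h1
    nlinarith
  have hn : ∀ W : HS ι H, ‖W‖ = r → ‖((r⁻¹ : ℝ) : ℂ) • W‖ = 1 := fun W hW => by
    rw [norm_smul, Complex.norm_real, Real.norm_of_nonneg (by positivity), hW]
    field_simp
  refine ⟨((r⁻¹ : ℝ) : ℂ) • X, fun u => ((r⁻¹ : ℝ) : ℂ) • Y u,
    ⟨hn X rfl, fun u hu => ⟨hn _ (hYr u hu), fun T => ?_⟩⟩, ?_⟩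
  · have h1 : ⟪Y u, lam T (Y u)⟫_ℂ = ⟪X, lam (star u * T * u) X⟫_ℂ := inner_hsv_unitary b β f hu T
    simp only [vs_apply, map_smul, inner_smul_left, inner_smul_right, h1]
  · have h1 : (⟪X, Z⟫_ℂ).re = ∑ a, l a * (⟪X, Y (g a)⟫_ℂ).re := by
      rw [hZ, inner_sum, Complex.re_sum]
      refine Finset.sum_congr rfl fun a _ => ?_
      rw [inner_smul_right, Complex.re_ofReal_mul]
    have h2 : ∀ a, l a * (⟪((r⁻¹ : ℝ) : ℂ) • X, ((r⁻¹ : ℝ) : ℂ) • Y (g a)⟫_ℂ).re =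
        r⁻¹ * r⁻¹ * (l a * (⟪X, Y (g a)⟫_ℂ).re) := fun a => by
      rw [inner_smul_left, inner_smul_right, Complex.conj_ofReal, Complex.re_ofReal_mul,
        Complex.re_ofReal_mul]
      ring
    simp only [h2, ← Finset.mul_sum, ← h1]
    calc 2 * ρ ^ 2 - 1 = r⁻¹ * r⁻¹ * ((2 * ρ ^ 2 - 1) * r ^ 2) := by field_simp
      _ ≤ _ := by gcongr

theorem Good.defect {X : HS ι H} {Y : (H →L[ℂ] H) → HS ι H} (h : Good X Y) {g : H →L[ℂ] H}
    (hg : g ∈ unitary (H →L[ℂ] H)) {η : ℝ} (hη : 0 < η) (T : H →L[ℂ] H) :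
    ‖vs X (star g * T * g) - vs X T‖ ≤ (η + (2 - 2 * (⟪X, Y g⟫_ℂ).re) / η) * ‖T‖ := by
  obtain ⟨h1, h2⟩ := h.2 g hg
  rw [← h2 T]
  refine (inner_lam_sub_le X (Y g) T 1 _ h.1 h1 le_rfl).trans ?_
  refine mul_le_mul_of_nonneg_right ?_ (norm_nonneg _)
  have h3 := norm_sub_sq (𝕜 := ℂ) X (Y g)
  rw [h.1, h1, RCLike.re_to_complex, norm_sub_rev] at h3
  have h4 : 2 - 2 * (⟪X, Y g⟫_ℂ).re = ‖Y g - X‖ ^ 2 := by linarith
  rw [h4, ← sub_le_iff_le_add', le_div_iff₀ hη]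
  nlinarith [sq_nonneg (‖Y g - X‖ - η)]

/-- Almost invariant states for the finite subsets give an almost invariant state. -/
theorem exists_state (S : Set (H →L[ℂ] H)) (δ : ℝ)
    (h : ∀ s : Finset S, ∃ ψ : (H →L[ℂ] H) →L[ℂ] ℂ, IsState ψ ∧ (∀ T, ‖ψ T‖ ≤ ‖T‖) ∧
      ∀ a ∈ s, ∀ T : H →L[ℂ] H,
        ‖ψ (star (a : H →L[ℂ] H) * T * (a : H →L[ℂ] H)) - ψ T‖ ≤ δ * ‖T‖) :
    ∃ ψ : (H →L[ℂ] H) →L[ℂ] ℂ, IsState ψ ∧
      ∀ s ∈ S, ∀ T, ‖ψ (star s * T * s) - ψ T‖ ≤ δ * ‖T‖ := by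
  classical
  choose ψ hψ hb hinv using h
  let 𝒰 : Ultrafilter (Finset S) := Ultrafilter.of atTop
  have h𝒰 : (𝒰 : Filter (Finset S)) ≤ atTop := Ultrafilter.of_le _
  choose L hL using fun T : H →L[ℂ] H => exists_ulim 𝒰 (fun i => ψ i T) _ (fun i => hb i T)
  let ψ₀ : (H →L[ℂ] H) →ₗ[ℂ] ℂ :=
    { toFun := L
      map_add' := fun T T' => tendsto_nhds_unique (hL (T + T')) (by
        simpa only [map_add] using (hL T).add (hL T'))
      map_smul' := fun c T => tendsto_nhds_unique (hL (c • T)) (by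
        simpa only [map_smul, RingHom.id_apply, smul_eq_mul] using (hL T).const_mul c) }
  have hψ₀ : ∀ T, ‖ψ₀ T‖ ≤ 1 * ‖T‖ := fun T => by
    rw [one_mul]
    exact le_of_tendsto' (hL T).norm fun i => hb i T
  refine ⟨ψ₀.mkContinuous 1 hψ₀, ⟨?_, fun T => ?_⟩, fun s hs T => ?_⟩
  · change L 1 = 1
    refine tendsto_nhds_unique (hL 1) ?_
    simp only [fun i => (hψ i).1]
    exact tendsto_const_nhds
  · exact ge_of_tendsto' (hL (star T * T)) fun i => (hψ i).2 T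
  · refine le_of_tendsto ((hL (star s * T * s)).sub (hL T)).norm ?_
    refine ((eventually_ge_atTop ({⟨s, hs⟩} : Finset S)).filter_mono h𝒰).mono fun i hi => ?_
    exact hinv i ⟨s, hs⟩ (hi (Finset.mem_singleton_self _)) T

/-- The admissible letters. -/
def Ad (N : VonNeumannAlgebra H) (ξ : H) (ε : ℝ) (g : H →L[ℂ] H) : Prop :=
  UQ N g ∧ AlmostInv N ξ (star g) ε

/-- A weighted family of admissible letters with a gap. -/
def Fam (N : VonNeumannAlgebra H) (ξ : H) (ε ρ : ℝ) : Prop :=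
  ∃ (F : Type) (_ : Fintype F) (w : F → ℝ) (g : F → H →L[ℂ] H),
    (∀ a, 0 ≤ w a) ∧ ∑ a, w a = 1 ∧ (∀ a, Ad N ξ ε (g a)) ∧ Gap w g ρ

variable {N : VonNeumannAlgebra H} {ξ : H}

theorem ad_one {ε : ℝ} (hε : 0 ≤ ε) : Ad N ξ ε 1 := by
  refine ⟨⟨one_mem _, one_mem _⟩, fun q _ => ?_⟩
  simp only [star_one, one_mul, mul_one, sub_self, norm_zero]
  positivity

theorem Ad.mono {ε ε' : ℝ} {g : H →L[ℂ] H} (h : Ad N ξ ε g) (hε : ε ≤ ε') : Ad N ξ ε' g :=
  ⟨h.1, fun q hq => (h.2 q hq).trans (mul_le_mul_of_nonneg_right hε (norm_nonneg _))⟩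

theorem Ad.mul {ε ε' : ℝ} {g g' : H →L[ℂ] H} (h : Ad N ξ ε g) (h' : Ad N ξ ε' g') :
    Ad N ξ (ε + ε') (g * g') := by
  refine ⟨⟨mul_mem h.1.1 h'.1.1, mul_mem h.1.2 h'.1.2⟩, fun q hq => ?_⟩
  have h1 := h.2 q hq
  have hq' : star g * q * star (star g) ∈ N.commutant :=
    mul_mem (mul_mem (star_mem h.1.2) hq) (star_mem (star_mem h.1.2))
  have h2 := h'.2 _ hq'
  have h3 : ‖star g * q * star (star g)‖ = ‖q‖ := by
    rw [star_star, CStarRing.norm_mul_mem_unitary _ h.1.1,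
      CStarRing.norm_mem_unitary_mul _ (Unitary.star_mem h.1.1)]
  have h4 : star (g * g') * q * star (star (g * g')) =
      star g' * (star g * q * star (star g)) * star (star g') := by
    simp only [star_star, star_mul, mul_assoc]
  rw [h3] at h2
  rw [h4, add_mul]
  exact (norm_sub_le_norm_sub_add_norm_sub _ _ _).trans (by linarith)

theorem fam_step (h : NA N ξ) : ∃ ρ : ℝ, 0 ≤ ρ ∧ ρ < 1 ∧ ∀ ε, 0 < ε → Fam N ξ ε ρ := by
  obtain ⟨δ, hδ, hna⟩ := h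
  set θ : ℝ := min (δ ^ 2 / 64) (1 / 2) with hθ
  have hθ0 : 0 < θ := lt_min (by positivity) (by norm_num)
  have hθ1 : θ ≤ δ ^ 2 / 64 := min_le_left _ _
  have hθ2 : θ ≤ 1 / 2 := min_le_right _ _
  refine ⟨1 - θ, by linarith, by linarith, fun ε hε => ?_⟩
  by_contra hcon
  obtain ⟨w, b, -⟩ := exists_hilbertBasis ℂ H
  have hlazy : ∀ (F : Type) [Fintype F] (l : F → ℝ) (g : F → H →L[ℂ] H), (∀ a, 0 ≤ l a) →
      ∑ a, l a = 1 → (∀ a, Ad N ξ ε (g a)) →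
      ∃ (X : HS w H) (Y : (H →L[ℂ] H) → HS w H), Good X Y ∧
        2 * (1 - θ) ^ 2 - 1 ≤ ∑ a, l a * (⟪X, Y (g a)⟫_ℂ).re := by
    intro F _ l g hl hl1 hg
    refine lazy b l hl hl1 g (fun a => (hg a).1.1) (by linarith) fun hG => hcon ?_
    refine ⟨Option F, inferInstance, _, _, ?_, ?_, ?_, hG⟩
    · rintro (_ | a)
      · exact one_half_pos.le
      · exact div_nonneg (hl a) zero_le_two
    · rw [Fintype.sum_option]
      simp only [Option.elim, ← Finset.sum_div, hl1]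
      norm_num
    · rintro (_ | a)
      · exact ad_one hε.le
      · exact hg a
  have hη : 0 < δ / 2 := by linarith
  obtain ⟨ψ, hψ, hinv⟩ := exists_state {g | Ad N ξ ε g} δ fun s => by
    let g : s → H →L[ℂ] H := fun a => (a : {g | Ad N ξ ε g})
    have hg : ∀ a, Ad N ξ ε (g a) := fun a => (a : {g | Ad N ξ ε g}).2
    let C : Set (s → ℝ) := {t | ∃ ψ : (H →L[ℂ] H) →L[ℂ] ℂ, IsState ψ ∧ (∀ T, ‖ψ T‖ ≤ ‖T‖) ∧
      ∀ a T, ‖ψ (star (g a) * T * g a) - ψ T‖ ≤ (δ / 2 + (2 - 2 * t a) / (δ / 2)) * ‖T‖}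
    have hmem : ∀ (X : HS w H) (Y : (H →L[ℂ] H) → HS w H), Good X Y →
        (fun a => (⟪X, Y (g a)⟫_ℂ).re) ∈ C := fun X Y hG =>
      ⟨vs X, isState_vs hG.1, norm_vs_le hG.1, fun a T => hG.defect (hg a).1.1 hη T⟩
    have hC : Convex ℝ C := by
      rintro t ⟨ψ, hψ, hb, hd⟩ t' ⟨ψ', hψ', hb', hd'⟩ p q hp hq hpq
      have key : ∀ (z z' : ℂ) (A A' : ℝ), ‖z‖ ≤ A → ‖z'‖ ≤ A' →
          ‖(p : ℂ) * z + (q : ℂ) * z'‖ ≤ p * A + q * A' := by
        intro z z' A A' hz hz'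
        refine (norm_add_le _ _).trans ?_
        rw [norm_mul, norm_mul, Complex.norm_real, Complex.norm_real, Real.norm_of_nonneg hp,
          Real.norm_of_nonneg hq]
        gcongr
      have happ : ∀ T, ((p : ℂ) • ψ + (q : ℂ) • ψ') T = (p : ℂ) * ψ T + (q : ℂ) * ψ' T :=
        fun T => rfl
      refine ⟨(p : ℂ) • ψ + (q : ℂ) • ψ', ⟨?_, fun T => ?_⟩, fun T => ?_, fun a T => ?_⟩
      · rw [happ, hψ.1, hψ'.1, mul_one, mul_one, ← Complex.ofReal_add, hpq, Complex.ofReal_one]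
      · rw [happ]
        exact add_nonneg (mul_nonneg (Complex.zero_le_real.2 hp) (hψ.2 T))
          (mul_nonneg (Complex.zero_le_real.2 hq) (hψ'.2 T))
      · rw [happ]
        refine (key _ _ _ _ (hb T) (hb' T)).trans (le_of_eq ?_)
        rw [← add_mul, hpq, one_mul]
      · rw [happ, happ]
        have h1 := key _ _ _ _ (hd a T) (hd' a T)
        have h2 : (p • t + q • t') a = p * t a + q * t' a := rfl
        have h3 : q = 1 - p := by linarith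
        rw [h2]
        refine le_trans (le_of_eq ?_) (h1.trans (le_of_eq ?_))
        · congr 1
          ring
        · rw [h3]
          ring
    have hne : C.Nonempty := by
      obtain ⟨X, Y, hG, -⟩ := hlazy Unit (fun _ => 1) (fun _ => 1) (fun _ => zero_le_one)
        (by simp) fun _ => ad_one hε.le
      exact ⟨_, hmem X Y hG⟩
    obtain ⟨t, ⟨ψ, hψ, hb, hd⟩, ht⟩ := finite_minimax C hC hne (2 * (1 - θ) ^ 2 - 1)
      (1 - δ ^ 2 / 8) (by nlinarith [sq_nonneg θ, sq_pos_of_pos hδ]) fun l hl hl1 => by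
        obtain ⟨X, Y, hG, hle⟩ := hlazy s l g hl hl1 hg
        exact ⟨_, hmem X Y hG, hle⟩
    refine ⟨ψ, hψ, hb, fun a ha T => (hd ⟨a, ha⟩ T).trans ?_⟩
    refine mul_le_mul_of_nonneg_right ?_ (norm_nonneg _)
    have h1 : (2 - 2 * t ⟨a, ha⟩) / (δ / 2) ≤ δ / 2 := by
      rw [div_le_iff₀ hη]
      nlinarith [ht ⟨a, ha⟩]
    linarith
  obtain ⟨u, hu, hal, T, hT⟩ := hna ψ hψ ε hε
  have h1 := hinv (star u) ⟨⟨Unitary.star_mem hu.1, star_mem hu.2⟩, by rwa [star_star]⟩ T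
  rw [star_star] at h1
  linarith

theorem fam_pow {ε ρ : ℝ} (hρ : 0 ≤ ρ) (h : Fam N ξ ε ρ) (k : ℕ) :
    Fam N ξ (k * ε) (ρ ^ k) := by
  induction k with
  | zero =>
    refine ⟨Unit, inferInstance, fun _ => 1, fun _ => 1, fun _ => zero_le_one, by simp,
      fun _ => ad_one (by simp), ?_⟩
    rw [pow_zero]
    exact gap_one
  | succ k ih =>
    obtain ⟨F, hF, w, g, hw, hsum, hg, hG⟩ := ih
    obtain ⟨F', hF', w', g', hw', hsum', hg', hG'⟩ := h
    refine ⟨F × F', inferInstance, _, _, fun p => mul_nonneg (hw _) (hw' _), ?_, fun p => ?_,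
      pow_succ ρ k ▸ hG.prod hG' (pow_nonneg hρ k)⟩
    · rw [Fintype.sum_prod_type]
      simp only [← Finset.mul_sum, hsum', mul_one, hsum]
    · exact ((hg p.1).mul (hg' p.2)).mono (le_of_eq (by push_cast; ring))

theorem gap_unif (h : UnifSt) {F : Type} [Fintype F] {w : F → ℝ} {g : F → H →L[ℂ] H} {ρ η : ℝ}
    (hw : ∀ a, 0 ≤ w a) (hsum : ∑ a, w a = 1) (hg : ∀ a, g a ∈ unitary (H →L[ℂ] H))
    (hG : Gap w g ρ) (hη : 0 < η) :
    ∃ (n : ℕ) (κ : Fin (n + 1) → F), Gap (fun _ => ((n : ℝ) + 1)⁻¹) (fun a => g (κ a)) (ρ + η) := by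
  obtain ⟨n, κ, hκ⟩ := h F w hw hsum η hη
  refine ⟨n, κ, fun J _ β f => ?_⟩
  obtain ⟨v, b, -⟩ := exists_hilbertBasis ℂ H
  have h1 := hG J β f
  rw [hsn_eq_norm b, hsv_prod b w g β f] at h1
  rw [hsn_eq_norm b, hsv_prod b (fun _ : Fin (n + 1) => ((n : ℝ) + 1)⁻¹) (fun a => g (κ a)) β f]
  set r : ℝ := hsn β f with hr
  set Y : F → HS v H := fun a => hsv b β fun j => g a (f j) with hY
  have hYr : ∀ a, ‖Y a‖ = r := fun a => by rw [hY, ← hsn_eq_norm b, hsn_unitary (hg a)]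
  have hr0 : 0 ≤ r := hsn_nonneg β f
  set A : HS v H := ∑ a, (w a : ℂ) • Y a with hA
  set B : HS v H := ∑ a : Fin (n + 1), ((((n : ℝ) + 1)⁻¹ : ℝ) : ℂ) • Y (κ a) with hB
  have h2 : ‖A - B‖ ≤ η * r := by
    set d : ℝ := ‖A - B‖ with hd
    have hd0 : 0 ≤ d := norm_nonneg _
    have hb : ∀ a, |(⟪A - B, Y a⟫_ℂ).re| ≤ d * r := fun a =>
      (Complex.abs_re_le_norm _).trans ((norm_inner_le_norm _ _).trans (by rw [hYr]))
    have h3 : d ^ 2 = ∑ a, w a * (⟪A - B, Y a⟫_ℂ).re - 𝔼 a, (⟪A - B, Y (κ a)⟫_ℂ).re := by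
      have h4 : d ^ 2 = (⟪A - B, A⟫_ℂ).re - (⟪A - B, B⟫_ℂ).re := by
        rw [← Complex.sub_re, ← inner_sub_right, hd, ← inner_self_eq_norm_sq (𝕜 := ℂ),
          RCLike.re_to_complex]
      rw [h4]
      generalize A - B = D
      rw [hA, hB, inner_sum, inner_sum, Complex.re_sum, Complex.re_sum,
        Fintype.expect_eq_sum_div_card]
      simp only [inner_smul_right, Complex.re_ofReal_mul, ← Finset.mul_sum, Fintype.card_fin]
      push_cast
      ring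
    rcases (mul_nonneg hd0 hr0).eq_or_lt with h0 | h0
    · have h4 : ∀ a, (⟪A - B, Y a⟫_ℂ).re = 0 := fun a => abs_nonpos_iff.1 (h0 ▸ hb a)
      simp only [h4, mul_zero, Finset.sum_const_zero, Finset.expect_const_zero, sub_zero] at h3
      rw [pow_eq_zero_iff two_ne_zero] at h3
      rw [h3]
      positivity
    · have h4 := hκ (fun a => (⟪A - B, Y a⟫_ℂ).re / (d * r)) fun a => by
        rw [abs_div, abs_of_pos h0, div_le_one h0]
        exact hb a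
      simp only [← mul_div_assoc, ← Finset.sum_div, ← Finset.expect_div] at h4
      rw [← sub_div, ← h3, abs_div, abs_of_pos h0, div_le_iff₀ h0, abs_of_nonneg (sq_nonneg d)]
        at h4
      have hdp : 0 < d := lt_of_le_of_ne hd0 fun h5 => by
        rw [← h5, zero_mul] at h0
        exact lt_irrefl _ h0
      nlinarith
  have h3 := norm_le_norm_add_norm_sub A B
  linarith

end GapNAP

theorem gapNASt (h : UnifSt) : GapNASt := by
  intro H _ _ _ N ξ hna ε hε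
  obtain ⟨ρ, h0, h1, hfam⟩ := GapNAP.fam_step hna
  obtain ⟨k, hk⟩ := exists_pow_lt_of_lt_one (half_pos hε) h1
  obtain ⟨F, hF, w, g, hw, hsum, hg, hG⟩ :=
    GapNAP.fam_pow h0 (hfam (ε / ((k : ℝ) + 1)) (by positivity)) k
  obtain ⟨n, κ, hgap⟩ := GapNAP.gap_unif h hw hsum (fun a => (hg a).1.1) hG (half_pos hε)
  refine ⟨n, fun a => g (κ a), fun a => (hg (κ a)).mono ?_, fun J _ β f => (hgap J β f).trans ?_⟩
  · rw [← mul_div_assoc, div_le_iff₀ (by positivity)]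
    nlinarith
  · exact mul_le_mul_of_nonneg_right (by linarith) (hsn_nonneg β f)

end Pool.Agent.P.MP_7e3bdd_an.RW
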