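import Pool.Agent.P.MP_7e3bdd_an.RW.Skew

/-!
Irreducibility of the inclusion: an equivariant field with values in the commutant of `N` is
measurable for the past and for the future, hence constant.
-/

set_option autoImplicit false

open scoped InnerProductSpace Topology ComplexConjugate ENNReal
open Filter MeasureTheory ProbabilityTheory

noncomputable section

namespace Pool.Agent.P.MP_7e3bdd_an.RW

variable {H : Type} [NormedAddCommGroup H] [InnerProductSpace ℂ H] [CompleteSpace H]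
  {A : Type} [MeasurableSpace A] [Countable A] [DiscreteMeasurableSpace A]
  {μ : Measure A} [IsProbabilityMeasure μ] {v : A → H →L[ℂ] H}
  {T : Lp H 2 (PP μ) →L[ℂ] Lp H 2 (PP μ)}

/-- The conditional expectation of the field `T` on the window `W`. -/
def tt (T : Lp H 2 (PP μ) →L[ℂ] Lp H 2 (PP μ)) (W : Finset ℤ) (ω : ℤ → A) : H →L[ℂ] H :=
  ((PP μ).real (atom W ω) : ℂ)⁻¹ • cmp (PP μ) (EE (PP μ) (atom W ω) * T)

/-- `T` commutes with all multiplication operators. -/
def Dec (T : Lp H 2 (PP μ) →L[ℂ] Lp H 2 (PP μ)) : Prop :=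
  ∀ B, MeasurableSet B → EE (PP μ) B * T = T * EE (PP μ) B

omit [Countable A] [DiscreteMeasurableSpace A] in
theorem tt_dep (W : Finset ℤ) : DependsOn (tt T W) (W : Set ℤ) := fun x y h => by
  rw [tt, tt, atom_dep W h]

theorem smul_tt (hT : Dec T) (W : Finset ℤ) (ω : ℤ → A) :
    ((PP μ).real (atom W ω) : ℂ) • tt T W ω = cmp (PP μ) (EE (PP μ) (atom W ω) * T) := by
  rcases eq_or_ne ((PP μ).real (atom W ω)) 0 with h | h
  · have h1 := norm_cmp_EE_mul (measurableSet_atom W ω) (hT _ (measurableSet_atom W ω))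
    rw [h, zero_mul, norm_le_zero_iff] at h1
    rw [h, h1]
    simp
  · rw [tt, smul_smul, mul_inv_cancel₀ (by exact_mod_cast h), one_smul]

theorem norm_tt_le (hT : Dec T) (W : Finset ℤ) (ω : ℤ → A) : ‖tt T W ω‖ ≤ ‖T‖ := by
  have h1 := norm_cmp_EE_mul (measurableSet_atom W ω) (hT _ (measurableSet_atom W ω))
  rcases eq_or_lt_of_le (measureReal_nonneg (μ := PP μ) (s := atom W ω)) with h | h
  · rw [tt, ← h]
    simp
  · rw [← smul_tt hT, norm_smul, Complex.norm_real, Real.norm_of_nonneg h.le] at h1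
    exact le_of_mul_le_mul_left h1 h

theorem good_tt (hT : Dec T) (W : Finset ℤ) : Good (tt T W) :=
  ⟨sm_of_dep (tt_dep W), ‖T‖, norm_tt_le hT W⟩

theorem cmp_fld_mul (hT : Dec T) {W : Finset ℤ} {h : (ℤ → A) → H →L[ℂ] H} (hh : Good h)
    (hW : DependsOn h (W : Set ℤ)) :
    cmp (PP μ) (fld (PP μ) h * T) = ∫ ω, h ω * tt T W ω ∂PP μ := by
  have hi := (hh.mul (good_tt hT W)).integrable (PP μ)
  ext ξ
  refine ext_inner_left ℂ fun η => ?_
  rw [inner_cmp, inner_VV, inner_integral_op hi]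
  refine integral_eq_of_atoms W ((integrable_L2 _).const_inner η)
    ((hi.apply_continuousLinearMap ξ).const_inner η) fun ω => ?_
  have hB := measurableSet_atom W ω
  rw [← inner_VV_EE hB, ← mul_apply_eq_comp, ← inner_cmp, ← mul_assoc,
    EE_mul_fld_of_const hB hh (a := h ω) (fun x hx => hW hx), ← amp_apply, EE_comm_amp hB,
    mul_assoc, cmp_amp_mul, ← smul_tt hT,
    setIntegral_congr_fun hB (g := fun _ => ⟪η, (h ω * tt T W ω) ξ⟫_ℂ)
      (fun x hx => by simp only [hW hx, tt_dep W hx])]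
  simp

theorem integral_tt (hT : Dec T) (W : Finset ℤ) : ∫ ω, tt T W ω ∂PP μ = cmp (PP μ) T := by
  have := cmp_fld_mul hT (W := W) (Good.const (1 : H →L[ℂ] H)) (fun _ _ _ => rfl)
  rw [fld_one, one_mul] at this
  simp [this]

omit [Countable A] [DiscreteMeasurableSpace A] in
theorem tt_empty (ω : ℤ → A) : tt T ∅ ω = cmp (PP μ) T := by
  have h : atom ∅ ω = Set.univ := by simp [atom]
  have h2 : EE (H := H) (PP μ) Set.univ = 1 := by
    rw [EE, Set.indicator_univ, fld_one]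
  simp [tt, h, h2]

theorem tt_mem {N : VonNeumannAlgebra H} (hN : ∀ a ∈ N, amp (PP μ) a * T = T * amp (PP μ) a)
    (W : Finset ℤ) (ω : ℤ → A) : tt T W ω ∈ N.commutant := by
  rw [VonNeumannAlgebra.mem_commutant_iff]
  intro a ha
  rw [tt, mul_smul_comm, smul_mul_assoc, ← cmp_amp_mul, ← cmp_mul_amp, ← mul_assoc,
    ← EE_comm_amp (measurableSet_atom W ω), mul_assoc, hN a ha, mul_assoc]

theorem tt_shift (hv : ∀ a, v a ∈ unitary (H →L[ℂ] H)) (hT : Dec T)
    (hU : UU μ v * T = T * UU μ v) {W W' : Finset ℤ} (hW : ∀ k, k + 1 ∈ W' ↔ k ∈ W)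
    (h0 : (0 : ℤ) ∈ W') (ω : ℤ → A) :
    tt T W' ω = v (ω 0) * tt T W (sh 1 ω) * star (v (ω 0)) := by
  have hB := measurableSet_atom W (sh 1 ω)
  have hB' := measurableSet_atom W' ω
  have hpre : sh 1 ⁻¹' atom W (sh 1 ω) = atom W' ω := by
    ext x
    simp only [atom, sh, Set.mem_preimage, Set.mem_ofPred_eq]
    constructor
    · intro h k hk
      have := h (k - 1) ((hW _).1 (by simpa using hk))
      simpa using this
    · intro h k hk
      exact h _ ((hW k).2 hk)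
  have hP : (PP μ).real (atom W' ω) = (PP μ).real (atom W (sh 1 ω)) := by
    rw [← hpre, Measure.real, Measure.real, (mp_sh μ 1).measure_preimage hB.nullMeasurableSet]
  have hE : EE (PP μ) (atom W' ω) * UU μ v =
      amp (PP μ) (v (ω 0)) * SS μ 1 * EE (PP μ) (atom W (sh 1 ω)) := by
    rw [UU, ← mul_assoc, EE_mul_fld_of_const hB' (good_v hv 0) (a := v (ω 0))
      (fun x hx => by rw [hx 0 h0]), ← amp_apply, EE_comm_amp hB', mul_assoc, mul_assoc,
      SS_EE 1 hB, hpre]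
  have hEE : EE (PP μ) (atom W' ω) * T = (EE (PP μ) (atom W' ω) * UU μ v) * T *
      star (EE (PP μ) (atom W' ω) * UU μ v) := by
    rw [star_mul, star_EE hB', mul_assoc _ (UU μ v), hU, mul_assoc, mul_assoc, ← mul_assoc (UU μ v),
      Unitary.mul_star_self_of_mem (UU_unitary hv), one_mul, ← hT _ hB', ← mul_assoc,
      EE_mul_self hB']
  have hS : ∀ Z, cmp (PP μ) (SS (H := H) μ 1 * Z) = cmp (PP μ) Z := fun Z => by
    have := cmp_SS_mul (-1) (star Z)
    rw [← star_SS, ← star_mul, cmp_star, cmp_star] at this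
    exact star_injective this
  rw [tt, tt, hP, mul_smul_comm, smul_mul_assoc, hEE, hE]
  congr 1
  rw [star_mul, star_mul, ← map_star, star_EE hB, star_SS]
  simp only [mul_assoc]
  rw [cmp_amp_mul, hS]
  simp only [← mul_assoc]
  rw [cmp_mul_amp, cmp_SS_mul, mul_assoc (EE _ _), ← hT _ hB, ← mul_assoc (EE _ _),
    EE_mul_self hB, mul_assoc]

variable (μ) in
/-- The operator valued inner product of two fields. -/
def mm (x y : (ℤ → A) → H →L[ℂ] H) : H →L[ℂ] H := ∫ ω, star (x ω) * y ω ∂PP μ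

omit [Countable A] [DiscreteMeasurableSpace A] in
theorem star_mm {x y : (ℤ → A) → H →L[ℂ] H} (hx : Good x) (hy : Good y) :
    star (mm μ x y) = mm μ y x := by
  have := (starL' ℝ (A := H →L[ℂ] H)).toContinuousLinearMap.integral_comp_comm
    ((hx.star.mul hy).integrable (PP μ))
  simpa [mm] using this.symm

omit [Countable A] [DiscreteMeasurableSpace A] in
theorem mm_sub {x x' y y' : (ℤ → A) → H →L[ℂ] H} (hx : Good x) (hx' : Good x') (hy : Good y)
    (hy' : Good y') : mm μ (fun ω => x ω - x' ω) (fun ω => y ω - y' ω) =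
      mm μ x y - mm μ x y' - (mm μ x' y - mm μ x' y') := by
  have i1 := (hx.star.mul hy).integrable (PP μ)
  have i2 := (hx.star.mul hy').integrable (PP μ)
  have i3 := (hx'.star.mul hy).integrable (PP μ)
  have i4 := (hx'.star.mul hy').integrable (PP μ)
  rw [mm, mm, mm, mm, mm, ← integral_sub i1 i2, ← integral_sub i3 i4,
    ← integral_sub (i1.sub' i2) (i3.sub' i4)]
  refine integral_congr_ae (Eventually.of_forall fun ω => ?_)
  simp only [star_sub, sub_mul, mul_sub]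
  abel

theorem mm_tower (hT : Dec T) {W W' : Finset ℤ} (h : W ⊆ W') :
    mm μ (tt T W) (tt T W') = mm μ (tt T W) (tt T W) := by
  have hd : DependsOn (fun ω => star (tt T W ω)) (W : Set ℤ) := fun x y hxy => by
    simp only [tt_dep W hxy]
  rw [mm, mm, ← cmp_fld_mul hT (good_tt hT W).star hd,
    ← cmp_fld_mul hT (good_tt hT W).star (hd.mono h)]

theorem mm_tower' (hT : Dec T) {W W' : Finset ℤ} (h : W ⊆ W') :
    mm μ (tt T W') (tt T W) = mm μ (tt T W) (tt T W) := by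
  rw [← star_mm (good_tt hT W) (good_tt hT W'), mm_tower hT h,
    star_mm (good_tt hT W) (good_tt hT W)]

theorem mm_disjoint (hT : Dec T) {W W' : Finset ℤ} (h : Disjoint W W') :
    mm μ (tt T W) (tt T W') = mm μ (tt T ∅) (tt T ∅) := by
  have hd : DependsOn (fun ω => star (tt T W ω)) (W : Set ℤ) := fun x y hxy => by
    simp only [tt_dep W hxy]
  have h1 := (starL' ℝ (A := H →L[ℂ] H)).toContinuousLinearMap.integral_comp_comm
    ((good_tt hT W).integrable (PP μ))
  have h2 : ∫ ω, star (tt T W ω) ∂PP μ = star (cmp (PP μ) T) := by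
    rw [← integral_tt hT W]
    simpa using h1
  rw [mm, integral_mul_of_disjoint h (good_tt hT W).star (good_tt hT W') hd (tt_dep W'), h2,
    integral_tt hT]
  simp [mm, tt_empty]

section Functional

variable {N : VonNeumannAlgebra H} {φ : (H →L[ℂ] H) →L[ℂ] ℂ}

omit [Countable A] [DiscreteMeasurableSpace A] in
theorem re_mm {x : (ℤ → A) → H →L[ℂ] H} (hx : Good x) :
    (φ (mm μ x x)).re = ∫ ω, (φ (star (x ω) * x ω)).re ∂PP μ := by
  have hi := (hx.star.mul hx).integrable (PP μ)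
  rw [mm, ← φ.integral_comp_comm hi]
  exact (Complex.reCLM.integral_comp_comm (φ.integrable_comp hi)).symm

omit [Countable A] [DiscreteMeasurableSpace A] in
theorem re_nonneg (hφ : ∀ q ∈ N.commutant, q ≠ 0 → 0 < (φ (star q * q)).re) {q : H →L[ℂ] H}
    (hq : q ∈ N.commutant) : 0 ≤ (φ (star q * q)).re := by
  rcases eq_or_ne q 0 with rfl | h
  · simp
  · exact (hφ q hq h).le

omit [Countable A] [DiscreteMeasurableSpace A] in
theorem re_mm_nonneg (hφ : ∀ q ∈ N.commutant, q ≠ 0 → 0 < (φ (star q * q)).re)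
    {x : (ℤ → A) → H →L[ℂ] H} (hx : Good x) (hN : ∀ ω, x ω ∈ N.commutant) :
    0 ≤ (φ (mm μ x x)).re := by
  rw [re_mm hx]
  exact integral_nonneg fun ω => re_nonneg hφ (hN ω)

omit [Countable A] [DiscreteMeasurableSpace A] in
theorem ae_zero_of_mm (hφ : ∀ q ∈ N.commutant, q ≠ 0 → 0 < (φ (star q * q)).re)
    {x : (ℤ → A) → H →L[ℂ] H} (hx : Good x) (hN : ∀ ω, x ω ∈ N.commutant)
    (h0 : (φ (mm μ x x)).re = 0) : ∀ᵐ ω ∂PP μ, x ω = 0 := by
  have hi := (hx.star.mul hx).integrable (PP μ)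
  rw [re_mm hx, integral_eq_zero_iff_of_nonneg (fun ω => re_nonneg hφ (hN ω))
    (φ.integrable_comp hi).re] at h0
  filter_upwards [h0] with ω hω
  by_contra hne
  exact (hφ _ (hN ω) hne).ne' hω

variable (φ T) in
/-- The energy of the window `W`. -/
def en (W : Finset ℤ) : ℝ := (φ (mm μ (tt T W) (tt T W))).re

theorem en_le (hT : Dec T) (W : Finset ℤ) : |en T φ W| ≤ ‖φ‖ * (‖T‖ * ‖T‖) := by
  refine (Complex.abs_re_le_norm _).trans ((φ.le_opNorm _).trans ?_)
  gcongr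
  have := norm_integral_le_of_norm_le_const (μ := PP μ) (C := ‖T‖ * ‖T‖)
    (f := fun ω => star (tt T W ω) * tt T W ω) (Eventually.of_forall fun ω => by
      refine (norm_mul_le _ _).trans ?_
      rw [norm_star]
      gcongr <;> exact norm_tt_le hT W ω)
  simpa [mm] using this

theorem en_shift (hv : ∀ a, v a ∈ unitary (H →L[ℂ] H)) (hT : Dec T)
    (hU : UU μ v * T = T * UU μ v) (hN : ∀ a ∈ N, amp (PP μ) a * T = T * amp (PP μ) a)
    (hinv : ∀ a, ∀ q ∈ N.commutant, φ (v a * q * star (v a)) = φ q) {W W' : Finset ℤ}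
    (hW : ∀ k, k + 1 ∈ W' ↔ k ∈ W) (h0 : (0 : ℤ) ∈ W') : en T φ W' = en T φ W := by
  rw [en, en, re_mm (good_tt hT W), re_mm (good_tt hT W')]
  have hs : StronglyMeasurable fun ω => (φ (star (tt T W ω) * tt T W ω)).re :=
    (Complex.continuous_re.comp φ.continuous).comp_stronglyMeasurable
      ((good_tt hT W).star.mul (good_tt hT W)).1
  rw [← integral_sh μ 1 hs]
  refine integral_congr_ae (Eventually.of_forall fun ω => ?_)
  have hq := tt_mem hN W (sh 1 ω)
  simp only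
  rw [← hinv (ω 0) _ (mul_mem (star_mem hq) hq), tt_shift hv hT hU hW h0]
  simp only [star_mul, star_star, mul_assoc]
  rw [← mul_assoc (star (v (ω 0))), Unitary.star_mul_self_of_mem (hv _), one_mul]

theorem en_Ico (hv : ∀ a, v a ∈ unitary (H →L[ℂ] H)) (hT : Dec T)
    (hU : UU μ v * T = T * UU μ v) (hN : ∀ a ∈ N, amp (PP μ) a * T = T * amp (PP μ) a)
    (hinv : ∀ a, ∀ q ∈ N.commutant, φ (v a * q * star (v a)) = φ q) (l j : ℕ) (hj : j ≤ l) :
    en T φ (Finset.Ico (-(j : ℤ)) (l - j)) = en T φ (Finset.Ico 0 l) := by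
  induction j with
  | zero => simp
  | succ j ih =>
    rw [← ih (by omega)]
    refine (en_shift hv hT hU hN hinv (fun k => ?_) ?_).symm
    · simp only [Finset.mem_Ico]
      omega
    · simp only [Finset.mem_Ico]
      omega

theorem en_anova (hφ : ∀ q ∈ N.commutant, q ≠ 0 → 0 < (φ (star q * q)).re) (hT : Dec T)
    (hN : ∀ a ∈ N, amp (PP μ) a * T = T * amp (PP μ) a) {W W₁ W₂ : Finset ℤ} (h1 : W₁ ⊆ W)
    (h2 : W₂ ⊆ W) (hd : Disjoint W₁ W₂) :
    en T φ W₁ + en T φ W₂ ≤ en T φ W + en T φ ∅ := by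
  have g := good_tt hT
  have h := re_mm_nonneg (μ := μ) hφ (((g W).sub (g W₁)).sub ((g W₂).sub (g ∅))) fun ω =>
    sub_mem (sub_mem (tt_mem hN _ _) (tt_mem hN _ _)) (sub_mem (tt_mem hN _ _) (tt_mem hN _ _))
  rw [mm_sub ((g W).sub (g W₁)) ((g W₂).sub (g ∅)) ((g W).sub (g W₁)) ((g W₂).sub (g ∅)),
    mm_sub (g W) (g W₁) (g W) (g W₁), mm_sub (g W) (g W₁) (g W₂) (g ∅),
    mm_sub (g W₂) (g ∅) (g W) (g W₁), mm_sub (g W₂) (g ∅) (g W₂) (g ∅),
    mm_tower hT h1, mm_tower' hT h1, mm_tower hT h2, mm_tower' hT h2, mm_disjoint hT hd,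
    mm_disjoint hT hd.symm, mm_tower hT (Finset.empty_subset W),
    mm_tower' hT (Finset.empty_subset W), mm_tower hT (Finset.empty_subset W₁),
    mm_tower' hT (Finset.empty_subset W₁), mm_tower hT (Finset.empty_subset W₂),
    mm_tower' hT (Finset.empty_subset W₂)] at h
  simp only [map_sub, Complex.sub_re] at h
  unfold en
  linarith

theorem en_sub (hT : Dec T) (W : Finset ℤ) :
    (φ (mm μ (fun ω => tt T W ω - tt T ∅ ω) (fun ω => tt T W ω - tt T ∅ ω))).re =
      en T φ W - en T φ ∅ := by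
  have g := good_tt hT
  rw [mm_sub (g W) (g ∅) (g W) (g ∅), mm_tower hT (Finset.empty_subset W),
    mm_tower' hT (Finset.empty_subset W)]
  simp [en]

theorem eq_amp_of_comm (hφ : ∀ q ∈ N.commutant, q ≠ 0 → 0 < (φ (star q * q)).re)
    (hv : ∀ a, v a ∈ unitary (H →L[ℂ] H))
    (hinv : ∀ a, ∀ q ∈ N.commutant, φ (v a * q * star (v a)) = φ q) (hM : T ∈ MM μ v)
    (hN : ∀ a ∈ N, amp (PP μ) a * T = T * amp (PP μ) a) : T = amp (PP μ) (cmp (PP μ) T) := by
  obtain ⟨hU, hT⟩ := (mem_MM (UU_unitary hv) T).1 hM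
  have g := good_tt hT
  set d : ℕ → ℝ := fun l => en T φ (Finset.Ico 0 l) - en T φ ∅ with hd
  have hd0 : ∀ W, 0 ≤ en T φ W - en T φ ∅ := fun W => by
    rw [← en_sub hT]
    exact re_mm_nonneg hφ ((g W).sub (g ∅)) fun ω => sub_mem (tt_mem hN _ _) (tt_mem hN _ _)
  have hsym : ∀ l : ℕ, en T φ (Finset.Ico (-(l : ℤ)) l) = en T φ (Finset.Ico 0 (2 * l : ℕ)) := by
    intro l
    rw [← en_Ico hv hT hU hN hinv (2 * l) l (by omega)]
    congr 2
    push_cast
    ring
  have hd2 : ∀ l, 2 * d l ≤ d (2 * l) := fun l => by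
    have h1 := en_anova hφ hT hN (W := Finset.Ico (-(l : ℤ)) l) (W₁ := Finset.Ico (-(l : ℤ)) 0)
      (W₂ := Finset.Ico 0 l) (Finset.Ico_subset_Ico_right (by omega))
      (Finset.Ico_subset_Ico_left (by omega)) (Finset.Ico_disjoint_Ico_consecutive _ _ _)
    have h2 := en_Ico hv hT hU hN hinv l l le_rfl
    rw [sub_self] at h2
    rw [h2, hsym] at h1
    simp only [hd]
    linarith
  have hd3 : ∀ k l, 2 ^ k * d l ≤ d (2 ^ k * l) := fun k l => by
    induction k with
    | zero => simp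
    | succ k ih =>
      have := hd2 (2 ^ k * l)
      rw [pow_succ, pow_succ, mul_comm (2 ^ k) 2, mul_assoc, mul_comm (2 ^ k) 2, mul_assoc]
      linarith
  have hd4 : ∀ l, d l = 0 := fun l => by
    refine le_antisymm ?_ (hd0 _)
    by_contra hpos
    rw [not_le] at hpos
    obtain ⟨k, hk⟩ := pow_unbounded_of_one_lt (2 * (‖φ‖ * (‖T‖ * ‖T‖)) / d l) (one_lt_two (α := ℝ))
    rw [div_lt_iff₀ hpos] at hk
    have h1 := hd3 k l
    have h2 := abs_le.1 (en_le (φ := φ) hT (Finset.Ico 0 (2 ^ k * l : ℕ)))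
    have h3 := abs_le.1 (en_le (φ := φ) hT ∅)
    simp only [hd] at h1 hk
    linarith [h2.2, h3.1]
  refine eq_amp hT fun W ω => ?_
  obtain ⟨l, hl⟩ : ∃ l : ℕ, W ⊆ Finset.Ico (-(l : ℤ)) l := by
    refine ⟨W.sup Int.natAbs + 1, fun k hk => ?_⟩
    have : k.natAbs ≤ W.sup Int.natAbs := Finset.le_sup hk
    simp only [Finset.mem_Ico]
    omega
  have hB := measurableSet_atom W ω
  have hae := ae_zero_of_mm (μ := μ) hφ ((g (Finset.Ico (-(l : ℤ)) l)).sub (g ∅))
    (fun ω => sub_mem (tt_mem hN _ _) (tt_mem hN _ _)) (by rw [en_sub hT, hsym]; exact hd4 _)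
  have hdep : DependsOn ((atom W ω).indicator fun _ => (1 : H →L[ℂ] H))
      (Finset.Ico (-(l : ℤ)) l : Finset ℤ) := fun x y hxy => by
    have : x ∈ atom W ω ↔ y ∈ atom W ω :=
      forall₂_congr fun k hk => by rw [hxy k (hl hk)]
    by_cases hx : x ∈ atom W ω
    · simp [hx, this.1 hx]
    · simp [hx, mt this.2 hx]
  rw [EE, cmp_fld_mul hT (good_ind hB) hdep, amp_apply, ← fld_mul (good_ind hB) (Good.const _),
    cmp_fld ((good_ind hB).mul (Good.const _))]
  refine integral_congr_ae ?_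
  filter_upwards [hae] with x hx
  rw [sub_eq_zero.1 hx, tt_empty]

/-- The inclusion is irreducible. -/
theorem irreducible (hφ : ∀ q ∈ N.commutant, q ≠ 0 → 0 < (φ (star q * q)).re)
    (hv : ∀ a, v a ∈ unitary (H →L[ℂ] H)) (hμ : ∀ a, μ {a} ≠ 0)
    (hinv : ∀ a, ∀ q ∈ N.commutant, φ (v a * q * star (v a)) = φ q)
    (herg : ∀ q ∈ N.commutant, (∀ a, q * v a = v a * q) → ∃ c : ℂ, q = c • 1)
    (hM : T ∈ MM μ v) (hN : ∀ y ∈ NN μ N, T * y = y * T) : ∃ c : ℂ, T = c • 1 := by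
  have hN' : ∀ a ∈ N, amp (PP μ) a * T = T * amp (PP μ) a := fun a ha =>
    (hN _ ((mem_NN N _).2 ⟨a, ha, rfl⟩)).symm
  have h1 := eq_amp_of_comm hφ hv hinv hM hN'
  obtain ⟨ω⟩ := nonempty_of_isProbabilityMeasure (PP μ)
  have h2 : cmp (PP μ) T ∈ N.commutant := tt_empty (T := T) ω ▸ tt_mem hN' ∅ ω
  obtain ⟨c, hc⟩ := herg _ h2 (comm_of_amp_mem hv hμ (h1 ▸ hM))
  exact ⟨c, by rw [h1, hc, map_smul, map_one]⟩

end Functional

end Pool.Agent.P.MP_7e3bdd_an.RW
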