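import Pool.Agent.P.MP_7e3bdd_an.RW.St2

/-!
A law of large numbers on a finite function space.
-/

set_option autoImplicit false

open scoped InnerProductSpace BigOperators

noncomputable section

namespace Pool.Agent.P.MP_7e3bdd_an.RW

section Indep

variable {ι G : Type} [Fintype ι] [DecidableEq ι] [Fintype G] [Nonempty G]

theorem expect_update (x : ι) (F : (ι → G) → ℝ) :
    𝔼 u : ι → G, F u = 𝔼 u : ι → G, 𝔼 g : G, F (Function.update u x g) := by
  have inv : Function.Involutive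
      (fun p : (ι → G) × G => (Function.update p.1 x p.2, p.1 x)) := fun p => by simp
  have h1 : 𝔼 p : (ι → G) × G, F p.1 = 𝔼 p : (ι → G) × G, F (Function.update p.1 x p.2) :=
    (Fintype.expect_equiv inv.toPerm _ _ fun p => rfl).symm
  rw [← Finset.univ_product_univ, Finset.expect_product, Finset.expect_product] at h1
  simpa [Finset.expect_const Finset.univ_nonempty] using h1

theorem expect_one (x : ι) (F : G → ℝ) : 𝔼 u : ι → G, F (u x) = 𝔼 g : G, F g := by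
  rw [expect_update x]
  simp [Finset.expect_const Finset.univ_nonempty]

theorem expect_pair {x x' : ι} (h : x ≠ x') (F : G → G → ℝ) :
    𝔼 u : ι → G, F (u x) (u x') = 𝔼 g : G, 𝔼 g' : G, F g g' := by
  rw [expect_update x]
  simp only [Function.update_self, Function.update_of_ne h.symm]
  rw [expect_one x' fun g' => 𝔼 g : G, F g g', Finset.expect_comm]

end Indep

namespace Lln

variable {E : Type} [NormedAddCommGroup E] [InnerProductSpace ℝ E]

theorem second {ι G J : Type} [Fintype ι] [DecidableEq ι] [Fintype G] [Nonempty G] [Fintype J]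
    (e : J → ι) (he : Function.Injective e) (φ : G → E) (h0 : ∑ γ, φ γ = 0) :
    𝔼 u : ι → G, ‖∑ j, φ (u (e j))‖ ^ 2 = Fintype.card J * 𝔼 γ, ‖φ γ‖ ^ 2 := by
  classical
  have hz : 𝔼 g : G, 𝔼 g' : G, ⟪φ g, φ g'⟫_ℝ = 0 := by
    refine Finset.expect_eq_zero fun g _ => ?_
    rw [Finset.expect_eq_sum_div_card, ← inner_sum, h0, inner_zero_right, zero_div]
  simp only [← real_inner_self_eq_norm_sq, sum_inner, inner_sum, Finset.expect_sum_comm]
  rw [← nsmul_eq_mul, ← Finset.card_univ, ← Finset.sum_const]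
  refine Finset.sum_congr rfl fun j _ => ?_
  rw [Finset.sum_eq_single j]
  · exact expect_one (e j) fun g => ⟪φ g, φ g⟫_ℝ
  · intro j' _ hj
    rw [expect_pair (fun h => hj (he h)) fun g g' => ⟪φ g, φ g'⟫_ℝ, hz]
  · intro h
    exact absurd (Finset.mem_univ j) h

theorem main (G V : Type) [Fintype G] [Nonempty G] [Fintype V] [DecidableEq V] (θ : G → E)
    (C ε : ℝ) (R : ℕ) (v : V) (hε : 0 < ε) (hθ : ∀ γ, ‖θ γ‖ ≤ C)
    (hC : C ^ 2 ≤ ε ^ 2 * ((R : ℝ) + 1)) :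
    𝔼 u : V × Fin (R + 1) → G,
      ‖(((R : ℝ) + 1)⁻¹ • ∑ j, θ (u (v, j))) - (Fintype.card G : ℝ)⁻¹ • ∑ γ, θ γ‖ ≤ ε := by
  set m : E := (Fintype.card G : ℝ)⁻¹ • ∑ γ, θ γ with hm
  have cG : (Fintype.card G : ℝ) ≠ 0 := Nat.cast_ne_zero.2 Fintype.card_ne_zero
  have cR : (0 : ℝ) < (R : ℝ) + 1 := by positivity
  have h0 : ∑ γ, (θ γ - m) = 0 := by
    rw [Finset.sum_sub_distrib, Finset.sum_const, Finset.card_univ, hm,
      ← Nat.cast_smul_eq_nsmul ℝ, smul_inv_smul₀ cG, sub_self]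
  have hv : 𝔼 γ, ‖θ γ - m‖ ^ 2 ≤ C ^ 2 := by
    have a : ∀ γ, ‖θ γ - m‖ ^ 2 ≤ C ^ 2 + (-2) * ⟪θ γ - m, m⟫_ℝ := fun γ => by
      have e1 := norm_add_sq_real (θ γ - m) m
      rw [sub_add_cancel] at e1
      have e2 : ‖θ γ‖ ^ 2 ≤ C ^ 2 := pow_le_pow_left₀ (norm_nonneg _) (hθ γ) 2
      have e3 := sq_nonneg ‖m‖
      linarith
    refine (Finset.expect_le_expect fun γ _ => a γ).trans_eq ?_
    rw [Finset.expect_add_distrib, Finset.expect_const Finset.univ_nonempty, ← Finset.mul_expect,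
      Finset.expect_eq_sum_div_card, ← sum_inner, h0, inner_zero_left]
    simp
  have hs := second (E := E) (fun j : Fin (R + 1) => (v, j)) (fun j j' h => (Prod.ext_iff.1 h).2)
    (fun γ => θ γ - m) h0
  rw [Fintype.card_fin, Nat.cast_add, Nat.cast_one] at hs
  have hZ : ∀ u : V × Fin (R + 1) → G, ‖(((R : ℝ) + 1)⁻¹ • ∑ j, θ (u (v, j))) - m‖ ≤
      ε / 2 + (2 * ε * ((R : ℝ) + 1) ^ 2)⁻¹ * ‖∑ j, (θ (u (v, j)) - m)‖ ^ 2 := fun u => by
    have e1 : (((R : ℝ) + 1)⁻¹ • ∑ j, θ (u (v, j))) - m =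
        ((R : ℝ) + 1)⁻¹ • ∑ j, (θ (u (v, j)) - m) := by
      rw [Finset.sum_sub_distrib, Finset.sum_const, Finset.card_univ, Fintype.card_fin,
        ← Nat.cast_smul_eq_nsmul ℝ, smul_sub, Nat.cast_add, Nat.cast_one, inv_smul_smul₀ cR.ne']
    rw [e1, norm_smul, norm_inv, Real.norm_of_nonneg cR.le]
    generalize ‖∑ j, (θ (u (v, j)) - m)‖ = t
    have e2 : (2 * ε * ((R : ℝ) + 1) ^ 2)⁻¹ * t ^ 2 = (((R : ℝ) + 1)⁻¹ * t) ^ 2 / (2 * ε) := by
      field_simp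
    rw [e2]
    generalize ((R : ℝ) + 1)⁻¹ * t = s
    rw [← sub_le_iff_le_add', le_div_iff₀ (by positivity)]
    nlinarith [sq_nonneg (s - ε)]
  refine (Finset.expect_le_expect fun u _ => hZ u).trans ?_
  rw [Finset.expect_add_distrib, Finset.expect_const Finset.univ_nonempty, ← Finset.mul_expect, hs]
  have e3 : ((R : ℝ) + 1) * 𝔼 γ, ‖θ γ - m‖ ^ 2 ≤ ((R : ℝ) + 1) * (ε ^ 2 * ((R : ℝ) + 1)) :=
    mul_le_mul_of_nonneg_left (hv.trans hC) cR.le
  have e4 : (2 * ε * ((R : ℝ) + 1) ^ 2)⁻¹ * (((R : ℝ) + 1) * (ε ^ 2 * ((R : ℝ) + 1))) = ε / 2 := by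
    field_simp
  have e5 := mul_le_mul_of_nonneg_left e3
    (show (0 : ℝ) ≤ (2 * ε * ((R : ℝ) + 1) ^ 2)⁻¹ by positivity)
  linarith

end Lln

theorem llnSt : LlnSt := by
  intro H _ _ _ G V _ _ _ _ θ C ε R v hε hθ hC
  exact @Lln.main H _ InnerProductSpace.complexToReal G V _ _ _ _ θ C ε R v hε hθ hC

end Pool.Agent.P.MP_7e3bdd_an.RW
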