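import Pool.Agent.P.MP_7e3bdd_an.RW.Test
import Pool.Agent.P.MP_7e3bdd_an.RW.Sep
import Pool.Agent.P.MP_7e3bdd_an.RW.Diag
import Pool.Agent.P.MP_7e3bdd_an.RW.Minimax
import Pool.Agent.P.MP_7e3bdd_an.RW.Inj

/-!
One element of the big algebra whose whole unitary orbit is detected by a fixed functional
vanishing on the scalars.
-/

set_option autoImplicit false

open scoped InnerProductSpace Topology ComplexConjugate ENNReal
open Filter MeasureTheory ProbabilityTheory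

noncomputable section

namespace Pool.Agent.P.MP_7e3bdd_an.RW

variable {H : Type} [NormedAddCommGroup H] [InnerProductSpace ℂ H] [CompleteSpace H]
  {A : Type} [MeasurableSpace A] [Countable A] [DiscreteMeasurableSpace A]
  {μ : Measure A} [IsProbabilityMeasure μ] {v : A → H →L[ℂ] H}

omit [InnerProductSpace ℂ H] [CompleteSpace H] in
theorem separable_L2 [TopologicalSpace.SeparableSpace H] :
    TopologicalSpace.SeparableSpace (Lp H 2 (PP μ)) := by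
  have : Fact ((2 : ℝ≥0∞) ≠ ∞) := ⟨by norm_num⟩
  infer_instance

theorem MM_injective (hv : ∀ a, v a ∈ unitary (H →L[ℂ] H)) :
    ∃ E : (Lp H 2 (PP μ) →L[ℂ] Lp H 2 (PP μ)) →L[ℂ] (Lp H 2 (PP μ) →L[ℂ] Lp H 2 (PP μ)),
      ‖E‖ ≤ 1 ∧ (∀ T, E T ∈ MM μ v) ∧ ∀ T ∈ MM μ v, E T = T := by
  refine injSt _ (RR μ H) (UU μ v) ?_ ?_ (UU_unitary hv) ?_ ?_
  · rintro _ ⟨B, hB, rfl⟩
    exact ⟨EE_mul_self hB, star_EE hB⟩
  · rintro _ ⟨B, hB, rfl⟩ _ ⟨C, hC, rfl⟩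
    exact EE_comm_fld hB (good_ind hC)
  · rintro _ ⟨B, hB, rfl⟩
    exact ⟨_, measurable_sh 1 hB, UU_conj_EE hv hB⟩
  · rintro _ ⟨B, hB, rfl⟩
    exact ⟨_, measurable_sh (-1) hB, UU_conj_EE' hv hB⟩

theorem exists_far (hv : ∀ a, v a ∈ unitary (H →L[ℂ] H)) {s : A → ℝ}
    (hs : ∀ a, s a = 1 ∨ s a = -1) (hs0 : ∫ a, s a ∂μ = 0) {δ : ℝ} (hδ : 0 < δ)
    (hδ1 : δ ≤ 1 / 2) (hgap : WalkGap μ v (δ ^ 2)) (N : VonNeumannAlgebra H) {ξ : H}
    (hξ : ‖ξ‖ = 1) :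
    ∃ η ζ : Lp H 2 (PP μ), ‖η‖ ≤ 1 ∧ ‖ζ‖ ≤ 1 ∧ ⟪η, ζ⟫_ℂ = 0 ∧
      ∃ x ∈ MM μ v, IsSelfAdjoint x ∧ ‖x‖ ≤ 1 ∧
        ∀ u ∈ unitary (Lp H 2 (PP μ) →L[ℂ] Lp H 2 (PP μ)), u ∈ NN μ N →
          1 - 4 * δ ≤ (⟪η, (u * x * star u) ζ⟫_ℂ).re := by
  have gs := good_sg (H := H) hs 0
  have hsa : star (fld (PP μ) (sg H s 0)) = fld (PP μ) (sg H s 0) := by
    rw [← fld_star gs]
    congr 1
    funext ω
    simp [sg]
  have hin : ∀ f g : Lp H 2 (PP μ), ⟪fld (PP μ) (sg H s 0) f, g⟫_ℂ =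
      ⟪f, fld (PP μ) (sg H s 0) g⟫_ℂ := fun f g => by
    rw [← ContinuousLinearMap.adjoint_inner_right, ← ContinuousLinearMap.star_eq_adjoint, hsa]
  have hcomm : ∀ a : H →L[ℂ] H, amp (PP μ) a * fld (PP μ) (sg H s 0) =
      fld (PP μ) (sg H s 0) * amp (PP μ) a := fun a => by
    rw [amp_apply, ← fld_mul (Good.const a) gs, ← fld_mul gs (Good.const a)]
    simp [sg]
  refine ⟨fld (PP μ) (sg H s 0) (VV (PP μ) ξ), VV (PP μ) ξ, ?_, by rw [norm_VV, hξ], ?_, ?_⟩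
  · have h1 : ‖fld (PP μ) (sg H s 0)‖ ≤ 1 := norm_fld_le gs zero_le_one fun ω => by
      rw [sg, norm_smul, Complex.norm_real]
      have h1 : ‖s (ω 0)‖ = 1 := by rcases hs (ω 0) with h | h <;> simp [h]
      rw [h1, one_mul]
      exact ContinuousLinearMap.norm_id_le
    refine (ContinuousLinearMap.le_opNorm _ _).trans ?_
    rw [norm_VV, hξ, mul_one]
    exact h1
  · rw [hin, ← inner_cmp, cmp_fld gs]
    have h1 : ∫ ω : ℤ → A, (s (ω 0) : ℂ) ∂PP μ = 0 := by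
      rw [integral_complex_ofReal, ← integral_map (f := s) (mp_eval μ 0).measurable.aemeasurable
        AEStronglyMeasurable.of_discrete, (mp_eval μ 0).map_eq, hs0]
      simp
    simp only [sg]
    rw [integral_smul_const, h1]
    simp
  · obtain ⟨x, hx, hx1, hx2, hx3⟩ := minimaxSt (Lp H 2 (PP μ)) (MM μ v)
      {a : H →L[ℂ] H // a ∈ unitary (H →L[ℂ] H)}
      (fun a => fld (PP μ) (sg H s 0) (VV (PP μ) (star a.1 ξ)))
      (fun a => VV (PP μ) (star a.1 ξ)) (1 - 4 * δ) (fun J _ l i hl hl1 => by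
        obtain ⟨n, α, e, hα, he, hα1, hn, hT⟩ := diagSt H J l (fun j => star (i j).1 ξ) hl hl1
          (fun j => by
            rw [ContinuousLinearMap.norm_map_of_mem_unitary (Unitary.star_mem (i j).2), hξ])
        obtain ⟨x, hx, hx1, hx2, hx3⟩ := exists_test sepSt hv hs hδ hδ1 hgap hα he hα1 hn
        refine ⟨x, hx, hx1, hx2, ?_⟩
        have h1 := hT (cmp (PP μ) (fld (PP μ) (sg H s 0) * x))
        simp only [inner_cmp, mul_apply_eq_comp] at h1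
        simp only [hin]
        rw [h1]
        exact hx3)
    refine ⟨x, hx, hx1, hx2, fun u hu huN => ?_⟩
    obtain ⟨a, -, rfl⟩ := (mem_NN N u).1 huN
    have ha : a ∈ unitary (H →L[ℂ] H) := by
      rw [Unitary.mem_iff] at hu ⊢
      rw [← map_star, ← map_mul, ← map_mul, ← map_one (amp (H := H) (PP μ))] at hu
      exact ⟨amp_injective hu.1, amp_injective hu.2⟩
    have h1 := hx3 ⟨a, ha⟩
    rw [mul_apply_eq_comp, mul_apply_eq_comp, ← map_star, amp_VV,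
      ← ContinuousLinearMap.adjoint_inner_left, ← ContinuousLinearMap.star_eq_adjoint, ← map_star,
      ← mul_apply_eq_comp, hcomm, mul_apply_eq_comp, amp_VV]
    exact h1

end Pool.Agent.P.MP_7e3bdd_an.RW
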