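import Pool.Agent.P.MP_7e3bdd_an.RW.Field

/-!
The two-sided Bernoulli shift over a countable alphabet, the skew shift `U`, finite windows,
their atoms, and independence.
-/

set_option autoImplicit false

open scoped InnerProductSpace Topology ComplexConjugate ENNReal
open Filter MeasureTheory ProbabilityTheory

noncomputable section

namespace Pool.Agent.P.MP_7e3bdd_an.RW

variable {H : Type} [NormedAddCommGroup H] [InnerProductSpace ℂ H]
  {A : Type} [MeasurableSpace A] (μ : Measure A) [IsProbabilityMeasure μ]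

/-- The product measure on two-sided sequences. -/
def PP : Measure (ℤ → A) := Measure.infinitePi fun _ : ℤ => μ

instance : IsProbabilityMeasure (PP μ) := by
  unfold PP
  infer_instance

/-- The shift by `k`. -/
def sh (k : ℤ) (ω : ℤ → A) : ℤ → A := fun i => ω (i + k)

theorem measurable_sh (k : ℤ) : Measurable (sh (A := A) k) := by
  unfold sh
  fun_prop

omit [MeasurableSpace A] in
theorem sh_sh (k l : ℤ) (ω : ℤ → A) : sh k (sh l ω) = sh (k + l) ω := by
  funext i
  simp [sh, add_assoc]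

omit [MeasurableSpace A] in
theorem sh_zero (ω : ℤ → A) : sh 0 ω = ω := by
  funext i
  simp [sh]

theorem mp_sh (k : ℤ) : MeasurePreserving (sh (A := A) k) (PP μ) (PP μ) :=
  ⟨measurable_sh k, Measure.map_infinitePi_infinitePi_of_inj (P := fun _ : ℤ => μ)
    (f := fun i => i + k) (add_left_injective k)⟩

theorem integral_sh {E : Type} [NormedAddCommGroup E] [NormedSpace ℝ E] (k : ℤ)
    {F : (ℤ → A) → E} (hF : StronglyMeasurable F) :
    ∫ ω, F (sh k ω) ∂PP μ = ∫ ω, F ω ∂PP μ := by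
  rw [← integral_map (measurable_sh k).aemeasurable hF.aestronglyMeasurable, (mp_sh μ k).map_eq]

theorem mp_eval (k : ℤ) : MeasurePreserving (fun ω : ℤ → A => ω k) (PP μ) μ :=
  measurePreserving_eval_infinitePi (fun _ : ℤ => μ) k

/-- The Koopman operator of the shift. -/
def SS (k : ℤ) : Lp H 2 (PP μ) →L[ℂ] Lp H 2 (PP μ) :=
  (Lp.compMeasurePreservingₗᵢ ℂ (sh k) (mp_sh μ k)).toContinuousLinearMap

variable {μ}

theorem SS_ae (k : ℤ) (f : Lp H 2 (PP μ)) : SS μ k f =ᵐ[PP μ] fun ω => f (sh k ω) :=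
  Lp.coeFn_compMeasurePreserving f (mp_sh μ k)

theorem ae_sh (k : ℤ) {p : (ℤ → A) → Prop} (hp : ∀ᵐ ω ∂PP μ, p ω) : ∀ᵐ ω ∂PP μ, p (sh k ω) :=
  (mp_sh μ k).quasiMeasurePreserving.ae hp

theorem SS_add (k l : ℤ) : SS (H := H) μ k * SS μ l = SS μ (l + k) := by
  ext f
  filter_upwards [SS_ae k (SS μ l f), ae_sh k (SS_ae l f), SS_ae (l + k) f] with ω h1 h2 h3
  rw [mul_apply_eq_comp, h1, h2, h3, sh_sh]

theorem SS_zero : SS (H := H) μ 0 = 1 := by
  ext f
  filter_upwards [SS_ae 0 f] with ω h1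
  rw [h1, sh_zero]
  rfl

theorem SS_fld (k : ℤ) {h : (ℤ → A) → H →L[ℂ] H} (hh : Good h) :
    SS μ k * fld (PP μ) h = fld (PP μ) (fun ω => h (sh k ω)) * SS μ k := by
  ext f
  filter_upwards [SS_ae k (fld (PP μ) h f), ae_sh k (fld_ae hh f),
    fld_ae (hh.comp (measurable_sh k)) (SS μ k f), SS_ae k f] with ω h1 h2 h3 h4
  rw [mul_apply_eq_comp, mul_apply_eq_comp, h1, h2, h3, h4]

theorem SS_VV (k : ℤ) (ξ : H) : SS μ k (VV (PP μ) ξ) = VV (PP μ) ξ := by
  ext1
  filter_upwards [SS_ae k (VV (PP μ) ξ), ae_sh k (VV_ae (P := PP μ) ξ), VV_ae (P := PP μ) ξ]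
    with ω h1 h2 h3
  rw [h1, h2, h3]

theorem SS_EE (k : ℤ) {B : Set (ℤ → A)} (hB : MeasurableSet B) :
    SS (H := H) μ k * EE (PP μ) B = EE (PP μ) (sh k ⁻¹' B) * SS μ k := by
  rw [EE, SS_fld k (good_ind hB)]
  rfl

variable [CompleteSpace H]

theorem star_SS (k : ℤ) : star (SS (H := H) μ k) = SS μ (-k) := by
  rw [ContinuousLinearMap.star_eq_adjoint]
  symm
  rw [ContinuousLinearMap.eq_adjoint_iff]
  intro f g
  have h1 : f = SS μ k (SS μ (-k) f) := by
    rw [← mul_apply_eq_comp, SS_add, neg_add_cancel, SS_zero]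
    rfl
  conv_rhs => rw [h1]
  exact (LinearIsometry.inner_map_map (𝕜 := ℂ) (E := Lp H 2 (PP μ)) (E' := Lp H 2 (PP μ))
    (Lp.compMeasurePreservingₗᵢ ℂ (sh k) (mp_sh μ k)) _ _).symm

theorem SS_unitary (k : ℤ) : SS (H := H) μ k ∈ unitary (Lp H 2 (PP μ) →L[ℂ] Lp H 2 (PP μ)) := by
  rw [Unitary.mem_iff, star_SS, SS_add, SS_add, add_neg_cancel, neg_add_cancel, SS_zero]
  simp

theorem cmp_SS_mul (k : ℤ) (Z : Lp H 2 (PP μ) →L[ℂ] Lp H 2 (PP μ)) :
    cmp (PP μ) (Z * SS μ k) = cmp (PP μ) Z := by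
  ext ξ
  refine ext_inner_left ℂ fun η => ?_
  rw [inner_cmp, inner_cmp, mul_apply_eq_comp, SS_VV]

section Window

variable [Countable A] [DiscreteMeasurableSpace A]

omit [IsProbabilityMeasure μ] in
theorem sm_of_dep {E : Type} [NormedAddCommGroup E] {W : Finset ℤ} {F : (ℤ → A) → E}
    (hF : DependsOn F (W : Set ℤ)) : StronglyMeasurable F := by
  obtain ⟨g, rfl⟩ := dependsOn_iff_exists_comp.1 hF
  exact (StronglyMeasurable.of_discrete (f := g)).comp_measurable (W.measurable_restrict)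

/-- The atom of the window `W` containing `ω`. -/
def atom (W : Finset ℤ) (ω : ℤ → A) : Set (ℤ → A) := {ω' | ∀ k ∈ W, ω' k = ω k}

omit [MeasurableSpace A] [Countable A] [DiscreteMeasurableSpace A] in
theorem atom_eq (W : Finset ℤ) (ω : ℤ → A) :
    atom W ω = (W.restrict : (ℤ → A) → W → A) ⁻¹' {W.restrict ω} := by
  ext ω'
  simp [atom, funext_iff, Finset.restrict]

theorem measurableSet_atom (W : Finset ℤ) (ω : ℤ → A) : MeasurableSet (atom W ω) := by
  rw [atom_eq]
  exact W.measurable_restrict (measurableSet_singleton _)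

omit [MeasurableSpace A] [Countable A] [DiscreteMeasurableSpace A] in
theorem atom_dep (W : Finset ℤ) : DependsOn (atom (A := A) W) (W : Set ℤ) := by
  intro x y h
  ext ω
  simp only [atom, Set.mem_ofPred_eq]
  exact forall₂_congr fun k hk => by rw [h k hk]

/-- The family of all atoms. -/
def atoms (A : Type) : Set (Set (ℤ → A)) := {B | ∃ W ω, B = atom W ω}

omit [MeasurableSpace A] [Countable A] [DiscreteMeasurableSpace A] in
theorem isPiSystem_atoms : IsPiSystem (atoms A) := by
  rintro _ ⟨W, ω, rfl⟩ _ ⟨W', ω', rfl⟩ ⟨x, hx, hx'⟩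
  refine ⟨W ∪ W', x, ?_⟩
  ext y
  simp only [atom, Set.mem_inter_iff, Set.mem_ofPred_eq, Finset.mem_union] at hx hx' ⊢
  constructor
  · rintro ⟨h1, h2⟩ k (hk | hk)
    · rw [h1 k hk, hx k hk]
    · rw [h2 k hk, hx' k hk]
  · intro h
    exact ⟨fun k hk => by rw [h k (Or.inl hk), hx k hk], fun k hk => by
      rw [h k (Or.inr hk), hx' k hk]⟩

theorem generateFrom_atoms :
    (inferInstance : MeasurableSpace (ℤ → A)) = .generateFrom (atoms A) := by
  refine le_antisymm (iSup_le fun i => ?_) (MeasurableSpace.generateFrom_le ?_)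
  · rintro _ ⟨B, -, rfl⟩
    have : (fun ω : ℤ → A => ω i) ⁻¹' B = ⋃ a ∈ B, atom {i} (fun _ => a) := by
      ext ω
      simp [atom]
    rw [this]
    exact MeasurableSet.biUnion (Set.to_countable B) fun a _ =>
      MeasurableSpace.measurableSet_generateFrom ⟨_, _, rfl⟩
  · rintro _ ⟨W, ω, rfl⟩
    exact measurableSet_atom W ω

omit [Countable A] [DiscreteMeasurableSpace A] in
include μ in
theorem univ_mem_atoms : Set.univ ∈ atoms A := by
  obtain ⟨ω⟩ := nonempty_of_isProbabilityMeasure (PP μ)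
  exact ⟨∅, ω, by simp [atom]⟩

omit [IsProbabilityMeasure μ] in
theorem integral_eq_of_atoms (W : Finset ℤ) {F G : (ℤ → A) → ℂ} (hF : Integrable F (PP μ))
    (hG : Integrable G (PP μ))
    (h : ∀ ω, ∫ x in atom W ω, F x ∂PP μ = ∫ x in atom W ω, G x ∂PP μ) :
    ∫ x, F x ∂PP μ = ∫ x, G x ∂PP μ := by
  have hm : ∀ c : W → A, MeasurableSet (W.restrict ⁻¹' {c} : Set (ℤ → A)) := fun c =>
    W.measurable_restrict (measurableSet_singleton _)
  have hd : Pairwise (Function.onFun Disjoint fun c : W → A =>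
      (W.restrict ⁻¹' {c} : Set (ℤ → A))) := fun c c' hc =>
    Disjoint.preimage _ (Set.disjoint_singleton.2 hc)
  have hu : ⋃ c : W → A, (W.restrict ⁻¹' {c} : Set (ℤ → A)) = Set.univ := by
    ext ω
    simp
  have h1 := hasSum_integral_iUnion hm hd hF.integrableOn
  have h2 := hasSum_integral_iUnion hm hd hG.integrableOn
  rw [hu, setIntegral_univ] at h1 h2
  refine h1.unique (h2.congr_fun fun c => ?_)
  rcases Set.eq_empty_or_nonempty (W.restrict ⁻¹' {c} : Set (ℤ → A)) with h0 | ⟨ω, hω⟩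
  · simp [h0]
  · obtain rfl : W.restrict ω = c := hω
    rw [← atom_eq]
    exact h ω

omit [Countable A] [DiscreteMeasurableSpace A] in
theorem indep_restrict {W W' : Finset ℤ} (hd : Disjoint W W') :
    IndepFun (W.restrict : (ℤ → A) → _) (W'.restrict : (ℤ → A) → _) (PP μ) :=
  (iIndepFun_infinitePi (P := fun _ : ℤ => μ) (X := fun _ a => a)
    (fun _ => measurable_id)).indepFun_finset W W' hd (fun i => measurable_pi_apply i)

/-- Operator valued functions of disjoint windows are uncorrelated. -/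
theorem integral_mul_of_disjoint {W W' : Finset ℤ} (hd : Disjoint W W')
    {x y : (ℤ → A) → H →L[ℂ] H} (hx : Good x) (hy : Good y) (hxW : DependsOn x (W : Set ℤ))
    (hyW : DependsOn y (W' : Set ℤ)) :
    ∫ ω, x ω * y ω ∂PP μ = (∫ ω, x ω ∂PP μ) * ∫ ω, y ω ∂PP μ := by
  obtain ⟨g, rfl⟩ := dependsOn_iff_exists_comp.1 hxW
  obtain ⟨g', rfl⟩ := dependsOn_iff_exists_comp.1 hyW
  exact (indep_restrict hd).integral_bilin_comp_comp (f := g) (g := g')
    W.measurable_restrict.aemeasurable W'.measurable_restrict.aemeasurable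
    ((integrable_map_measure AEStronglyMeasurable.of_discrete
      W.measurable_restrict.aemeasurable).2 (hx.integrable _))
    ((integrable_map_measure AEStronglyMeasurable.of_discrete
      W'.measurable_restrict.aemeasurable).2 (hy.integrable _))
    (ContinuousLinearMap.mul ℂ (H →L[ℂ] H))

/-- Integrating out a letter outside the window. -/
theorem integral_peel {W : Finset ℤ} {k : ℤ} (hk : k ∉ W) {G : (ℤ → A) → A → ℝ}
    (hG : ∀ a, DependsOn (fun ω => G ω a) (W : Set ℤ)) {C : ℝ} (hC : ∀ ω a, ‖G ω a‖ ≤ C) :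
    ∫ ω, G ω (ω k) ∂PP μ = ∫ a, ∫ ω, G ω a ∂PP μ ∂μ := by
  choose g hg using fun a => dependsOn_iff_exists_comp.1 (hG a)
  have hg' : ∀ ω a, G ω a = g a (W.restrict ω) := fun ω a => congrFun (hg a) ω
  have hi : IndepFun (W.restrict : (ℤ → A) → _) (fun ω : ℤ → A => ω k) (PP μ) :=
    (indep_restrict (μ := μ) (Finset.disjoint_singleton_right.2 hk)).comp measurable_id
      (measurable_pi_apply (⟨k, Finset.mem_singleton_self k⟩ : ({k} : Finset ℤ)))
  have hm := hi.map_prod_eq_prod_map_map W.measurable_restrict.aemeasurable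
    (measurable_pi_apply k).aemeasurable
  rw [(mp_eval μ k).map_eq] at hm
  have hm2 : Measurable fun ω : ℤ → A => (W.restrict ω, ω k) :=
    W.measurable_restrict.prodMk (measurable_pi_apply k)
  have hint : Integrable (fun z : (W → A) × A => g z.2 z.1)
      (((PP μ).map W.restrict).prod μ) := by
    rw [← hm, integrable_map_measure AEStronglyMeasurable.of_discrete hm2.aemeasurable]
    refine Integrable.of_bound
      (StronglyMeasurable.of_discrete.comp_measurable hm2).aestronglyMeasurable C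
      (Eventually.of_forall fun ω => ?_)
    simpa [← hg'] using hC ω (ω k)
  simp only [hg']
  rw [← integral_map (f := fun z : (W → A) × A => g z.2 z.1) hm2.aemeasurable
    AEStronglyMeasurable.of_discrete, hm, integral_prod_symm _ hint]
  refine integral_congr_ae (Eventually.of_forall fun a => ?_)
  exact integral_map W.measurable_restrict.aemeasurable AEStronglyMeasurable.of_discrete

end Window

end Pool.Agent.P.MP_7e3bdd_an.RW
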