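import Pool.Agent.P.MP_7e3bdd_an.RW.Shift

/-!
The skew shift of the random walk and the two von Neumann algebras of the inclusion.
-/

set_option autoImplicit false

open scoped InnerProductSpace Topology ComplexConjugate ENNReal
open Filter MeasureTheory ProbabilityTheory

noncomputable section

namespace Pool.Agent.P.MP_7e3bdd_an.RW

variable {H : Type} [NormedAddCommGroup H] [InnerProductSpace ℂ H] [CompleteSpace H]
  {A : Type} [MeasurableSpace A] [Countable A] [DiscreteMeasurableSpace A]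
  (μ : Measure A) [IsProbabilityMeasure μ] (v : A → H →L[ℂ] H)

theorem norm_le_one_of_unitary {u : H →L[ℂ] H} (hu : u ∈ unitary (H →L[ℂ] H)) : ‖u‖ ≤ 1 :=
  u.opNorm_le_bound zero_le_one fun ξ => by
    rw [ContinuousLinearMap.norm_map_of_mem_unitary hu, one_mul]

/-- The skew shift. -/
def UU : Lp H 2 (PP μ) →L[ℂ] Lp H 2 (PP μ) := fld (PP μ) (fun ω => v (ω 0)) * SS μ 1

/-- The position of the walk after `n` steps. -/
def ww : ℕ → (ℤ → A) → H →L[ℂ] H
  | 0, _ => 1
  | n + 1, ω => ww n ω * v (ω n)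

/-- The multiplication operators by indicator functions. -/
def RR (H : Type) [NormedAddCommGroup H] [InnerProductSpace ℂ H] :
    Set (Lp H 2 (PP μ) →L[ℂ] Lp H 2 (PP μ)) := {p | ∃ B, MeasurableSet B ∧ p = EE (PP μ) B}

/-- The big algebra: equivariant fields of operators. -/
def MM : VonNeumannAlgebra (Lp H 2 (PP μ)) := commOf (insert (UU μ v) (RR μ H))

/-- The small algebra: the amplification of `N`. -/
def NN (N : VonNeumannAlgebra H) : VonNeumannAlgebra (Lp H 2 (PP μ)) :=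
  commOf (insert (VV (PP μ) ∘L ContinuousLinearMap.adjoint (VV (PP μ)))
    (RR μ H ∪ amp (PP μ) '' (N.commutant : Set (H →L[ℂ] H))))

variable {μ v}

theorem good_v (hv : ∀ a, v a ∈ unitary (H →L[ℂ] H)) (k : ℤ) :
    Good (fun ω : ℤ → A => v (ω k)) :=
  ⟨StronglyMeasurable.of_discrete.comp_measurable (measurable_pi_apply k), 1,
    fun _ => norm_le_one_of_unitary (hv _)⟩

omit [MeasurableSpace A] [Countable A] [DiscreteMeasurableSpace A] in
theorem ww_unitary (hv : ∀ a, v a ∈ unitary (H →L[ℂ] H)) (n : ℕ) (ω : ℤ → A) :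
    ww v n ω ∈ unitary (H →L[ℂ] H) := by
  induction n with
  | zero => exact one_mem _
  | succ n ih => exact mul_mem ih (hv _)

omit [MeasurableSpace A] [Countable A] [DiscreteMeasurableSpace A] [CompleteSpace H] in
theorem ww_dep (n : ℕ) {W : Finset ℤ} (hW : ∀ k : ℕ, k < n → (k : ℤ) ∈ W) :
    DependsOn (ww v n) (W : Set ℤ) := by
  intro x y h
  induction n with
  | zero => rfl
  | succ n ih =>
    simp only [ww]
    rw [ih fun k hk => hW k (by omega), h n (hW n (by omega))]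

theorem good_ww (hv : ∀ a, v a ∈ unitary (H →L[ℂ] H)) (n : ℕ) : Good (ww v n) :=
  ⟨sm_of_dep (W := Finset.Ico 0 n) (ww_dep n fun k hk => by simp [hk]), 1,
    fun _ => norm_le_one_of_unitary (ww_unitary hv _ _)⟩

theorem UU_unitary (hv : ∀ a, v a ∈ unitary (H →L[ℂ] H)) :
    UU μ v ∈ unitary (Lp H 2 (PP μ) →L[ℂ] Lp H 2 (PP μ)) :=
  mul_mem (fld_unitary (good_v hv 0) fun _ => hv _) (SS_unitary 1)

theorem UU_pow (hv : ∀ a, v a ∈ unitary (H →L[ℂ] H)) (n : ℕ) :
    UU μ v ^ n = fld (PP μ) (ww v n) * SS μ n := by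
  induction n with
  | zero =>
    rw [pow_zero, Nat.cast_zero, SS_zero, mul_one]
    exact fld_one.symm
  | succ n ih =>
    rw [pow_succ, ih, UU, mul_assoc, ← mul_assoc (SS μ n), SS_fld _ (good_v hv 0), mul_assoc,
      SS_add, ← mul_assoc, ← fld_mul (good_ww hv n) ((good_v hv 0).comp (measurable_sh _))]
    simp only [sh, zero_add, Nat.cast_add, Nat.cast_one, add_comm (1 : ℤ)]
    rfl

theorem UU_EE (hv : ∀ a, v a ∈ unitary (H →L[ℂ] H)) {B : Set (ℤ → A)} (hB : MeasurableSet B) :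
    UU μ v * EE (PP μ) B = EE (PP μ) (sh 1 ⁻¹' B) * UU μ v := by
  rw [UU, mul_assoc, SS_EE 1 hB, ← mul_assoc, ← mul_assoc,
    EE_comm_fld (measurable_sh 1 hB) (good_v hv 0)]

theorem UU_conj_EE (hv : ∀ a, v a ∈ unitary (H →L[ℂ] H)) {B : Set (ℤ → A)}
    (hB : MeasurableSet B) :
    UU μ v * EE (PP μ) B * star (UU μ v) = EE (PP μ) (sh 1 ⁻¹' B) := by
  rw [UU_EE hv hB, mul_assoc, Unitary.mul_star_self_of_mem (UU_unitary hv), mul_one]

theorem UU_conj_EE' (hv : ∀ a, v a ∈ unitary (H →L[ℂ] H)) {B : Set (ℤ → A)}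
    (hB : MeasurableSet B) :
    star (UU μ v) * EE (PP μ) B * UU μ v = EE (PP μ) (sh (-1) ⁻¹' B) := by
  have h := UU_EE (μ := μ) hv (measurable_sh (-1) hB)
  have h2 : sh 1 ⁻¹' (sh (-1) ⁻¹' B) = B := by
    ext ω
    simp [sh_sh, sh_zero]
  rw [h2] at h
  rw [mul_assoc, ← h, ← mul_assoc, Unitary.star_mul_self_of_mem (UU_unitary hv), one_mul]

omit [Countable A] [DiscreteMeasurableSpace A] in
theorem mem_MM (hU : UU μ v ∈ unitary (Lp H 2 (PP μ) →L[ℂ] Lp H 2 (PP μ)))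
    (z : Lp H 2 (PP μ) →L[ℂ] Lp H 2 (PP μ)) :
    z ∈ MM μ v ↔ UU μ v * z = z * UU μ v ∧
      ∀ B, MeasurableSet B → EE (PP μ) B * z = z * EE (PP μ) B := by
  rw [MM, mem_commOf]
  constructor
  · intro h
    exact ⟨(h _ (Set.mem_insert _ _)).1, fun B hB => (h _ (Or.inr ⟨B, hB, rfl⟩)).1⟩
  · rintro ⟨h1, h2⟩ s (rfl | ⟨B, hB, rfl⟩)
    · refine ⟨h1, ?_⟩
      calc star (UU μ v) * z = star (UU μ v) * z * (UU μ v * star (UU μ v)) := by
            rw [Unitary.mul_star_self_of_mem hU, mul_one]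
        _ = star (UU μ v) * (UU μ v * z) * star (UU μ v) := by
            rw [h1]; simp only [mul_assoc]
        _ = _ := by rw [← mul_assoc, Unitary.star_mul_self_of_mem hU, one_mul]
    · rw [star_EE hB]
      exact ⟨h2 B hB, h2 B hB⟩

theorem eq_amp {T : Lp H 2 (PP μ) →L[ℂ] Lp H 2 (PP μ)} {c : H →L[ℂ] H}
    (hT : ∀ B, MeasurableSet B → EE (PP μ) B * T = T * EE (PP μ) B)
    (h : ∀ W ω, cmp (PP μ) (EE (PP μ) (atom W ω) * T) =
      cmp (PP μ) (EE (PP μ) (atom W ω) * amp (PP μ) c)) : T = amp (PP μ) c := by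
  rw [← sub_eq_zero]
  refine eq_zero_of_cmp generateFrom_atoms isPiSystem_atoms (univ_mem_atoms (μ := μ)) _
    (fun B hB => ?_) ?_
  · rw [mul_sub, sub_mul, hT B hB, EE_comm_amp hB]
  · rintro _ ⟨W, ω, rfl⟩
    rw [mul_sub, cmp_sub, h, sub_self]

theorem mem_NN (N : VonNeumannAlgebra H) (y : Lp H 2 (PP μ) →L[ℂ] Lp H 2 (PP μ)) :
    y ∈ NN μ N ↔ ∃ a ∈ N, amp (PP μ) a = y := by
  have hVV : ∀ ξ : H, ContinuousLinearMap.adjoint (VV (PP μ)) (VV (PP μ) ξ) = ξ := fun ξ => by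
    have := cmp_amp (P := PP μ) (1 : H →L[ℂ] H)
    rw [map_one] at this
    exact congrArg (fun T : H →L[ℂ] H => T ξ) this
  rw [NN, mem_commOf]
  constructor
  · intro h
    refine ⟨cmp (PP μ) y, ?_, ?_⟩
    · rw [← N.commutant_commutant, VonNeumannAlgebra.mem_commutant_iff]
      intro q hq
      rw [← cmp_amp_mul, ← cmp_mul_amp, (h _ (Or.inr (Or.inr ⟨q, hq, rfl⟩))).1]
    · refine (eq_amp (fun B hB => (h _ (Or.inr (Or.inl ⟨B, hB, rfl⟩))).1) fun W ω => ?_).symm
      have h1 : ∀ ξ, y (VV (PP μ) ξ) = amp (PP μ) (cmp (PP μ) y) (VV (PP μ) ξ) := fun ξ => by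
        have h2 := congrArg (fun T : Lp H 2 (PP μ) →L[ℂ] Lp H 2 (PP μ) => T (VV (PP μ) ξ))
          (h _ (Set.mem_insert _ _)).1
        simp only [mul_apply_eq_comp, ContinuousLinearMap.comp_apply, hVV] at h2
        rw [amp_VV, ← h2]
        rfl
      ext ξ
      refine ext_inner_left ℂ fun η => ?_
      rw [inner_cmp, inner_cmp, mul_apply_eq_comp, mul_apply_eq_comp, h1]
  · rintro ⟨a, ha, rfl⟩
    have h0 : ∀ a : H →L[ℂ] H, (VV (PP μ) ∘L ContinuousLinearMap.adjoint (VV (PP μ))) *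
        amp (PP μ) a = amp (PP μ) a *
          (VV (PP μ) ∘L ContinuousLinearMap.adjoint (VV (PP μ))) := fun a => by
      ext1 f
      simp only [mul_apply_eq_comp, ContinuousLinearMap.comp_apply, amp_VV]
      congr 1
      refine ext_inner_left ℂ fun η => ?_
      rw [ContinuousLinearMap.adjoint_inner_right, ← ContinuousLinearMap.adjoint_inner_left,
        ← ContinuousLinearMap.adjoint_inner_left a, ContinuousLinearMap.adjoint_inner_right,
        ← ContinuousLinearMap.star_eq_adjoint, ← ContinuousLinearMap.star_eq_adjoint, ← map_star,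
        amp_VV]
    rintro s (rfl | ⟨B, hB, rfl⟩ | ⟨q, hq, rfl⟩)
    · refine ⟨h0 a, ?_⟩
      rw [ContinuousLinearMap.star_eq_adjoint, ContinuousLinearMap.adjoint_comp,
        ContinuousLinearMap.adjoint_adjoint]
      exact h0 a
    · rw [star_EE hB]
      exact ⟨EE_comm_amp hB a, EE_comm_amp hB a⟩
    · rw [← map_star, ← map_mul, ← map_mul, ← map_mul, ← map_mul,
        VonNeumannAlgebra.mem_commutant_iff.1 hq a ha,
        VonNeumannAlgebra.mem_commutant_iff.1 (star_mem hq) a ha]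
      exact ⟨rfl, rfl⟩

theorem amp_mem_MM (hv : ∀ a, v a ∈ unitary (H →L[ℂ] H)) {c : H →L[ℂ] H}
    (hc : ∀ a, c * v a = v a * c) : amp (PP μ) c ∈ MM μ v := by
  refine (mem_MM (UU_unitary hv) _).2 ⟨?_, fun B hB => EE_comm_amp hB c⟩
  rw [UU, amp_apply, mul_assoc, SS_fld 1 (Good.const c), ← mul_assoc, ← mul_assoc,
    ← fld_mul (good_v hv 0) (Good.const c), ← fld_mul (Good.const c) (good_v hv 0)]
  simp only [hc]

/-- If an amplification commutes with the skew shift then it commutes with all steps. -/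
theorem comm_of_amp_mem (hv : ∀ a, v a ∈ unitary (H →L[ℂ] H)) (hμ : ∀ a, μ {a} ≠ 0)
    {c : H →L[ℂ] H} (hc : amp (PP μ) c ∈ MM μ v) (a : A) : c * v a = v a * c := by
  have h1 := ((mem_MM (UU_unitary hv) _).1 hc).1
  have hB : MeasurableSet ((fun ω : ℤ → A => ω 0) ⁻¹' {a}) :=
    measurable_pi_apply 0 (measurableSet_singleton a)
  have h2 : cmp (PP μ) (EE (PP μ) ((fun ω : ℤ → A => ω 0) ⁻¹' {a}) * UU μ v) =
      (μ.real {a} : ℂ) • v a := by
    rw [UU, ← mul_assoc, cmp_SS_mul, EE_mul_fld_of_const hB (good_v hv 0) (a := v a)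
      (fun ω hω => by rw [show ω 0 = a from hω]), ← amp_apply, cmp_mul_amp, cmp_EE hB,
      smul_mul_assoc, one_mul, Measure.real, (mp_eval μ 0).measure_preimage
        (measurableSet_singleton a).nullMeasurableSet]
    rfl
  have h3 := cmp_mul_amp (EE (PP μ) ((fun ω : ℤ → A => ω 0) ⁻¹' {a}) * UU μ v) c
  rw [mul_assoc, h1, ← mul_assoc, EE_comm_amp hB, mul_assoc, cmp_amp_mul, h2, mul_smul_comm,
    smul_mul_assoc] at h3
  have h4 : (μ.real {a} : ℂ) ≠ 0 := by
    rw [Ne, Complex.ofReal_eq_zero, measureReal_eq_zero_iff]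
    exact hμ a
  exact smul_right_injective _ h4 h3

end Pool.Agent.P.MP_7e3bdd_an.RW
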