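import Pool.Agent.P.MP_7e3bdd_an.RW.St

/-!
Statements of the self-contained steps of the tower construction.
-/

set_option autoImplicit false

open scoped InnerProductSpace BigOperators
open MeasureTheory

noncomputable section

namespace Pool.Agent.P.MP_7e3bdd_an.RW

section Defs

variable {H : Type} [NormedAddCommGroup H] [InnerProductSpace ℂ H] [CompleteSpace H]

/-- `ξ` is a cyclic unit vector for `N`. -/
def Cyc (N : VonNeumannAlgebra H) (ξ : H) : Prop :=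
  ‖ξ‖ = 1 ∧ ∀ η : H, ∀ ε : ℝ, 0 < ε → ∃ a ∈ N, ‖η - a ξ‖ < ε

/-- The centre of `N` is trivial. -/
def Fac (N : VonNeumannAlgebra H) : Prop :=
  ∀ z ∈ N, (∀ y ∈ N, z * y = y * z) → ∃ c : ℂ, z = c • (1 : H →L[ℂ] H)

/-- `u` is a unitary of the commutant of `N`. -/
def UQ (N : VonNeumannAlgebra H) (u : H →L[ℂ] H) : Prop :=
  u ∈ unitary (H →L[ℂ] H) ∧ u ∈ N.commutant

/-- Conjugation by `u` moves the vector state of `ξ` on the commutant of `N` by at most `ε`. -/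
def AlmostInv (N : VonNeumannAlgebra H) (ξ : H) (u : H →L[ℂ] H) (ε : ℝ) : Prop :=
  ∀ q ∈ N.commutant, ‖⟪ξ, (u * q * star u) ξ⟫_ℂ - ⟪ξ, q ξ⟫_ℂ‖ ≤ ε * ‖q‖

/-- Uniform non-amenability of the asymptotic centraliser. -/
def NA (N : VonNeumannAlgebra H) (ξ : H) : Prop :=
  ∃ δ : ℝ, 0 < δ ∧ ∀ ψ : (H →L[ℂ] H) →L[ℂ] ℂ, IsState ψ → ∀ ε : ℝ, 0 < ε →
    ∃ u, UQ N u ∧ AlmostInv N ξ u ε ∧ ∃ T : H →L[ℂ] H, δ * ‖T‖ < ‖ψ (u * T * star u) - ψ T‖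

/-- A vector functional corrected so as to vanish at the identity. -/
def dl (ξ η ζ : H) (q : H →L[ℂ] H) : ℂ := ⟪η, q ζ⟫_ℂ - ⟪η, ζ⟫_ℂ * ⟪ξ, q ξ⟫_ℂ

/-- The heads of length `k`. -/
def Hd (X : ℕ → Type) : ℕ → Type
  | 0 => Unit
  | k + 1 => Hd X k × X k

instance instFintypeHd (X : ℕ → Type) [∀ k, Fintype (X k)] : ∀ k, Fintype (Hd X k)
  | 0 => inferInstanceAs (Fintype Unit)
  | k + 1 => @instFintypeProd _ _ (instFintypeHd X k) _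

instance instNonemptyHd (X : ℕ → Type) [∀ k, AddCommGroup (X k)] : ∀ k, Nonempty (Hd X k)
  | 0 => inferInstanceAs (Nonempty Unit)
  | k + 1 => ⟨(Classical.choice (instNonemptyHd X k), 0)⟩

theorem sum_hd_zero {X : ℕ → Type} [∀ k, Fintype (X k)] {E : Type} [AddCommMonoid E]
    (f : Hd X 0 → E) : ∑ h, f h = f () := Fintype.sum_unique (ι := Unit) f

theorem sum_hd_succ {X : ℕ → Type} [∀ k, Fintype (X k)] {E : Type} [AddCommMonoid E] (k : ℕ)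
    (f : Hd X (k + 1) → E) : ∑ h, f h = ∑ h : Hd X k, ∑ x : X k, f (h, x) :=
  Fintype.sum_prod_type (α₁ := Hd X k) (α₂ := X k) f

theorem card_hd_zero {X : ℕ → Type} [∀ k, Fintype (X k)] : Fintype.card (Hd X 0) = 1 := rfl

theorem card_hd_succ {X : ℕ → Type} [∀ k, Fintype (X k)] (k : ℕ) :
    Fintype.card (Hd X (k + 1)) = Fintype.card (Hd X k) * Fintype.card (X k) :=
  Fintype.card_prod (Hd X k) (X k)

/-- The cocycle of the tower. -/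
def aH {X : ℕ → Type} (c : ∀ k, X k → X (k + 1) → H →L[ℂ] H) : ∀ k, Hd X k → X k → H →L[ℂ] H
  | 0, _, _ => 1
  | k + 1, h, y => c k h.2 y * aH c k h.1 h.2

/-- The sign of a head, read at its first letter. -/
def sgH {X : ℕ → Type} (s : X 0 → ℝ) : ∀ k, Hd X (k + 1) → ℝ
  | 0, h => s h.2
  | k + 1, h => sgH s k h.1

/-- The merging property of the tower, tested on the vectors `ξs i`. -/
def Mix (N : VonNeumannAlgebra H) (ξ : H) (ξs : ℕ → H) {X : ℕ → Type} [∀ k, Fintype (X k)]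
    (c : ∀ k, X k → X (k + 1) → H →L[ℂ] H) : Prop :=
  ∀ (k : ℕ) (h : Hd X k) (i j : ℕ), i ≤ k → j ≤ k → ∀ z : X (k + 1) → H →L[ℂ] H,
    (∀ y, z y ∈ N.commutant ∧ ‖z y‖ ≤ 1) →
    ‖𝔼 x : X k, 𝔼 y : X (k + 1),
      dl ξ (aH c k h x (ξs i)) (aH c k h x (ξs j)) (star (c k x y) * z y * c k x y)‖ ≤
        1 / ((k : ℝ) + 1)

/-- The orthogonality property of the tower. -/
def Orth {X : ℕ → Type} [∀ k, Fintype (X k)] (c : ∀ k, X k → X (k + 1) → H →L[ℂ] H)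
    (δ : ℝ) : Prop :=
  ∀ (k : ℕ) (x x' : X k), x ≠ x' → ∀ (I J : Type) [Fintype I] [Fintype J] (α : I → ℝ) (e : I → H)
    (β : J → ℝ) (f : J → H),
    (Fintype.card (Hd X (k + 1)) : ℝ) *
        𝔼 y : X (k + 1), ker α (fun i => c k x y (e i)) β (fun j => c k x' y (f j)) ≤
      2 * δ ^ 2 / 2 ^ k * (hsn α e * hsn β f)

end Defs

/-- Approximation of a probability vector by a uniform average with repetitions. -/
def UnifSt : Prop :=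
  ∀ (J : Type) [Fintype J] (l : J → ℝ), (∀ j, 0 ≤ l j) → ∑ j, l j = 1 → ∀ ε : ℝ, 0 < ε →
    ∃ (n : ℕ) (ι : Fin (n + 1) → J), ∀ f : J → ℝ, (∀ j, |f j| ≤ 1) →
      |∑ j, l j * f j - 𝔼 a, f (ι a)| ≤ ε

/-- Vector functionals on the commutant are approximated by densities. -/
def ApproxSt : Prop :=
  ∀ (H : Type) [NormedAddCommGroup H] [InnerProductSpace ℂ H] [CompleteSpace H]
    (N : VonNeumannAlgebra H) (ξ : H), Cyc N ξ → ∀ (η ζ : H) (ε : ℝ), 0 < ε →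
    ∃ y ∈ N.commutant, ∀ q ∈ N.commutant, ‖⟪η, q ζ⟫_ℂ - ⟪y ξ, q ξ⟫_ℂ‖ ≤ ε * ‖q‖

/-- The weak Dixmier property of a factor. -/
def DixmierSt : Prop :=
  ∀ (H : Type) [NormedAddCommGroup H] [InnerProductSpace ℂ H] [CompleteSpace H]
    [TopologicalSpace.SeparableSpace H] (Q : VonNeumannAlgebra H), Fac Q →
    ∀ x ∈ Q, ∃ c : ℂ, ∀ (n : ℕ) (ξ η : Fin n → H) (ε : ℝ), 0 < ε →
      ∃ y ∈ convexHull ℝ
          {T : H →L[ℂ] H | ∃ u ∈ unitary (H →L[ℂ] H), u ∈ Q ∧ T = u * x * star u},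
        ∀ i : Fin n, ‖⟪η i, (y - c • (1 : H →L[ℂ] H)) (ξ i)⟫_ℂ‖ < ε

/-- Finitely many functionals vanishing at the identity are averaged to small norm. -/
def DixSt : Prop :=
  ∀ (H : Type) [NormedAddCommGroup H] [InnerProductSpace ℂ H] [CompleteSpace H]
    [TopologicalSpace.SeparableSpace H] (N : VonNeumannAlgebra H) (ξ : H), Fac N → Cyc N ξ →
    ∀ (I : Type) [Fintype I] (η ζ : I → H) (ε : ℝ), 0 < ε →
    ∃ (n : ℕ) (h : Fin (n + 1) → H →L[ℂ] H), (∀ d, UQ N (h d)) ∧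
      ∀ i, ∀ q ∈ N.commutant, ‖𝔼 d, dl ξ (η i) (ζ i) (star (h d) * q * h d)‖ ≤ ε * ‖q‖

/-- Almost centralising unitaries with an arbitrarily large spectral gap. -/
def GapNASt : Prop :=
  ∀ (H : Type) [NormedAddCommGroup H] [InnerProductSpace ℂ H] [CompleteSpace H]
    (N : VonNeumannAlgebra H) (ξ : H), NA N ξ → ∀ ε : ℝ, 0 < ε →
    ∃ (n : ℕ) (g : Fin (n + 1) → H →L[ℂ] H),
      (∀ a, UQ N (g a) ∧ AlmostInv N ξ (star (g a)) ε) ∧ Gap (fun _ => ((n : ℝ) + 1)⁻¹) g ε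

/-- A law of large numbers for functionals with bounded densities. -/
def LlnSt : Prop :=
  ∀ (H : Type) [NormedAddCommGroup H] [InnerProductSpace ℂ H] [CompleteSpace H]
    (G V : Type) [Fintype G] [Nonempty G] [Fintype V] [DecidableEq V] (θ : G → H) (C ε : ℝ)
    (R : ℕ) (v : V), 0 < ε → (∀ γ, ‖θ γ‖ ≤ C) → C ^ 2 ≤ ε ^ 2 * ((R : ℝ) + 1) →
    𝔼 u : V × Fin (R + 1) → G,
      ‖(((R : ℝ) + 1)⁻¹ • ∑ j, θ (u (v, j))) - (Fintype.card G : ℝ)⁻¹ • ∑ γ, θ γ‖ ≤ ε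

/-- One step of the tower. -/
def StepSt : Prop :=
  ∀ (H : Type) [NormedAddCommGroup H] [InnerProductSpace ℂ H] [CompleteSpace H]
    [TopologicalSpace.SeparableSpace H] (N : VonNeumannAlgebra H) (ξ : H),
    Fac N → Cyc N ξ → NA N ξ →
    ∀ (I V : Type) [Fintype I] [Fintype V] (η ζ : I → H) (ε : ℝ), 0 < ε →
    ∃ (R : ℕ) (U : Type) (_ : Fintype U) (_ : AddCommGroup U)
      (c : V × Fin (R + 1) → U → H →L[ℂ] H), (∀ x u, UQ N (c x u)) ∧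
      (∀ (i : I) (v : V) (z : U → H →L[ℂ] H), (∀ u, z u ∈ N.commutant ∧ ‖z u‖ ≤ 1) →
        ‖𝔼 u, 𝔼 j, dl ξ (η i) (ζ i) (star (c (v, j) u) * z u * c (v, j) u)‖ ≤ ε) ∧
      ∀ x x', x ≠ x' → ∀ (I' J : Type) [Fintype I'] [Fintype J] (α : I' → ℝ) (e : I' → H)
        (β : J → ℝ) (f : J → H),
        ((R : ℝ) + 1) * 𝔼 u, ker α (fun i => c x u (e i)) β (fun j => c x' u (f j)) ≤
          ε * (hsn α e * hsn β f)

/-- The tower. -/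
def TowerSt : Prop :=
  ∀ (H : Type) [NormedAddCommGroup H] [InnerProductSpace ℂ H] [CompleteSpace H]
    [TopologicalSpace.SeparableSpace H] (N : VonNeumannAlgebra H) (ξ : H),
    Fac N → Cyc N ξ → NA N ξ → ∀ (ξs : ℕ → H) (δ : ℝ), 0 < δ →
    ∃ (X : ℕ → Type) (_ : ∀ k, Fintype (X k)) (_ : ∀ k, AddCommGroup (X k))
      (c : ∀ k, X k → X (k + 1) → H →L[ℂ] H) (s : X 0 → ℝ),
      (∀ k x y, UQ N (c k x y)) ∧ (∀ x, s x = 1 ∨ s x = -1) ∧ ∑ x, s x = 0 ∧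
      Mix N ξ ξs c ∧ Orth c δ

/-- The value of the test fields. -/
def ValSt : Prop :=
  ∀ (H : Type) [NormedAddCommGroup H] [InnerProductSpace ℂ H] [CompleteSpace H]
    (X : ℕ → Type) [∀ k, Fintype (X k)] [∀ k, AddCommGroup (X k)]
    (c : ∀ k, X k → X (k + 1) → H →L[ℂ] H) (s : X 0 → ℝ) (δ : ℝ), 0 < δ →
    (∀ k x y, c k x y ∈ unitary (H →L[ℂ] H)) → (∀ x, s x = 1 ∨ s x = -1) → Orth c δ →
    ∀ (I : Type) [Fintype I] (α : I → ℝ) (e : I → H), (∀ i, 0 ≤ α i) → (∀ i, ‖e i‖ = 1) →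
    ∑ i, α i ^ 2 = 1 → hsn α e = 1 → ∀ k : ℕ,
    ∃ y : X (k + 1) → H →L[ℂ] H, (∀ x, IsSelfAdjoint (y x) ∧ ‖y x‖ ≤ 1) ∧
      1 - 4 * δ ≤ 𝔼 h : Hd X (k + 1), 𝔼 x : X (k + 1), sgH s k h *
        ∑ i, α i ^ 2 * (⟪aH c (k + 1) h x (e i), y x (aH c (k + 1) h x (e i))⟫_ℂ).re

/-- The commutant of commuting projections and of commuting unitaries permuting them is
injective. -/
def Inj2St : Prop :=
  ∀ (K : Type) [NormedAddCommGroup K] [InnerProductSpace ℂ K] [CompleteSpace K]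
    (R 𝒰 : Set (K →L[ℂ] K)), (∀ p ∈ R, IsStarProjection p) →
    (∀ p ∈ R, ∀ q ∈ R, p * q = q * p) → (∀ U ∈ 𝒰, U ∈ unitary (K →L[ℂ] K)) →
    (∀ U ∈ 𝒰, ∀ U' ∈ 𝒰, U * U' = U' * U) → (∀ U ∈ 𝒰, ∀ p ∈ R, star U * p * U ∈ R) →
    ∃ E : (K →L[ℂ] K) →L[ℂ] (K →L[ℂ] K), ‖E‖ ≤ 1 ∧ (∀ T, E T ∈ commOf (𝒰 ∪ R)) ∧
      ∀ T ∈ commOf (𝒰 ∪ R), E T = T

end Pool.Agent.P.MP_7e3bdd_an.RW
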