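import Pool.Agent.P.MP_7e3bdd_an.RW.TSpace
import Pool.Agent.P.MP_7e3bdd_an.RW.Skew

/-!
The two von Neumann algebras attached to a tower, and irreducibility of their inclusion.
-/

set_option autoImplicit false

open scoped InnerProductSpace Topology ComplexConjugate ENNReal BigOperators
open Filter MeasureTheory ProbabilityTheory

noncomputable section

namespace Pool.Agent.P.MP_7e3bdd_an.RW

variable {H : Type} [NormedAddCommGroup H] [InnerProductSpace ℂ H] [CompleteSpace H]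
  {X : ℕ → Type} [∀ k, Fintype (X k)] [∀ k, AddCommGroup (X k)] [∀ k, MeasurableSpace (X k)]
  [∀ k, DiscreteMeasurableSpace (X k)] (c : ∀ k, X k → X (k + 1) → H →L[ℂ] H)

/-- The cocycle as a field of operators. -/
def AA (k : ℕ) : Lp H 2 (PT X) →L[ℂ] Lp H 2 (PT X) :=
  fld (PT X) fun ω => aH c k (hd k ω) (ω k)

/-- The twisted translations. -/
def WT (k : ℕ) (γ : ∀ i, X i) : Lp H 2 (PT X) →L[ℂ] Lp H 2 (PT X) :=
  star (AA c k) * ST γ * AA c k

/-- The set of twisted translations. -/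
def WS : Set (Lp H 2 (PT X) →L[ℂ] Lp H 2 (PT X)) :=
  {W | ∃ k γ, (∀ i, k ≤ i → γ i = 0) ∧ W = WT c k γ}

variable (X) in
/-- The multiplication operators by indicator functions. -/
def RT (H : Type) [NormedAddCommGroup H] [InnerProductSpace ℂ H] :
    Set (Lp H 2 (PT X) →L[ℂ] Lp H 2 (PT X)) := {p | ∃ B, MeasurableSet B ∧ p = EE (PT X) B}

/-- The big algebra. -/
def MT : VonNeumannAlgebra (Lp H 2 (PT X)) := commOf (WS c ∪ RT X H)

variable (X) in
/-- The small algebra. -/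
def NT (N : VonNeumannAlgebra H) : VonNeumannAlgebra (Lp H 2 (PT X)) :=
  commOf (insert (VV (PT X) ∘L ContinuousLinearMap.adjoint (VV (PT X)))
    (RT X H ∪ amp (PT X) '' (N.commutant : Set (H →L[ℂ] H))))

variable {c}

omit [CompleteSpace H] in
theorem good_aa (k : ℕ) : Good fun ω : ∀ i, X i => aH c k (hd k ω) (ω k) :=
  good_hd (k + 1) fun h => aH c k h.1 h.2

omit [∀ k, Fintype (X k)] [∀ k, AddCommGroup (X k)] [∀ k, MeasurableSpace (X k)]
  [∀ k, DiscreteMeasurableSpace (X k)] [CompleteSpace H] in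
theorem aH_mem {S : Submonoid (H →L[ℂ] H)} (hc : ∀ k x y, c k x y ∈ S) (k : ℕ) (h : Hd X k)
    (x : X k) : aH c k h x ∈ S := by
  induction k with
  | zero => exact one_mem _
  | succ k ih => exact mul_mem (hc _ _ _) (ih _ _)

theorem AA_unitary (hc : ∀ k x y, c k x y ∈ unitary (H →L[ℂ] H)) (k : ℕ) :
    AA c k ∈ unitary (Lp H 2 (PT X) →L[ℂ] Lp H 2 (PT X)) :=
  fld_unitary (good_aa k) fun _ => aH_mem hc k _ _

theorem WT_unitary (hc : ∀ k x y, c k x y ∈ unitary (H →L[ℂ] H)) (k : ℕ) (γ : ∀ i, X i) :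
    WT c k γ ∈ unitary (Lp H 2 (PT X) →L[ℂ] Lp H 2 (PT X)) :=
  mul_mem (mul_mem (Unitary.star_mem (AA_unitary hc k)) (ST_unitary γ)) (AA_unitary hc k)

theorem star_WT (k : ℕ) (γ : ∀ i, X i) : star (WT c k γ) = WT c k (-γ) := by
  rw [WT, WT, star_mul, star_mul, star_star, star_ST, mul_assoc]

theorem WT_succ (hc : ∀ k x y, c k x y ∈ unitary (H →L[ℂ] H)) {k : ℕ} {γ : ∀ i, X i}
    (hγ : ∀ i, k ≤ i → γ i = 0) : WT c (k + 1) γ = WT c k γ := by
  have g : Good fun ω : ∀ i, X i => c k (ω k) (ω (k + 1)) := good_hd (k + 2) fun h => c k h.1.2 h.2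
  have h1 : AA c (k + 1) = fld (PT X) (fun ω => c k (ω k) (ω (k + 1))) * AA c k :=
    fld_mul g (good_aa k)
  have h2 : ST γ * fld (PT X) (fun ω => c k (ω k) (ω (k + 1))) =
      fld (PT X) (fun ω => c k (ω k) (ω (k + 1))) * ST γ := by
    rw [ST_fld γ g]
    simp [hγ k le_rfl, hγ (k + 1) (by omega)]
  have h3 := Unitary.star_mul_self_of_mem (fld_unitary (P := PT X) g fun _ => hc _ _ _)
  generalize fld (PT X) (fun ω => c k (ω k) (ω (k + 1))) = C at h1 h2 h3
  rw [WT, WT, h1, star_mul, mul_assoc, ← mul_assoc (ST γ), h2, mul_assoc, mul_assoc,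
    ← mul_assoc (star C), h3, one_mul, mul_assoc]

theorem WT_le (hc : ∀ k x y, c k x y ∈ unitary (H →L[ℂ] H)) {k m : ℕ} (hkm : k ≤ m)
    {γ : ∀ i, X i} (hγ : ∀ i, k ≤ i → γ i = 0) : WT c m γ = WT c k γ := by
  induction m, hkm using Nat.le_induction with
  | base => rfl
  | succ m hm ih => rw [WT_succ hc fun i hi => hγ i (by omega), ih]

theorem mem_MT (z : Lp H 2 (PT X) →L[ℂ] Lp H 2 (PT X)) :
    z ∈ MT c ↔ (∀ k γ, (∀ i, k ≤ i → γ i = 0) → WT c k γ * z = z * WT c k γ) ∧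
      ∀ B, MeasurableSet B → EE (PT X) B * z = z * EE (PT X) B := by
  rw [MT, mem_commOf]
  constructor
  · intro h
    exact ⟨fun k γ hγ => (h _ (Or.inl ⟨k, γ, hγ, rfl⟩)).1,
      fun B hB => (h _ (Or.inr ⟨B, hB, rfl⟩)).1⟩
  · rintro ⟨h1, h2⟩ s (⟨k, γ, hγ, rfl⟩ | ⟨B, hB, rfl⟩)
    · rw [star_WT]
      exact ⟨h1 k γ hγ, h1 k _ fun i hi => by simp [hγ i hi]⟩
    · rw [star_EE hB]
      exact ⟨h2 B hB, h2 B hB⟩

theorem eq_amp' {T : Lp H 2 (PT X) →L[ℂ] Lp H 2 (PT X)} {a : H →L[ℂ] H}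
    (hT : ∀ B, MeasurableSet B → EE (PT X) B * T = T * EE (PT X) B)
    (h : ∀ k h, cmp (PT X) (EE (PT X) (fib k h) * T) =
      cmp (PT X) (EE (PT X) (fib k h) * amp (PT X) a)) : T = amp (PT X) a := by
  rw [← sub_eq_zero]
  refine eq_zero_of_cmp generateFrom_fibs isPiSystem_fibs univ_mem_fibs _ (fun B hB => ?_) ?_
  · rw [mul_sub, sub_mul, hT B hB, EE_comm_amp hB]
  · rintro _ ⟨k, g, rfl⟩
    rw [mul_sub, cmp_sub, h, sub_self]

theorem mem_NT (N : VonNeumannAlgebra H) (y : Lp H 2 (PT X) →L[ℂ] Lp H 2 (PT X)) :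
    y ∈ NT X N ↔ ∃ a ∈ N, amp (PT X) a = y := by
  have hVV : ∀ ξ : H, ContinuousLinearMap.adjoint (VV (PT X)) (VV (PT X) ξ) = ξ := fun ξ => by
    have := cmp_amp (P := PT X) (1 : H →L[ℂ] H)
    rw [map_one] at this
    exact congrArg (fun T : H →L[ℂ] H => T ξ) this
  rw [NT, mem_commOf]
  constructor
  · intro h
    refine ⟨cmp (PT X) y, ?_, ?_⟩
    · rw [← N.commutant_commutant, VonNeumannAlgebra.mem_commutant_iff]
      intro q hq
      rw [← cmp_amp_mul, ← cmp_mul_amp, (h _ (Or.inr (Or.inr ⟨q, hq, rfl⟩))).1]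
    · refine (eq_amp' (fun B hB => (h _ (Or.inr (Or.inl ⟨B, hB, rfl⟩))).1) fun W ω => ?_).symm
      have h1 : ∀ ξ, y (VV (PT X) ξ) = amp (PT X) (cmp (PT X) y) (VV (PT X) ξ) := fun ξ => by
        have h2 := congrArg (fun T : Lp H 2 (PT X) →L[ℂ] Lp H 2 (PT X) => T (VV (PT X) ξ))
          (h _ (Set.mem_insert _ _)).1
        simp only [mul_apply_eq_comp, ContinuousLinearMap.comp_apply, hVV] at h2
        rw [amp_VV, ← h2]
        rfl
      ext ξ
      refine ext_inner_left ℂ fun η => ?_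
      rw [inner_cmp, inner_cmp, mul_apply_eq_comp, mul_apply_eq_comp, h1]
  · rintro ⟨a, ha, rfl⟩
    have h0 : ∀ a : H →L[ℂ] H, (VV (PT X) ∘L ContinuousLinearMap.adjoint (VV (PT X))) *
        amp (PT X) a = amp (PT X) a *
          (VV (PT X) ∘L ContinuousLinearMap.adjoint (VV (PT X))) := fun a => by
      ext1 f
      simp only [mul_apply_eq_comp, ContinuousLinearMap.comp_apply, amp_VV]
      congr 1
      refine ext_inner_left ℂ fun η => ?_
      rw [ContinuousLinearMap.adjoint_inner_right, ← ContinuousLinearMap.adjoint_inner_left,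
        ← ContinuousLinearMap.adjoint_inner_left a, ContinuousLinearMap.adjoint_inner_right,
        ← ContinuousLinearMap.star_eq_adjoint, ← ContinuousLinearMap.star_eq_adjoint, ← map_star,
        amp_VV]
    rintro s (rfl | ⟨B, hB, rfl⟩ | ⟨q, hq, rfl⟩)
    · refine ⟨h0 a, ?_⟩
      rw [ContinuousLinearMap.star_eq_adjoint, ContinuousLinearMap.adjoint_comp,
        ContinuousLinearMap.adjoint_adjoint]
      exact h0 a
    · rw [star_EE hB]
      exact ⟨EE_comm_amp hB a, EE_comm_amp hB a⟩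
    · rw [← map_star, ← map_mul, ← map_mul, ← map_mul, ← map_mul,
        VonNeumannAlgebra.mem_commutant_iff.1 hq a ha,
        VonNeumannAlgebra.mem_commutant_iff.1 (star_mem hq) a ha]
      exact ⟨rfl, rfl⟩

theorem amp_comm_AA {N : VonNeumannAlgebra H} (hc : ∀ k x y, UQ N (c k x y)) {a : H →L[ℂ] H}
    (ha : a ∈ N) (k : ℕ) : amp (PT X) a * AA c k = AA c k * amp (PT X) a := by
  rw [amp_apply, AA, ← fld_mul (Good.const a) (good_aa k), ← fld_mul (good_aa k) (Good.const a)]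
  congr 1
  funext ω
  exact VonNeumannAlgebra.mem_commutant_iff.1
    (aH_mem (S := N.commutant.toStarSubalgebra.toSubalgebra.toSubsemiring.toSubmonoid)
      (fun k x y => (hc k x y).2) k _ _) a ha

theorem amp_comm_star_AA {N : VonNeumannAlgebra H} (hc : ∀ k x y, UQ N (c k x y)) {a : H →L[ℂ] H}
    (ha : a ∈ N) (k : ℕ) : amp (PT X) a * star (AA c k) = star (AA c k) * amp (PT X) a := by
  have := congrArg star (amp_comm_AA hc (star_mem ha) k)
  rw [star_mul, star_mul, ← map_star, star_star] at this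
  exact this.symm

theorem amp_mem_MT {N : VonNeumannAlgebra H} (hc : ∀ k x y, UQ N (c k x y)) {a : H →L[ℂ] H}
    (ha : a ∈ N) : amp (PT X) a ∈ MT c := by
  refine (mem_MT _).2 ⟨fun k γ _ => ?_, fun B hB => EE_comm_amp hB a⟩
  have h1 : ST γ * amp (PT X) a = amp (PT X) a * ST γ := ST_fld γ (Good.const a)
  rw [WT, mul_assoc, ← amp_comm_AA hc ha, ← mul_assoc, mul_assoc _ (ST γ), h1, ← mul_assoc,
    ← amp_comm_star_AA hc ha]
  simp only [mul_assoc]

omit [CompleteSpace H] in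
theorem EE_comm_AA {B : Set (∀ i, X i)} (hB : MeasurableSet B) (k : ℕ) :
    EE (PT X) B * AA c k = AA c k * EE (PT X) B := EE_comm_fld hB (good_aa k)

theorem EE_comm_star_AA {B : Set (∀ i, X i)} (hB : MeasurableSet B) (k : ℕ) :
    EE (PT X) B * star (AA c k) = star (AA c k) * EE (PT X) B := by
  have := congrArg star (EE_comm_AA (c := c) hB k)
  rw [star_mul, star_mul, star_EE hB] at this
  exact this.symm

theorem MT_injective (h : Inj2St) (hc : ∀ k x y, c k x y ∈ unitary (H →L[ℂ] H)) :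
    ∃ E : (Lp H 2 (PT X) →L[ℂ] Lp H 2 (PT X)) →L[ℂ] (Lp H 2 (PT X) →L[ℂ] Lp H 2 (PT X)),
      ‖E‖ ≤ 1 ∧ (∀ T, E T ∈ MT c) ∧ ∀ T ∈ MT c, E T = T := by
  refine h _ (RT X H) (WS c) ?_ ?_ ?_ ?_ ?_
  · rintro _ ⟨B, hB, rfl⟩
    exact ⟨EE_mul_self hB, star_EE hB⟩
  · rintro _ ⟨B, hB, rfl⟩ _ ⟨C, hC, rfl⟩
    exact EE_comm_fld hB (good_ind hC)
  · rintro _ ⟨k, γ, -, rfl⟩
    exact WT_unitary hc k γ
  · rintro _ ⟨k, γ, hγ, rfl⟩ _ ⟨k', γ', hγ', rfl⟩
    have h1 : ∀ γ γ' : ∀ i, X i, WT c (max k k') γ * WT c (max k k') γ' =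
        WT c (max k k') (γ + γ') := fun γ γ' => by
      rw [WT, WT, WT, ← ST_add]
      simp only [mul_assoc]
      rw [← mul_assoc (AA c _), Unitary.mul_star_self_of_mem (AA_unitary hc _), one_mul]
    rw [← WT_le hc (le_max_left k k') hγ, ← WT_le hc (le_max_right k k') hγ', h1, h1, add_comm]
  · rintro _ ⟨k, γ, -, rfl⟩ _ ⟨B, hB, rfl⟩
    have hB' : MeasurableSet ((fun ω => ω + -γ) ⁻¹' B) := (mp_tr (-γ)).measurable hB
    refine ⟨_, hB', ?_⟩
    have h1 : star (WT c k γ) * EE (PT X) B =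
        EE (PT X) ((fun ω => ω + -γ) ⁻¹' B) * star (WT c k γ) := by
      rw [star_WT, WT, mul_assoc, ← EE_comm_AA hB, ← mul_assoc, mul_assoc _ (ST _), ST_EE _ hB,
        ← mul_assoc, ← EE_comm_star_AA hB']
      simp only [mul_assoc]
    rw [h1, mul_assoc, Unitary.star_mul_self_of_mem (WT_unitary hc k γ), mul_one]

/-- The compressions of an element of the big algebra to the fibres. -/
theorem exists_z (hc : ∀ k x y, c k x y ∈ unitary (H →L[ℂ] H))
    {T : Lp H 2 (PT X) →L[ℂ] Lp H 2 (PT X)} (hT : T ∈ MT c) (k : ℕ) :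
    ∃ z : X k → H →L[ℂ] H, ∀ (h : Hd X k) (y : X k),
      cmp (PT X) (EE (PT X) (fib (k + 1) (h, y)) * T) =
        star (aH c k h y) * z y * aH c k h y := by
  obtain ⟨hW, hD⟩ := (mem_MT T).1 hT
  have hA := AA_unitary hc k
  obtain ⟨T', hT'⟩ : ∃ T', T' = AA c k * T * star (AA c k) := ⟨_, rfl⟩
  have hS : ∀ γ : ∀ i, X i, (∀ i, k ≤ i → γ i = 0) → ST γ * T' = T' * ST γ := fun γ hγ => by
    have h1 := hW k γ hγ
    have h2 : ST γ = AA c k * WT c k γ * star (AA c k) := by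
      rw [WT]
      simp only [← mul_assoc, Unitary.mul_star_self_of_mem hA, one_mul]
      rw [mul_assoc, Unitary.mul_star_self_of_mem hA, mul_one]
    rw [h2, hT']
    simp only [mul_assoc]
    rw [← mul_assoc (star (AA c k)), Unitary.star_mul_self_of_mem hA, one_mul,
      ← mul_assoc (star (AA c k)), Unitary.star_mul_self_of_mem hA, one_mul,
      ← mul_assoc (WT c k γ), h1, mul_assoc]
  refine ⟨fun y => cmp (PT X) (EE (PT X) (fib (k + 1) (hd k 0, y)) * T'), fun h y => ?_⟩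
  have hB := measurableSet_fib (k + 1) (h, y)
  have h1 : cmp (PT X) (EE (PT X) (fib (k + 1) (hd k 0, y)) * T') =
      cmp (PT X) (EE (PT X) (fib (k + 1) (h, y)) * T') := by
    obtain ⟨ω, rfl⟩ := hd_surj k h
    have hγ : ∀ i, k ≤ i → (fun i => if i < k then ω i else 0) i = 0 := fun i hi =>
      if_neg (not_lt.2 hi)
    have h2 : (fun x => x + fun i => if i < k then ω i else 0) ⁻¹' fib (k + 1) (hd k ω, y) =
        fib (k + 1) (hd k 0, y) := by
      ext x
      refine (Prod.ext_iff (α := Hd X k) (β := X k)).trans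
        (Iff.trans ?_ (Prod.ext_iff (α := Hd X k) (β := X k)).symm)
      simp only [hd, hd_eq_iff]
      refine and_congr (forall₂_congr fun i hi => ?_) ?_ <;> simp [*]
    rw [← cmp_ST_mul _ (EE _ (fib (k + 1) (hd k ω, y)) * T'), ← mul_assoc, ST_EE _ hB, h2,
      mul_assoc, hS _ hγ, ← mul_assoc, cmp_mul_ST]
  have h2 : EE (PT X) (fib (k + 1) (h, y)) * AA c k =
      amp (PT X) (aH c k h y) * EE (PT X) (fib (k + 1) (h, y)) := by
    rw [AA, EE_mul_fld_of_const hB (good_aa k) (a := aH c k h y) (fun ω hω => by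
      have h3 : (hd k ω, ω k) = (h, y) := hω
      obtain ⟨rfl, rfl⟩ := Prod.ext_iff.1 h3
      rfl), ← amp_apply, EE_comm_amp hB]
  have h3 : EE (PT X) (fib (k + 1) (h, y)) * T' = amp (PT X) (aH c k h y) *
      (EE (PT X) (fib (k + 1) (h, y)) * T) * amp (PT X) (star (aH c k h y)) := by
    have h4 := congrArg star h2
    rw [star_mul, star_mul, star_EE hB, ← map_star, ← EE_comm_star_AA hB] at h4
    rw [hT', ← mul_assoc, ← mul_assoc, h2, mul_assoc (amp _ _), hD _ hB, mul_assoc, mul_assoc, h4]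
    simp only [mul_assoc]
  have ha := aH_mem hc k h y
  simp only
  rw [h1, h3, cmp_mul_amp, cmp_amp_mul]
  simp only [← mul_assoc, Unitary.star_mul_self_of_mem ha, one_mul]
  rw [mul_assoc, Unitary.star_mul_self_of_mem ha, mul_one]

end Pool.Agent.P.MP_7e3bdd_an.RW
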