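import Pool.Agent.P.MP_7e3bdd_an.RW.TAlg

/-!
Irreducibility of the inclusion attached to a merging tower.
-/

set_option autoImplicit false

open scoped InnerProductSpace Topology ComplexConjugate ENNReal BigOperators
open Filter MeasureTheory ProbabilityTheory

noncomputable section

namespace Pool.Agent.P.MP_7e3bdd_an.RW

variable {H : Type} [NormedAddCommGroup H] [InnerProductSpace ℂ H] [CompleteSpace H]
  {X : ℕ → Type} [∀ k, Fintype (X k)] [∀ k, AddCommGroup (X k)] [∀ k, MeasurableSpace (X k)]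
  [∀ k, DiscreteMeasurableSpace (X k)] {c : ∀ k, X k → X (k + 1) → H →L[ℂ] H}
  {N : VonNeumannAlgebra H} {ξ : H} {ξs : ℕ → H} {T : Lp H 2 (PT X) →L[ℂ] Lp H 2 (PT X)}

/-- The fibre over a head followed by two letters. -/
def fib3 (k : ℕ) (h : Hd X k) (x : X k) (y : X (k + 1)) : Set (∀ i, X i) :=
  fib (k + 2) ((h, x), y)

omit [∀ k, Fintype (X k)] in
theorem measurableSet_fib3 (k : ℕ) (h : Hd X k) (x : X k) (y : X (k + 1)) :
    MeasurableSet (fib3 k h x y) := measurableSet_fib _ _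

theorem real_fib3 (k : ℕ) (h : Hd X k) (x : X k) (y : X (k + 1)) :
    (PT X).real (fib3 k h x y) = (Fintype.card (Hd X (k + 2)) : ℝ)⁻¹ := real_fib _ _

theorem cmp_fld_hd3 (k : ℕ) (G : Hd X k → H →L[ℂ] H) (T : Lp H 2 (PT X) →L[ℂ] Lp H 2 (PT X)) :
    cmp (PT X) (fld (PT X) (fun ω => G (hd k ω)) * T) =
      ∑ h, ∑ x, ∑ y, G h * cmp (PT X) (EE (PT X) (fib3 k h x y) * T) :=
  (cmp_fld_hd (k + 2) (fun h => G h.1.1) T).trans
    ((sum_hd_succ (k + 1) _).trans (sum_hd_succ k _))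

theorem exists_kappa (hc : ∀ k x y, UQ N (c k x y)) (hξ : ‖ξ‖ = 1) (hmix : Mix N ξ ξs c)
    (hT : T ∈ MT c) (hN : ∀ a ∈ N, amp (PT X) a * T = T * amp (PT X) a) (hT1 : ‖T‖ ≤ 1) (k : ℕ) :
    ∃ κ : ℂ, ‖κ‖ ≤ 1 ∧ ∀ j ≤ k, ∀ (h₀ : Hd X j), ∀ i ≤ k, ∀ i' ≤ k,
      ‖⟪ξs i, cmp (PT X) (EE (PT X) (fib j h₀) * T) (ξs i')⟫_ℂ -
        (PT X).real (fib j h₀) * (⟪ξs i, ξs i'⟫_ℂ * κ)‖ ≤ 1 / ((k : ℝ) + 1) := by
  classical
  have hu : ∀ k x y, c k x y ∈ unitary (H →L[ℂ] H) := fun k x y => (hc k x y).1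
  have hq : ∀ k h x, aH c k h x ∈ N.commutant := fun k h x =>
    aH_mem (S := N.commutant.toStarSubalgebra.toSubalgebra.toSubsemiring.toSubmonoid)
      (fun k x y => (hc k x y).2) k h x
  obtain ⟨z, hz'⟩ := exists_z hu hT (k + 1)
  have hz : ∀ h x y, cmp (PT X) (EE (PT X) (fib3 k h x y) * T) =
      star (c k x y * aH c k h x) * z y * (c k x y * aH c k h x) := fun h x y => hz' (h, x) y
  have n0 : (Fintype.card (Hd X k) : ℂ) ≠ 0 := by exact_mod_cast Fintype.card_ne_zero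
  have n1 : (Fintype.card (X k) : ℂ) ≠ 0 := by exact_mod_cast Fintype.card_ne_zero
  have n2 : (Fintype.card (X (k + 1)) : ℂ) ≠ 0 := by exact_mod_cast Fintype.card_ne_zero
  set Z : X (k + 1) → H →L[ℂ] H := fun y => (Fintype.card (Hd X (k + 2)) : ℂ) • z y with hZ
  have hZ1 : ∀ y, Z y ∈ N.commutant ∧ ‖Z y‖ ≤ 1 := fun y => by
    have hB := measurableSet_fib3 k (hd k (0 : ∀ i, X i)) 0 y
    obtain ⟨a, hae⟩ : ∃ a, a = c k 0 y * aH c k (hd k 0) 0 := ⟨_, rfl⟩
    have ha : a ∈ unitary (H →L[ℂ] H) := hae ▸ mul_mem (hu _ _ _) (aH_mem hu k _ _)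
    have haq : a ∈ N.commutant := hae ▸ mul_mem (hc _ _ _).2 (hq k _ _)
    have h1 : z y = a * cmp (PT X) (EE (PT X) (fib3 k (hd k 0) 0 y) * T) * star a := by
      rw [hz, ← hae]
      simp only [← mul_assoc, Unitary.mul_star_self_of_mem ha, one_mul]
      rw [mul_assoc, Unitary.mul_star_self_of_mem ha, mul_one]
    have h2 : cmp (PT X) (EE (PT X) (fib3 k (hd k 0) 0 y) * T) ∈ N.commutant := by
      rw [VonNeumannAlgebra.mem_commutant_iff]
      intro a ha
      rw [← cmp_amp_mul, ← cmp_mul_amp, ← mul_assoc, ← EE_comm_amp hB, mul_assoc, hN a ha,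
        mul_assoc]
    have h3 := norm_cmp_EE_mul hB (((mem_MT T).1 hT).2 _ hB)
    rw [real_fib3] at h3
    have h4 : (0 : ℝ) < Fintype.card (Hd X (k + 2)) := by exact_mod_cast Fintype.card_pos
    constructor
    · refine N.commutant.toStarSubalgebra.smul_mem ?_ _
      rw [h1]
      exact mul_mem (mul_mem haq h2) (star_mem haq)
    · rw [hZ]
      simp only
      rw [norm_smul, h1, CStarRing.norm_mul_mem_unitary _ (Unitary.star_mem ha),
        CStarRing.norm_mem_unitary_mul _ ha, Complex.norm_natCast]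
      calc _ ≤ (Fintype.card (Hd X (k + 2)) : ℝ) * ((Fintype.card (Hd X (k + 2)) : ℝ)⁻¹ * 1) := by
            gcongr
            exact h3.trans (by gcongr)
        _ = 1 := by field_simp
  refine ⟨𝔼 x : X k, 𝔼 y : X (k + 1), ⟪ξ, (star (c k x y) * Z y * c k x y) ξ⟫_ℂ, ?_,
    fun j hj h₀ i hi i' hi' => ?_⟩
  · refine (RCLike.norm_expect_le (K := ℂ)).trans (Finset.expect_le Finset.univ_nonempty
      fun x _ => (RCLike.norm_expect_le (K := ℂ)).trans (Finset.expect_le Finset.univ_nonempty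
        fun y _ => (norm_inner_le_norm _ _).trans ?_))
    rw [hξ, one_mul]
    refine (ContinuousLinearMap.le_opNorm _ _).trans ?_
    rw [hξ, mul_one, CStarRing.norm_mul_mem_unitary _ (hu _ _ _),
      CStarRing.norm_mem_unitary_mul _ (Unitary.star_mem (hu _ _ _))]
    exact (hZ1 y).2
  · set g : Hd X k → ℝ := fun h => if ∃ ω ∈ fib j h₀, hd k ω = h then 1 else 0 with hg
    have hg1 : ∀ ω : ∀ i, X i, g (hd k ω) = (fib j h₀).indicator 1 ω := fun ω => by
      by_cases hω : ω ∈ fib j h₀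
      · rw [Set.indicator_of_mem hω, hg]
        exact if_pos ⟨ω, hω, rfl⟩
      · rw [Set.indicator_of_notMem hω, hg]
        refine if_neg ?_
        rintro ⟨ω', h1, h2⟩
        refine hω (Eq.trans ?_ h1)
        exact (hd_eq_iff j _ _).2 fun i hi => ((hd_eq_iff k _ _).1 h2 i (by omega)).symm
    have hP : (PT X).real (fib j h₀) = (Fintype.card (Hd X k) : ℝ)⁻¹ * ∑ h, g h := by
      rw [← smul_eq_mul, ← integral_hd k g, ← integral_indicator_one (measurableSet_fib j h₀)]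
      simp only [hg1]
    have hE : EE (H := H) (PT X) (fib j h₀) = fld (PT X) fun ω =>
        (g (hd k ω) : ℂ) • (1 : H →L[ℂ] H) := by
      rw [EE]
      congr 1
      funext ω
      rw [hg1]
      by_cases hω : ω ∈ fib j h₀ <;> simp [hω]
    have hkey : ⟪ξs i, cmp (PT X) (EE (PT X) (fib j h₀) * T) (ξs i')⟫_ℂ -
        (PT X).real (fib j h₀) * (⟪ξs i, ξs i'⟫_ℂ *
          𝔼 x : X k, 𝔼 y : X (k + 1), ⟪ξ, (star (c k x y) * Z y * c k x y) ξ⟫_ℂ) =
        𝔼 h : Hd X k, (g h : ℂ) * 𝔼 x : X k, 𝔼 y : X (k + 1),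
          dl ξ (aH c k h x (ξs i)) (aH c k h x (ξs i')) (star (c k x y) * Z y * c k x y) := by
      rw [hP, hE, cmp_fld_hd3 k (fun h => (g h : ℂ) • (1 : H →L[ℂ] H))]
      simp only [hz, sum_apply, inner_sum, dl, Finset.expect_sub_distrib, ← Finset.mul_expect,
        ContinuousLinearMap.inner_map_map_of_mem_unitary (aH_mem hu k _ _), mul_sub,
        ← Finset.expect_mul]
      congr 1
      · simp only [Fintype.expect_eq_sum_div_card, Finset.sum_div, Finset.mul_sum]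
        refine Finset.sum_congr rfl fun h _ => Finset.sum_congr rfl fun x _ =>
          Finset.sum_congr rfl fun y _ => ?_
        have h1 : ⟪aH c k h x (ξs i), (star (c k x y) * Z y * c k x y) (aH c k h x (ξs i'))⟫_ℂ =
            (Fintype.card (Hd X (k + 2)) : ℂ) * ⟪ξs i, (star (c k x y * aH c k h x) * z y *
              (c k x y * aH c k h x)) (ξs i')⟫_ℂ := by
          simp [hZ, ContinuousLinearMap.star_eq_adjoint,
            ContinuousLinearMap.adjoint_inner_right]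
        rw [h1, card_hd_succ, card_hd_succ, smul_mul_assoc, one_mul, smul_apply, inner_smul_right]
        push_cast
        field_simp
      · rw [Fintype.expect_eq_sum_div_card (fun h => (g h : ℂ))]
        push_cast
        ring
    rw [hkey]
    refine (RCLike.norm_expect_le (K := ℂ)).trans (Finset.expect_le Finset.univ_nonempty
      fun h _ => ?_)
    rw [norm_mul]
    refine (mul_le_of_le_one_left (norm_nonneg _) ?_).trans (hmix k h i i' hi hi' Z hZ1)
    simp only [hg]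
    split_ifs <;> simp

theorem irreducible_T (hc : ∀ k x y, UQ N (c k x y)) (hξ : ‖ξ‖ = 1) (hmix : Mix N ξ ξs c)
    (hd : DenseRange ξs) (hT : T ∈ MT c) (hN : ∀ y ∈ NT X N, T * y = y * T) :
    ∃ a : ℂ, T = a • 1 := by
  have hpos : 0 < ‖T‖ + 1 := by positivity
  have hne : ((‖T‖ + 1 : ℝ) : ℂ) ≠ 0 := by exact_mod_cast hpos.ne'
  set S := ((‖T‖ + 1 : ℝ) : ℂ)⁻¹ • T with hS
  have hS1 : S ∈ MT c := (MT c).toStarSubalgebra.smul_mem hT _
  have hS2 : ‖S‖ ≤ 1 := by
    rw [hS, norm_smul, norm_inv, Complex.norm_real, Real.norm_of_nonneg hpos.le,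
      inv_mul_le_iff₀ hpos]
    linarith
  choose κ hκ1 hκ using exists_kappa hc hξ hmix hS1 (fun a ha => by
    rw [hS, mul_smul_comm, smul_mul_assoc, hN _ ((mem_NT N _).2 ⟨a, ha, rfl⟩)]) hS2
  obtain ⟨l, hl⟩ := exists_ulim (hyperfilter ℕ) κ 1 hκ1
  have h1 : S = amp (PT X) (l • 1) := by
    refine eq_amp' ((mem_MT S).1 hS1).2 fun j h₀ => ?_
    have h2 : ∀ i i', ⟪ξs i, cmp (PT X) (EE (PT X) (fib j h₀) * S) (ξs i')⟫_ℂ =
        (PT X).real (fib j h₀) * (⟪ξs i, ξs i'⟫_ℂ * l) := fun i i' => by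
      have h3 := (tendsto_const_nhds (x := ⟪ξs i, cmp (PT X) (EE (PT X) (fib j h₀) * S)
        (ξs i')⟫_ℂ)).sub ((hl.const_mul ⟪ξs i, ξs i'⟫_ℂ).const_mul ((PT X).real (fib j h₀) : ℂ))
      rw [← sub_eq_zero, ← norm_le_zero_iff]
      refine le_of_tendsto_of_tendsto h3.norm
        ((tendsto_one_div_add_atTop_nhds_zero_nat (𝕜 := ℝ)).mono_left Nat.hyperfilter_le_atTop) ?_
      refine Nat.hyperfilter_le_atTop ?_
      filter_upwards [eventually_ge_atTop j, eventually_ge_atTop i, eventually_ge_atTop i']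
        with k h1 h2 h3
      exact hκ k j h1 h₀ i h2 i' h3
    rw [cmp_mul_amp, cmp_EE (measurableSet_fib j h₀)]
    refine ContinuousLinearMap.ext fun η => ?_
    refine hd.induction_on (p := fun η => cmp (PT X) (EE (PT X) (fib j h₀) * S) η =
      (((PT X).real (fib j h₀) : ℂ) • (1 : H →L[ℂ] H) * l • 1) η) η
      (isClosed_eq (by fun_prop) (by fun_prop)) fun i' => ?_
    refine ext_inner_left ℂ fun ζ => ?_
    refine hd.induction_on (p := fun ζ => ⟪ζ, cmp (PT X) (EE (PT X) (fib j h₀) * S) (ξs i')⟫_ℂ =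
      ⟪ζ, (((PT X).real (fib j h₀) : ℂ) • (1 : H →L[ℂ] H) * l • 1) (ξs i')⟫_ℂ) ζ
      (isClosed_eq (by fun_prop) (by fun_prop)) fun i => ?_
    rw [h2]
    simp [mul_comm, mul_assoc]
  refine ⟨((‖T‖ + 1 : ℝ) : ℂ) * l, ?_⟩
  rw [mul_smul, ← map_one (amp (H := H) (PT X)), ← map_smul, ← h1, hS, smul_smul,
    mul_inv_cancel₀ hne, one_smul]

end Pool.Agent.P.MP_7e3bdd_an.RW
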