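import Pool.Agent.P.MP_7e3bdd_an.RW.Field
import Pool.Agent.P.MP_7e3bdd_an.RW.St2

/-!
The path space of a tower: uniform product measure, heads, their fibres and translations.
-/

set_option autoImplicit false

open scoped InnerProductSpace Topology ComplexConjugate ENNReal BigOperators
open Filter MeasureTheory ProbabilityTheory

noncomputable section

namespace Pool.Agent.P.MP_7e3bdd_an.RW

variable {H : Type} [NormedAddCommGroup H] [InnerProductSpace ℂ H]
  {X : ℕ → Type} [∀ k, Fintype (X k)] [∀ k, AddCommGroup (X k)] [∀ k, MeasurableSpace (X k)]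

variable (X) in
/-- The uniform product measure. -/
def PT : Measure (∀ k, X k) := Measure.infinitePi fun k => uniformOn (Set.univ : Set (X k))

instance : IsProbabilityMeasure (PT X) := by
  unfold PT
  infer_instance

/-- The head of length `k` of a path. -/
def hd : ∀ k, (∀ i, X i) → Hd X k
  | 0, _ => ()
  | k + 1, ω => (hd k ω, ω k)

omit [∀ k, Fintype (X k)] [∀ k, AddCommGroup (X k)] [∀ k, MeasurableSpace (X k)] in
theorem hd_eq_iff (k : ℕ) (ω ω' : ∀ i, X i) : hd k ω = hd k ω' ↔ ∀ i < k, ω i = ω' i := by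
  induction k with
  | zero => exact ⟨fun _ i hi => absurd hi (Nat.not_lt_zero i), fun _ => rfl⟩
  | succ k ih =>
    refine (Prod.ext_iff (α := Hd X k) (β := X k)).trans ?_
    simp only [hd, ih]
    constructor
    · rintro ⟨h1, h2⟩ i hi
      rcases Nat.lt_succ_iff_lt_or_eq.1 hi with h | rfl
      exacts [h1 i h, h2]
    · exact fun h => ⟨fun i hi => h i (by omega), h k (by omega)⟩

omit [∀ k, Fintype (X k)] [∀ k, MeasurableSpace (X k)] in
theorem hd_surj (k : ℕ) (h : Hd X k) : ∃ ω : ∀ i, X i, hd k ω = h := by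
  induction k with
  | zero => exact ⟨0, rfl⟩
  | succ k ih =>
    obtain ⟨ω, hω⟩ := ih h.1
    refine ⟨Function.update ω k h.2, Prod.ext ?_ ?_⟩
    · rw [← hω]
      exact (hd_eq_iff k _ _).2 fun i hi => Function.update_of_ne hi.ne _ _
    · exact Function.update_self ..

/-- The set of paths with a given head. -/
def fib (k : ℕ) (h : Hd X k) : Set (∀ i, X i) := hd k ⁻¹' {h}

variable [∀ k, DiscreteMeasurableSpace (X k)]

omit [∀ k, Fintype (X k)] [∀ k, AddCommGroup (X k)] [∀ k, MeasurableSpace (X k)]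
  [∀ k, DiscreteMeasurableSpace (X k)] in
theorem fib_eq (k : ℕ) (ω : ∀ i, X i) :
    fib k (hd k ω) = Set.pi (Finset.range k : Set ℕ) fun i => {ω i} := by
  ext ω'
  simp [fib, hd_eq_iff]

omit [∀ k, Fintype (X k)] in
theorem measurableSet_fib (k : ℕ) (h : Hd X k) : MeasurableSet (fib k h) := by
  obtain ⟨ω, rfl⟩ := hd_surj k h
  rw [fib_eq]
  exact MeasurableSet.pi (Finset.countable_toSet _) fun i _ => measurableSet_singleton _

theorem real_fib (k : ℕ) (h : Hd X k) :
    (PT X).real (fib k h) = (Fintype.card (Hd X k) : ℝ)⁻¹ := by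
  obtain ⟨ω, rfl⟩ := hd_surj k h
  have h1 : (Fintype.card (Hd X k) : ℝ) = ∏ i ∈ Finset.range k, (Fintype.card (X i) : ℝ) := by
    induction k with
    | zero => simp [card_hd_zero]
    | succ k ih => rw [card_hd_succ, Finset.prod_range_succ, Nat.cast_mul, ih]
  rw [fib_eq, Measure.real, PT, Measure.infinitePi_pi _ fun i _ => measurableSet_singleton _, h1,
    ENNReal.toReal_prod, ← Finset.prod_inv_distrib]
  refine Finset.prod_congr rfl fun i _ => ?_
  simp [uniformOn_univ]

theorem good_hd {E : Type} [NormedAddCommGroup E] (k : ℕ) (G : Hd X k → E) :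
    Good fun ω : ∀ i, X i => G (hd k ω) := by
  let : MeasurableSpace (Hd X k) := ⊤
  have hm : Measurable (hd (X := X) k) := measurable_to_countable' (measurableSet_fib k)
  obtain ⟨C, hC⟩ := Finite.exists_le fun h => ‖G h‖
  exact ⟨StronglyMeasurable.of_discrete.comp_measurable hm, C, fun ω => hC _⟩

theorem integral_hd {E : Type} [NormedAddCommGroup E] [NormedSpace ℝ E] [CompleteSpace E] (k : ℕ)
    (G : Hd X k → E) :
    ∫ ω, G (hd k ω) ∂PT X = (Fintype.card (Hd X k) : ℝ)⁻¹ • ∑ h, G h := by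
  let : MeasurableSpace (Hd X k) := ⊤
  have hm : Measurable (hd (X := X) k) := measurable_to_countable' (measurableSet_fib k)
  rw [← integral_map hm.aemeasurable AEStronglyMeasurable.of_discrete,
    integral_fintype Integrable.of_finite, Finset.smul_sum]
  refine Finset.sum_congr rfl fun h _ => ?_
  rw [map_measureReal_apply hm (measurableSet_singleton h), ← real_fib k h]
  rfl

variable (X) in
/-- The family of all fibres. -/
def fibs : Set (Set (∀ i, X i)) := {B | ∃ k h, B = fib k h}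

omit [∀ k, Fintype (X k)] [∀ k, AddCommGroup (X k)] [∀ k, MeasurableSpace (X k)]
  [∀ k, DiscreteMeasurableSpace (X k)] in
theorem isPiSystem_fibs : IsPiSystem (fibs X) := by
  rintro _ ⟨k, h, rfl⟩ _ ⟨k', h', rfl⟩ ⟨x, hx, hx'⟩
  obtain rfl : hd k x = h := hx
  obtain rfl : hd k' x = h' := hx'
  refine ⟨max k k', hd _ x, ?_⟩
  ext y
  simp only [fib, Set.mem_inter_iff, Set.mem_preimage, Set.mem_singleton_iff, hd_eq_iff,
    lt_max_iff]
  exact ⟨fun h i hi => hi.elim (h.1 i) (h.2 i),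
    fun h => ⟨fun i hi => h i (Or.inl hi), fun i hi => h i (Or.inr hi)⟩⟩

theorem generateFrom_fibs :
    (inferInstance : MeasurableSpace (∀ i, X i)) = .generateFrom (fibs X) := by
  refine le_antisymm (iSup_le fun i => ?_) (MeasurableSpace.generateFrom_le ?_)
  · rintro _ ⟨B, -, rfl⟩
    have : (fun ω : ∀ i, X i => ω i) ⁻¹' B =
        ⋃ h ∈ {h : Hd X i × X i | h.2 ∈ B}, fib (i + 1) h := by
      ext ω
      simp only [Set.mem_preimage, Set.mem_iUnion, Set.mem_ofPred_eq, exists_prop]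
      exact ⟨fun h => ⟨hd (i + 1) ω, h, rfl⟩, by rintro ⟨_, h, rfl⟩; exact h⟩
    rw [this]
    exact MeasurableSet.biUnion (Set.to_countable _) fun a _ =>
      MeasurableSpace.measurableSet_generateFrom ⟨_, _, rfl⟩
  · rintro _ ⟨k, h, rfl⟩
    exact measurableSet_fib k h

omit [∀ k, Fintype (X k)] [∀ k, AddCommGroup (X k)] [∀ k, MeasurableSpace (X k)]
  [∀ k, DiscreteMeasurableSpace (X k)] in
theorem univ_mem_fibs : Set.univ ∈ fibs X := ⟨0, (), (Set.eq_univ_of_forall fun _ => rfl).symm⟩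

theorem mp_tr (γ : ∀ i, X i) : MeasurePreserving (fun ω => ω + γ) (PT X) (PT X) := by
  refine ⟨by fun_prop, ?_⟩
  have h := Measure.infinitePi_map_pi (fun k => uniformOn (Set.univ : Set (X k)))
    (f := fun i x => x + γ i) (fun i => Measurable.of_discrete)
  refine h.trans ?_
  rw [PT]
  congr 1
  funext i
  refine Measure.ext_of_singleton fun a => ?_
  rw [Measure.map_apply Measurable.of_discrete (measurableSet_singleton a)]
  have : (fun x => x + γ i) ⁻¹' {a} = {a - γ i} := by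
    ext x
    rw [Set.mem_preimage, Set.mem_singleton_iff, Set.mem_singleton_iff, eq_sub_iff_add_eq]
  rw [this]
  simp [uniformOn_univ]

/-- The Koopman operator of a translation. -/
def ST (γ : ∀ i, X i) : Lp H 2 (PT X) →L[ℂ] Lp H 2 (PT X) :=
  (Lp.compMeasurePreservingₗᵢ ℂ (fun ω => ω + γ) (mp_tr γ)).toContinuousLinearMap

theorem ST_ae (γ : ∀ i, X i) (f : Lp H 2 (PT X)) : ST γ f =ᵐ[PT X] fun ω => f (ω + γ) :=
  Lp.coeFn_compMeasurePreserving f (mp_tr γ)

theorem ae_tr (γ : ∀ i, X i) {p : (∀ i, X i) → Prop} (hp : ∀ᵐ ω ∂PT X, p ω) :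
    ∀ᵐ ω ∂PT X, p (ω + γ) :=
  (mp_tr γ).quasiMeasurePreserving.ae hp

theorem ST_add (γ γ' : ∀ i, X i) : ST (H := H) γ * ST γ' = ST (γ + γ') := by
  ext f
  filter_upwards [ST_ae γ (ST γ' f), ae_tr γ (ST_ae γ' f), ST_ae (γ + γ') f] with ω h1 h2 h3
  rw [mul_apply_eq_comp, h1, h2, h3, add_assoc]

theorem ST_zero : ST (H := H) (0 : ∀ i, X i) = 1 := by
  ext f
  filter_upwards [ST_ae 0 f] with ω h1
  rw [h1, add_zero]
  rfl

theorem ST_fld (γ : ∀ i, X i) {h : (∀ i, X i) → H →L[ℂ] H} (hh : Good h) :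
    ST γ * fld (PT X) h = fld (PT X) (fun ω => h (ω + γ)) * ST γ := by
  ext f
  filter_upwards [ST_ae γ (fld (PT X) h f), ae_tr γ (fld_ae hh f),
    fld_ae (hh.comp (mp_tr γ).measurable) (ST γ f), ST_ae γ f] with ω h1 h2 h3 h4
  rw [mul_apply_eq_comp, mul_apply_eq_comp, h1, h2, h3, h4]

theorem ST_VV (γ : ∀ i, X i) (ξ : H) : ST γ (VV (PT X) ξ) = VV (PT X) ξ := by
  ext1
  filter_upwards [ST_ae γ (VV (PT X) ξ), ae_tr γ (VV_ae (P := PT X) ξ), VV_ae (P := PT X) ξ]
    with ω h1 h2 h3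
  rw [h1, h2, h3]

theorem ST_EE (γ : ∀ i, X i) {B : Set (∀ i, X i)} (hB : MeasurableSet B) :
    ST (H := H) γ * EE (PT X) B = EE (PT X) ((fun ω => ω + γ) ⁻¹' B) * ST γ := by
  rw [EE, ST_fld γ (good_ind hB)]
  rfl

variable [CompleteSpace H]

theorem star_ST (γ : ∀ i, X i) : star (ST (H := H) γ) = ST (-γ) := by
  rw [ContinuousLinearMap.star_eq_adjoint]
  symm
  rw [ContinuousLinearMap.eq_adjoint_iff]
  intro f g
  have h1 : f = ST γ (ST (-γ) f) := by
    rw [← mul_apply_eq_comp, ST_add, add_neg_cancel, ST_zero]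
    rfl
  conv_rhs => rw [h1]
  exact (LinearIsometry.inner_map_map (𝕜 := ℂ) (E := Lp H 2 (PT X)) (E' := Lp H 2 (PT X))
    (Lp.compMeasurePreservingₗᵢ ℂ (fun ω => ω + γ) (mp_tr γ)) _ _).symm

theorem ST_unitary (γ : ∀ i, X i) :
    ST (H := H) γ ∈ unitary (Lp H 2 (PT X) →L[ℂ] Lp H 2 (PT X)) := by
  rw [Unitary.mem_iff, star_ST, ST_add, ST_add, add_neg_cancel, neg_add_cancel, ST_zero]
  simp

theorem cmp_mul_ST (γ : ∀ i, X i) (Z : Lp H 2 (PT X) →L[ℂ] Lp H 2 (PT X)) :
    cmp (PT X) (Z * ST γ) = cmp (PT X) Z := by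
  ext ξ
  refine ext_inner_left ℂ fun η => ?_
  rw [inner_cmp, inner_cmp, mul_apply_eq_comp, ST_VV]

theorem cmp_ST_mul (γ : ∀ i, X i) (Z : Lp H 2 (PT X) →L[ℂ] Lp H 2 (PT X)) :
    cmp (PT X) (ST γ * Z) = cmp (PT X) Z := by
  have := cmp_mul_ST (-γ) (star Z)
  rw [← star_ST, ← star_mul, cmp_star, cmp_star] at this
  exact star_injective this

/-- A field depending on the head is a finite sum over the fibres. -/
theorem cmp_fld_hd (k : ℕ) (G : Hd X k → H →L[ℂ] H) (T : Lp H 2 (PT X) →L[ℂ] Lp H 2 (PT X)) :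
    cmp (PT X) (fld (PT X) (fun ω => G (hd k ω)) * T) =
      ∑ h, G h * cmp (PT X) (EE (PT X) (fib k h) * T) := by
  classical
  have h1 : ∀ s : Finset (Hd X k),
      cmp (PT X) (fld (PT X) (fun ω => (if hd k ω ∈ s then G (hd k ω) else 0)) * T) =
        ∑ h ∈ s, G h * cmp (PT X) (EE (PT X) (fib k h) * T) := by
    intro s
    induction s using Finset.induction_on with
    | empty =>
      simp only [Finset.notMem_empty, if_false, fld_zero, zero_mul, Finset.sum_empty]
      ext ξ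
      simp [cmp]
    | insert a s ha ih =>
      have h2 : (fun ω => if hd k ω ∈ insert a s then G (hd k ω) else 0) = fun ω =>
          (fib k a).indicator (fun _ => G a) ω + if hd k ω ∈ s then G (hd k ω) else 0 := by
        funext ω
        by_cases hω : hd k ω = a
        · simp [fib, hω, ha]
        · simp [fib, hω]
      rw [h2, fld_add ((Good.const _).indicator (measurableSet_fib k a))
        (good_hd k fun h => if h ∈ s then G h else 0), Finset.sum_insert ha, ← ih,
        ← fld_mul_EE (measurableSet_fib k a) (Good.const _), ← amp_apply, ← cmp_amp_mul,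
        add_mul, mul_assoc]
      ext ξ
      simp [cmp]
  simpa using h1 Finset.univ

end Pool.Agent.P.MP_7e3bdd_an.RW
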