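import Pool.Agent.P.MP_7e3bdd_an.RW.St

/-!
The step distribution of the random walk.
-/

set_option autoImplicit false

open scoped InnerProductSpace Topology
open MeasureTheory Filter

noncomputable section

namespace Pool.Agent.P.MP_7e3bdd_an.RW

variable {H : Type} [NormedAddCommGroup H] [InnerProductSpace ℂ H]

/-- Contractions converging on a dense sequence converge everywhere. -/
theorem walk_tendsto (ξ : ℕ → H) (hξ : DenseRange ξ) (T : ℕ → H →L[ℂ] H) (u : H →L[ℂ] H)
    (hT : ∀ m, ‖T m‖ ≤ 1) (hu : ‖u‖ ≤ 1)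
    (h : ∀ k, Tendsto (fun m => T m (ξ k)) atTop (𝓝 (u (ξ k)))) (x : H) :
    Tendsto (fun m => T m x) atTop (𝓝 (u x)) := by
  rw [Metric.tendsto_atTop]
  intro ε hε
  obtain ⟨k, hk⟩ := hξ.exists_dist_lt x (show 0 < ε / 3 by positivity)
  obtain ⟨N, hN⟩ := Metric.tendsto_atTop.1 (h k) (ε / 3) (by positivity)
  refine ⟨N, fun m hm => ?_⟩
  have hb : ∀ A : H →L[ℂ] H, ‖A‖ ≤ 1 → dist (A x) (A (ξ k)) ≤ dist x (ξ k) := by
    intro A hA
    rw [dist_eq_norm, dist_eq_norm, ← map_sub]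
    refine (A.le_opNorm _).trans ?_
    exact mul_le_of_le_one_left (norm_nonneg _) hA
  have h1 := hb (T m) (hT m)
  have h2 := hb u hu
  have h3 := hN m hm
  have h4 := dist_triangle4 (T m x) (T m (ξ k)) (u (ξ k)) (u x)
  rw [dist_comm (u (ξ k)) (u x)] at h4
  linarith

/-- A countable subfamily with the same commutant. -/
theorem walk_seq [TopologicalSpace.SeparableSpace H] (S : Set (H →L[ℂ] H))
    (hS : ∀ s ∈ S, ‖s‖ ≤ 1) :
    ∃ s : ℕ → H →L[ℂ] H, (∀ n, s n ∈ insert 1 S) ∧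
      ∀ q : H →L[ℂ] H, (∀ n, q * s n = s n * q) → ∀ u ∈ S, q * u = u * q := by
  have hS' : ∀ s ∈ insert (1 : H →L[ℂ] H) S, ‖s‖ ≤ 1 := by
    rintro s (rfl | hs)
    · exact ContinuousLinearMap.norm_id_le
    · exact hS s hs
  have : SecondCountableTopology H := UniformSpace.secondCountable_of_separable H
  let ξ : ℕ → H := TopologicalSpace.denseSeq H
  have hξ : DenseRange ξ := TopologicalSpace.denseRange_denseSeq H
  let Φ : (H →L[ℂ] H) → ℕ → H := fun T k => T (ξ k)
  obtain ⟨t, hts, htc, hst⟩ :=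
    (TopologicalSpace.IsSeparable.of_separableSpace (Φ '' insert 1 S)).exists_countable_dense_subset
  have hne : t.Nonempty :=
    closure_nonempty_iff.1 ⟨Φ 1, hst ⟨1, Set.mem_insert _ _, rfl⟩⟩
  obtain ⟨g, hg⟩ := htc.exists_eq_range hne
  have hch : ∀ n, ∃ T ∈ insert (1 : H →L[ℂ] H) S, Φ T = g n := fun n =>
    hts (hg ▸ Set.mem_range_self n)
  choose s hs1 hs2 using hch
  refine ⟨s, hs1, fun q hq u hu => ?_⟩
  have hcl : Φ u ∈ closure t := hst ⟨u, Set.mem_insert_of_mem _ hu, rfl⟩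
  obtain ⟨y, hy1, hy2⟩ := mem_closure_iff_seq_limit.1 hcl
  have hy3 : ∀ m, ∃ n, g n = y m := fun m => by
    have := hy1 m
    rwa [hg] at this
  choose n hn using hy3
  have hlim : ∀ x, Tendsto (fun m => s (n m) x) atTop (𝓝 (u x)) := by
    refine walk_tendsto ξ hξ (fun m => s (n m)) u (fun m => hS' _ (hs1 _)) (hS u hu) fun k => ?_
    refine (tendsto_pi_nhds.1 hy2 k).congr fun m => ?_
    rw [← hn m, ← hs2]
  ext x
  have h1 : Tendsto (fun m => q (s (n m) x)) atTop (𝓝 (q (u x))) :=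
    (q.continuous.tendsto _).comp (hlim x)
  have h2 : Tendsto (fun m => q (s (n m) x)) atTop (𝓝 (u (q x))) := by
    refine (hlim (q x)).congr fun m => ?_
    exact (DFunLike.congr_fun (hq (n m)) x).symm
  exact tendsto_nhds_unique h1 h2

/-- A probability measure with prescribed atoms. -/
theorem walk_measure {A : Type} [Countable A] [MeasurableSpace A] [MeasurableSingletonClass A]
    (m : A → ℝ) (hm : ∀ a, 0 ≤ m a) (h1 : HasSum m 1) :
    ∃ μ : Measure A, IsProbabilityMeasure μ ∧ ∀ a, μ.real {a} = m a := by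
  refine ⟨Measure.sum fun a => ENNReal.ofReal (m a) • Measure.dirac a,
    h1.isProbabilityMeasure_sum_dirac hm, fun a => ?_⟩
  rw [measureReal_def, Measure.sum_smul_dirac_singleton, ENNReal.toReal_ofReal (hm a)]

theorem walkSt (h : GapSt) : WalkSt := by
  intro H _ _ _ _ S hS hno ρ hρ
  classical
  obtain ⟨F, _, w, g, hw, hw1, hg, hG⟩ := h H S hS hno (ρ / 2) (by positivity)
  have hS1 : ∀ s ∈ S, ‖s‖ ≤ 1 := fun s hs =>
    s.opNorm_le_bound zero_le_one fun x => by
      rw [ContinuousLinearMap.norm_map_of_mem_unitary (hS s hs), one_mul]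
  obtain ⟨s, hs1, hs2⟩ := walk_seq S hS1
  set τ : ℝ := min (ρ / 2) (1 / 2) with hτ
  have hτ0 : 0 < τ := lt_min (by positivity) (by norm_num)
  have hτ1 : τ ≤ 1 / 2 := min_le_right _ _
  have hτ2 : τ ≤ ρ / 2 := min_le_left _ _
  let _ : MeasurableSpace (F ⊕ ℕ) := ⊤
  let m : F ⊕ ℕ → ℝ := Sum.elim (fun a => (1 - τ) * w a) (fun n => τ / 2 / 2 ^ n)
  have hm : ∀ a, 0 < m a := by
    rintro (a | n)
    · exact mul_pos (by linarith) (hw a)
    · change 0 < τ / 2 / 2 ^ n
      positivity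
  have hm1 : HasSum m 1 := by
    have e1 : HasSum (m ∘ Sum.inl) (1 - τ) := by
      have := hasSum_fintype (fun a => (1 - τ) * w a)
      rwa [← Finset.mul_sum, hw1, mul_one] at this
    have e2 : HasSum (m ∘ Sum.inr) τ := hasSum_geometric_two' τ
    have := e1.sum e2
    rwa [sub_add_cancel] at this
  obtain ⟨μ₀, hμ₀, hμ₀m⟩ := walk_measure m (fun a => (hm a).le) hm1
  have hc1 : HasSum (fun _ : Bool => (1 / 2 : ℝ)) 1 := by
    have := hasSum_fintype (fun _ : Bool => (1 / 2 : ℝ))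
    simpa using this
  obtain ⟨ν, hν, hνm⟩ := walk_measure (fun _ : Bool => (1 / 2 : ℝ)) (fun _ => by norm_num) hc1
  have hμ : ∀ p : (F ⊕ ℕ) × Bool, (μ₀.prod ν).real {p} = m p.1 / 2 := by
    rintro ⟨a, b⟩
    rw [← Set.singleton_prod_singleton, measureReal_prod_prod, hμ₀m, hνm]
    ring
  let v₀ : F ⊕ ℕ → H →L[ℂ] H := Sum.elim g s
  let e : F × Bool ↪ (F ⊕ ℕ) × Bool :=
    ⟨fun p => (Sum.inl p.1, p.2), fun p p' hp => by
      simp only [Prod.mk.injEq, Sum.inl.injEq] at hp
      exact Prod.ext hp.1 hp.2⟩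
  refine ⟨(F ⊕ ℕ) × Bool, inferInstance, inferInstance, inferInstance, μ₀.prod ν, inferInstance,
    fun p => v₀ p.1, fun p => if p.2 then 1 else -1, fun p => ?_, fun p => ?_, fun q hq => ?_,
    fun p => ?_, ?_, Finset.univ.map e, ρ / 2, by positivity, ?_, ?_⟩
  · intro h0
    have := hμ p
    rw [measureReal_def, h0] at this
    have h2 := hm p.1
    simp only [ENNReal.toReal_zero] at this
    linarith
  · rcases p with ⟨a | n, b⟩
    · exact hg a
    · rcases hs1 n with h1 | h1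
      · change s n ∈ _
        rw [h1]
        exact one_mem _
      · exact Submonoid.subset_closure h1
  · exact hs2 q fun n => hq (Sum.inr n, true)
  · rcases p with ⟨a, _ | _⟩ <;> simp
  · rw [integral_fun_snd (fun b : Bool => if b then (1 : ℝ) else -1),
      integral_fintype Integrable.of_finite]
    simp [hνm]
  · rw [probReal_compl_eq_one_sub (Finset.measurableSet _), ← sum_measureReal_singleton,
      Finset.sum_map, Fintype.sum_prod_type]
    have e1 : ∀ a : F, ∑ b : Bool, (μ₀.prod ν).real {e (a, b)} = (1 - τ) * w a := by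
      intro a
      rw [Fintype.sum_bool, hμ, hμ]
      change (1 - τ) * w a / 2 + (1 - τ) * w a / 2 = _
      ring
    rw [Finset.sum_congr rfl fun a _ => e1 a, ← Finset.mul_sum, hw1]
    linarith
  · intro J _ β f
    obtain ⟨ι, b, -⟩ := exists_hilbertBasis ℂ H
    have hG' := hG J β f
    rw [hsn_eq_norm b] at hG' ⊢
    have key : hsv b (fun p : ↥(Finset.univ.map e) × J => (μ₀.prod ν).real {(p.1 : (F ⊕ ℕ) × Bool)} * β p.2)
        (fun p : ↥(Finset.univ.map e) × J => v₀ (p.1 : (F ⊕ ℕ) × Bool).1 (f p.2)) =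
        ((1 - τ : ℝ) : ℂ) • hsv b (fun p : F × J => w p.1 * β p.2) (fun p : F × J => g p.1 (f p.2)) := by
      simp only [hsv, Fintype.sum_prod_type, Finset.smul_sum]
      rw [Finset.sum_coe_sort (Finset.univ.map e) (fun a : (F ⊕ ℕ) × Bool =>
        ∑ j, (((μ₀.prod ν).real {a} * β j : ℝ) : ℂ) • t2 b (v₀ a.1 (f j)) (v₀ a.1 (f j))),
        Finset.sum_map, Fintype.sum_prod_type]
      refine Finset.sum_congr rfl fun a _ => ?_
      rw [Fintype.sum_bool, ← Finset.sum_add_distrib]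
      refine Finset.sum_congr rfl fun j _ => ?_
      rw [hμ, hμ]
      change (((1 - τ) * w a / 2 * β j : ℝ) : ℂ) • t2 b (g a (f j)) (g a (f j)) +
        (((1 - τ) * w a / 2 * β j : ℝ) : ℂ) • t2 b (g a (f j)) (g a (f j)) = _
      rw [← add_smul, smul_smul]
      congr 1
      push_cast
      ring
    rw [key, norm_smul, Complex.norm_real, Real.norm_of_nonneg (by linarith)]
    refine le_trans ?_ hG'
    exact mul_le_of_le_one_left (norm_nonneg _) (by linarith)

end Pool.Agent.P.MP_7e3bdd_an.RW
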