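import Pool.Agent.P.MP_7e3bdd_an.RW.Main
import Pool.Agent.P.MP_7e3bdd_an.RW.Walk
import Pool.Agent.P.MP_7e3bdd_an.RW.Gap

set_option autoImplicit false
open scoped InnerProductSpace ComplexOrder

namespace Pool.Agent.P.MP_7e3bdd_an.RW.V1

section Defs

variable {H : Type} [NormedAddCommGroup H] [InnerProductSpace ℂ H] [CompleteSpace H]

/-- Every element of `M` commuting with `N` is a scalar. -/
def TrivialRelComm (N M : VonNeumannAlgebra H) : Prop :=
  ∀ z ∈ M, (∀ y ∈ N, z * y = y * z) → ∃ c : ℂ, z = c • (1 : H →L[ℂ] H)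

/-- There is a state on all bounded operators (normality is not required) which is invariant under
conjugation by every element of `S`. -/
def HasInvariantState (S : Set (H →L[ℂ] H)) : Prop :=
  ∃ ψ : (H →L[ℂ] H) →L[ℂ] ℂ, ψ 1 = 1 ∧ (∀ T : H →L[ℂ] H, 0 ≤ ψ (star T * T)) ∧
    ∀ s ∈ S, ∀ T : H →L[ℂ] H, ψ (s * T * star s) = ψ T

/-- `M` is the range of a contractive projection from all bounded operators. -/
def IsInjective (M : VonNeumannAlgebra H) : Prop :=
  ∃ E : (H →L[ℂ] H) →L[ℂ] (H →L[ℂ] H), ‖E‖ ≤ 1 ∧ (∀ T, E T ∈ M) ∧ ∀ T ∈ M, E T = T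

/-- `y` lies in the weak operator closure of the convex hull of the `N`-unitary orbit of `x`. -/
def InWeakHull (N : VonNeumannAlgebra H) (x y : H →L[ℂ] H) : Prop :=
  ∀ (n : ℕ) (ξ η : Fin n → H) (ε : ℝ), 0 < ε →
    ∃ T ∈ convexHull ℝ
        {T : H →L[ℂ] H | ∃ u ∈ unitary (H →L[ℂ] H), u ∈ N ∧ T = u * x * star u},
      ∀ i : Fin n, ‖⟪η i, (T - y) (ξ i)⟫_ℂ‖ < ε

/-- `S` consists of unitaries of the commutant of `N`, and only scalars of that commutant commute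
with `S`. -/
def IrreducibleIn (N : VonNeumannAlgebra H) (S : Set (H →L[ℂ] H)) : Prop :=
  (∀ s ∈ S, s ∈ unitary (H →L[ℂ] H) ∧ s ∈ N.commutant) ∧
    ∀ q ∈ N.commutant, (∀ s ∈ S, q * s = s * q) → ∃ c : ℂ, q = c • (1 : H →L[ℂ] H)

/-- On the commutant of `N`, the functional `φ` is faithful, positive and invariant under `S`. -/
def FaithfulInvariant (N : VonNeumannAlgebra H) (S : Set (H →L[ℂ] H))
    (φ : (H →L[ℂ] H) →L[ℂ] ℂ) : Prop :=
  (∀ q ∈ N.commutant, q ≠ 0 → 0 < (φ (star q * q)).re) ∧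
    ∀ s ∈ S, ∀ q ∈ N.commutant, φ (s * q * star s) = φ q

/-- `N ⊆ M` is an irreducible inclusion of factors. -/
def IrreducibleInclusion (N M : VonNeumannAlgebra H) : Prop :=
  (∀ y ∈ N, y ∈ M) ∧ TrivialRelComm M M ∧ TrivialRelComm N N ∧ TrivialRelComm N M

/-- Some self-adjoint contraction of `M` has its whole weak hull over `N` at distance at least `d`
from the scalars. -/
def HullFar (N M : VonNeumannAlgebra H) (d : ℝ) : Prop :=
  ∃ x ∈ M, IsSelfAdjoint x ∧ ‖x‖ ≤ 1 ∧ ∀ y : H →L[ℂ] H, InWeakHull N x y →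
    ∀ c : ℂ, d ≤ ‖y - c • (1 : H →L[ℂ] H)‖

/-- `N₁` is the image of `N` under an injective unital star homomorphism `B(H) → B(K)`. -/
def IsCopy {K : Type} [NormedAddCommGroup K] [InnerProductSpace ℂ K] [CompleteSpace K]
    (N : VonNeumannAlgebra H) (N₁ : VonNeumannAlgebra K) : Prop :=
  ∃ π : (H →L[ℂ] H) →⋆ₐ[ℂ] (K →L[ℂ] K), Function.Injective π ∧ ∀ y, y ∈ N₁ ↔ ∃ a ∈ N, π a = y

theorem far_of_orbit {N : VonNeumannAlgebra H} {x y : H →L[ℂ] H} {η ζ : H} {κ : ℝ} (hη : ‖η‖ ≤ 1)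
    (hζ : ‖ζ‖ ≤ 1) (hηζ : ⟪η, ζ⟫_ℂ = 0)
    (hx : ∀ u ∈ unitary (H →L[ℂ] H), u ∈ N → κ ≤ (⟪η, (u * x * star u) ζ⟫_ℂ).re)
    (hy : InWeakHull N x y) (c : ℂ) : κ ≤ ‖y - c • (1 : H →L[ℂ] H)‖ := by
  have h1 : κ ≤ (⟪η, y ζ⟫_ℂ).re := by
    refine le_of_forall_pos_le_add fun θ hθ => ?_
    obtain ⟨T, hT, hT'⟩ := hy 1 (fun _ => ζ) (fun _ => η) θ hθ
    have h2 : κ ≤ (⟪η, T ζ⟫_ℂ).re := by
      refine convexHull_min (t := {T | κ ≤ (⟪η, T ζ⟫_ℂ).re}) ?_ ?_ hT
      · rintro _ ⟨u, hu, huN, rfl⟩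
        exact hx u hu huN
      · intro T₁ h₁ T₂ h₂ a b ha hb hab
        simp only [Set.mem_ofPred_eq] at h₁ h₂ ⊢
        have h3 : (a • T₁ + b • T₂) ζ = (a : ℂ) • T₁ ζ + (b : ℂ) • T₂ ζ := by
          simp
        rw [h3, inner_add_right, inner_smul_right, inner_smul_right, Complex.add_re,
          Complex.re_ofReal_mul, Complex.re_ofReal_mul]
        have h4 : κ = a * κ + b * κ := by rw [← add_mul, hab, one_mul]
        linarith [mul_le_mul_of_nonneg_left h₁ ha, mul_le_mul_of_nonneg_left h₂ hb]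
    have h3 := (Complex.re_le_norm _).trans (hT' 0).le
    rw [sub_apply, inner_sub_right, Complex.sub_re] at h3
    linarith
  have h3 : ⟪η, y ζ⟫_ℂ = ⟪η, (y - c • (1 : H →L[ℂ] H)) ζ⟫_ℂ := by
    simp [hηζ]
  rw [h3] at h1
  refine h1.trans ((Complex.re_le_norm _).trans ((norm_inner_le_norm _ _).trans ?_))
  refine (mul_le_of_le_one_left (norm_nonneg _) hη).trans
    ((ContinuousLinearMap.le_opNorm _ _).trans ?_)
  exact mul_le_of_le_one_right (norm_nonneg _) hζ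

end Defs

open Pool.Agent.P.MP_7e3bdd_an.RW MeasureTheory in
/-- Let `S` be a set of unitaries of the commutant `Q` of `N`, irreducible in `Q`, preserving a
faithful positive functional of `Q`, and without invariant state on all bounded operators. Then a
copy of `N` has an irreducible injective extension `M` containing a self-adjoint contraction whose
weak convex hull of `N`-unitary conjugates stays at distance at least `1 - ε` from the scalars. -/
theorem result (H : Type) [NormedAddCommGroup H] [InnerProductSpace ℂ H] [CompleteSpace H]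
    [TopologicalSpace.SeparableSpace H] [Nontrivial H] (N : VonNeumannAlgebra H)
    (S : Set (H →L[ℂ] H)) (hS : IrreducibleIn N S) (φ : (H →L[ℂ] H) →L[ℂ] ℂ)
    (hφ : FaithfulInvariant N S φ) (hna : ¬ HasInvariantState S) (ε : ℝ) (hε : 0 < ε) :
    ∃ (K : Type) (_ : NormedAddCommGroup K) (_ : InnerProductSpace ℂ K) (_ : CompleteSpace K)
      (_ : TopologicalSpace.SeparableSpace K) (N₁ M : VonNeumannAlgebra K),
      IsCopy N N₁ ∧ IrreducibleInclusion N₁ M ∧ IsInjective M ∧ HullFar N₁ M (1 - ε) := by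
  obtain ⟨hS, hirr⟩ := hS
  obtain ⟨hpos, hinv⟩ := hφ
  set δ : ℝ := min (ε / 4) (1 / 2) with hδ
  have hδ0 : 0 < δ := lt_min (by positivity) (by norm_num)
  obtain ⟨A, _, _, _, μ, _, v, s, hμ, hvS, hgen, hs, hs0, hgap⟩ :=
    walkSt gapSt H S (fun s hs => (hS s hs).1)
      (fun ⟨ψ, ⟨h1, h2⟩, h3⟩ => hna ⟨ψ, h1, h2, h3⟩) (δ ^ 2) (by positivity)
  have hcl : ∀ g ∈ Submonoid.closure S, g ∈ unitary (H →L[ℂ] H) ∧ g ∈ N.commutant ∧
      ∀ q ∈ N.commutant, φ (g * q * star g) = φ q := by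
    intro g hg
    induction hg using Submonoid.closure_induction with
    | mem g hg => exact ⟨(hS g hg).1, (hS g hg).2, hinv g hg⟩
    | one => exact ⟨one_mem _, one_mem _, fun q _ => by simp⟩
    | mul g h _ _ ihg ihh =>
      refine ⟨mul_mem ihg.1 ihh.1, mul_mem ihg.2.1 ihh.2.1, fun q hq => ?_⟩
      rw [← ihh.2.2 q hq, ← ihg.2.2 _ (mul_mem (mul_mem ihh.2.1 hq) (star_mem ihh.2.1))]
      simp only [star_mul, mul_assoc]
  have hv : ∀ a, v a ∈ unitary (H →L[ℂ] H) := fun a => (hcl _ (hvS a)).1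
  have hle : ∀ y ∈ NN μ N, y ∈ MM μ v := fun y hy => by
    obtain ⟨a, ha, rfl⟩ := (mem_NN N y).1 hy
    exact amp_mem_MM hv fun b => VonNeumannAlgebra.mem_commutant_iff.1 (hcl _ (hvS b)).2.1 a ha
  have hir : TrivialRelComm (NN μ N) (MM μ v) := fun z hz hc =>
    irreducible hpos hv hμ (fun a => (hcl _ (hvS a)).2.2)
      (fun q hq h => hirr q hq (hgen q h)) hz hc
  obtain ⟨ξ, hξ⟩ := exists_norm_eq H zero_le_one
  obtain ⟨η, ζ, hη, hζ, hηζ, x, hx, hx1, hx2, hx3⟩ :=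
    exists_far hv hs hs0 hδ0 (min_le_right _ _) hgap N hξ
  refine ⟨Lp H 2 (PP μ), inferInstance, inferInstance, inferInstance, separable_L2,
    NN μ N, MM μ v, ⟨amp (PP μ), amp_injective, mem_NN N⟩,
    ⟨hle, fun z hz hc => hir z hz fun y hy => hc y (hle y hy),
      fun z hz hc => hir z (hle z hz) hc, hir⟩, MM_injective hv, x, hx, hx1, hx2, fun y hy c => ?_⟩
  have h1 := far_of_orbit hη hζ hηζ hx3 hy c
  have h3 : δ ≤ ε / 4 := min_le_left _ _
  linarith

end Pool.Agent.P.MP_7e3bdd_an.RW.V1
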