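import Pool.Agent.P.MP_7e3bdd_an.RW.TMain
import Pool.Agent.P.MP_7e3bdd_an.RW.Approx
import Pool.Agent.P.MP_7e3bdd_an.RW.Dixmier
import Pool.Agent.P.MP_7e3bdd_an.RW.Dix
import Pool.Agent.P.MP_7e3bdd_an.RW.GapNA
import Pool.Agent.P.MP_7e3bdd_an.RW.Inj2
import Pool.Agent.P.MP_7e3bdd_an.RW.Lln
import Pool.Agent.P.MP_7e3bdd_an.RW.Step
import Pool.Agent.P.MP_7e3bdd_an.RW.Tower
import Pool.Agent.P.MP_7e3bdd_an.RW.Unif
import Pool.Agent.P.MP_7e3bdd_an.RW.Val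

set_option autoImplicit false
open scoped InnerProductSpace ComplexOrder

namespace Pool.Agent.P.MP_7e3bdd_an.RW.V2

section Defs

variable {H : Type} [NormedAddCommGroup H] [InnerProductSpace ℂ H] [CompleteSpace H]

/-- Every element of `M` commuting with `N` is a scalar. -/
def TrivialRelComm (N M : VonNeumannAlgebra H) : Prop :=
  ∀ z ∈ M, (∀ y ∈ N, z * y = y * z) → ∃ c : ℂ, z = c • (1 : H →L[ℂ] H)

/-- `ψ` is a state on all bounded operators (normality is not required). -/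
def IsState (ψ : (H →L[ℂ] H) →L[ℂ] ℂ) : Prop :=
  ψ 1 = 1 ∧ ∀ T : H →L[ℂ] H, 0 ≤ ψ (star T * T)

/-- `ξ` is a unit vector which is cyclic for `N`. -/
def IsCyclicUnit (N : VonNeumannAlgebra H) (ξ : H) : Prop :=
  ‖ξ‖ = 1 ∧ ∀ η : H, ∀ ε : ℝ, 0 < ε → ∃ a ∈ N, ‖η - a ξ‖ < ε

/-- `u` is a unitary of the commutant of `N`, and conjugation by `u` moves the vector state of `ξ`
on that commutant by at most `ε` in norm. -/
def AlmostCentralises (N : VonNeumannAlgebra H) (ξ : H) (ε : ℝ) (u : H →L[ℂ] H) : Prop :=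
  (u ∈ unitary (H →L[ℂ] H) ∧ u ∈ N.commutant) ∧
    ∀ q ∈ N.commutant, ‖⟪ξ, (u * q * star u) ξ⟫_ℂ - ⟪ξ, q ξ⟫_ℂ‖ ≤ ε * ‖q‖

/-- For some fixed `δ`, every state on all bounded operators is moved by more than `δ` in norm by
unitaries of the commutant of `N` which almost fix the vector state of `ξ`. -/
def MovesAllStates (N : VonNeumannAlgebra H) (ξ : H) : Prop :=
  ∃ δ : ℝ, 0 < δ ∧ ∀ ψ : (H →L[ℂ] H) →L[ℂ] ℂ, IsState ψ → ∀ ε : ℝ, 0 < ε →
    ∃ u, AlmostCentralises N ξ ε u ∧ ∃ T : H →L[ℂ] H, δ * ‖T‖ < ‖ψ (u * T * star u) - ψ T‖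

/-- `M` is the range of a contractive projection from all bounded operators. -/
def IsInjective (M : VonNeumannAlgebra H) : Prop :=
  ∃ E : (H →L[ℂ] H) →L[ℂ] (H →L[ℂ] H), ‖E‖ ≤ 1 ∧ (∀ T, E T ∈ M) ∧ ∀ T ∈ M, E T = T

/-- `y` lies in the weak operator closure of the convex hull of the `N`-unitary orbit of `x`. -/
def InWeakHull (N : VonNeumannAlgebra H) (x y : H →L[ℂ] H) : Prop :=
  ∀ (n : ℕ) (ξ η : Fin n → H) (ε : ℝ), 0 < ε →
    ∃ T ∈ convexHull ℝ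
        {T : H →L[ℂ] H | ∃ u ∈ unitary (H →L[ℂ] H), u ∈ N ∧ T = u * x * star u},
      ∀ i : Fin n, ‖⟪η i, (T - y) (ξ i)⟫_ℂ‖ < ε

/-- `N ⊆ M` is an irreducible inclusion of factors. -/
def IrreducibleInclusion (N M : VonNeumannAlgebra H) : Prop :=
  (∀ y ∈ N, y ∈ M) ∧ TrivialRelComm M M ∧ TrivialRelComm N N ∧ TrivialRelComm N M

/-- Some self-adjoint contraction of `M` has its whole weak hull over `N` at distance at least `d`
from the scalars. -/
def HullFar (N M : VonNeumannAlgebra H) (d : ℝ) : Prop :=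
  ∃ x ∈ M, IsSelfAdjoint x ∧ ‖x‖ ≤ 1 ∧ ∀ y : H →L[ℂ] H, InWeakHull N x y →
    ∀ c : ℂ, d ≤ ‖y - c • (1 : H →L[ℂ] H)‖

/-- `N₁` is the image of `N` under an injective unital star homomorphism `B(H) → B(K)`. -/
def IsCopy {K : Type} [NormedAddCommGroup K] [InnerProductSpace ℂ K] [CompleteSpace K]
    (N : VonNeumannAlgebra H) (N₁ : VonNeumannAlgebra K) : Prop :=
  ∃ π : (H →L[ℂ] H) →⋆ₐ[ℂ] (K →L[ℂ] K), Function.Injective π ∧ ∀ y, y ∈ N₁ ↔ ∃ a ∈ N, π a = y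

theorem far_of_orbit {N : VonNeumannAlgebra H} {x y : H →L[ℂ] H} {η ζ : H} {κ : ℝ} (hη : ‖η‖ ≤ 1)
    (hζ : ‖ζ‖ ≤ 1) (hηζ : ⟪η, ζ⟫_ℂ = 0)
    (hx : ∀ u ∈ unitary (H →L[ℂ] H), u ∈ N → κ ≤ (⟪η, (u * x * star u) ζ⟫_ℂ).re)
    (hy : InWeakHull N x y) (c : ℂ) : κ ≤ ‖y - c • (1 : H →L[ℂ] H)‖ := by
  have h1 : κ ≤ (⟪η, y ζ⟫_ℂ).re := by
    refine le_of_forall_pos_le_add fun θ hθ => ?_
    obtain ⟨T, hT, hT'⟩ := hy 1 (fun _ => ζ) (fun _ => η) θ hθ
    have h2 : κ ≤ (⟪η, T ζ⟫_ℂ).re := by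
      refine convexHull_min (t := {T | κ ≤ (⟪η, T ζ⟫_ℂ).re}) ?_ ?_ hT
      · rintro _ ⟨u, hu, huN, rfl⟩
        exact hx u hu huN
      · intro T₁ h₁ T₂ h₂ a b ha hb hab
        simp only [Set.mem_ofPred_eq] at h₁ h₂ ⊢
        have h3 : (a • T₁ + b • T₂) ζ = (a : ℂ) • T₁ ζ + (b : ℂ) • T₂ ζ := by
          simp
        rw [h3, inner_add_right, inner_smul_right, inner_smul_right, Complex.add_re,
          Complex.re_ofReal_mul, Complex.re_ofReal_mul]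
        have h4 : κ = a * κ + b * κ := by rw [← add_mul, hab, one_mul]
        linarith [mul_le_mul_of_nonneg_left h₁ ha, mul_le_mul_of_nonneg_left h₂ hb]
    have h3 := (Complex.re_le_norm _).trans (hT' 0).le
    rw [sub_apply, inner_sub_right, Complex.sub_re] at h3
    linarith
  have h3 : ⟪η, y ζ⟫_ℂ = ⟪η, (y - c • (1 : H →L[ℂ] H)) ζ⟫_ℂ := by
    simp [hηζ]
  rw [h3] at h1
  refine h1.trans ((Complex.re_le_norm _).trans ((norm_inner_le_norm _ _).trans ?_))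
  refine (mul_le_of_le_one_left (norm_nonneg _) hη).trans
    ((ContinuousLinearMap.le_opNorm _ _).trans ?_)
  exact mul_le_of_le_one_right (norm_nonneg _) hζ

end Defs

open Pool.Agent.P.MP_7e3bdd_an MeasureTheory in
/-- Let `N` be a factor with a cyclic unit vector `ξ` such that the unitaries of the commutant which
almost fix the vector state of `ξ` move every state of `B(H)` by a fixed amount. Then a copy of `N`
has an irreducible injective extension `M` containing a self-adjoint contraction whose weak convex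
hull of `N`-unitary conjugates stays at distance at least `1 - ε` from the scalars. -/
theorem result (H : Type) [NormedAddCommGroup H] [InnerProductSpace ℂ H] [CompleteSpace H]
    [TopologicalSpace.SeparableSpace H] (N : VonNeumannAlgebra H) (hN : TrivialRelComm N N)
    (ξ : H) (hξ : IsCyclicUnit N ξ) (hna : MovesAllStates N ξ) (ε : ℝ) (hε : 0 < ε) :
    ∃ (K : Type) (_ : NormedAddCommGroup K) (_ : InnerProductSpace ℂ K) (_ : CompleteSpace K)
      (_ : TopologicalSpace.SeparableSpace K) (N₁ M : VonNeumannAlgebra K),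
      IsCopy N N₁ ∧ IrreducibleInclusion N₁ M ∧ IsInjective M ∧ HullFar N₁ M (1 - ε) := by
  have hna' : RW.NA N ξ := by
    obtain ⟨δ, hδ, h⟩ := hna
    refine ⟨δ, hδ, fun ψ hψ ε hε => ?_⟩
    obtain ⟨u, ⟨h1, h2⟩, h3⟩ := h ψ hψ ε hε
    exact ⟨u, h1, h2, h3⟩
  have : Nonempty H := ⟨ξ⟩
  obtain ⟨ξs, hξs⟩ := TopologicalSpace.exists_dense_seq H
  obtain ⟨X, _, _, c, s, hc, hs, hs0, hmix, ho⟩ :=
    RW.towerSt (RW.stepSt RW.approxSt (RW.dixSt RW.unifSt RW.approxSt RW.dixmierSt)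
      (RW.gapNASt RW.unifSt) RW.llnSt) H N ξ hN hξ hna' ξs (ε / 4) (by positivity)
  let _ : ∀ k, MeasurableSpace (X k) := fun _ => ⊤
  have hu : ∀ k x y, c k x y ∈ unitary (H →L[ℂ] H) := fun k x y => (hc k x y).1
  have hle : ∀ y ∈ RW.NT X N, y ∈ RW.MT c := fun y hy => by
    obtain ⟨a, ha, rfl⟩ := (RW.mem_NT N y).1 hy
    exact RW.amp_mem_MT hc ha
  have hir : TrivialRelComm (RW.NT X N) (RW.MT c) := fun z hz h =>
    RW.irreducible_T hc hξ.1 hmix hξs hz h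
  obtain ⟨η, ζ, hη, hζ, hηζ, x, hx, hx1, hx2, hx3⟩ :=
    RW.exists_far_T RW.valSt hu hs hs0 (by positivity) ho N hξ.1
  refine ⟨Lp H 2 (RW.PT X), inferInstance, inferInstance, inferInstance, RW.separable_T,
    RW.NT X N, RW.MT c, ⟨RW.amp (RW.PT X), RW.amp_injective, RW.mem_NT N⟩,
    ⟨hle, fun z hz hc => hir z hz fun y hy => hc y (hle y hy),
      fun z hz hc => hir z (hle z hz) hc, hir⟩, RW.MT_injective RW.inj2St hu,
    x, hx, hx1, hx2, fun y hy a => ?_⟩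
  have h1 := far_of_orbit hη hζ hηζ hx3 hy a
  linarith

end Pool.Agent.P.MP_7e3bdd_an.RW.V2
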